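import Pool.Agent.H901.THT

/-!
The Pfister form `<<a 0, …, a (i - 1), t>>` is anisotropic over the function field of the
hypersurface.
-/

set_option autoImplicit false

namespace Pool.Agent.H901

open Polynomial Finset Pool.Agent.H918R3

/-- adjoining a variable as the last entry -/
theorem an_t {F : Type*} [Field F] {a : ℕ → F} {i : ℕ} (han : An a i) :
    An (fun j => if j < i then (RatFunc.C (a j) : RatFunc F) else RatFunc.X) (i + 1) := by
  intro z hz m0 hm0
  by_contra hz0
  rw [pq_succ] at hz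
  set φ := algebraMap F[X] (RatFunc F) with hφ
  have hφi : Function.Injective φ := RatFunc.algebraMap_injective F
  obtain ⟨e, w, he, hw⟩ := exists_denom (n := 2 ^ (i + 1)) z
  have hφe : φ e ≠ 0 := by
    rw [Ne, map_eq_zero_iff φ hφi]
    exact he
  have hpow : 2 ^ (i + 1) = 2 ^ i + 2 ^ i := by ring
  have key : ∀ z' : ℕ → RatFunc F, ∀ w' : ℕ → F[X], (∀ m < 2 ^ i, φ e * z' m = φ (w' m)) →
      φ e ^ 2 * pq (fun j => if j < i then (RatFunc.C (a j) : RatFunc F) else RatFunc.X) i z' =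
      φ (pq (fun j => C (a j)) i w') := by
    intro z' w' h
    rw [← pq_map φ (fun j => C (a j)), ← pq_smul]
    unfold pq
    refine sum_congr rfl fun m hm => ?_
    rw [Pi.smul_apply, smul_eq_mul, h m (mem_range.1 hm)]
    congr 1
    apply pc_congr
    intro j hj
    rw [if_pos hj]
    exact (RatFunc.algebraMap_C _).symm
  have k1 := key z w (fun m hm => hw m (by omega))
  have k2 := key (sh i z) (sh i w) (fun m hm => hw (m + 2 ^ i) (by omega))
  have h1 : pq (fun j => C (a j)) i w = X * pq (fun j => C (a j)) i (sh i w) := by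
    apply hφi
    rw [map_mul, ← k1, ← k2, hφ, RatFunc.algebraMap_X]
    rw [if_neg (lt_irrefl i)] at hz
    linear_combination (algebraMap F[X] (RatFunc F) e) ^ 2 * hz
  have hwz : ∀ m < 2 ^ (i + 1), w m = 0 → z m = 0 := by
    intro m hm h
    have := hw m hm
    rw [h, map_zero] at this
    rcases mul_eq_zero.1 this with h2 | h2
    · exact absurd h2 hφe
    · exact h2
  by_cases c1 : ∃ m < 2 ^ i, w m ≠ 0
  · obtain ⟨n, -, -, -, hd, hne, -⟩ := lead_pq han w c1
    have c2 : ∃ m < 2 ^ i, sh i w m ≠ 0 := by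
      by_contra hcon
      push Not at hcon
      apply hne
      rw [h1]
      have : pq (fun j => C (a j)) i (sh i w) = 0 := by
        unfold pq
        refine sum_eq_zero fun m hm => ?_
        rw [hcon m (mem_range.1 hm)]
        ring
      rw [this, mul_zero]
    obtain ⟨n', -, -, -, hd', hne', -⟩ := lead_pq han (sh i w) c2
    rw [h1, natDegree_mul X_ne_zero hne', natDegree_X, hd'] at hd
    omega
  · push Not at c1
    by_cases c2 : ∃ m < 2 ^ i, sh i w m ≠ 0
    · obtain ⟨n', -, -, -, hd', hne', -⟩ := lead_pq han (sh i w) c2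
      have : pq (fun j => C (a j)) i w = 0 := by
        unfold pq
        refine sum_eq_zero fun m hm => ?_
        rw [c1 m (mem_range.1 hm)]
        ring
      rw [this] at h1
      exact mul_ne_zero X_ne_zero hne' h1.symm
    · push Not at c2
      apply hz0
      apply hwz m0 hm0
      by_cases hm : m0 < 2 ^ i
      · exact c1 m0 hm
      · have := c2 (m0 - 2 ^ i) (by omega)
        unfold sh at this
        rwa [Nat.sub_add_cancel (by omega)] at this

/-- the forms which become isotropic over a quadratic extension -/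
theorem quad_iso {K L : Type*} [Field K] [Field L] (h2 : (2 : K) ≠ 0) (j : K →+* L) (y : L) (d : K)
    (hy : y ^ 2 = j d) (hind : ∀ a b, j a + j b * y = 0 → a = 0 ∧ b = 0)
    (hspan : ∀ z, ∃ a b, z = j a + j b * y) {b : ℕ → K} {M : ℕ} (hM : 1 ≤ M)
    (han : An b M) (z : ℕ → L) (hz : pq (fun l => j (b l)) M z = 0)
    {m0 : ℕ} (hm0 : m0 < 2 ^ M) (hz0 : z m0 ≠ 0) : ∃ w : ℕ → K, w 0 = 0 ∧ pq b M w = -d := by
  have hN : 2 ≤ 2 ^ M := by
    calc 2 = 2 ^ 1 := rfl
      _ ≤ 2 ^ M := Nat.pow_le_pow_right (by norm_num) hM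
  set r : K[X] := X ^ 2 - C d with hr
  have hrm : r.Monic := monic_X_pow_sub_C d (by norm_num)
  have hri : Irreducible r := by
    apply X_pow_sub_C_irreducible_of_prime Nat.prime_two
    intro c hc
    have h1 : (y - j c) * (y + j c) = 0 := by
      have : j c ^ 2 = j d := by rw [← map_pow, hc]
      linear_combination hy - this
    rcases mul_eq_zero.1 h1 with h | h
    · have := (hind (-c) 1 (by rw [map_neg, map_one]; linear_combination h)).2
      exact one_ne_zero this
    · have := (hind c 1 (by rw [map_one]; linear_combination h)).2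
      exact one_ne_zero this
  have hry : eval₂ j y r = 0 := by
    rw [hr, eval₂_sub, eval₂_pow, eval₂_X, eval₂_C, hy, sub_self]
  have hdvd : ∀ f : K[X], eval₂ j y f = 0 → r ∣ f := by
    intro f hf
    rw [← modByMonic_eq_zero_iff_dvd hrm]
    have hd : (f %ₘ r).natDegree ≤ 1 := by
      have h1 := natDegree_modByMonic_lt f hrm (by
        intro h0
        have := hri.not_isUnit
        rw [h0] at this
        exact this isUnit_one)
      rw [hr, natDegree_X_pow_sub_C] at h1
      rw [hr]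
      omega
    have h3 := eq_X_add_C_of_natDegree_le_one hd
    have h4 : eval₂ j y (f %ₘ r) = 0 := by
      have := modByMonic_add_div f r
      rw [← this, eval₂_add, eval₂_mul, hry, zero_mul, add_zero] at hf
      exact hf
    rw [h3, eval₂_add, eval₂_mul, eval₂_C, eval₂_C, eval₂_X] at h4
    obtain ⟨h5, h6⟩ := hind _ _ (by rw [add_comm]; exact h4)
    rw [h3, h5, h6]
    simp
  choose α β hαβ using hspan
  have hg : ∀ x, eval₂ j y (C (α x) + C (β x) * X) = x := by
    intro x
    rw [eval₂_add, eval₂_mul, eval₂_C, eval₂_C, eval₂_X]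
    exact (hαβ x).symm
  obtain ⟨w, e, he, hw⟩ := lam han _ r rfl hri hrm (fun m => C (α (z m)) + C (β (z m)) * X)
    ⟨m0, hm0, fun h => hz0 (by
      obtain ⟨q, hq⟩ := h
      rw [← hg (z m0), hq, eval₂_mul, hry, zero_mul])⟩ (by
      apply hdvd
      have h4 := pq_map (eval₂RingHom j y) (fun l => C (b l)) M
        (fun m => C (α (z m)) + C (β (z m)) * X)
      refine h4.symm.trans ?_
      rw [← hz]
      have e1 : (fun l => (eval₂RingHom j y) (C (b l))) = fun l => j (b l) := by
        funext l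
        exact eval₂_C _ _
      have e2 : (fun m => (eval₂RingHom j y) (C (α (z m)) + C (β (z m)) * X)) = z := by
        funext m
        exact hg (z m)
      rw [e1, e2])
  set φ := algebraMap K[X] (RatFunc K) with hφ
  have hφi : Function.Injective φ := RatFunc.algebraMap_injective K
  have hφe : φ e ≠ 0 := by
    rw [Ne, map_eq_zero_iff φ hφi]
    exact he
  have h6 : pq (fun j => RatFunc.C (b j)) M ((φ e)⁻¹ • fun m => φ (w m)) =
      RatFunc.C (-d) + RatFunc.C 1 * RatFunc.X ^ 2 := by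
    rw [pq_smul]
    have h7 := pq_map φ (fun j => C (b j)) M w
    have h8 : (fun j => φ (C (b j))) = fun j => RatFunc.C (b j) := rfl
    rw [h8] at h7
    rw [h7, hw, map_mul, map_pow, hr, map_sub, map_pow]
    have e3 : φ X = RatFunc.X := RatFunc.algebraMap_X
    have e4 : φ (C d) = RatFunc.C d := RatFunc.algebraMap_C d
    rw [e3, e4, map_neg, map_one]
    field_simp
    ring
  obtain ⟨N', hN'⟩ : ∃ N', 2 ^ M = N' + 1 := ⟨2 ^ M - 1, by omega⟩
  set v := (φ e)⁻¹ • fun m => φ (w m) with hv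
  obtain ⟨w5, hw5⟩ := diag_cancel h2 (fun m : Fin (N' + 1) => pc b M m) (fun z hz => by
      have h9 := han (fun m => if h : m < N' + 1 then z ⟨m, h⟩ else 0) (by
        rw [pq_fin b hN', ← hz]
        refine sum_congr rfl fun m _ => ?_
        rw [dif_pos (Fin.is_lt _)])
      funext m
      have h10 := h9 m (by rw [hN']; exact Fin.is_lt _)
      rw [dif_pos (Fin.is_lt _), Fin.eta] at h10
      exact h10) (-d) (fun m => v m) (by
      have e0 : pc b M ((0 : Fin (N' + 1)) : ℕ) = 1 := pc_zero b M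
      rw [e0, ← h6, pq_fin _ hN']
      refine sum_congr rfl fun m _ => ?_
      rw [pc_map (RatFunc.C : K →+* RatFunc K) b])
  refine ⟨fun m => if h : m < N' + 1 then (Fin.cons 0 w5 : Fin (N' + 1) → K) ⟨m, h⟩ else 0,
    ?_, ?_⟩
  · beta_reduce
    rw [dif_pos (by omega)]
    rfl
  · rw [pq_fin b hN', ← hw5, Fin.sum_univ_succ]
    rw [dif_pos (Fin.is_lt _), Fin.eta, Fin.cons_zero]
    rw [zero_pow (by norm_num), mul_zero, zero_add]
    refine sum_congr rfl fun m _ => ?_
    rw [dif_pos (Fin.is_lt _), Fin.eta, Fin.cons_succ]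

section

variable {k F : Type} [Field k] [Field F] [Algebra k F] {n s i : ℕ}

/-- the homomorphism on the polynomial ring with all variables -/
noncomputable def th1 (ξ : MvPolynomial (Fin n) k →ₐ[k] F) (s i : ℕ) :
    MvPolynomial (V1 n i) k →ₐ[k] FF (K4 F s) (2 ^ i - 1) :=
  MvPolynomial.aeval (Sum.elim (fun a => algebraMap (K4 F s) (FF (K4 F s) (2 ^ i - 1))
    (th0 ξ s i (MvPolynomial.X a))) (fun m => xx (K4 F s) m))

theorem th1_injective {ξ : MvPolynomial (Fin n) k →ₐ[k] F} (hs : 2 ^ i = s + 3)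
    (hξ : Function.Injective ξ) : Function.Injective (th1 ξ s i) := by
  have hx : AlgebraicIndependent k (fun a => th0 ξ s i (MvPolynomial.X a)) :=
    (MvPolynomial.algebraicIndependent_X (V0 n i) k).map' (th0_injective hs hξ)
  have h1 := hx.sumElim_comp (ai_xx (K4 F s) (2 ^ i - 1))
  have h2 := h1.comp (Sum.swap : V1 n i → Fin (2 ^ i - 1) ⊕ V0 n i)
    (Equiv.sumComm _ _).injective
  have e : (Sum.elim (fun j => xx (K4 F s) j) (algebraMap (K4 F s) (FF (K4 F s) (2 ^ i - 1)) ∘
      fun a => th0 ξ s i (MvPolynomial.X a))) ∘ (Sum.swap : V1 n i → Fin (2 ^ i - 1) ⊕ V0 n i) =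
      Sum.elim (fun a => algebraMap (K4 F s) (FF (K4 F s) (2 ^ i - 1))
        (th0 ξ s i (MvPolynomial.X a))) (fun m => xx (K4 F s) m) := by
    funext a
    rcases a with a | a <;> rfl
  rw [e] at h2
  exact h2

theorem th1_inl (ξ : MvPolynomial (Fin n) k →ₐ[k] F) (f : MvPolynomial (V0 n i) k) :
    th1 ξ s i (MvPolynomial.rename Sum.inl f) =
      algebraMap (K4 F s) (FF (K4 F s) (2 ^ i - 1)) (th0 ξ s i f) := by
  unfold th1
  rw [MvPolynomial.aeval_rename]
  induction f using MvPolynomial.induction_on with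
  | C a =>
    rw [MvPolynomial.aeval_C]
    have h1 : th0 ξ s i (MvPolynomial.C a) = algebraMap k (K4 F s) a := (th0 ξ s i).commutes a
    rw [h1, ← IsScalarTower.algebraMap_apply]
  | add p q hp hq => rw [map_add, hp, hq, map_add, map_add]
  | mul_X p j hp =>
    rw [map_mul, hp, MvPolynomial.aeval_X, map_mul, map_mul]
    rfl

theorem th1_eu (ξ : MvPolynomial (Fin n) k →ₐ[k] F) (m : Fin (2 ^ i - 1)) :
    th1 ξ s i (eu k n i (m + 1)) = xx (K4 F s) m := by
  unfold th1 eu
  rw [dif_pos (by simp [m.2]), MvPolynomial.aeval_X]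
  simp

/-- the form with the additional entry `t` is anisotropic over `K4` -/
theorem an_K4 {a : ℕ → F} (han : An a i) : An (a4 F s a i) (i + 1) := by
  have h1 := an_ratFunc (an_lift_ff (an_ratFunc (an_t han)) s)
  have e : (fun j => (RatFunc.C (algebraMap (K2 F) (K3 F s) (RatFunc.C
      (if j < i then (RatFunc.C (a j) : RatFunc F) else RatFunc.X))) : K4 F s)) = a4 F s a i := by
    funext j
    unfold a4
    split_ifs
    · rfl
    · rfl
  rw [← e]
  exact h1

theorem an_of_map {K L : Type*} [Field K] [Field L] (φ : K →+* L) {b : ℕ → K} {M : ℕ}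
    (h : An (fun l => φ (b l)) M) : An b M := by
  intro z hz m hm
  have := h (fun m => φ (z m)) (by rw [pq_map, hz, map_zero]) m hm
  exact (map_eq_zero φ).1 this

theorem pq_head {R : Type*} [CommRing R] (b : ℕ → R) (i : ℕ) (g : ℕ → R) :
    pq b i g = g 0 ^ 2 + ∑ j : Fin (2 ^ i - 1), pc b i (j + 1) * g (j + 1) ^ 2 := by
  have h0 : 0 < 2 ^ i := by positivity
  obtain ⟨N, hN⟩ : ∃ N, 2 ^ i = N + 1 := ⟨2 ^ i - 1, by omega⟩
  have h1 : pq b i g = g 0 ^ 2 + ∑ j ∈ range (2 ^ i - 1), pc b i (j + 1) * g (j + 1) ^ 2 := by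
    unfold pq
    rw [hN, sum_range_succ', pc_zero, Nat.add_sub_cancel]
    ring
  rw [h1, Finset.sum_range]

theorem sum_Ico_head {R : Type*} [CommRing R] (f : ℕ → R) (i : ℕ) :
    ∑ m ∈ Ico 1 (2 ^ i), f m = ∑ j : Fin (2 ^ i - 1), f (j + 1) := by
  rw [sum_Ico_eq_sum_range, Finset.sum_range]
  refine sum_congr rfl fun j _ => ?_
  rw [add_comm]

theorem cancel_pf {K : Type} [Field K] (h2 : (2 : K) ≠ 0) {aa : ℕ → K} {i : ℕ}
    (hanK4 : An aa (i + 1)) (haai : aa i ≠ 0) (P : K) (w : ℕ → FF K (2 ^ i - 1)) (hw0 : w 0 = 0)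
    (hw : pq (fun l => algebraMap K (FF K (2 ^ i - 1)) (aa l)) (i + 1) w =
      -(algebraMap K (FF K (2 ^ i - 1)) (aa i) * algebraMap K (FF K (2 ^ i - 1)) P -
        ∑ l : Fin (2 ^ i - 1), algebraMap K (FF K (2 ^ i - 1)) (pc aa i (l + 1)) * xx K l ^ 2)) :
    ∃ g : ℕ → K, pq aa i g = P := by
  have h0 : 0 < 2 ^ i := by positivity
  have hpow : 2 ^ (i + 1) = 2 ^ i + 2 ^ i := by ring
  set al := algebraMap K (FF K (2 ^ i - 1)) with hal
  have h8 : pq (fun l => al (aa l)) (i + 1) w =
      ∑ l : Fin (2 ^ i - 1), al (pc aa i (l + 1)) * w (l + 1) ^ 2 +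
      ∑ l : Fin (2 ^ i), al (-aa i * pc aa i l) * w (l + 2 ^ i) ^ 2 := by
    rw [pq_succ, pq_head, hw0, pq_fin _ rfl, mul_sum]
    rw [zero_pow (by norm_num), zero_add, sub_eq_add_neg, ← sum_neg_distrib]
    congr 1
    · refine sum_congr rfl fun l _ => ?_
      rw [pc_map al]
    · refine sum_congr rfl fun l _ => ?_
      rw [pc_map al, map_mul, map_neg]
      unfold sh
      ring
  obtain ⟨w', hw'⟩ := cancel_ff h2 (2 ^ i - 1) (fun l : Fin (2 ^ i - 1) => pc aa i (l + 1))
    (fun l : Fin (2 ^ i) => -aa i * pc aa i l) (fun yy zz hyz => by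
      have h9 := hanK4 (fun m => if h : 1 ≤ m ∧ m < 2 ^ i then yy ⟨m - 1, by omega⟩ else
        if h : 2 ^ i ≤ m ∧ m < 2 ^ i + 2 ^ i then zz ⟨m - 2 ^ i, by omega⟩ else 0) (by
        rw [pq_succ, pq_head, pq_fin _ rfl, mul_sum, sub_eq_add_neg, ← sum_neg_distrib,
          dif_neg (by omega), dif_neg (by omega)]
        have e1 : ∑ l : Fin (2 ^ i - 1), pc aa i (l + 1) *
            (if h : 1 ≤ (l : ℕ) + 1 ∧ (l : ℕ) + 1 < 2 ^ i then yy ⟨(l : ℕ) + 1 - 1, by omega⟩ else
              if h : 2 ^ i ≤ (l : ℕ) + 1 ∧ (l : ℕ) + 1 < 2 ^ i + 2 ^ i then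
                zz ⟨(l : ℕ) + 1 - 2 ^ i, by omega⟩ else 0) ^ 2 =
            ∑ l : Fin (2 ^ i - 1), pc aa i (l + 1) * yy l ^ 2 := by
          refine sum_congr rfl fun l _ => ?_
          rw [dif_pos ⟨by omega, by have := l.2; omega⟩]
          congr 2
        rw [e1]
        have e2 : ∑ l : Fin (2 ^ i), -(aa i * (pc aa i l * (sh i (fun m =>
            if h : 1 ≤ m ∧ m < 2 ^ i then yy ⟨m - 1, by omega⟩ else
            if h : 2 ^ i ≤ m ∧ m < 2 ^ i + 2 ^ i then zz ⟨m - 2 ^ i, by omega⟩ else 0) l) ^ 2)) =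
            ∑ l : Fin (2 ^ i), -aa i * pc aa i l * zz l ^ 2 := by
          refine sum_congr rfl fun l _ => ?_
          unfold sh
          beta_reduce
          rw [dif_neg (by omega), dif_pos ⟨by omega, by have := l.2; omega⟩]
          have : (⟨(l : ℕ) + 2 ^ i - 2 ^ i, by have := l.2; omega⟩ : Fin (2 ^ i)) = l :=
            Fin.ext (by simp)
          rw [this]
          ring
        rw [e2]
        linear_combination hyz)
      constructor
      · funext l
        have h10 := h9 (l + 1) (by have := l.2; omega)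
        rw [dif_pos ⟨by omega, by have := l.2; omega⟩] at h10
        exact h10
      · funext l
        have h10 := h9 (l + 2 ^ i) (by have := l.2; omega)
        rw [dif_neg (by omega), dif_pos ⟨by omega, by have := l.2; omega⟩] at h10
        have : (⟨(l : ℕ) + 2 ^ i - 2 ^ i, by have := l.2; omega⟩ : Fin (2 ^ i)) = l :=
          Fin.ext (by simp)
        rw [this] at h10
        exact h10)
    (-aa i * P) (fun l => w (l + 1)) (fun l => w (l + 2 ^ i))
    (by rw [← h8, hw, map_mul, map_neg]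
        ring)
  refine ⟨fun m => if h : m < 2 ^ i then w' ⟨m, h⟩ else 0, ?_⟩
  apply mul_left_cancel₀ (neg_ne_zero.2 haai)
  rw [← hw', pq_fin _ rfl, mul_sum]
  refine sum_congr rfl fun l _ => ?_
  rw [dif_pos l.2]
  ring

theorem aniso_X (h2 : (2 : k) ≠ 0) (hi : 2 ≤ i) (a : ℕ → MvPolynomial (Fin n) k)
    {ξ : MvPolynomial (Fin n) k →ₐ[k] F} (hξ : Function.Injective ξ)
    (ha : ∀ j < i, a j ≠ 0)
    (hBC : ∏ j ∈ range i, a j ≠ 4 * (∏ j ∈ range i, (a j - 1)) ^ 2)
    (han : An (fun j => ξ (a j)) i) (p0 p1 : (MvPolynomial (Fin n) k)[X]) {η : F} (hη : η ≠ 0)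
    (h0 : (pP (p0.map (ξ : MvPolynomial (Fin n) k →+* F))
      (p1.map (ξ : MvPolynomial (Fin n) k →+* F))).eval η = 0)
    (h1 : (derivative (pP (p0.map (ξ : MvPolynomial (Fin n) k →+* F))
      (p1.map (ξ : MvPolynomial (Fin n) k →+* F)))).eval η ≠ 0)
    (h3 : (p1.map (ξ : MvPolynomial (Fin n) k →+* F)).eval (η ^ 2) ≠ 0)
    {KX : Type} [Field KX] (j : FractionRing (MvPolynomial (V1 n i) k) →+* KX) (y : KX)
    (hy : y ^ 2 = j (algebraMap _ _ (ed i a p0 p1)))
    (hind : ∀ a b, j a + j b * y = 0 → a = 0 ∧ b = 0)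
    (hspan : ∀ z, ∃ a b, z = j a + j b * y) :
    An (fun l => j (algebraMap (MvPolynomial (V1 n i) k) _
      (MvPolynomial.rename Sum.inl (ea i a l)))) (i + 1) := by
  have h4 := four_le hi
  obtain ⟨s, hs⟩ : ∃ s, 2 ^ i = s + 3 := ⟨2 ^ i - 3, by omega⟩
  have hpow : 2 ^ (i + 1) = 2 ^ i + 2 ^ i := by ring
  intro z hz m0 hm0
  by_contra hz0
  set al := algebraMap (K4 F s) (FF (K4 F s) (2 ^ i - 1)) with hal
  have hinj : Function.Injective (th1 ξ s i : MvPolynomial (V1 n i) k →+*
    FF (K4 F s) (2 ^ i - 1)) := th1_injective hs hξ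
  set T5 : FractionRing (MvPolynomial (V1 n i) k) →+* FF (K4 F s) (2 ^ i - 1) :=
    IsFractionRing.lift hinj with hT5
  have hT : ∀ f : MvPolynomial (V1 n i) k, T5 (algebraMap _ _ f) = th1 ξ s i f := fun f =>
    IsFractionRing.lift_algebraMap hinj f
  set aa := a4 F s (fun j => ξ (a j)) i with haa
  have hTb : ∀ l, T5 (algebraMap (MvPolynomial (V1 n i) k)
      (FractionRing (MvPolynomial (V1 n i) k)) (MvPolynomial.rename Sum.inl (ea i a l))) =
      al (aa l) := by
    intro l
    rw [hT, th1_inl, th0_ea]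
  have hTb' : (fun l => T5 (algebraMap (MvPolynomial (V1 n i) k)
      (FractionRing (MvPolynomial (V1 n i) k)) (MvPolynomial.rename Sum.inl (ea i a l)))) =
      fun l => al (aa l) := funext hTb
  have hanK4 : An aa (i + 1) := an_K4 han
  have hanK : An (fun l => algebraMap (MvPolynomial (V1 n i) k)
      (FractionRing (MvPolynomial (V1 n i) k)) (MvPolynomial.rename Sum.inl (ea i a l)))
      (i + 1) := by
    apply an_of_map T5
    rw [hTb']
    exact an_lift_ff hanK4 _
  have h2K : (2 : FractionRing (MvPolynomial (V1 n i) k)) ≠ 0 := by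
    intro h
    apply h2
    apply (algebraMap k (FractionRing (MvPolynomial (V1 n i) k))).injective
    rw [map_ofNat, h, map_zero]
  have h24 : (2 : K4 F s) ≠ 0 := by
    intro h
    apply h2
    apply (algebraMap k (K4 F s)).injective
    rw [map_ofNat, h, map_zero]
  obtain ⟨w, hw0, hw⟩ := quad_iso h2K j y _ hy hind hspan (by omega) hanK z hz hm0 hz0
  -- the equation over the big field
  have h5 := pq_map T5 (fun l => algebraMap (MvPolynomial (V1 n i) k)
      (FractionRing (MvPolynomial (V1 n i) k)) (MvPolynomial.rename Sum.inl (ea i a l))) (i + 1) w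
  rw [hTb', hw, map_neg, hT] at h5
  have h6 : th1 ξ s i (ed i a p0 p1) = al (aa i) * al (th0 ξ s i (eP i a p0 p1)) -
      ∑ l : Fin (2 ^ i - 1), al (pc aa i (l + 1)) * xx (K4 F s) l ^ 2 := by
    unfold ed
    rw [map_sub, th1_inl, map_mul, map_mul, th0_ea, map_sum, sum_Ico_head]
    congr 1
    refine sum_congr rfl fun l _ => ?_
    rw [map_mul, map_pow, th1_eu]
    congr 1
    have h7 := pc_map (th1 ξ s i : MvPolynomial (V1 n i) k →+* FF (K4 F s) (2 ^ i - 1))
      (fun j => MvPolynomial.rename Sum.inl (ea i a j)) i (l + 1)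
    refine h7.symm.trans ?_
    rw [← pc_map al]
    congr 1
    funext m
    show th1 ξ s i _ = _
    rw [th1_inl, th0_ea]
  have haai : aa i ≠ 0 := by
    rw [haa, ← th0_ea, Ne, map_eq_zero_iff _ (th0_injective hs hξ)]
    unfold ea
    rw [if_neg (lt_irrefl i)]
    exact MvPolynomial.X_ne_zero _
  obtain ⟨g, hg⟩ := cancel_pf h24 hanK4 haai (th0 ξ s i (eP i a p0 p1)) (fun m => T5 (w m))
    (by rw [hw0, map_zero]) (by rw [h5, h6])
  exact no_value h2 (by omega) hs a hξ ha hBC han p0 p1 hη h0 h1 h3 g hg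

end

end Pool.Agent.H901
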