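import Pool.Agent.H901.FLD

/-!
The hypersurface is rational if the form `<<a 0, …, a (i - 1)>>` represents `P`.
-/

set_option autoImplicit false

namespace Pool.Agent.H901

open Polynomial Finset

open Cardinal in
/-- a field generated by as many elements as its degree of transcendence is purely transcendental -/
theorem purely_of_gen {k L ι : Type} [Field k] [Field L] [Algebra k L] [Fintype ι] (y : ι → L)
    (hgen : IntermediateField.adjoin k (Set.range y) = ⊤)
    (htr : (Fintype.card ι : Cardinal.{0}) ≤ Algebra.trdeg k L) :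
    Nonempty (FractionRing (MvPolynomial ι k) ≃ₐ[k] L) := by
  have halg : Algebra.IsAlgebraic (Algebra.adjoin k (Set.range y)) L := by
    refine ⟨fun z => ?_⟩
    have hz : z ∈ IntermediateField.adjoin k (Set.range y) := by
      rw [hgen]; trivial
    obtain ⟨r, hr, s, hs, rfl⟩ := (IntermediateField.mem_adjoin_iff_div).1 hz
    rw [div_eq_mul_inv]
    refine IsAlgebraic.mul ?_ (IsAlgebraic.inv ?_)
    · exact isAlgebraic_algebraMap (⟨r, hr⟩ : Algebra.adjoin k (Set.range y))
    · exact isAlgebraic_algebraMap (⟨s, hs⟩ : Algebra.adjoin k (Set.range y))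
  have hind : AlgebraicIndependent k y := by
    refine (Algebra.IsAlgebraic.isTranscendenceBasis_of_le_trdeg_of_finite k y ?_).1
    rw [Cardinal.mk_fintype]
    exact htr
  let e1 := hind.aevalEquivField
  let e2 : (IntermediateField.adjoin k (Set.range y)) ≃ₐ[k] L :=
    (IntermediateField.equivOfEq hgen).trans IntermediateField.topEquiv
  exact ⟨e1.trans e2⟩

section

variable {k : Type} [Field k] {n i : ℕ}

/-- the relation in the function field -/
theorem relation {K : Type*} [CommRing K] (emb : MvPolynomial (V1 n i) k →+* K)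
    (a : ℕ → MvPolynomial (Fin n) k) (p0 p1 : (MvPolynomial (Fin n) k)[X]) (y : K)
    (hy : y ^ 2 = emb (ed i a p0 p1)) :
    pq (fun j => emb (MvPolynomial.rename Sum.inl (ea i a j))) i
      (fun m => if m = 0 then y else emb (eu k n i m)) =
      emb (MvPolynomial.rename Sum.inl (ea i a i)) *
        emb (MvPolynomial.rename Sum.inl (eP i a p0 p1)) := by
  unfold pq
  rw [range_eq_Ico, sum_eq_sum_Ico_succ_bot (by positivity), pc_zero, one_mul]
  beta_reduce
  rw [if_pos rfl, hy]
  unfold ed
  rw [map_sub, map_mul, map_mul, map_sum]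
  have h : ∑ m ∈ Ico (0 + 1) (2 ^ i), pc (fun j => emb (MvPolynomial.rename Sum.inl (ea i a j)))
      i m * (if m = 0 then y else emb (eu k n i m)) ^ 2 =
      ∑ m ∈ Ico 1 (2 ^ i), emb (pc (fun j => MvPolynomial.rename Sum.inl (ea i a j)) i m *
      eu k n i m ^ 2) := by
    refine sum_congr rfl fun m hm => ?_
    rw [mem_Ico] at hm
    rw [if_neg (by omega), map_mul, map_pow, pc_map emb]
  rw [h]
  ring

/-- If the Pfister form represents `P` over `k(x, v)`, the function field of the hypersurface is
purely transcendental. -/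
theorem rat_core (hi : 2 ≤ i) (a : ℕ → MvPolynomial (Fin n) k)
    (ha : ∀ j < i, a j ≠ 0) (p0 : (MvPolynomial (Fin n) k)[X]) {p1 : (MvPolynomial (Fin n) k)[X]}
    (hp1 : p1 ≠ 0)
    (g : ℕ → FractionRing (MvPolynomial (V0 n i) k))
    (hg : pq (fun j => algebraMap (MvPolynomial (V0 n i) k)
      (FractionRing (MvPolynomial (V0 n i) k)) (ea i a j)) i g =
      algebraMap _ _ (eP i a p0 p1))
    {KX : Type} [Field KX] [Algebra k KX] (emb : MvPolynomial (V1 n i) k →ₐ[k] KX)
    (hemb : Function.Injective emb) (y : KX) (hy2 : y ^ 2 = emb (ed i a p0 p1))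
    (hgen : ∀ T : IntermediateField k KX, (∀ f, emb f ∈ T) → y ∈ T → T = ⊤) :
    ∃ M : ℕ, Nonempty (KX ≃ₐ[k] FF k M) := by
  classical
  have h4 := four_le hi
  let psi0 : MvPolynomial (V0 n i) k →ₐ[k] KX := emb.comp (MvPolynomial.rename Sum.inl)
  have hpsi0 : Function.Injective psi0 :=
    hemb.comp (MvPolynomial.rename_injective _ Sum.inl_injective)
  let psi : FractionRing (MvPolynomial (V0 n i) k) →ₐ[k] KX := IsFractionRing.liftAlgHom hpsi0
  have hpsi : ∀ f : MvPolynomial (V0 n i) k, psi (algebraMap _ _ f) = psi0 f := fun f => by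
    show IsFractionRing.lift hpsi0 (algebraMap _ _ f) = _
    rw [IsFractionRing.lift_algebraMap]
    rfl
  -- the relation
  set u : ℕ → KX := fun m => if m = 0 then y else emb (eu k n i m) with hu
  have hrel : pq (fun j => psi0 (ea i a j)) i u = psi0 (ea i a i) * psi0 (eP i a p0 p1) :=
    relation (emb : MvPolynomial (V1 n i) k →+* KX) a p0 p1 y hy2
  have hP0 : psi0 (eP i a p0 p1) ≠ 0 := by
    rw [Ne, map_eq_zero_iff psi0 hpsi0]
    exact eP_ne hi (ha 0 (by omega)) hp1
  -- the similarity
  have hsim := sim_value (fun j => algebraMap (MvPolynomial (V0 n i) k)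
      (FractionRing (MvPolynomial (V0 n i) k)) (ea i a j)) i g
  rw [hg] at hsim
  obtain ⟨S, hS⟩ := sim_matrix hsim
  set S' : Matrix (Fin (2 ^ i)) (Fin (2 ^ i)) KX := S.map psi with hS'
  set G' : Matrix (Fin (2 ^ i)) (Fin (2 ^ i)) KX :=
    Matrix.diagonal (fun m : Fin (2 ^ i) => pc (fun j => psi0 (ea i a j)) i m) with hG'
  have hGmap : (Matrix.diagonal (fun m : Fin (2 ^ i) => pc (fun j =>
      algebraMap (MvPolynomial (V0 n i) k) (FractionRing (MvPolynomial (V0 n i) k)) (ea i a j))
      i m)).map psi = G' := by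
    rw [hG', Matrix.diagonal_map (map_zero psi)]
    congr 1
    funext m
    have := pc_map (psi : FractionRing (MvPolynomial (V0 n i) k) →+* KX)
      (fun j => algebraMap (MvPolynomial (V0 n i) k) (FractionRing (MvPolynomial (V0 n i) k))
        (ea i a j)) i m
    refine this.symm.trans ?_
    congr 1
    funext j
    exact hpsi _
  have hS1 : S'.transpose * G' * S' = psi0 (eP i a p0 p1) • G' := by
    rw [← hGmap, hS', ← Matrix.transpose_map, ← Matrix.map_mul, ← Matrix.map_mul, hS]
    ext p q
    simp only [Matrix.map_apply, Matrix.smul_apply, smul_eq_mul, map_mul, hpsi]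
  have hea : ∀ j, psi0 (ea i a j) ≠ 0 := by
    intro j'
    rw [Ne, map_eq_zero_iff psi0 hpsi0]
    unfold ea
    split_ifs with h
    · rw [map_eq_zero_iff _ (MvPolynomial.rename_injective _ Sum.inl_injective)]
      exact ha j' h
    · exact MvPolynomial.X_ne_zero _
  have hdetG : G'.det ≠ 0 := by
    rw [hG', Matrix.det_diagonal]
    exact prod_ne_zero_iff.2 fun m _ => pc_ne _ i (fun j _ => hea j) m m.2
  have hdet : S'.det ≠ 0 := by
    intro h0
    have h3 := congrArg Matrix.det hS1
    rw [Matrix.det_mul, h0, mul_zero, Matrix.det_smul] at h3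
    exact (mul_ne_zero (pow_ne_zero _ hP0) hdetG) h3.symm
  set uf : Fin (2 ^ i) → KX := fun m => u m with huf
  set u' : Fin (2 ^ i) → KX := S'⁻¹.mulVec uf with hu'
  have hSu : S'.mulVec u' = uf := by
    rw [hu', Matrix.mulVec_mulVec, Matrix.mul_nonsing_inv _ (isUnit_iff_ne_zero.2 hdet),
      Matrix.one_mulVec]
  have hval : ∀ w : Fin (2 ^ i) → KX, dotProduct w (G'.mulVec w) =
      ∑ m : Fin (2 ^ i), pc (fun j => psi0 (ea i a j)) i m * w m ^ 2 := by
    intro w
    rw [hG']
    unfold dotProduct
    refine sum_congr rfl fun m _ => ?_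
    rw [Matrix.mulVec_diagonal]
    ring
  have ht : ∑ m : Fin (2 ^ i), pc (fun j => psi0 (ea i a j)) i m * u' m ^ 2 = psi0 (ea i a i) := by
    have h5 : dotProduct uf (G'.mulVec uf) =
        psi0 (eP i a p0 p1) * dotProduct u' (G'.mulVec u') := by
      rw [← hSu]
      have : dotProduct (S'.mulVec u') (G'.mulVec (S'.mulVec u')) =
          dotProduct u' ((S'.transpose * G' * S').mulVec u') := by
        rw [← Matrix.mulVec_mulVec, ← Matrix.mulVec_mulVec, Matrix.dotProduct_mulVec u' S'.transpose,
          Matrix.vecMul_transpose]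
      rw [this, hS1, Matrix.smul_mulVec, dotProduct_smul, smul_eq_mul]
    rw [hval, hval] at h5
    have h6 : ∑ m : Fin (2 ^ i), pc (fun j => psi0 (ea i a j)) i m * uf m ^ 2 =
        psi0 (ea i a i) * psi0 (eP i a p0 p1) := by
      rw [← hrel]
      unfold pq
      rw [Finset.sum_range]
    rw [h6] at h5
    apply mul_left_cancel₀ hP0
    rw [← h5]
    ring
  -- the generators
  let Y : Fin n ⊕ (Fin (2 ^ i - 1) ⊕ Fin (2 ^ i)) → KX :=
    Sum.elim (fun l => psi0 (MvPolynomial.X (Sum.inl l)))
      (Sum.elim (fun m => psi0 (ev k n i (m + 1))) u')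
  set T := IntermediateField.adjoin k (Set.range Y) with hT
  have hYT : ∀ l, Y l ∈ T := fun l => IntermediateField.subset_adjoin k _ ⟨l, rfl⟩
  have hx : ∀ l, psi0 (MvPolynomial.X (Sum.inl l)) ∈ T := fun l => hYT (Sum.inl l)
  have hpoly : ∀ f : MvPolynomial (Fin n) k, psi0 (MvPolynomial.rename Sum.inl f) ∈ T := by
    intro f
    induction f using MvPolynomial.induction_on with
    | C a =>
      rw [MvPolynomial.rename_C]
      have : psi0 (MvPolynomial.C a) = algebraMap k KX a := psi0.commutes a
      rw [this]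
      exact T.algebraMap_mem a
    | add p q hp hq => rw [map_add, map_add]; exact T.add_mem hp hq
    | mul_X p l hp =>
      rw [map_mul, map_mul, MvPolynomial.rename_X]
      exact T.mul_mem hp (hx l)
  have hpcT : ∀ (i' : ℕ), i' ≤ i → ∀ m, pc (fun j => psi0 (ea i a j)) i' m ∈ T := by
    intro i' hi'
    induction i' with
    | zero => intro m; exact T.one_mem
    | succ i' ih =>
      intro m
      rw [pc]
      split_ifs with h
      · exact ih (by omega) m
      · refine T.mul_mem (T.neg_mem ?_) (ih (by omega) _)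
        unfold ea
        rw [if_pos (by omega)]
        exact hpoly _
  have htT : psi0 (ea i a i) ∈ T := by
    rw [← ht]
    exact T.sum_mem fun m _ => T.mul_mem (hpcT i le_rfl m) (pow_mem (hYT (Sum.inr (Sum.inr m))) 2)
  have hvT : ∀ m : Fin (2 ^ i), psi0 (MvPolynomial.X (Sum.inr m)) ∈ T := by
    intro m
    by_cases hm : (m : ℕ) = 0
    · have : psi0 (ea i a i) = psi0 (MvPolynomial.X (Sum.inr m)) := by
        unfold ea
        rw [if_neg (lt_irrefl i)]
        congr 3
        exact Fin.ext hm.symm
      rw [← this]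
      exact htT
    · have h7 := hYT (Sum.inr (Sum.inl ⟨(m : ℕ) - 1, by omega⟩))
      have : Y (Sum.inr (Sum.inl ⟨(m : ℕ) - 1, by omega⟩)) =
          psi0 (MvPolynomial.X (Sum.inr m)) := by
        show psi0 (ev k n i ((m : ℕ) - 1 + 1)) = _
        unfold ev
        rw [dif_pos (by omega)]
        congr 3
        exact Fin.ext (by simp; omega)
      rw [← this]
      exact h7
  have hB0T : ∀ f : MvPolynomial (V0 n i) k, psi0 f ∈ T := by
    intro f
    induction f using MvPolynomial.induction_on with
    | C a =>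
      have : psi0 (MvPolynomial.C a) = algebraMap k KX a := psi0.commutes a
      rw [this]
      exact T.algebraMap_mem a
    | add p q hp hq => rw [map_add]; exact T.add_mem hp hq
    | mul_X p l hp =>
      rw [map_mul]
      refine T.mul_mem hp ?_
      rcases l with l | m
      · exact hx l
      · exact hvT m
  have hK0T : ∀ f : FractionRing (MvPolynomial (V0 n i) k), psi f ∈ T := by
    intro f
    obtain ⟨r, s, hs, rfl⟩ := IsFractionRing.div_surjective (A := MvPolynomial (V0 n i) k) f
    rw [map_div₀, hpsi, hpsi]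
    exact T.div_mem (hB0T r) (hB0T s)
  have huT : ∀ m : Fin (2 ^ i), uf m ∈ T := by
    intro m
    rw [← hSu]
    show ∑ l, S' m l * u' l ∈ T
    exact T.sum_mem fun l _ => T.mul_mem (hK0T _) (hYT (Sum.inr (Sum.inr l)))
  have hyT : y ∈ T := by
    have h8 := huT ⟨0, by positivity⟩
    exact h8
  have hB1T : ∀ f : MvPolynomial (V1 n i) k, emb f ∈ T := by
    intro f
    induction f using MvPolynomial.induction_on with
    | C a =>
      have : emb (MvPolynomial.C a) = algebraMap k KX a := emb.commutes a
      rw [this]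
      exact T.algebraMap_mem a
    | add p q hp hq => rw [map_add]; exact T.add_mem hp hq
    | mul_X p l hp =>
      rw [map_mul]
      refine T.mul_mem hp ?_
      rcases l with l | m
      · have := hB0T (MvPolynomial.X l)
        have e : psi0 (MvPolynomial.X l) = emb (MvPolynomial.X (Sum.inl l)) := by
          show emb (MvPolynomial.rename Sum.inl (MvPolynomial.X l)) = _
          rw [MvPolynomial.rename_X]
        rwa [e] at this
      · have h9 := huT ⟨(m : ℕ) + 1, by omega⟩
        have e : uf ⟨(m : ℕ) + 1, by omega⟩ = emb (MvPolynomial.X (Sum.inr m)) := by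
          show (if (m : ℕ) + 1 = 0 then y else emb (eu k n i ((m : ℕ) + 1))) = _
          rw [if_neg (by omega)]
          unfold eu
          rw [dif_pos (by omega)]
          congr 3
        rwa [e] at h9
  have hTtop : T = ⊤ := hgen T hB1T hyT
  -- the degree of transcendence
  have hindep : AlgebraicIndependent k (fun l : V1 n i => emb (MvPolynomial.X l)) := by
    have e : MvPolynomial.aeval (fun l : V1 n i => emb (MvPolynomial.X l)) = emb := by
      apply MvPolynomial.algHom_ext
      intro l
      rw [MvPolynomial.aeval_X]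
    show Function.Injective (MvPolynomial.aeval (fun l : V1 n i => emb (MvPolynomial.X l)))
    rw [e]
    exact hemb
  have htr := hindep.cardinalMk_le_trdeg
  have hcard : (Fintype.card (Fin n ⊕ (Fin (2 ^ i - 1) ⊕ Fin (2 ^ i))) : Cardinal.{0}) ≤
      Algebra.trdeg k KX := by
    refine le_trans (le_of_eq ?_) htr
    rw [Cardinal.mk_fintype]
    norm_cast
    simp only [Fintype.card_sum, Fintype.card_fin]
    omega
  have hTtop' : IntermediateField.adjoin k
      (Set.range (Y ∘ (Fintype.equivFin (Fin n ⊕ (Fin (2 ^ i - 1) ⊕ Fin (2 ^ i)))).symm)) = ⊤ := by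
    rw [EquivLike.range_comp]
    exact hTtop
  obtain ⟨e⟩ := purely_of_gen
    (Y ∘ (Fintype.equivFin (Fin n ⊕ (Fin (2 ^ i - 1) ⊕ Fin (2 ^ i)))).symm) hTtop'
    (by rw [Fintype.card_fin]; exact hcard)
  exact ⟨_, ⟨e.symm⟩⟩

end

end Pool.Agent.H901
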