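import Pool.Agent.H901.ANX
import Pool.Agent.H901.RTL
import Pool.Graph.R_seed8.H918R3.TA3

/-!
The function field of the hypersurface: it is not stably rational if the form is anisotropic, and
it is always contained in a field of rational functions.
-/

set_option autoImplicit false

namespace Pool.Agent.H901

open Polynomial Finset Pool.Agent.H918R3

section

variable {k : Type} [Field k] {n i : ℕ}

theorem two_unit {L : Type*} [Field L] [Algebra k L] (h2 : (2 : k) ≠ 0) {O : ValuationSubring L}
    (hO : ∀ a : k, algebraMap k L a ∈ O) : O.valuation 2 = 1 := by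
  have h1 : O.valuation (algebraMap k L 2) ≤ 1 := (O.valuation_le_one_iff _).2 (hO 2)
  have h3 : O.valuation (algebraMap k L 2⁻¹) ≤ 1 := (O.valuation_le_one_iff _).2 (hO 2⁻¹)
  have h4 : O.valuation (algebraMap k L 2) * O.valuation (algebraMap k L 2⁻¹) = 1 := by
    rw [← map_mul, ← map_mul, mul_inv_cancel₀ h2, map_one, map_one]
  rw [map_ofNat] at h1 h4
  refine le_antisymm h1 ?_
  by_contra hlt
  rw [not_le] at hlt
  have : O.valuation (2 : L) * O.valuation (algebraMap k L 2⁻¹) < 1 := by
    calc O.valuation (2 : L) * O.valuation (algebraMap k L 2⁻¹) ≤ O.valuation (2 : L) * 1 :=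
          mul_le_mul_right h3 _
      _ < 1 := by rw [mul_one]; exact hlt
  rw [h4] at this
  exact lt_irrefl _ this

/-- no stable rationality if the form with the entry `t` is anisotropic over the function field -/
theorem not_stably [IsAlgClosed k] (h2 : (2 : k) ≠ 0) (hi : 2 ≤ i)
    (a : ℕ → MvPolynomial (Fin n) k) (ha : ∀ j < i, a j ≠ 0)
    (p0 : (MvPolynomial (Fin n) k)[X]) {p1 : (MvPolynomial (Fin n) k)[X]} (hp1 : p1 ≠ 0)
    {KX : Type} [Field KX] [Algebra k KX] (emb : MvPolynomial (V1 n i) k →ₐ[k] KX)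
    (hemb : Function.Injective emb) (y : KX) (hy2 : y ^ 2 = emb (ed i a p0 p1))
    (han : An (fun l => emb (MvPolynomial.rename Sum.inl (ea i a l))) (i + 1)) (r M : ℕ)
    (e : FF KX r ≃ₐ[k] FF k M) : False := by
  set ψ : MvPolynomial (V1 n i) k →+* FF k M :=
    ((e : FF KX r →+* FF k M).comp (algebraMap KX (FF KX r))).comp
      (emb : MvPolynomial (V1 n i) k →+* KX) with hψ
  have hψa : ∀ x, ψ x = e (algebraMap KX (FF KX r) (emb x)) := fun _ => rfl
  have hψ0 : ∀ x, ψ x = 0 → x = 0 := by
    intro x hx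
    rw [hψa, map_eq_zero, map_eq_zero] at hx
    exact (map_eq_zero_iff emb hemb).1 hx
  have hrel := relation ψ a p0 p1 (e (algebraMap KX (FF KX r) y)) (by
    rw [← map_pow, ← map_pow, hy2]
    rfl)
  set A : ℕ → FF k M := fun l => ψ (MvPolynomial.rename Sum.inl (ea i a l)) with hA
  have hA0 : ∀ l < i + 1, A l ≠ 0 := by
    intro l hl h0
    have h1 := hψ0 _ h0
    rw [map_eq_zero_iff _ (MvPolynomial.rename_injective _ Sum.inl_injective)] at h1
    unfold ea at h1
    split_ifs at h1 with h
    · rw [map_eq_zero_iff _ (MvPolynomial.rename_injective _ Sum.inl_injective)] at h1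
      exact ha l h h1
    · exact MvPolynomial.X_ne_zero _ h1
  have hD : DD A i (fun m => ψ (MvPolynomial.rename Sum.inl (ev k n i m))) =
      ψ (MvPolynomial.rename Sum.inl (eD i a)) := by
    have := DD_map (ψ.comp (MvPolynomial.rename Sum.inl : MvPolynomial (V0 n i) k →ₐ[k]
      MvPolynomial (V1 n i) k).toRingHom) (ea i a) i (ev k n i)
    exact this
  have hPe : ψ (MvPolynomial.rename Sum.inl (eP i a p0 p1)) =
      ψ (MvPolynomial.rename Sum.inl (atD i a p0)) ^ 2 -
        DD A i (fun m => ψ (MvPolynomial.rename Sum.inl (ev k n i m))) *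
        ψ (MvPolynomial.rename Sum.inl (atD i a p1)) ^ 2 := by
    rw [hD]
    unfold eP
    rw [map_sub, map_pow, map_mul, map_pow, map_sub, map_pow, map_mul, map_pow]
  have hP0 : ψ (MvPolynomial.rename Sum.inl (eP i a p0 p1)) ≠ 0 := by
    intro h0
    have h1 := hψ0 _ h0
    rw [map_eq_zero_iff _ (MvPolynomial.rename_injective _ Sum.inl_injective)] at h1
    exact eP_ne hi (ha 0 (by omega)) hp1 h1
  have hdet : (pcd A (i + 1)).det ≠ 0 := by
    unfold pcd
    rw [Matrix.det_diagonal]
    exact prod_ne_zero_iff.2 fun m _ => pc_ne A (i + 1) hA0 m m.2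
  have hN : 2 ≤ 2 ^ (i + 1) := by
    calc 2 = 2 ^ 1 := rfl
      _ ≤ 2 ^ (i + 1) := Nat.pow_le_pow_right (by norm_num) (by omega)
  obtain ⟨z, hz0, hz⟩ := isotropic_of_unramified k M hN (pcd A (i + 1))
    (by unfold pcd; exact Matrix.isSymm_diagonal _) hdet (fun O hO => by
      rw [← um_fin]
      have := hO.1
      refine um_key (two_unit h2 hO.2) A (by omega) hA0
        (fun m => if m = 0 then e (algebraMap KX (FF KX r) y) else ψ (eu k n i m))
        (fun m => ψ (MvPolynomial.rename Sum.inl (ev k n i m)))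
        (ψ (MvPolynomial.rename Sum.inl (atD i a p0)))
        (ψ (MvPolynomial.rename Sum.inl (atD i a p1))) ?_ ?_
      · rw [← hPe]
        exact hP0
      · rw [← hPe]
        exact hrel)
  have h5 := an_lift_ff han r
  rw [an_iff] at h5
  have h6 := h5 (fun m => e.symm (z m)) (by
    have h7 : ∑ m : Fin (2 ^ (i + 1)), pc A (i + 1) m * z m ^ 2 = 0 := by
      rw [← hz]
      unfold pcd dotProduct
      refine sum_congr rfl fun m _ => ?_
      rw [Matrix.mulVec_diagonal]
      ring
    have h8 := congrArg e.symm h7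
    rw [map_sum, map_zero] at h8
    rw [← h8]
    refine sum_congr rfl fun m _ => ?_
    rw [map_mul, map_pow]
    congr 1
    have h9 := pc_map (e.symm : FF k M →+* FF KX r) A (i + 1) m
    refine Eq.trans ?_ h9
    congr 1
    funext l
    show _ = e.symm (e _)
    rw [AlgEquiv.symm_apply_apply]
    rfl)
  apply hz0
  funext m
  have := congrFun h6 m
  rw [Pi.zero_apply, EmbeddingLike.map_eq_zero_iff] at this
  exact this

end

end Pool.Agent.H901
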