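import Mathlib

/-!
The definitions of the main statement: systems of polynomial equations over the algebraic numbers
given by lists of numbers, their coordinate rings, rationality, and Pfister forms.
-/

set_option autoImplicit false

namespace Pool.Agent.H901

open MvPolynomial

/-- the field of the algebraic numbers -/
abbrev Qb : Type := AlgebraicClosure ℚ

/-- A polynomial is given by the list of its terms `(c, w)`; here `c` is the code of the coefficient
and `w` is the list of the variables whose product is the monomial. -/
abbrev Poly : Type := List (ℕ × List ℕ)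

/-- A system of equations: the number of the variables and the list of the polynomials. -/
abbrev Sys : Type := ℕ × List Poly

/-- the polynomial given by `f`, if `ν c` is the algebraic number with the code `c` -/
noncomputable def val (ν : ℕ → Qb) (f : Poly) : MvPolynomial ℕ Qb :=
  (f.map (fun t => C (ν t.1) * (t.2.map X).prod)).sum

/-- the polynomials of the system, and the variables which do not belong to it -/
def eqs (ν : ℕ → Qb) (S : Sys) : Set (MvPolynomial ℕ Qb) :=
  {q | (∃ f ∈ S.2, q = val ν f) ∨ ∃ j, S.1 ≤ j ∧ q = X j}

/-- the coordinate ring: the polynomials in `x_0, x_1, …` modulo the polynomials of the system and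
the variables `x_j` with `j ≥ n`, where `n` is the number of the variables -/
abbrev CR (ν : ℕ → Qb) (S : Sys) : Type := MvPolynomial ℕ Qb ⧸ Ideal.span (eqs ν S)

/-- The system gives a variety: only the variables of the system occur, and the coordinate ring is a
domain. -/
def IsVar (ν : ℕ → Qb) (S : Sys) : Prop :=
  (∀ f ∈ S.2, ∀ t ∈ f, ∀ j ∈ t.2, j < S.1) ∧ IsDomain (CR ν S)

/-- The variety with the coordinate ring `A` is rational: the function field is purely transcendental
over the field of the algebraic numbers. -/
def RatA (A : Type) [CommRing A] [Algebra Qb A] : Prop :=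
  ∃ d : ℕ, Nonempty (FractionRing A ≃ₐ[Qb] FractionRing (MvPolynomial (Fin d) Qb))

/-- The variety is stably rational: the function field `K` becomes purely transcendental over the
field of the algebraic numbers after adjoining `r` variables, for some `r`. -/
def StabA (A : Type) [CommRing A] [Algebra Qb A] : Prop :=
  ∃ r d : ℕ, Nonempty (FractionRing (MvPolynomial (Fin r) (FractionRing A)) ≃ₐ[Qb]
    FractionRing (MvPolynomial (Fin d) Qb))

/-- The variety is unirational: the function field embeds in a purely transcendental field. -/
def UniA (A : Type) [CommRing A] [Algebra Qb A] : Prop :=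
  ∃ d : ℕ, Nonempty (FractionRing A →ₐ[Qb] FractionRing (MvPolynomial (Fin d) Qb))

/-- the coefficients (number `m < 2 ^ i`) of the Pfister form `<<a 0, …, a (i - 1)>>`, where
`<<a>> = <1, -a>`: the product of the `-a j` over the binary digits `1` of `m` -/
def pc {R : Type*} [CommRing R] (a : ℕ → R) : ℕ → ℕ → R
  | 0, _ => 1
  | i + 1, m => if m < 2 ^ i then pc a i m else -a i * pc a i (m - 2 ^ i)

/-- the values of the Pfister form `<<a 0, …, a (i - 1)>>` -/
def pq {R : Type*} [CommRing R] (a : ℕ → R) (i : ℕ) (z : ℕ → R) : R :=
  ∑ m ∈ Finset.range (2 ^ i), pc a i m * z m ^ 2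

/-- The Pfister form `<<a 0, …, a (i - 1)>>` has a nontrivial zero. -/
def Isot {K : Type} [CommRing K] (a : ℕ → K) (i : ℕ) : Prop :=
  ∃ z : ℕ → K, (∃ m < 2 ^ i, z m ≠ 0) ∧ pq a i z = 0

/-- the coordinate function `x_j` as an element of the function field -/
noncomputable def fx (ν : ℕ → Qb) (S : Sys) (j : ℕ) : FractionRing (CR ν S) :=
  algebraMap (CR ν S) (FractionRing (CR ν S)) (Ideal.Quotient.mk _ (X j))

/-- The Pfister form `<<x_0, …, x_(i-1)>>` has a nontrivial zero over the function field of the
hypersurface `p = 0` in the affine space with the coordinates `x_0, …, x_n`. -/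
def Sect (ν : ℕ → Qb) (i n : ℕ) (p : Poly) : Prop :=
  Isot (fx ν (n + 1, [p])) i

/-- the variety given by the system is rational -/
def Rational (ν : ℕ → Qb) (S : Sys) : Prop := RatA (CR ν S)

/-- the variety given by the system is stably rational -/
def StablyRational (ν : ℕ → Qb) (S : Sys) : Prop := StabA (CR ν S)

/-- the variety given by the system is unirational -/
def Unirational (ν : ℕ → Qb) (S : Sys) : Prop := UniA (CR ν S)

/-- the variety given by the system has the dimension `d` -/
def HasDim (ν : ℕ → Qb) (S : Sys) (d : ℕ) : Prop :=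
  Algebra.trdeg Qb (FractionRing (CR ν S)) = (d : Cardinal)

/-- The polynomial `p` defines an integral hypersurface in the affine space with the coordinates
`x_0, …, x_n`, where `i ≤ n`, and the variable `x_n` occurs in `p`. -/
def Hyp (ν : ℕ → Qb) (i n : ℕ) (p : Poly) : Prop :=
  i ≤ n ∧ IsVar ν (n + 1, [p]) ∧ n ∈ (val ν p).vars

/-- For all hypersurfaces `p = 0` the system `f (n, p)` defines a unirational variety of dimension
`n + 2 ^ (i + 1)`, and it is rational if and only if it is stably rational, if and only if the
Pfister form `<<x_0, …, x_(i-1)>>` is isotropic over the function field of `p = 0`. -/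
def Reduces (ν : ℕ → Qb) (i : ℕ) (f : ℕ × Poly → Sys) : Prop :=
  ∀ (n : ℕ) (p : Poly), Hyp ν i n p →
    IsVar ν (f (n, p)) ∧ Unirational ν (f (n, p)) ∧ HasDim ν (f (n, p)) (n + 2 ^ (i + 1)) ∧
    [Rational ν (f (n, p)), StablyRational ν (f (n, p)), Sect ν i n p].TFAE

/-- Every Pfister form `<<a_0, …, a_(i-1)>>` with nonzero entries over a finitely generated extension
field `F` of the field of the algebraic numbers is isotropic if and only if `<<x_0, …, x_(i-1)>>` is
isotropic over the function field of `p = 0` for a suitable hypersurface `p = 0` of dimension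
`i + dim F`. -/
def Covers (ν : ℕ → Qb) (i : ℕ) : Prop :=
  ∀ (F : Type) [Field F] [Algebra Qb F] [Algebra.EssFiniteType Qb F] (a : ℕ → F),
    (∀ j < i, a j ≠ 0) → ∃ (n : ℕ) (p : Poly), Hyp ν i n p ∧
      (n : Cardinal) = i + Algebra.trdeg Qb F ∧ (Sect ν i n p ↔ Isot a i)

/-- the conic `a A² + b B² = C²` has a point -/
def Conic {K : Type} [CommRing K] (a b : K) : Prop :=
  ∃ A B C : K, (A ≠ 0 ∨ B ≠ 0 ∨ C ≠ 0) ∧ a * A ^ 2 + b * B ^ 2 = C ^ 2

/-- The partial function `φ` decides rationality for the unirational varieties of dimension `d`. -/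
def DecidesRat (ν : ℕ → Qb) (φ : Sys →. Bool) (d : ℕ) : Prop :=
  ∀ S : Sys, IsVar ν S → Unirational ν S → HasDim ν S d → ∃ b ∈ φ S, (b = true ↔ Rational ν S)

/-- The partial function `ψ` decides whether the Pfister form `<<x_0, …, x_(i-1)>>` is isotropic over
the function field of a hypersurface `p = 0` in the affine space with the coordinates
`x_0, …, x_n`. -/
def DecidesIsot (ν : ℕ → Qb) (i : ℕ) (ψ : ℕ × Poly →. Bool) (n : ℕ) : Prop :=
  ∀ p : Poly, Hyp ν i n p → ∃ b ∈ ψ (n, p), (b = true ↔ Sect ν i n p)

end Pool.Agent.H901
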