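import Mathlib
import Pool.Graph.R_seed8.H918R3.TCP
import Pool.Graph.R_seed8.H918R3.TFR

/-!
Diagonal forms over fields of rational functions in several variables: anisotropy, cancellation.
-/

set_option autoImplicit false

namespace Pool.Agent.H901

open Finset Pool.Agent.H918R3

/-- the field of rational functions in `s` variables -/
abbrev FF (K : Type) [Field K] (s : ℕ) : Type := FractionRing (MvPolynomial (Fin s) K)

section

variable {K : Type} [Field K]

/-- the variable `j` -/
noncomputable def xx (K : Type) [Field K] {s : ℕ} (j : Fin s) : FF K s :=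
  algebraMap (MvPolynomial (Fin s) K) (FF K s) (MvPolynomial.X j)

theorem ff_zero (z : FF K 0) : ∃ c : K, algebraMap K (FF K 0) c = z := by
  have hf : IsField (MvPolynomial (Fin 0) K) :=
    MulEquiv.isField (Field.toIsField K) (MvPolynomial.isEmptyAlgEquiv K (Fin 0)).toMulEquiv
  have hs : Function.Surjective (algebraMap (MvPolynomial (Fin 0) K) (FF K 0)) :=
    IsFractionRing.surjective_iff_isField.mpr hf
  obtain ⟨p, rfl⟩ := hs z
  refine ⟨MvPolynomial.isEmptyAlgEquiv K (Fin 0) p, ?_⟩
  rw [IsScalarTower.algebraMap_apply K (MvPolynomial (Fin 0) K) (FF K 0)]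
  congr 1
  change MvPolynomial.C _ = _
  apply (MvPolynomial.isEmptyAlgEquiv K (Fin 0)).injective
  have := (MvPolynomial.isEmptyAlgEquiv K (Fin 0)).commutes
    (MvPolynomial.isEmptyAlgEquiv K (Fin 0) p)
  exact this

/-- the constants under the equivalence -/
theorem frac_const {s : ℕ} (e : FF K (s + 1) ≃ₐ[K] RatFunc (FF K s)) (c : K) :
    e (algebraMap K _ c) = RatFunc.C (algebraMap K (FF K s) c) := by
  rw [e.commutes]
  rw [IsScalarTower.algebraMap_apply K (FF K s) (RatFunc (FF K s))]
  rfl

theorem an_ff {n : ℕ} (a : Fin n → K) (han : ∀ v : Fin n → K, ∑ i, a i * v i ^ 2 = 0 → v = 0)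
    (s : ℕ) : ∀ v : Fin n → FF K s, ∑ i, algebraMap K (FF K s) (a i) * v i ^ 2 = 0 → v = 0 := by
  induction s with
  | zero =>
    intro v hv
    choose w hw using fun i => ff_zero (v i)
    have h1 : w = 0 := by
      apply han
      apply (algebraMap K (FF K 0)).injective
      rw [map_zero, ← hv, map_sum]
      refine sum_congr rfl fun i _ => ?_
      rw [map_mul, map_pow, hw]
    funext i
    rw [← hw i, h1]
    simp
  | succ s ih =>
    intro v hv
    obtain ⟨e, -, -⟩ := exists_fracEquiv K s
    have h := aniso_ratFunc _ ih (fun i => e (v i)) (by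
      rw [← map_zero e, ← hv, map_sum]
      refine sum_congr rfl fun i _ => ?_
      rw [map_mul, map_pow, frac_const])
    funext i
    have h1 := congrFun h i
    simpa using h1

/-- A rational function which is a value of an anisotropic form `b ⊥ c` and of the form
`∑ b j X_j ^ 2 + d` has `d` a value of `c`. -/
theorem cancel_ff (h2 : (2 : K) ≠ 0) (s : ℕ) : ∀ {m : ℕ} (b : Fin s → K) (c : Fin m → K)
    (_ : ∀ (y : Fin s → K) (z : Fin m → K), ∑ j, b j * y j ^ 2 + ∑ l, c l * z l ^ 2 = 0 →
      y = 0 ∧ z = 0) (d : K) (y : Fin s → FF K s) (z : Fin m → FF K s),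
    ∑ j, algebraMap K (FF K s) (b j) * xx K j ^ 2 + algebraMap K (FF K s) d =
      ∑ j, algebraMap K (FF K s) (b j) * y j ^ 2 + ∑ l, algebraMap K (FF K s) (c l) * z l ^ 2 →
    ∃ w : Fin m → K, ∑ l, c l * w l ^ 2 = d := by
  induction s with
  | zero =>
    intro m b c _ d y z h
    choose w hw using fun l => ff_zero (z l)
    refine ⟨w, ?_⟩
    apply (algebraMap K (FF K 0)).injective
    simp only [univ_eq_empty, sum_empty, zero_add] at h
    rw [h, map_sum]
    refine sum_congr rfl fun l _ => ?_
    rw [map_mul, map_pow, hw]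
  | succ s ih =>
    intro m b c han d y z h
    obtain ⟨e, he0, he1⟩ := exists_fracEquiv K s
    have h2' : (2 : FF K s) ≠ 0 := by
      intro h0
      apply h2
      apply (algebraMap K (FF K s)).injective
      rw [map_ofNat, h0, map_zero]
    -- anisotropy of the tail
    have han' : ∀ v : Fin (s + m + 1) → K,
        ∑ i, (Fin.cons (b 0) (Fin.append (fun j => b j.succ) c) : Fin (s + m + 1) → K) i * v i ^ 2
          = 0 → v = 0 := by
      intro v hv
      rw [Fin.sum_univ_succ, Fin.sum_univ_add] at hv
      simp only [Fin.cons_zero, Fin.cons_succ, Fin.append_left, Fin.append_right] at hv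
      obtain ⟨h3, h4⟩ := han (Fin.cons (v 0) (fun j => v (Fin.castAdd m j).succ))
        (fun l => v (Fin.natAdd s l).succ) (by
          rw [Fin.sum_univ_succ]
          simp only [Fin.cons_zero, Fin.cons_succ]
          rw [← hv]
          ring)
      funext i
      refine Fin.cases ?_ (fun i => ?_) i
      · exact congrFun h3 0
      · refine Fin.addCases (fun j => ?_) (fun l => ?_) i
        · have := congrFun h3 j.succ
          simpa using this
        · exact congrFun h4 l
    have han'' := an_ff _ han' s
    obtain ⟨w, hw⟩ := diag_cancel h2' _ han''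
      (∑ j, algebraMap K (FF K s) (b (Fin.succ j)) * xx K j ^ 2 + algebraMap K (FF K s) d)
      (Fin.cons (e (y 0)) (Fin.append (fun j => e (y j.succ)) (fun l => e (z l)))) (by
        rw [Fin.sum_univ_succ, Fin.sum_univ_add]
        simp only [Fin.cons_zero, Fin.cons_succ, Fin.append_left, Fin.append_right]
        have h5 := congrArg e h
        rw [Fin.sum_univ_succ, Fin.sum_univ_succ] at h5
        simp only [map_add, map_mul, map_pow, map_sum, frac_const] at h5
        have e0 : e (xx K (0 : Fin (s + 1))) = RatFunc.X := he0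
        have e1 : ∀ j : Fin s, e (xx K j.succ) = RatFunc.C (xx K j) := he1
        simp only [e0, e1] at h5
        simp only [map_add, map_sum, map_mul, map_pow]
        linear_combination -h5)
    rw [Fin.sum_univ_add] at hw
    simp only [Fin.cons_succ, Fin.append_left, Fin.append_right] at hw
    refine ih (fun j => b j.succ) c (fun y z hyz => ?_) d _ _ hw.symm
    obtain ⟨h3, h4⟩ := han (Fin.cons 0 y) z (by
      rw [Fin.sum_univ_succ]
      simp only [Fin.cons_zero, Fin.cons_succ]
      linear_combination hyz)
    refine ⟨?_, h4⟩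
    funext j
    have := congrFun h3 j.succ
    simpa using this

end

end Pool.Agent.H901
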