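import Mathlib

/-!
The function field of the hypersurface `u₀² = d`, where `d` is a polynomial in the other variables.
(The proof follows `R_seed8/H918R3/THYP.lean`.)
-/

set_option autoImplicit false

namespace Pool.Agent.H901

open Polynomial

section

variable {k : Type} [Field k] {τ : Type}

/-- the polynomial `u₀² - d` -/
noncomputable def hG (d : MvPolynomial τ k) : MvPolynomial (Option τ) k :=
  MvPolynomial.X none ^ 2 - MvPolynomial.rename some d

/-- the coordinate ring of the hypersurface `u₀² = d` -/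
abbrev HQ (d : MvPolynomial τ k) : Type := MvPolynomial (Option τ) k ⧸ Ideal.span {hG d}

theorem fse_rename (f : MvPolynomial τ k) :
    MvPolynomial.optionEquivLeft k τ (MvPolynomial.rename some f) = C f := by
  have h : ((MvPolynomial.optionEquivLeft k τ).toAlgHom.comp (MvPolynomial.rename some) :
      MvPolynomial τ k →ₐ[k] (MvPolynomial τ k)[X]) =
      (Polynomial.CAlgHom : MvPolynomial τ k →ₐ[MvPolynomial τ k]
        (MvPolynomial τ k)[X]).restrictScalars k := by
    apply MvPolynomial.algHom_ext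
    intro i
    simp [MvPolynomial.optionEquivLeft_X_some]
  have := congrArg (fun φ => φ f) h
  simpa using this

theorem fse_hG (d : MvPolynomial τ k) :
    MvPolynomial.optionEquivLeft k τ (hG d) = X ^ 2 - C d := by
  unfold hG
  rw [map_sub, map_pow, MvPolynomial.optionEquivLeft_X_none, fse_rename]

theorem irr_hG (d : MvPolynomial τ k)
    (hd : ¬ IsSquare (algebraMap (MvPolynomial τ k) (FractionRing (MvPolynomial τ k)) d)) :
    Irreducible (hG d) := by
  have h1 : Irreducible (X ^ 2 - C d : (MvPolynomial τ k)[X]) := by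
    have hm : (X ^ 2 - C d : (MvPolynomial τ k)[X]).Monic :=
      monic_X_pow_sub_C d (by norm_num)
    rw [hm.irreducible_iff_irreducible_map_fraction_map
      (K := FractionRing (MvPolynomial τ k))]
    rw [Polynomial.map_sub, Polynomial.map_pow, map_X, map_C]
    apply X_pow_sub_C_irreducible_of_prime Nat.prime_two
    intro b hb
    exact hd ⟨b, by rw [← hb]; ring⟩
  rw [← fse_hG] at h1
  exact (MulEquiv.irreducible_iff (MvPolynomial.optionEquivLeft k τ)).1 h1

theorem hG_dvd_zero (d f : MvPolynomial τ k) (h : hG d ∣ MvPolynomial.rename some f) : f = 0 := by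
  have h1 : (X ^ 2 - C d : (MvPolynomial τ k)[X]) ∣ C f := by
    obtain ⟨q, hq⟩ := h
    refine ⟨MvPolynomial.optionEquivLeft k τ q, ?_⟩
    rw [← fse_hG, ← fse_rename, ← map_mul, hq]
  by_contra hf
  have h2 := Polynomial.natDegree_le_of_dvd h1 (by simpa using hf)
  rw [natDegree_X_pow_sub_C, natDegree_C] at h2
  omega

end

/-- the function field of `u₀² = d` -/
theorem hyp {k : Type} [Field k] {τ : Type} (d : MvPolynomial τ k)
    (hd : ¬ IsSquare (algebraMap (MvPolynomial τ k) (FractionRing (MvPolynomial τ k)) d)) :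
    Irreducible (hG d) ∧ IsDomain (HQ d) ∧
    ∃ (j : FractionRing (MvPolynomial τ k) →ₐ[k] FractionRing (HQ d)) (y : FractionRing (HQ d)),
      y = algebraMap (HQ d) _ (Ideal.Quotient.mk _ (MvPolynomial.X none)) ∧
      (∀ f : MvPolynomial τ k, j (algebraMap _ _ f) =
        algebraMap (HQ d) _ (Ideal.Quotient.mk _ (MvPolynomial.rename some f))) ∧
      y ^ 2 = j (algebraMap _ _ d) ∧
      (∀ a b, j a + j b * y = 0 → a = 0 ∧ b = 0) ∧ (∀ z, ∃ a b, z = j a + j b * y) := by
  have hirr := irr_hG d hd
  have hprime : Prime (hG d) := hirr.prime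
  have hdom : IsDomain (HQ d) := by
    have : (Ideal.span {hG d}).IsPrime :=
      (Ideal.span_singleton_prime hprime.ne_zero).2 hprime
    exact Ideal.Quotient.isDomain _
  refine ⟨hirr, hdom, ?_⟩
  -- the inclusion of the polynomial ring
  let ι : MvPolynomial τ k →ₐ[k] HQ d :=
    (Ideal.Quotient.mkₐ k (Ideal.span {hG d})).comp (MvPolynomial.rename some)
  have hι : ∀ f, ι f = Ideal.Quotient.mk _ (MvPolynomial.rename some f) := fun f => rfl
  have hι0 : ∀ f, ι f = 0 → f = 0 := by
    intro f hf
    rw [hι, Ideal.Quotient.eq_zero_iff_mem, Ideal.mem_span_singleton] at hf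
    exact hG_dvd_zero d f hf
  let ι' : MvPolynomial τ k →ₐ[k] FractionRing (HQ d) :=
    (IsScalarTower.toAlgHom k (HQ d) (FractionRing (HQ d))).comp ι
  have hι' : ∀ f, ι' f = algebraMap (HQ d) _ (Ideal.Quotient.mk _
      (MvPolynomial.rename some f)) := fun f => rfl
  have hunit : ∀ f : nonZeroDivisors (MvPolynomial τ k), IsUnit (ι' f) := by
    intro f
    have hf0 : (f : MvPolynomial τ k) ≠ 0 := nonZeroDivisors.ne_zero f.2
    have hm : ι (f : MvPolynomial τ k) ∈ nonZeroDivisors (HQ d) :=
      mem_nonZeroDivisors_of_ne_zero (fun h => hf0 (hι0 _ h))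
    exact IsLocalization.map_units (FractionRing (HQ d))
      (⟨ι (f : MvPolynomial τ k), hm⟩ : nonZeroDivisors (HQ d))
  let j : FractionRing (MvPolynomial τ k) →ₐ[k] FractionRing (HQ d) :=
    IsLocalization.liftAlgHom (M := nonZeroDivisors (MvPolynomial τ k)) (f := ι') hunit
  have hj : ∀ f : MvPolynomial τ k, j (algebraMap _ _ f) = ι' f := by
    intro f
    exact IsLocalization.lift_eq _ f
  set y : FractionRing (HQ d) := algebraMap (HQ d) _ (Ideal.Quotient.mk _ (MvPolynomial.X none))
    with hy
  have hy2 : y ^ 2 = j (algebraMap _ _ d) := by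
    rw [hj, hι', hy, ← map_pow, ← map_pow]
    congr 1
    rw [Ideal.Quotient.eq, Ideal.mem_span_singleton]
    exact dvd_refl _
  have hnt : Nontrivial (FractionRing (HQ d)) := inferInstance
  have hj0 : ∀ a, j a = 0 → a = 0 := by
    intro a ha
    exact (map_eq_zero_iff (j : FractionRing (MvPolynomial τ k) →+* FractionRing (HQ d))
      (RingHom.injective _)).1 ha
  have hnorm : ∀ a b : FractionRing (MvPolynomial τ k),
      a ^ 2 - b ^ 2 * algebraMap _ _ d = 0 → a = 0 ∧ b = 0 := by
    intro a b hab
    by_cases hb : b = 0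
    · subst hb
      refine ⟨?_, rfl⟩
      simpa using hab
    · exfalso
      apply hd
      refine ⟨a / b, ?_⟩
      field_simp
      linear_combination - hab
  have hind : ∀ a b, j a + j b * y = 0 → a = 0 ∧ b = 0 := by
    intro a b hab
    apply hnorm
    apply hj0
    rw [map_sub, map_mul, map_pow, map_pow, ← hy2]
    linear_combination (j a - j b * y) * hab
  refine ⟨j, y, rfl, fun f => by rw [hj, hι'], hy2, hind, ?_⟩
  -- closure properties
  have hmem : ∀ p : MvPolynomial (Option τ) k, ∃ a b,
      algebraMap (HQ d) (FractionRing (HQ d)) (Ideal.Quotient.mk _ p) = j a + j b * y := by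
    intro p
    induction p using MvPolynomial.induction_on with
    | C a =>
      refine ⟨algebraMap (MvPolynomial τ k) _ (MvPolynomial.C a), 0, ?_⟩
      rw [hj, hι', MvPolynomial.rename_C, map_zero, zero_mul, add_zero]
    | add p q hp hq =>
      obtain ⟨a, b, h1⟩ := hp
      obtain ⟨a', b', h2⟩ := hq
      refine ⟨a + a', b + b', ?_⟩
      rw [map_add, map_add, h1, h2, map_add, map_add]
      ring
    | mul_X p i hp =>
      obtain ⟨a, b, h1⟩ := hp
      rw [map_mul, map_mul, h1]
      rcases i with _ | i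
      · refine ⟨b * algebraMap _ _ d, a, ?_⟩
        rw [← hy, map_mul, ← hy2]
        ring
      · refine ⟨a * algebraMap (MvPolynomial τ k) _ (MvPolynomial.X i),
          b * algebraMap (MvPolynomial τ k) _ (MvPolynomial.X i), ?_⟩
        rw [map_mul, map_mul, hj, hι', MvPolynomial.rename_X]
        ring
  intro z
  obtain ⟨⟨r, s⟩, hrs⟩ := IsLocalization.surj (nonZeroDivisors (HQ d)) z
  obtain ⟨r', rfl⟩ := Ideal.Quotient.mk_surjective r
  obtain ⟨s', hs'⟩ := Ideal.Quotient.mk_surjective (s : HQ d)
  obtain ⟨a, b, hab⟩ := hmem r'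
  obtain ⟨e, f, hef⟩ := hmem s'
  have hs0 : algebraMap (HQ d) (FractionRing (HQ d)) (Ideal.Quotient.mk _ s') ≠ 0 := by
    rw [hs']
    exact IsUnit.ne_zero (IsLocalization.map_units (FractionRing (HQ d)) s)
  set n : FractionRing (MvPolynomial τ k) := e ^ 2 - f ^ 2 * algebraMap _ _ d with hn
  have hn0 : n ≠ 0 := by
    intro h0
    obtain ⟨rfl, rfl⟩ := hnorm e f h0
    apply hs0
    rw [hef]
    simp
  have hjn : j n = (j e + j f * y) * (j e - j f * y) := by
    rw [hn, map_sub, map_mul, map_pow, map_pow, ← hy2]; ring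
  have hrs' : z * (j e + j f * y) = j a + j b * y := by
    rw [← hef, ← hab, hs']
    exact hrs
  have hinv : j n⁻¹ * j n = 1 := by
    rw [← map_mul, inv_mul_cancel₀ hn0, map_one]
  refine ⟨n⁻¹ * (a * e - b * f * algebraMap _ _ d), n⁻¹ * (b * e - a * f), ?_⟩
  rw [map_mul, map_mul, map_sub, map_sub, map_mul, map_mul, map_mul, map_mul, map_mul, ← hy2]
  have : z = j n⁻¹ * (z * (j e + j f * y)) * (j e - j f * y) := by
    calc z = (j n⁻¹ * j n) * z := by rw [hinv, one_mul]
      _ = _ := by rw [hjn]; ring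
  rw [this, hrs']
  ring

end Pool.Agent.H901
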