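import Pool.Agent.H901.PF

/-!
An anisotropic Pfister form represents a monic irreducible polynomial over which it is isotropic.
-/

set_option autoImplicit false

namespace Pool.Agent.H901

open Finset Polynomial

/-- the Pfister form is anisotropic -/
def An {R : Type*} [CommRing R] (a : ℕ → R) (i : ℕ) : Prop :=
  ∀ z : ℕ → R, pq a i z = 0 → ∀ m < 2 ^ i, z m = 0

section

variable {K : Type*} [Field K] (a : ℕ → K) (i : ℕ)

/-- the polynomial `f` is a value of the Pfister form, up to squares -/
def Dp (f : K[X]) : Prop :=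
  ∃ (w : ℕ → K[X]) (e : K[X]), e ≠ 0 ∧ pq (fun j => C (a j)) i w = f * e ^ 2

theorem exists_denom {n : ℕ} (z : ℕ → RatFunc K) : ∃ (e : K[X]) (w : ℕ → K[X]), e ≠ 0 ∧
    ∀ m < n, algebraMap K[X] (RatFunc K) e * z m = algebraMap K[X] (RatFunc K) (w m) := by
  classical
  obtain ⟨e, he⟩ := IsLocalization.exist_integer_multiples_of_finset (nonZeroDivisors K[X])
    ((range n).image z)
  choose! w hw using he
  refine ⟨e, fun m => w (z m), nonZeroDivisors.ne_zero e.2, fun m hm => ?_⟩
  have h := hw (z m) (mem_image_of_mem z (mem_range.2 hm))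
  rw [Algebra.smul_def] at h
  exact h.symm

variable {a i}

theorem dp_mul {f g : K[X]} (hf : Dp a i f) (hg : Dp a i g) : Dp a i (f * g) := by
  obtain ⟨w1, e1, h1, h1'⟩ := hf
  obtain ⟨w2, e2, h2, h2'⟩ := hg
  set φ := algebraMap K[X] (RatFunc K) with hφ
  obtain ⟨z, hz⟩ := pq_mul (fun j => φ (C (a j))) i (fun m => φ (w1 m)) (fun m => φ (w2 m))
  rw [pq_map φ (fun j => C (a j)), pq_map φ (fun j => C (a j)), ← map_mul] at hz
  obtain ⟨e, w, he, hw⟩ := exists_denom (n := 2 ^ i) z
  refine ⟨w, e1 * e2 * e, mul_ne_zero (mul_ne_zero h1 h2) he, ?_⟩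
  apply RatFunc.algebraMap_injective K
  change φ _ = φ _
  rw [← pq_map φ (fun j => C (a j))]
  have h3 : pq (fun j => φ (C (a j))) i (fun m => φ (w m)) =
      pq (fun j => φ (C (a j))) i (φ e • z) := by
    unfold pq
    refine sum_congr rfl fun m hm => ?_
    rw [Pi.smul_apply, smul_eq_mul, hw m (mem_range.1 hm)]
  rw [h3, pq_smul, hz, h1', h2']
  simp only [map_mul, map_pow]
  ring

theorem dp_const (z : ℕ → K) : Dp a i (C (pq a i z)) :=
  ⟨fun m => C (z m), 1, one_ne_zero, by rw [one_pow, mul_one, pq_map C]⟩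

theorem dp_sq {f q : K[X]} (hq : q ≠ 0) (h : Dp a i (f * q ^ 2)) : Dp a i f := by
  obtain ⟨w, e, he, hw⟩ := h
  exact ⟨w, q * e, mul_ne_zero hq he, by rw [hw]; ring⟩

theorem coeff_pq (g : ℕ → K[X]) (n : ℕ) (hg : ∀ m < 2 ^ i, (g m).natDegree ≤ n) :
    (pq (fun j => C (a j)) i g).coeff (2 * n) = pq a i (fun m => (g m).coeff n) ∧
      (pq (fun j => C (a j)) i g).natDegree ≤ 2 * n := by
  unfold pq
  constructor
  · rw [finsetSum_coeff]
    refine sum_congr rfl fun m hm => ?_
    rw [pc_map C, coeff_C_mul]
    congr 1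
    rw [pow_two, pow_two, two_mul]
    exact coeff_mul_add_eq_of_natDegree_le (hg m (mem_range.1 hm)) (hg m (mem_range.1 hm))
  · refine natDegree_sum_le_of_forall_le _ _ fun m hm => ?_
    rw [pc_map C]
    refine (natDegree_C_mul_le _ _).trans ?_
    exact natDegree_pow_le_of_le 2 (hg m (mem_range.1 hm))

/-- the leading term of a value -/
theorem lead_pq (han : An a i) (g : ℕ → K[X]) (hg : ∃ m < 2 ^ i, g m ≠ 0) :
    ∃ (n : ℕ) (z : ℕ → K), (∀ m < 2 ^ i, (g m).natDegree ≤ n) ∧ (∃ m < 2 ^ i, (g m).natDegree = n)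
      ∧ (pq (fun j => C (a j)) i g).natDegree = 2 * n ∧
      pq (fun j => C (a j)) i g ≠ 0 ∧
      (pq (fun j => C (a j)) i g).leadingCoeff = pq a i z := by
  classical
  obtain ⟨m0, hm0, hg0⟩ := hg
  obtain ⟨m1, hm1, hmax⟩ := exists_max_image ((range (2 ^ i)).filter (fun m => g m ≠ 0))
    (fun m => (g m).natDegree) ⟨m0, by simp [hm0, hg0]⟩
  rw [mem_filter, mem_range] at hm1
  have hle : ∀ m < 2 ^ i, (g m).natDegree ≤ (g m1).natDegree := by
    intro m hm
    by_cases h0 : g m = 0
    · rw [h0]; simp
    · exact hmax m (by simp [hm, h0])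
  obtain ⟨h1, h2⟩ := coeff_pq (a := a) (i := i) g _ hle
  have h3 : pq a i (fun m => (g m).coeff (g m1).natDegree) ≠ 0 := by
    intro h
    have h4 := han _ h m1 hm1.1
    have h5 : (g m1).leadingCoeff = 0 := h4
    exact hm1.2 (leadingCoeff_eq_zero.1 h5)
  have h4 : (pq (fun j => C (a j)) i g).natDegree = 2 * (g m1).natDegree :=
    natDegree_eq_of_le_of_coeff_ne_zero h2 (by rw [h1]; exact h3)
  refine ⟨(g m1).natDegree, fun m => (g m).coeff (g m1).natDegree, hle, ⟨m1, hm1.1, rfl⟩, h4,
    ?_, ?_⟩
  · intro h0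
    rw [h0, coeff_zero] at h1
    exact h3 h1.symm
  · rw [leadingCoeff, h4, h1]

/-- a polynomial is a value if its monic irreducible factors are and its leading coefficient is -/
theorem dp_of_factors (n : ℕ) : ∀ q : K[X], q.natDegree ≤ n → q ≠ 0 →
    (∀ r : K[X], r.Monic → Irreducible r → r ∣ q → Dp a i r) → Dp a i (C q.leadingCoeff) →
    Dp a i q := by
  induction n with
  | zero =>
    intro q hq _ _ hl
    have h1 := eq_C_of_natDegree_le_zero hq
    rw [h1, leadingCoeff_C] at hl
    rw [h1]
    exact hl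
  | succ n ih =>
    intro q hq h0 hr hl
    by_cases hd : q.natDegree = 0
    · exact ih q (by omega) h0 hr hl
    · have hnu : ¬ IsUnit q := fun hu => hd (natDegree_eq_zero_of_isUnit hu)
      obtain ⟨r, hrm, hri, q', hq'⟩ := exists_monic_irreducible_factor q hnu
      have hq0 : q' ≠ 0 := by rintro rfl; exact h0 (by rw [hq', mul_zero])
      have hdr : 0 < r.natDegree := hri.natDegree_pos
      have hdeg : q.natDegree = r.natDegree + q'.natDegree := by
        rw [hq', natDegree_mul hrm.ne_zero hq0]
      rw [hq']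
      refine dp_mul (hr r hrm hri ⟨q', hq'⟩) (ih q' (by omega) hq0 ?_ ?_)
      · intro r' h1 h2 h3
        exact hr r' h1 h2 (hq' ▸ Dvd.dvd.mul_left h3 r)
      · have : q.leadingCoeff = q'.leadingCoeff := by
          rw [hq', leadingCoeff_mul, hrm.leadingCoeff, one_mul]
        rw [← this]
        exact hl

theorem pq_mod (r : K[X]) (g : ℕ → K[X]) (h : r ∣ pq (fun j => C (a j)) i g) (g' : ℕ → K[X])
    (hg : ∀ m, r ∣ g m - g' m) : r ∣ pq (fun j => C (a j)) i g' := by
  have h1 : r ∣ pq (fun j => C (a j)) i g - pq (fun j => C (a j)) i g' := by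
    unfold pq
    rw [← sum_sub_distrib]
    refine dvd_sum fun m _ => ?_
    have : pc (fun j => C (a j)) i m * g m ^ 2 - pc (fun j => C (a j)) i m * g' m ^ 2 =
      (g m - g' m) * (pc (fun j => C (a j)) i m * (g m + g' m)) := by ring
    rw [this]
    exact Dvd.dvd.mul_right (hg m) _
  have h2 := dvd_sub h h1
  rwa [sub_sub_cancel] at h2

/-- An anisotropic Pfister form represents, up to squares, the monic irreducible polynomials `r`
over the root field of which it is isotropic. -/
theorem lam (han : An a i) (d : ℕ) : ∀ r : K[X], r.natDegree = d → Irreducible r → r.Monic →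
    ∀ g : ℕ → K[X], (∃ m < 2 ^ i, ¬ r ∣ g m) → r ∣ pq (fun j => C (a j)) i g → Dp a i r := by
  classical
  induction d using Nat.strong_induction_on with
  | _ d ih =>
    intro r hrd hr hrm g hg hrg
    -- reduce the degrees
    let S : Set ℕ := {n | ∃ g : ℕ → K[X], (∀ m < 2 ^ i, g m ≠ 0 → (g m).natDegree < d) ∧
      (∃ m < 2 ^ i, g m ≠ 0) ∧ r ∣ pq (fun j => C (a j)) i g ∧
      (pq (fun j => C (a j)) i g).natDegree = n}
    have hS : S.Nonempty := by
      obtain ⟨m, hm, hgm⟩ := hg
      refine ⟨_, fun m => g m %ₘ r, fun m _ h0 => ?_, ⟨m, hm, ?_⟩, ?_, rfl⟩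
      · have h1 := degree_modByMonic_lt (g m) hrm
        rw [← hrd]
        exact natDegree_lt_natDegree h0 h1
      · intro h0
        exact hgm ((modByMonic_eq_zero_iff_dvd hrm).1 h0)
      · refine pq_mod r g hrg _ fun m => ?_
        rw [← dvd_neg, neg_sub]
        refine ⟨-(g m /ₘ r), ?_⟩
        have := modByMonic_add_div (g m) r
        linear_combination this
    obtain ⟨g, hdeg, hne, hdvd, hmin⟩ := Nat.sInf_mem hS
    set n0 := sInf S with hn0
    obtain ⟨n, z, hle, ⟨m1, hm1, hm1'⟩, hfd, hf0, hlead⟩ := lead_pq han g hne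
    obtain ⟨q, hq⟩ := hdvd
    set f := pq (fun j => C (a j)) i g with hf
    have hq0 : q ≠ 0 := by rintro rfl; exact hf0 (by rw [hq, mul_zero])
    have hqd : f.natDegree = r.natDegree + q.natDegree := by
      rw [hq, natDegree_mul hrm.ne_zero hq0]
    have hdpos : 0 < d := hrd ▸ hr.natDegree_pos
    have hn : n < d := by
      by_cases h0 : g m1 = 0
      · rw [h0, natDegree_zero] at hm1'
        omega
      · have := hdeg m1 hm1 h0
        omega
    have hqlt : q.natDegree < d := by omega
    have hql : q.leadingCoeff = pq a i z := by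
      rw [← hlead, hq, leadingCoeff_mul, hrm.leadingCoeff, one_mul]
    have hDq : Dp a i q := by
      refine dp_of_factors q.natDegree q le_rfl hq0 ?_ ?_
      · intro r' hr'm hr'i hr'q
        have hr'd : r'.natDegree ≤ q.natDegree := natDegree_le_of_dvd hr'q hq0
        by_cases hall : ∀ m < 2 ^ i, r' ∣ g m
        · exfalso
          choose! g' hg' using hall
          have h1 : f = r' ^ 2 * pq (fun j => C (a j)) i g' := by
            rw [hf]
            unfold pq
            rw [mul_sum]
            refine sum_congr rfl fun m hm => ?_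
            rw [hg' m (mem_range.1 hm)]
            ring
          have hcop : IsCoprime r r' := by
            rw [hr.coprime_iff_not_dvd]
            intro hd
            have := natDegree_le_of_dvd hd hr'm.ne_zero
            omega
          have h2 : r ∣ pq (fun j => C (a j)) i g' := by
            have h3 : r ∣ r' ^ 2 * pq (fun j => C (a j)) i g' := by
              rw [← h1, hq]
              exact dvd_mul_right _ _
            exact (IsCoprime.pow_right hcop).dvd_of_dvd_mul_left h3
          have hP0 : pq (fun j => C (a j)) i g' ≠ 0 := by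
            intro h0
            rw [h0, mul_zero] at h1
            exact hf0 h1
          have h4 : f.natDegree = 2 * r'.natDegree + (pq (fun j => C (a j)) i g').natDegree := by
            rw [h1, natDegree_mul (pow_ne_zero _ hr'm.ne_zero) hP0, natDegree_pow]
          have h5 : n0 ≤ (pq (fun j => C (a j)) i g').natDegree := by
            refine Nat.sInf_le ⟨g', fun m hm h0 => ?_, ?_, h2, rfl⟩
            · have h6 : g m ≠ 0 := by
                rw [hg' m hm]
                exact mul_ne_zero hr'm.ne_zero h0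
              have h7 := hdeg m hm h6
              rw [hg' m hm, natDegree_mul hr'm.ne_zero h0] at h7
              omega
            · obtain ⟨m, hm, h6⟩ := hne
              refine ⟨m, hm, ?_⟩
              intro h0
              rw [hg' m hm, h0, mul_zero] at h6
              exact h6 rfl
          have h8 := hr'i.natDegree_pos
          omega
        · push Not at hall
          refine ih r'.natDegree (by omega) r' rfl hr'i hr'm g hall ?_
          rw [← hf, hq]
          exact Dvd.dvd.mul_left hr'q r
      · rw [hql]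
        exact dp_const z
    have hDf : Dp a i f := ⟨g, 1, one_ne_zero, by rw [one_pow, mul_one, ← hf]⟩
    have h9 := dp_mul hDf hDq
    refine dp_sq hq0 ?_
    have : f * q = r * q ^ 2 := by rw [hq]; ring
    rwa [this] at h9

end

end Pool.Agent.H901
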