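import Pool.Agent.H901.KEY
import Pool.Agent.H901.HYP
import Pool.Agent.H901.LAM
import Pool.Agent.H901.CAN

/-!
The equations of the hypersurface.
-/

set_option autoImplicit false

namespace Pool.Agent.H901

open Polynomial Finset

section Defs

variable (k : Type) [Field k] (n i : ℕ)

/-- the variables `x_j` and `v_m` -/
abbrev V0 : Type := Fin n ⊕ Fin (2 ^ i)

/-- the variables `x_j`, `v_m` and `u_m`, `m ≥ 1` -/
abbrev V1 : Type := (Fin n ⊕ Fin (2 ^ i)) ⊕ Fin (2 ^ i - 1)

variable {k n i}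

/-- the entries `a 0, …, a (i - 1), t`, where `t = v_0` -/
noncomputable def ea (i : ℕ) (a : ℕ → MvPolynomial (Fin n) k) (j : ℕ) :
    MvPolynomial (V0 n i) k :=
  if j < i then MvPolynomial.rename Sum.inl (a j) else MvPolynomial.X (Sum.inr ⟨0, by positivity⟩)

/-- the variables `v_m` -/
noncomputable def ev (k : Type) [Field k] (n i : ℕ) (m : ℕ) : MvPolynomial (V0 n i) k :=
  if h : m < 2 ^ i then MvPolynomial.X (Sum.inr ⟨m, h⟩) else 0

/-- the polynomial `D` -/
noncomputable def eD (i : ℕ) (a : ℕ → MvPolynomial (Fin n) k) : MvPolynomial (V0 n i) k :=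
  DD (ea i a) i (ev k n i)

/-- the value of a polynomial over `k[x]` at `D` -/
noncomputable def atD (i : ℕ) (a : ℕ → MvPolynomial (Fin n) k)
    (f : (MvPolynomial (Fin n) k)[X]) : MvPolynomial (V0 n i) k :=
  f.eval₂ (MvPolynomial.rename Sum.inl : MvPolynomial (Fin n) k →ₐ[k] MvPolynomial (V0 n i) k)
    (eD i a)

/-- the polynomial `P` -/
noncomputable def eP (i : ℕ) (a : ℕ → MvPolynomial (Fin n) k)
    (p0 p1 : (MvPolynomial (Fin n) k)[X]) : MvPolynomial (V0 n i) k :=
  atD i a p0 ^ 2 - eD i a * atD i a p1 ^ 2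

/-- the variables `u_m`, `m ≥ 1` -/
noncomputable def eu (k : Type) [Field k] (n i : ℕ) (m : ℕ) : MvPolynomial (V1 n i) k :=
  if h : m - 1 < 2 ^ i - 1 then MvPolynomial.X (Sum.inr ⟨m - 1, h⟩) else 0

/-- the polynomial `d` such that the hypersurface is `u₀² = d` -/
noncomputable def ed (i : ℕ) (a : ℕ → MvPolynomial (Fin n) k)
    (p0 p1 : (MvPolynomial (Fin n) k)[X]) : MvPolynomial (V1 n i) k :=
  MvPolynomial.rename Sum.inl (ea i a i * eP i a p0 p1) -
    ∑ m ∈ Ico 1 (2 ^ i), pc (fun j => MvPolynomial.rename Sum.inl (ea i a j)) i m *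
      eu k n i m ^ 2

end Defs

section

variable {k : Type} [Field k] {n i : ℕ}

theorem four_le (hi : 2 ≤ i) : 4 ≤ 2 ^ i := by
  calc 4 = 2 ^ 2 := rfl
    _ ≤ 2 ^ i := Nat.pow_le_pow_right (by norm_num) hi

/-- the specialisation `v_1 = X`, `v_m = 0` otherwise -/
noncomputable def spv (k : Type) [Field k] (n i : ℕ) :
    MvPolynomial (V0 n i) k →ₐ[k] (MvPolynomial (Fin n) k)[X] :=
  MvPolynomial.aeval (Sum.elim (fun j => C (MvPolynomial.X j))
    (fun m : Fin (2 ^ i) => if (m : ℕ) = 1 then X else 0))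

theorem spv_inl (f : MvPolynomial (Fin n) k) :
    spv k n i (MvPolynomial.rename Sum.inl f) = C f := by
  unfold spv
  rw [MvPolynomial.aeval_rename]
  have h : (Sum.elim (fun j => C (MvPolynomial.X j))
      (fun m : Fin (2 ^ i) => if (m : ℕ) = 1 then X else 0) : V0 n i →
        (MvPolynomial (Fin n) k)[X]) ∘ Sum.inl = fun j => C (MvPolynomial.X j) := rfl
  rw [h]
  induction f using MvPolynomial.induction_on with
  | C a => rw [MvPolynomial.aeval_C]; rfl
  | add p q hp hq => rw [map_add, hp, hq, map_add]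
  | mul_X p j hp => rw [map_mul, hp, MvPolynomial.aeval_X, map_mul]

theorem spv_ea (a : ℕ → MvPolynomial (Fin n) k) (j : ℕ) :
    spv k n i (ea i a j) = if j < i then C (a j) else 0 := by
  unfold ea
  split_ifs with h
  · exact spv_inl _
  · unfold spv
    rw [MvPolynomial.aeval_X]
    simp

theorem spv_ev (m : ℕ) (hm : m < 2 ^ i) : spv k n i (ev k n i m) = if m = 1 then X else 0 := by
  unfold ev spv
  rw [dif_pos hm, MvPolynomial.aeval_X]
  rfl

theorem pc_one {R : Type*} [CommRing R] (a : ℕ → R) (i : ℕ) : pc a (i + 1) 1 = -a 0 := by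
  induction i with
  | zero => simp [pc]
  | succ i ih =>
    rw [pc, if_pos, ih]
    calc 1 < 2 := by norm_num
      _ = 2 ^ 1 := rfl
      _ ≤ 2 ^ (i + 1) := Nat.pow_le_pow_right (by norm_num) (by omega)

theorem pc_two {R : Type*} [CommRing R] (a : ℕ → R) (i : ℕ) : pc a (i + 2) 2 = -a 1 := by
  induction i with
  | zero => simp [pc]
  | succ i ih =>
    rw [pc, if_pos, ih]
    calc 2 < 4 := by norm_num
      _ = 2 ^ 2 := rfl
      _ ≤ 2 ^ (i + 2) := Nat.pow_le_pow_right (by norm_num) (by omega)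

theorem DD_map {R S : Type*} [CommRing R] [CommRing S] (φ : R →+* S) (a : ℕ → R) (i : ℕ)
    (v : ℕ → R) : DD (fun j => φ (a j)) i (fun m => φ (v m)) = φ (DD a i v) := by
  unfold DD dh
  simp only [map_neg, map_add, map_sum, map_mul, map_pow, map_prod, map_sub, map_one, pc_map]

theorem spv_eD (hi : 2 ≤ i) (a : ℕ → MvPolynomial (Fin n) k) :
    spv k n i (eD i a) = C (a 0) * X ^ 2 := by
  have h4 := four_le hi
  unfold eD
  have h := DD_map (spv k n i : MvPolynomial (V0 n i) k →+* (MvPolynomial (Fin n) k)[X]) (ea i a) i (ev k n i)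
  change _ = spv k n i _ at h
  rw [← h]
  unfold DD
  have h1 : (spv k n i : MvPolynomial (V0 n i) k →+* (MvPolynomial (Fin n) k)[X]) (ev k n i (2 ^ i - 1)) = 0 := by
    have := spv_ev (k := k) (n := n) (i := i) (2 ^ i - 1) (by omega)
    rw [if_neg (by omega)] at this
    exact this
  beta_reduce
  rw [h1]
  have h2 : ∑ m ∈ Ico 1 (2 ^ i - 1), pc (fun j => (spv k n i : MvPolynomial (V0 n i) k →+* (MvPolynomial (Fin n) k)[X])
      (ea i a j)) i m * (spv k n i : MvPolynomial (V0 n i) k →+* (MvPolynomial (Fin n) k)[X]) (ev k n i m) ^ 2 =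
      -(C (a 0) * X ^ 2) := by
    rw [sum_eq_single_of_mem 1]
    · obtain ⟨i', rfl⟩ : ∃ i', i = i' + 1 := ⟨i - 1, by omega⟩
      rw [pc_one]
      have e1 : (spv k n (i' + 1) : MvPolynomial (V0 n (i' + 1)) k →+* (MvPolynomial (Fin n) k)[X]) (ea (i' + 1) a 0) =
          C (a 0) := by
        have := spv_ea (k := k) (n := n) (i := i' + 1) a 0
        rw [if_pos (by omega)] at this
        exact this
      have e2 : (spv k n (i' + 1) : MvPolynomial (V0 n (i' + 1)) k →+* (MvPolynomial (Fin n) k)[X])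
          (ev k n (i' + 1) 1) = X := by
        have := spv_ev (k := k) (n := n) (i := i' + 1) 1 (by omega)
        rw [if_pos rfl] at this
        exact this
      rw [e1, e2]
      ring
    · rw [mem_Ico]; omega
    · intro m hm hm1
      rw [mem_Ico] at hm
      have : (spv k n i : MvPolynomial (V0 n i) k →+* (MvPolynomial (Fin n) k)[X]) (ev k n i m) = 0 := by
        have := spv_ev (k := k) (n := n) (i := i) m (by omega)
        rw [if_neg hm1] at this
        exact this
      rw [this]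
      ring
  rw [h2]
  ring

theorem spv_atD (hi : 2 ≤ i) (a : ℕ → MvPolynomial (Fin n) k)
    (f : (MvPolynomial (Fin n) k)[X]) :
    spv k n i (atD i a f) = f.comp (C (a 0) * X ^ 2) := by
  unfold atD
  have h := Polynomial.hom_eval₂ f (MvPolynomial.rename Sum.inl : MvPolynomial (Fin n) k →ₐ[k]
    MvPolynomial (V0 n i) k).toRingHom (spv k n i : MvPolynomial (V0 n i) k →+* (MvPolynomial (Fin n) k)[X]) (eD i a)
  have e1 : ((spv k n i : MvPolynomial (V0 n i) k →+* (MvPolynomial (Fin n) k)[X]).comp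
      (MvPolynomial.rename Sum.inl : MvPolynomial (Fin n) k →ₐ[k]
        MvPolynomial (V0 n i) k).toRingHom) = C := by
    apply RingHom.ext
    intro x
    exact spv_inl x
  rw [e1] at h
  refine h.trans ?_
  rw [comp]
  congr 1
  exact spv_eD hi a

theorem natDegree_comp_sq {R : Type*} [CommRing R] [IsDomain R] {c : R} (hc : c ≠ 0)
    (f : R[X]) : (f.comp (C c * X ^ 2)).natDegree = f.natDegree * 2 := by
  rw [natDegree_comp, natDegree_C_mul_X_pow _ _ hc]

theorem comp_sq_ne {R : Type*} [CommRing R] [IsDomain R] {c : R} (hc : c ≠ 0)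
    {f : R[X]} (hf : f ≠ 0) : f.comp (C c * X ^ 2) ≠ 0 := by
  intro h
  rw [comp_eq_zero_iff] at h
  rcases h with h | ⟨-, h⟩
  · exact hf h
  · have := congrArg natDegree h
    rw [natDegree_C_mul_X_pow _ _ hc, natDegree_C] at this
    omega

/-- `D` is transcendental over `k(x)` -/
theorem atD_ne (hi : 2 ≤ i) {a : ℕ → MvPolynomial (Fin n) k} (ha : a 0 ≠ 0)
    {f : (MvPolynomial (Fin n) k)[X]} (hf : f ≠ 0) : atD i a f ≠ 0 := by
  intro h
  have h1 := spv_atD hi a f
  rw [h, map_zero] at h1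
  exact comp_sq_ne ha hf h1.symm

theorem eP_ne (hi : 2 ≤ i) {a : ℕ → MvPolynomial (Fin n) k} (ha : a 0 ≠ 0)
    {p0 p1 : (MvPolynomial (Fin n) k)[X]} (h1 : p1 ≠ 0) : eP i a p0 p1 ≠ 0 := by
  intro h
  have h2 := congrArg (spv k n i) h
  unfold eP at h2
  rw [map_sub, map_pow, map_mul, map_pow, spv_atD hi, spv_atD hi, spv_eD hi, map_zero,
    sub_eq_zero] at h2
  have h3 := congrArg natDegree h2
  rw [natDegree_pow, natDegree_mul (mul_ne_zero (C_ne_zero.2 ha) (pow_ne_zero _ X_ne_zero))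
    (pow_ne_zero _ (comp_sq_ne ha h1)), natDegree_pow, natDegree_comp_sq ha, natDegree_comp_sq ha,
    natDegree_C_mul_X_pow _ _ ha] at h3
  omega

/-- the specialisation `u_1 = X`, `u_2 = 1`, and the other `u_m` and the `v_m` are zero -/
noncomputable def spu (k : Type) [Field k] (n i : ℕ) :
    MvPolynomial (V1 n i) k →ₐ[k] (MvPolynomial (Fin n) k)[X] :=
  MvPolynomial.aeval (Sum.elim (Sum.elim (fun j => C (MvPolynomial.X j)) (fun _ => 0))
    (fun m : Fin (2 ^ i - 1) => if (m : ℕ) = 0 then X else if (m : ℕ) = 1 then 1 else 0))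

theorem spu_inl (f : MvPolynomial (Fin n) k) :
    spu k n i (MvPolynomial.rename Sum.inl (MvPolynomial.rename Sum.inl f)) = C f := by
  unfold spu
  rw [MvPolynomial.rename_rename, MvPolynomial.aeval_rename]
  have h : (Sum.elim (Sum.elim (fun j => C (MvPolynomial.X j)) (fun _ => 0))
    (fun m : Fin (2 ^ i - 1) => if (m : ℕ) = 0 then X else if (m : ℕ) = 1 then 1 else 0) :
      V1 n i → (MvPolynomial (Fin n) k)[X]) ∘ (Sum.inl ∘ Sum.inl) =
      fun j => C (MvPolynomial.X j) := rfl
  rw [h]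
  induction f using MvPolynomial.induction_on with
  | C a => rw [MvPolynomial.aeval_C]; rfl
  | add p q hp hq => rw [map_add, hp, hq, map_add]
  | mul_X p j hp => rw [map_mul, hp, MvPolynomial.aeval_X, map_mul]

theorem spu_ea (a : ℕ → MvPolynomial (Fin n) k) (j : ℕ) :
    spu k n i (MvPolynomial.rename Sum.inl (ea i a j)) = if j < i then C (a j) else 0 := by
  unfold ea
  split_ifs with h
  · exact spu_inl _
  · rw [MvPolynomial.rename_X]
    unfold spu
    rw [MvPolynomial.aeval_X]
    rfl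

theorem spu_eu (m : ℕ) (hm : m < 2 ^ i) (hm1 : 1 ≤ m) :
    spu k n i (eu k n i m) = if m = 1 then X else if m = 2 then 1 else 0 := by
  unfold eu spu
  rw [dif_pos (by omega), MvPolynomial.aeval_X]
  change (if m - 1 = 0 then X else if m - 1 = 1 then 1 else 0 : (MvPolynomial (Fin n) k)[X]) = _
  by_cases h1 : m = 1
  · rw [if_pos (by omega), if_pos h1]
  · rw [if_neg (by omega), if_neg h1]
    by_cases h2 : m = 2
    · rw [if_pos (by omega), if_pos h2]
    · rw [if_neg (by omega), if_neg h2]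

theorem spu_ed (hi : 2 ≤ i) (a : ℕ → MvPolynomial (Fin n) k)
    (p0 p1 : (MvPolynomial (Fin n) k)[X]) :
    spu k n i (ed i a p0 p1) = C (a 0) * X ^ 2 + C (a 1) := by
  have h4 := four_le hi
  unfold ed
  rw [map_sub, map_mul, map_mul, spu_ea, if_neg (lt_irrefl i), zero_mul, zero_sub, map_sum]
  have e : ∀ m, spu k n i (pc (fun j => MvPolynomial.rename Sum.inl (ea i a j)) i m) =
      pc (fun j => if j < i then C (a j) else 0) i m := by
    intro m
    have h := pc_map (spu k n i : MvPolynomial (V1 n i) k →+* (MvPolynomial (Fin n) k)[X])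
      (fun j => MvPolynomial.rename Sum.inl (ea i a j)) i m
    refine h.symm.trans ?_
    congr 1
    funext j
    exact spu_ea a j
  have h1 : ∑ m ∈ Ico 1 (2 ^ i), spu k n i (pc (fun j => MvPolynomial.rename Sum.inl (ea i a j))
      i m * eu k n i m ^ 2) = ∑ m ∈ Ico 1 (2 ^ i), (if m = 1 then -(C (a 0) * X ^ 2) else
        if m = 2 then -C (a 1) else 0) := by
    refine sum_congr rfl fun m hm => ?_
    rw [mem_Ico] at hm
    rw [map_mul, map_pow, e, spu_eu m hm.2 hm.1]
    obtain ⟨i', rfl⟩ : ∃ i', i = i' + 2 := ⟨i - 2, by omega⟩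
    by_cases h1 : m = 1
    · rw [if_pos h1, if_pos h1, h1, pc_one, if_pos (by omega)]
      ring
    · rw [if_neg h1, if_neg h1]
      by_cases h2 : m = 2
      · rw [if_pos h2, if_pos h2, h2, pc_two, if_pos (by omega)]
        ring
      · rw [if_neg h2, if_neg h2]
        ring
  rw [h1, ← sum_erase_add _ _ (show 1 ∈ Ico 1 (2 ^ i) by rw [mem_Ico]; omega), if_pos rfl,
    ← sum_erase_add _ _ (show 2 ∈ (Ico 1 (2 ^ i)).erase 1 by rw [mem_erase, mem_Ico]; omega),
    if_neg (by norm_num), if_pos rfl, sum_eq_zero]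
  · ring
  · intro m hm
    rw [mem_erase, mem_erase] at hm
    rw [if_neg hm.2.1, if_neg hm.1]

theorem isSquare_of_frac {τ : Type} (d : MvPolynomial τ k)
    (h : IsSquare (algebraMap (MvPolynomial τ k) (FractionRing (MvPolynomial τ k)) d)) :
    IsSquare d := by
  obtain ⟨z, hz⟩ := h
  have hz2 : z ^ 2 = algebraMap (MvPolynomial τ k) (FractionRing (MvPolynomial τ k)) d := by
    rw [hz]; ring
  have hint : IsIntegral (MvPolynomial τ k) (z ^ 2) := by
    rw [hz2]; exact isIntegral_algebraMap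
  obtain ⟨w, hw⟩ := IsIntegrallyClosed.exists_algebraMap_eq_of_isIntegral_pow
    (by norm_num : 0 < 2) hint
  refine ⟨w, ?_⟩
  apply IsFractionRing.injective (MvPolynomial τ k) (FractionRing (MvPolynomial τ k))
  rw [map_mul, hw, hz]

theorem ed_not_square (hi : 2 ≤ i) (h2 : (2 : k) ≠ 0) {a : ℕ → MvPolynomial (Fin n) k}
    (ha : a 0 ≠ 0) (ha1 : a 1 ≠ 0) (p0 p1 : (MvPolynomial (Fin n) k)[X]) :
    ¬ IsSquare (algebraMap (MvPolynomial (V1 n i) k)
      (FractionRing (MvPolynomial (V1 n i) k)) (ed i a p0 p1)) := by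
  intro h
  obtain ⟨w, hw⟩ := isSquare_of_frac _ h
  have h1 := congrArg (spu k n i) hw
  rw [spu_ed hi, map_mul] at h1
  set f := spu k n i w with hf
  have hd : (C (a 0) * X ^ 2 + C (a 1)).natDegree = 2 := by
    rw [natDegree_add_C, natDegree_C_mul_X_pow _ _ ha]
  have hf0 : f ≠ 0 := by
    rintro h0
    rw [h0, mul_zero] at h1
    rw [h1, natDegree_zero] at hd
    omega
  have hfd : f.natDegree = 1 := by
    have := congrArg natDegree h1
    rw [hd, natDegree_mul hf0 hf0] at this
    omega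
  have e := eq_X_add_C_of_natDegree_le_one hfd.le
  have c0 := congrArg (fun g => coeff g 0) h1
  have c1 := congrArg (fun g => coeff g 1) h1
  have c2 := congrArg (fun g => coeff g 2) h1
  rw [e] at c0 c1 c2
  set α := f.coeff 1
  set β := f.coeff 0
  have e2 : (C α * X + C β) * (C α * X + C β) =
      C (α ^ 2) * X ^ 2 + C (2 * (α * β)) * X ^ 1 + C (β ^ 2) := by
    simp only [C_mul, C_pow, C_ofNat]
    ring
  rw [e2] at c0 c1 c2
  simp only [coeff_add, coeff_C_mul, coeff_X_pow, coeff_C] at c0 c1 c2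
  norm_num at c0 c1 c2
  have h22 : (2 : MvPolynomial (Fin n) k) ≠ 0 := by
    intro h0
    apply h2
    apply MvPolynomial.C_injective (Fin n) k
    rw [map_ofNat, h0, map_zero]
  rcases c1 with c1 | c1
  · exact h22 c1
  · rcases c1 with c1 | c1
    · rw [c1] at c2
      apply ha
      rw [c2]
      ring
    · rw [c1] at c0
      apply ha1
      rw [c0]
      ring

end

end Pool.Agent.H901
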