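import Pool.Agent.H901.SYS
import Pool.Agent.H901.FLD

/-!
The equations of the hypersurface as a system, computed from the polynomial `p`.
-/

set_option autoImplicit false

namespace Pool.Agent.H901

open Finset

section Templates

variable {B : Type*} [CommRing B]

/-- the first equation: `D` -/
def g1 (i : ℕ) (ξ : ℕ → B) : B :=
  ξ i - DD (fun j => if j < i then ξ j else ξ (i + 1)) i (fun m => ξ (i + 1 + m))

/-- the second equation: the hypersurface -/
def g2 (i : ℕ) (ξ : ℕ → B) : B :=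
  pq (fun j => if j < i then ξ j else ξ (i + 1)) i (fun m => ξ (i + 1 + 2 ^ i + m)) -
    ξ (i + 1) * (ξ (i + 1 + 2 * 2 ^ i) ^ 2 - ξ i * ξ (i + 2 + 2 * 2 ^ i) ^ 2)

theorem DD_congr2 {b b' : ℕ → B} {v v' : ℕ → B} {i : ℕ} (hb : ∀ j < i + 1, b j = b' j)
    (hv : ∀ m < 2 ^ i, v m = v' m) : DD b i v = DD b' i v' := by
  have hpc : ∀ (i' : ℕ), i' ≤ i → ∀ m, pc b i' m = pc b' i' m := by
    intro i' hi'
    induction i' with
    | zero => intro m; rfl
    | succ i' ih =>
      intro m
      rw [pc, pc, ih (by omega), ih (by omega), hb i' (by omega)]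
  have hdh : dh b i = dh b' i := by
    unfold dh
    congr 1
    · congr 1
      refine prod_congr rfl fun j hj => ?_
      rw [hb j (mem_range.1 hj)]
    · refine prod_congr rfl fun j hj => ?_
      rw [hb j (mem_range.1 hj)]
  have h0 : 0 < 2 ^ i := by positivity
  unfold DD
  rw [hdh, hpc i le_rfl, hv _ (by omega)]
  congr 2
  refine sum_congr rfl fun m hm => ?_
  rw [mem_Ico] at hm
  rw [hpc i le_rfl, hv m (by omega)]

theorem g1_congr {i : ℕ} {ξ ξ' : ℕ → B} (h : ∀ j < i + 3 + 2 * 2 ^ i, ξ j = ξ' j) :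
    g1 i ξ = g1 i ξ' := by
  have h0 : 0 < 2 ^ i := by positivity
  unfold g1
  rw [h i (by omega)]
  congr 1
  refine DD_congr2 (fun j hj => ?_) (fun m hm => h _ (by omega))
  split_ifs
  · exact h j (by omega)
  · exact h _ (by omega)

theorem g2_congr {i : ℕ} {ξ ξ' : ℕ → B} (h : ∀ j < i + 3 + 2 * 2 ^ i, ξ j = ξ' j) :
    g2 i ξ = g2 i ξ' := by
  have h0 : 0 < 2 ^ i := by positivity
  have e : (fun j => if j < i then ξ j else ξ (i + 1)) =
      fun j => if j < i then ξ' j else ξ' (i + 1) := by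
    funext j
    split_ifs with hj
    · exact h j (by omega)
    · exact h _ (by omega)
  unfold g2
  rw [e, h i (by omega), h (i + 1) (by omega), h (i + 1 + 2 * 2 ^ i) (by omega),
    h (i + 2 + 2 * 2 ^ i) (by omega)]
  congr 1
  unfold pq
  refine sum_congr rfl fun m hm => ?_
  rw [mem_range] at hm
  congr 2
  exact h _ (by omega)

theorem g1_map {B' : Type*} [CommRing B'] (φ : B →+* B') (i : ℕ) (ξ : ℕ → B) :
    g1 i (fun j => φ (ξ j)) = φ (g1 i ξ) := by
  unfold g1
  rw [map_sub, ← DD_map]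
  congr 2
  funext j
  split_ifs <;> rfl

theorem g2_map {B' : Type*} [CommRing B'] (φ : B →+* B') (i : ℕ) (ξ : ℕ → B) :
    g2 i (fun j => φ (ξ j)) = φ (g2 i ξ) := by
  unfold g2
  rw [map_sub, ← pq_map]
  simp only [map_mul, map_sub, map_pow]
  congr 2
  funext j
  split_ifs <;> rfl

end Templates

/-- a function whose values at the first `M` numbers are the variables -/
noncomputable def xi0 (M : ℕ) (j : ℕ) : MvPolynomial (Fin M) ℤ :=
  if h : j < M then MvPolynomial.X ⟨j, h⟩ else 0

theorem exists_list (i : ℕ) (G : (B : Type) → [CommRing B] → (ℕ → B) → B)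
    (hc : ∀ (B : Type) [CommRing B] (ξ ξ' : ℕ → B), (∀ j < i + 3 + 2 * 2 ^ i, ξ j = ξ' j) →
      G B ξ = G B ξ')
    (hm : ∀ (B B' : Type) [CommRing B] [CommRing B'] (φ : B →+* B') (ξ : ℕ → B),
      G B' (fun j => φ (ξ j)) = φ (G B ξ)) :
    ∃ L : IPoly, (∀ t ∈ L, ∀ j ∈ t.2, j < i + 3 + 2 * 2 ^ i) ∧
      ∀ (B : Type) [CommRing B] (ξ : ℕ → B), iev ξ L = G B ξ := by
  obtain ⟨L, h1, h2⟩ := exists_iev (G (MvPolynomial (Fin (i + 3 + 2 * 2 ^ i)) ℤ)
    (xi0 (i + 3 + 2 * 2 ^ i)))
  refine ⟨L, h1, fun B _ ξ => ?_⟩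
  rw [h2]
  have h3 := hm _ B (MvPolynomial.aeval (fun j : Fin (i + 3 + 2 * 2 ^ i) => ξ j) :
    MvPolynomial (Fin (i + 3 + 2 * 2 ^ i)) ℤ →ₐ[ℤ] B).toRingHom (xi0 (i + 3 + 2 * 2 ^ i))
  refine h3.symm.trans ?_
  apply hc
  intro j hj
  unfold xi0
  rw [dif_pos hj]
  exact MvPolynomial.aeval_X _ _

theorem exists_l1 (i : ℕ) : ∃ L : IPoly, (∀ t ∈ L, ∀ j ∈ t.2, j < i + 3 + 2 * 2 ^ i) ∧
    ∀ (B : Type) [CommRing B] (ξ : ℕ → B), iev ξ L = g1 i ξ :=
  exists_list i (fun _ _ ξ => g1 i ξ) (fun _ _ _ _ h => g1_congr h)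
    (fun _ _ _ _ φ ξ => g1_map φ i ξ)

theorem exists_l2 (i : ℕ) : ∃ L : IPoly, (∀ t ∈ L, ∀ j ∈ t.2, j < i + 3 + 2 * 2 ^ i) ∧
    ∀ (B : Type) [CommRing B] (ξ : ℕ → B), iev ξ L = g2 i ξ :=
  exists_list i (fun _ _ ξ => g2 i ξ) (fun _ _ _ _ h => g2_congr h)
    (fun _ _ _ _ φ ξ => g2_map φ i ξ)

/-- the list of the first equation -/
noncomputable def l1 (i : ℕ) : IPoly := (exists_l1 i).choose

/-- the list of the second equation -/
noncomputable def l2 (i : ℕ) : IPoly := (exists_l2 i).choose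

/-- the numbering of the variables of the first two equations -/
def tau (i n j : ℕ) : ℕ := if j < i then j else n + 1 + (j - i)

/-- the variables different from `n` -/
def rem (n : ℕ) (w : List ℕ) : List ℕ := w.flatMap (fun j => if j = n then [] else [j])

/-- the number of the variables equal to `n` -/
def cnt (n : ℕ) (w : List ℕ) : ℕ := (w.flatMap (fun j => if j = n then [0] else [])).length

/-- the equation for the even (`s = 0`) or the odd (`s = 1`) part -/
def yeq (i u' n s : ℕ) (p : Poly) : Poly :=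
  (u', [n + 2 + 2 * 2 ^ i + s]) ::
    p.map (fun t => (t.1, (n + 4 + 2 * 2 ^ i + s + 2 * cnt n t.2) :: rem n t.2))

/-- the equation for `A_(e+1)` -/
def aeq (i u u' n e : ℕ) : Poly :=
  [(u, [n + 4 + 2 * 2 ^ i + 2 * (e + 1)]), (u', [n, n + 4 + 2 * 2 ^ i + 2 * e]),
    (u', [n + 1, n + 5 + 2 * 2 ^ i + 2 * e])]

/-- the equation for `B_(e+1)` -/
def beq (i u u' n e : ℕ) : Poly :=
  [(u, [n + 5 + 2 * 2 ^ i + 2 * (e + 1)]), (u', [n + 4 + 2 * 2 ^ i + 2 * e]),
    (u', [n, n + 5 + 2 * 2 ^ i + 2 * e])]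

/-- a bound for the degree -/
def dgb (p : Poly) : ℕ := (p.flatMap (fun t => t.2)).length

/-- the system -/
noncomputable def fsys (i u u' : ℕ) (q : ℕ × Poly) : Sys :=
  (q.1 + 6 + 2 * 2 ^ i + 2 * dgb q.2,
    [inst u u' (tau i q.1) (l1 i), inst u u' (tau i q.1) (l2 i),
      [(u, [q.1 + 4 + 2 * 2 ^ i]), (u', [])], [(u, [q.1 + 5 + 2 * 2 ^ i])],
      yeq i u' q.1 0 q.2, yeq i u' q.1 1 q.2] ++
    ((List.range (dgb q.2)).map (fun e => aeq i u u' q.1 e) ++
      (List.range (dgb q.2)).map (fun e => beq i u u' q.1 e)))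

/-! ### the system is computable -/

theorem tau_prim (i : ℕ) : Primrec₂ (fun n j => tau i n j) := by
  unfold tau
  exact Primrec.ite (Primrec.nat_lt.comp Primrec.snd (Primrec.const i)) Primrec.snd
    (Primrec.nat_add.comp (Primrec.nat_add.comp Primrec.fst (Primrec.const 1))
      (Primrec.nat_sub.comp Primrec.snd (Primrec.const i)))

theorem inst_prim (i u u' : ℕ) (L : IPoly) : Primrec (fun n => inst u u' (tau i n) L) := by
  unfold inst
  refine Primrec.list_map (Primrec.const L) ?_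
  refine Primrec.pair ?_ ?_
  · exact Primrec.cond (Primrec.fst.comp Primrec.snd) (Primrec.const u) (Primrec.const u') |>.of_eq
      (fun x => by cases h : x.2.1 <;> simp)
  · exact Primrec.list_map (Primrec.snd.comp Primrec.snd)
      ((tau_prim i).comp (Primrec.fst.comp Primrec.fst) Primrec.snd)

theorem rem_prim : Primrec₂ rem := by
  unfold rem
  refine Primrec.list_flatMap Primrec.snd ?_
  exact Primrec.ite (Primrec.eq.comp Primrec.snd (Primrec.fst.comp Primrec.fst))
    (Primrec.const []) (Primrec.list_cons.comp Primrec.snd (Primrec.const []))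

theorem cnt_prim : Primrec₂ cnt := by
  unfold cnt
  refine Primrec.list_length.comp (Primrec.list_flatMap Primrec.snd ?_)
  exact Primrec.ite (Primrec.eq.comp Primrec.snd (Primrec.fst.comp Primrec.fst))
    (Primrec.const [0]) (Primrec.const [])

theorem dgb_prim : Primrec dgb := by
  unfold dgb
  exact Primrec.list_length.comp (Primrec.list_flatMap Primrec.id (Primrec.snd.comp Primrec.snd))

/-- a number plus a constant -/
theorem add_prim {α : Type*} [Primcodable α] {f : α → ℕ} (hf : Primrec f) (c : ℕ) :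
    Primrec (fun x => f x + c) := Primrec.nat_add.comp hf (Primrec.const c)

theorem yeq_prim (i u' s : ℕ) : Primrec (fun q : ℕ × Poly => yeq i u' q.1 s q.2) := by
  unfold yeq
  refine Primrec.list_cons.comp ?_ ?_
  · refine Primrec.pair (Primrec.const u') ?_
    refine Primrec.list_cons.comp ?_ (Primrec.const [])
    exact add_prim (add_prim (add_prim Primrec.fst 2) (2 * 2 ^ i)) s
  · refine Primrec.list_map Primrec.snd ?_
    refine Primrec.pair (Primrec.fst.comp Primrec.snd) ?_
    refine Primrec.list_cons.comp ?_ ?_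
    · refine Primrec.nat_add.comp ?_ ?_
      · exact add_prim (add_prim (add_prim (Primrec.fst.comp Primrec.fst) 4) (2 * 2 ^ i)) s
      · exact Primrec.nat_mul.comp (Primrec.const 2) (cnt_prim.comp (Primrec.fst.comp Primrec.fst)
          (Primrec.snd.comp Primrec.snd))
    · exact rem_prim.comp (Primrec.fst.comp Primrec.fst) (Primrec.snd.comp Primrec.snd)

/-- a one-element list -/
theorem sing_prim {α β : Type*} [Primcodable α] [Primcodable β] {f : α → β} (hf : Primrec f) :
    Primrec (fun x => [f x]) := Primrec.list_cons.comp hf (Primrec.const [])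

theorem aeq_prim (i u u' : ℕ) : Primrec₂ (fun n e => aeq i u u' n e) := by
  unfold aeq
  have hn : Primrec (fun x : ℕ × ℕ => x.1) := Primrec.fst
  have he : Primrec (fun x : ℕ × ℕ => 2 * x.2) :=
    Primrec.nat_mul.comp (Primrec.const 2) Primrec.snd
  have he1 : Primrec (fun x : ℕ × ℕ => 2 * (x.2 + 1)) :=
    Primrec.nat_mul.comp (Primrec.const 2) (add_prim Primrec.snd 1)
  refine Primrec.list_cons.comp (Primrec.pair (Primrec.const u) (sing_prim ?_))
    (Primrec.list_cons.comp (Primrec.pair (Primrec.const u') (Primrec.list_cons.comp hn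
      (sing_prim ?_))) (sing_prim (Primrec.pair (Primrec.const u') (Primrec.list_cons.comp
        (add_prim hn 1) (sing_prim ?_)))))
  · exact Primrec.nat_add.comp (add_prim (add_prim hn 4) (2 * 2 ^ i)) he1
  · exact Primrec.nat_add.comp (add_prim (add_prim hn 4) (2 * 2 ^ i)) he
  · exact Primrec.nat_add.comp (add_prim (add_prim hn 5) (2 * 2 ^ i)) he

theorem beq_prim (i u u' : ℕ) : Primrec₂ (fun n e => beq i u u' n e) := by
  unfold beq
  have hn : Primrec (fun x : ℕ × ℕ => x.1) := Primrec.fst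
  have he : Primrec (fun x : ℕ × ℕ => 2 * x.2) :=
    Primrec.nat_mul.comp (Primrec.const 2) Primrec.snd
  have he1 : Primrec (fun x : ℕ × ℕ => 2 * (x.2 + 1)) :=
    Primrec.nat_mul.comp (Primrec.const 2) (add_prim Primrec.snd 1)
  refine Primrec.list_cons.comp (Primrec.pair (Primrec.const u) (sing_prim ?_))
    (Primrec.list_cons.comp (Primrec.pair (Primrec.const u') (sing_prim ?_))
      (sing_prim (Primrec.pair (Primrec.const u') (Primrec.list_cons.comp hn (sing_prim ?_)))))
  · exact Primrec.nat_add.comp (add_prim (add_prim hn 5) (2 * 2 ^ i)) he1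
  · exact Primrec.nat_add.comp (add_prim (add_prim hn 4) (2 * 2 ^ i)) he
  · exact Primrec.nat_add.comp (add_prim (add_prim hn 5) (2 * 2 ^ i)) he

theorem fsys_prim (i u u' : ℕ) : Primrec (fsys i u u') := by
  unfold fsys
  have hn : Primrec (fun x : ℕ × Poly => x.1) := Primrec.fst
  have hd : Primrec (fun x : ℕ × Poly => dgb x.2) := dgb_prim.comp Primrec.snd
  refine Primrec.pair ?_ (Primrec.list_append.comp ?_ (Primrec.list_append.comp ?_ ?_))
  · exact Primrec.nat_add.comp (add_prim (add_prim hn 6) (2 * 2 ^ i))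
      (Primrec.nat_mul.comp (Primrec.const 2) hd)
  · refine Primrec.list_cons.comp ((inst_prim i u u' (l1 i)).comp hn)
      (Primrec.list_cons.comp ((inst_prim i u u' (l2 i)).comp hn)
      (Primrec.list_cons.comp ?_ (Primrec.list_cons.comp ?_ (Primrec.list_cons.comp
        (yeq_prim i u' 0) (sing_prim (yeq_prim i u' 1))))))
    · exact Primrec.list_cons.comp (Primrec.pair (Primrec.const u) (sing_prim
        (add_prim (add_prim hn 4) (2 * 2 ^ i)))) (Primrec.const [(u', [])])
    · exact sing_prim (Primrec.pair (Primrec.const u) (sing_prim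
        (add_prim (add_prim hn 5) (2 * 2 ^ i))))
  · exact Primrec.list_map (Primrec.list_range.comp hd)
      ((aeq_prim i u u').comp (hn.comp Primrec.fst) Primrec.snd)
  · exact Primrec.list_map (Primrec.list_range.comp hd)
      ((beq_prim i u u').comp (hn.comp Primrec.fst) Primrec.snd)

end Pool.Agent.H901
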