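import Pool.Agent.H901.GEO

/-!
The translation of the last variable by a new variable.
-/

set_option autoImplicit false

namespace Pool.Agent.H901

open Polynomial Finset

section Pair

variable {R : Type*} [CommRing R]

/-- the polynomials `A_e`, `B_e` with `(w + T) ^ e = A_e(T ^ 2) + T B_e(T ^ 2)` -/
noncomputable def abp (w : R) : ℕ → R[X] × R[X]
  | 0 => (1, 0)
  | e + 1 => (C w * (abp w e).1 + X * (abp w e).2, (abp w e).1 + C w * (abp w e).2)

theorem pP_add (p0 p1 q0 q1 : R[X]) : pP (p0 + q0) (p1 + q1) = pP p0 p1 + pP q0 q1 := by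
  unfold pP
  rw [add_comp, add_comp]
  ring

theorem pP_C_mul (c : R) (p0 p1 : R[X]) : pP (C c * p0) (C c * p1) = C c * pP p0 p1 := by
  unfold pP
  rw [C_mul_comp, C_mul_comp]
  ring

theorem pP_zero : pP (0 : R[X]) 0 = 0 := by
  unfold pP
  rw [zero_comp]
  ring

theorem pP_abp (w : R) (e : ℕ) : pP (abp w e).1 (abp w e).2 = (X + C w) ^ e := by
  induction e with
  | zero =>
    unfold pP abp
    rw [one_comp, zero_comp]
    ring
  | succ e ih =>
    have h : pP (abp w (e + 1)).1 (abp w (e + 1)).2 =
        (X + C w) * pP (abp w e).1 (abp w e).2 := by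
      unfold pP
      rw [abp]
      simp only [add_comp, mul_comp, C_comp, X_comp]
      ring
    rw [h, ih, pow_succ, mul_comm]

end Pair

theorem pq_congr {R : Type*} [CommRing R] {b c : ℕ → R} {i : ℕ} (h : ∀ j < i, b j = c j)
    (z : ℕ → R) : pq b i z = pq c i z := by
  unfold pq
  refine sum_congr rfl fun m _ => ?_
  rw [pc_congr b c i h]

/-- homomorphisms from the function field of `p = 0` -/
theorem emb_root {R L : Type} [CommRing R] [IsDomain R] [UniqueFactorizationMonoid R] [Field L]
    {p : R[X]} (hp : Irreducible p) (hd : p.natDegree ≠ 0) (φ : R →+* L)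
    (hφ : Function.Injective φ) (η : L) (hη : p.eval₂ φ η = 0) :
    ∃ ψ : FractionRing (AdjoinRoot p) →+* L,
      (∀ r, ψ (algebraMap (AdjoinRoot p) _ (AdjoinRoot.of p r)) = φ r) ∧
      ψ (algebraMap (AdjoinRoot p) _ (AdjoinRoot.root p)) = η := by
  have hprim : p.IsPrimitive := hp.isPrimitive hd
  let φE : FractionRing R →+* L := IsFractionRing.lift hφ
  have hφE : ∀ r, φE (algebraMap R _ r) = φ r := fun r => IsFractionRing.lift_algebraMap hφ r
  have hcomp : φE.comp (algebraMap R (FractionRing R)) = φ := RingHom.ext hφE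
  let _ : Algebra (FractionRing R) L := φE.toAlgebra
  have hirr : Irreducible (p.map (algebraMap R (FractionRing R))) :=
    (hprim.irreducible_iff_irreducible_map_fraction_map (K := FractionRing R)).1 hp
  have haev : ∀ f : R[X], aeval η (f.map (algebraMap R (FractionRing R))) = f.eval₂ φ η := by
    intro f
    rw [aeval_def, eval₂_map]
    congr 1
  let μ : AdjoinRoot p →+* L := AdjoinRoot.lift φ η hη
  have hμi : Function.Injective μ := by
    rw [injective_iff_map_eq_zero]
    intro x
    obtain ⟨f, rfl⟩ := AdjoinRoot.mk_surjective x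
    intro hx
    have hx' : f.eval₂ φ η = 0 := by
      rw [← hx]
      exact (AdjoinRoot.lift_mk hη f).symm
    rw [AdjoinRoot.mk_eq_zero]
    apply (hprim.dvd_iff_fraction_map_dvd_fraction_map (FractionRing R)).2
    have h1 := minpoly.dvd (FractionRing R) η ((haev f).trans hx')
    rw [← minpoly.eq_of_irreducible hirr ((haev p).trans hη)] at h1
    exact dvd_of_mul_right_dvd h1
  have hdom : IsDomain (AdjoinRoot p) := AdjoinRoot.isDomain_of_prime hp.prime
  refine ⟨IsFractionRing.lift hμi, fun r => ?_, ?_⟩
  · rw [IsFractionRing.lift_algebraMap]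
    exact AdjoinRoot.lift_of hη
  · rw [IsFractionRing.lift_algebraMap]
    exact AdjoinRoot.lift_root hη

theorem prime_rename {k σ τ : Type} [Field k] {f : σ → τ} (hf : Function.Injective f)
    {p : MvPolynomial σ k} (hp : Prime p) : Prime (MvPolynomial.rename f p) := by
  have h1 : Prime (MvPolynomial.renameEquiv k (Equiv.ofInjective f hf) p) :=
    (MulEquiv.prime_iff (MvPolynomial.renameEquiv k (Equiv.ofInjective f hf))).2 hp
  have h2 := (MvPolynomial.prime_rename_iff (Set.range f)).2 h1
  have h3 : MvPolynomial.rename ((↑) : Set.range f → τ)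
      (MvPolynomial.renameEquiv k (Equiv.ofInjective f hf) p) = MvPolynomial.rename f p := by
    rw [MvPolynomial.renameEquiv_apply, MvPolynomial.rename_rename]
    rfl
  rwa [h3] at h2

section

variable {k : Type} [Field k] {n i : ℕ}

/-- the inclusion of the polynomial ring -/
noncomputable def up (k : Type) [Field k] (n : ℕ) :
    MvPolynomial (Fin n) k →ₐ[k] MvPolynomial (Fin (n + 1)) k :=
  MvPolynomial.rename Fin.castSucc

theorem up_injective : Function.Injective (up k n) :=
  MvPolynomial.rename_injective _ (Fin.castSucc_injective n)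

/-- the polynomial `p(x, T + w)`, where `w` is a new variable -/
noncomputable def shp (p : (MvPolynomial (Fin n) k)[X]) : (MvPolynomial (Fin (n + 1)) k)[X] :=
  (p.map (up k n : MvPolynomial (Fin n) k →+* MvPolynomial (Fin (n + 1)) k)).comp
    (X + C (MvPolynomial.X (Fin.last n)))

theorem prime_map_up {p : (MvPolynomial (Fin n) k)[X]} (hp : Prime p) :
    Prime (p.map (up k n : MvPolynomial (Fin n) k →+* MvPolynomial (Fin (n + 1)) k)) := by
  have h1 : Prime ((MvPolynomial.optionEquivLeft k (Fin n)).symm p) :=
    (MulEquiv.prime_iff (MvPolynomial.optionEquivLeft k (Fin n)).symm).2 hp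
  have h2 := prime_rename (Option.map_injective (Fin.castSucc_injective n)) h1
  have h3 : Prime (MvPolynomial.optionEquivLeft k (Fin (n + 1)) (MvPolynomial.rename
      (Option.map Fin.castSucc) ((MvPolynomial.optionEquivLeft k (Fin n)).symm p))) :=
    (MulEquiv.prime_iff (MvPolynomial.optionEquivLeft k (Fin (n + 1)))).2 h2
  have h4 : ∀ q : MvPolynomial (Option (Fin n)) k,
      MvPolynomial.optionEquivLeft k (Fin (n + 1)) (MvPolynomial.rename
        (Option.map Fin.castSucc) q) =
      (MvPolynomial.optionEquivLeft k (Fin n) q).map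
        (up k n : MvPolynomial (Fin n) k →+* MvPolynomial (Fin (n + 1)) k) := by
    intro q
    induction q using MvPolynomial.induction_on with
    | C a =>
      rw [MvPolynomial.rename_C, MvPolynomial.optionEquivLeft_C, MvPolynomial.optionEquivLeft_C,
        map_C]
      congr 1
      exact ((up k n).commutes a).symm
    | add p q hp hq => rw [map_add, map_add, hp, hq, map_add, Polynomial.map_add]
    | mul_X p j hp =>
      rw [map_mul, map_mul, hp, map_mul, Polynomial.map_mul, MvPolynomial.rename_X]
      congr 1
      rcases j with _ | j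
      · rw [Option.map_none, MvPolynomial.optionEquivLeft_X_none,
          MvPolynomial.optionEquivLeft_X_none, map_X]
      · rw [Option.map_some, MvPolynomial.optionEquivLeft_X_some,
          MvPolynomial.optionEquivLeft_X_some, map_C]
        congr 1
        unfold up
        exact (MvPolynomial.rename_X _ _).symm
  rw [h4, AlgEquiv.apply_symm_apply] at h3
  exact h3

theorem prime_shp {p : (MvPolynomial (Fin n) k)[X]} (hp : Prime p) : Prime (shp p) := by
  have h1 := prime_map_up hp
  have h2 := (MulEquiv.prime_iff (Polynomial.algEquivAevalXAddC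
    (MvPolynomial.X (Fin.last n) : MvPolynomial (Fin (n + 1)) k))).2 h1
  unfold shp
  have h3 : Polynomial.algEquivAevalXAddC (MvPolynomial.X (Fin.last n) :
      MvPolynomial (Fin (n + 1)) k) (p.map (up k n : MvPolynomial (Fin n) k →+* _)) =
      (p.map (up k n : MvPolynomial (Fin n) k →+* MvPolynomial (Fin (n + 1)) k)).comp
        (X + C (MvPolynomial.X (Fin.last n))) := by
    rw [Polynomial.comp_eq_aeval]
    rfl
  rwa [h3] at h2

theorem natDegree_shp (p : (MvPolynomial (Fin n) k)[X]) : (shp p).natDegree = p.natDegree := by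
  unfold shp
  rw [natDegree_comp, natDegree_X_add_C, mul_one]
  exact natDegree_map_eq_of_injective
    (f := (up k n : MvPolynomial (Fin n) k →+* MvPolynomial (Fin (n + 1)) k)) up_injective p

/-- the new variable as a polynomial variable -/
noncomputable def dn (k : Type) [Field k] (n : ℕ) :
    MvPolynomial (Fin (n + 1)) k →ₐ[k] (MvPolynomial (Fin n) k)[X] :=
  MvPolynomial.aeval (Fin.lastCases X (fun j => C (MvPolynomial.X j)))

theorem dn_up (f : MvPolynomial (Fin n) k) : dn k n (up k n f) = C f := by
  unfold dn up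
  rw [MvPolynomial.aeval_rename]
  induction f using MvPolynomial.induction_on with
  | C a => rw [MvPolynomial.aeval_C]; rfl
  | add p q hp hq => rw [map_add, hp, hq, map_add]
  | mul_X p j hp =>
    rw [map_mul, hp, MvPolynomial.aeval_X, map_mul, Function.comp_apply, Fin.lastCases_castSucc]

theorem dn_last : dn k n (MvPolynomial.X (Fin.last n)) = X := by
  unfold dn
  rw [MvPolynomial.aeval_X, Fin.lastCases_last]

/-- the inverse of `dn` -/
noncomputable def dni (k : Type) [Field k] (n : ℕ) :
    (MvPolynomial (Fin n) k)[X] →+* MvPolynomial (Fin (n + 1)) k :=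
  eval₂RingHom (up k n : MvPolynomial (Fin n) k →+* MvPolynomial (Fin (n + 1)) k)
    (MvPolynomial.X (Fin.last n))

theorem dni_apply (f : (MvPolynomial (Fin n) k)[X]) : dni k n f =
    (f.map (up k n : MvPolynomial (Fin n) k →+* MvPolynomial (Fin (n + 1)) k)).eval
      (MvPolynomial.X (Fin.last n)) := by
  rw [eval_map]
  rfl

theorem dn_dni (f : (MvPolynomial (Fin n) k)[X]) : dn k n (dni k n f) = f := by
  have h : dn k n (dni k n f) = f.eval₂ ((dn k n : MvPolynomial (Fin (n + 1)) k →+* _).comp
      (up k n : MvPolynomial (Fin n) k →+* MvPolynomial (Fin (n + 1)) k))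
      (dn k n (MvPolynomial.X (Fin.last n))) :=
    hom_eval₂ f (up k n : MvPolynomial (Fin n) k →+* MvPolynomial (Fin (n + 1)) k)
      (dn k n : MvPolynomial (Fin (n + 1)) k →+* (MvPolynomial (Fin n) k)[X])
      (MvPolynomial.X (Fin.last n))
  rw [h, dn_last]
  have h2 : ((dn k n : MvPolynomial (Fin (n + 1)) k →+* (MvPolynomial (Fin n) k)[X]).comp
      (up k n : MvPolynomial (Fin n) k →+* MvPolynomial (Fin (n + 1)) k)) = C :=
    RingHom.ext dn_up
  rw [h2, eval₂_C_X]

theorem dni_dn (f : MvPolynomial (Fin (n + 1)) k) : dni k n (dn k n f) = f := by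
  induction f using MvPolynomial.induction_on with
  | C a =>
    have h1 : dn k n (MvPolynomial.C a) = C (MvPolynomial.C a) := (dn k n).commutes a
    rw [h1]
    show eval₂ _ _ _ = _
    rw [eval₂_C]
    exact (up k n).commutes a
  | add p q hp hq => rw [map_add, map_add, hp, hq]
  | mul_X p j hp =>
    rw [map_mul, map_mul, hp]
    congr 1
    refine Fin.lastCases ?_ (fun j => ?_) j
    · rw [dn_last]
      exact eval₂_X _ _
    · have : (MvPolynomial.X j.castSucc : MvPolynomial (Fin (n + 1)) k) =
          up k n (MvPolynomial.X j) := by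
        unfold up
        rw [MvPolynomial.rename_X]
      rw [this, dn_up]
      exact eval₂_C _ _

theorem dni_injective : Function.Injective (dni k n) :=
  Function.LeftInverse.injective dn_dni

theorem dn_injective : Function.Injective (dn k n) :=
  Function.LeftInverse.injective dni_dn

/-- both parts of the shifted polynomial are different from zero -/
theorem parts_ne [CharZero k] {p : (MvPolynomial (Fin n) k)[X]} (hd : p.natDegree ≠ 0)
    {p0 p1 : (MvPolynomial (Fin (n + 1)) k)[X]} (h : pP p0 p1 = shp p) : p0 ≠ 0 ∧ p1 ≠ 0 := by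
  have hp : p ≠ 0 := by
    rintro rfl
    exact hd natDegree_zero
  constructor
  · rintro rfl
    have h1 := congrArg (eval 0) h
    unfold pP shp at h1
    rw [zero_comp, zero_add, eval_mul, eval_X, zero_mul, eval_comp, eval_add, eval_X, eval_C,
      zero_add, ← dni_apply] at h1
    exact hp ((map_eq_zero_iff _ dni_injective).1 h1.symm)
  · rintro rfl
    have h1 : eval 0 (derivative (pP p0 (0 : (MvPolynomial (Fin (n + 1)) k)[X]))) = 0 := by
      unfold pP
      simp [derivative_comp]
    have h2 : eval 0 (derivative (shp p)) = dni k n (derivative p) := by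
      unfold shp
      rw [derivative_comp, derivative_add, derivative_X, derivative_C, add_zero, one_mul,
        eval_comp, eval_add, eval_X, eval_C, zero_add, derivative_map, ← dni_apply]
    have h3 : dni k n (derivative p) = 0 := by
      rw [← h2, ← h, h1]
    have h4 := (map_eq_zero_iff _ dni_injective).1 h3
    exact hd (derivative_eq_zero.1 h4)

theorem xv_up (hn : i ≤ n) {j : ℕ} (hj : j < i) : xv k (n + 1) j = up k n (xv k n j) := by
  unfold xv up
  rw [dif_pos (by omega), dif_pos (by omega), MvPolynomial.rename_X]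
  rfl

/-- the form is isotropic for the shifted polynomial if and only if it is for the polynomial -/
theorem iso_shp {p : (MvPolynomial (Fin n) k)[X]} (hp : Irreducible p) (hd : p.natDegree ≠ 0)
    (hn : i ≤ n) : IsoPf i (shp p) ↔ IsoPf i p := by
  have hsp : Irreducible (shp p) := (prime_shp hp.prime).irreducible
  have hsd : (shp p).natDegree ≠ 0 := by rw [natDegree_shp]; exact hd
  have hdomA : IsDomain (AdjoinRoot p) := AdjoinRoot.isDomain_of_prime hp.prime
  have hdomB : IsDomain (AdjoinRoot (shp p)) := AdjoinRoot.isDomain_of_prime hsp.prime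
  have hofA : Function.Injective (AdjoinRoot.of p) := by
    apply AdjoinRoot.of.injective_of_degree_ne_zero
    intro h
    exact hd (natDegree_eq_zero_iff_degree_le_zero.2 h.le)
  have hofB : Function.Injective (AdjoinRoot.of (shp p)) := by
    apply AdjoinRoot.of.injective_of_degree_ne_zero
    intro h
    exact hsd (natDegree_eq_zero_iff_degree_le_zero.2 h.le)
  constructor
  · rintro ⟨z, ⟨m0, hm0, hz0⟩, hz⟩
    -- the embedding into `F(w)`
    set A := algebraMap (AdjoinRoot p) (FractionRing (AdjoinRoot p)) with hA
    have hAi : Function.Injective A := IsFractionRing.injective _ _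
    let φ : MvPolynomial (Fin (n + 1)) k →+* RatFunc (FractionRing (AdjoinRoot p)) :=
      ((algebraMap (FractionRing (AdjoinRoot p))[X] (RatFunc (FractionRing (AdjoinRoot p)))).comp
        (mapRingHom (A.comp (AdjoinRoot.of p)))).comp
        (dn k n : MvPolynomial (Fin (n + 1)) k →+* (MvPolynomial (Fin n) k)[X])
    have hφi : Function.Injective φ := by
      have e1 : Function.Injective (algebraMap (FractionRing (AdjoinRoot p))[X]
        (RatFunc (FractionRing (AdjoinRoot p)))) :=
        RatFunc.algebraMap_injective (FractionRing (AdjoinRoot p))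
      have e2 : Function.Injective (mapRingHom (A.comp (AdjoinRoot.of p))) :=
        map_injective _ (hAi.comp hofA)
      exact (e1.comp e2).comp (dn_injective (k := k) (n := n))
    have hφu : ∀ r, φ (up k n r) = RatFunc.C (A (AdjoinRoot.of p r)) := by
      intro r
      show algebraMap (FractionRing (AdjoinRoot p))[X] (RatFunc (FractionRing (AdjoinRoot p)))
        (Polynomial.map (A.comp (AdjoinRoot.of p)) (dn k n (up k n r))) = _
      rw [dn_up, map_C, RatFunc.algebraMap_C]
      rfl
    have hφw : φ (MvPolynomial.X (Fin.last n)) = RatFunc.X := by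
      show algebraMap (FractionRing (AdjoinRoot p))[X] (RatFunc (FractionRing (AdjoinRoot p)))
        (Polynomial.map (A.comp (AdjoinRoot.of p)) (dn k n (MvPolynomial.X (Fin.last n)))) = _
      rw [dn_last, map_X, RatFunc.algebraMap_X]
    have hroot : (shp p).eval₂ φ (RatFunc.C (A (AdjoinRoot.root p)) - RatFunc.X) = 0 := by
      unfold shp
      rw [eval₂_comp, eval₂_add, eval₂_X, eval₂_C, hφw, sub_add_cancel, eval₂_map]
      have h1 : φ.comp (up k n : MvPolynomial (Fin n) k →+* MvPolynomial (Fin (n + 1)) k) =
          ((RatFunc.C.comp A).comp (AdjoinRoot.of p)) := RingHom.ext hφu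
      have h2 := hom_eval₂ p (AdjoinRoot.of p) (RatFunc.C.comp A) (AdjoinRoot.root p)
      rw [AdjoinRoot.eval₂_root, map_zero] at h2
      rw [h1]
      exact h2.symm
    obtain ⟨ψ, hψ, -⟩ := emb_root hsp hsd φ hφi _ hroot
    by_contra hcon
    have han : An (fun j => A (AdjoinRoot.of p (xv k n j))) i := by
      intro z' hz' m hm
      by_contra hzm
      exact hcon ⟨z', ⟨m, hm, hzm⟩, hz'⟩
    have han' := an_ratFunc han
    have h3 := pq_map ψ (fun j => algebraMap (AdjoinRoot (shp p)) (FractionRing (AdjoinRoot
      (shp p))) (AdjoinRoot.of (shp p) (xv k (n + 1) j))) i z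
    rw [hz, map_zero, pq_congr (c := fun j => RatFunc.C (A (AdjoinRoot.of p (xv k n j))))
      (fun j hj => by rw [hψ, xv_up hn hj, hφu])] at h3
    have h4 := han' _ h3 m0 hm0
    exact hz0 ((map_eq_zero ψ).1 h4)
  · rintro ⟨z, ⟨m0, hm0, hz0⟩, hz⟩
    set B := algebraMap (AdjoinRoot (shp p)) (FractionRing (AdjoinRoot (shp p))) with hB
    have hBi : Function.Injective B := IsFractionRing.injective _ _
    let φ : MvPolynomial (Fin n) k →+* FractionRing (AdjoinRoot (shp p)) :=
      (B.comp (AdjoinRoot.of (shp p))).comp
        (up k n : MvPolynomial (Fin n) k →+* MvPolynomial (Fin (n + 1)) k)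
    have hφi : Function.Injective φ := (hBi.comp hofB).comp up_injective
    have hroot : p.eval₂ φ (B (AdjoinRoot.root (shp p)) +
        B (AdjoinRoot.of (shp p) (MvPolynomial.X (Fin.last n)))) = 0 := by
      have h1 : (shp p).eval₂ (B.comp (AdjoinRoot.of (shp p))) (B (AdjoinRoot.root (shp p))) =
          0 := by
        have h2 := hom_eval₂ (shp p) (AdjoinRoot.of (shp p)) B (AdjoinRoot.root (shp p))
        rw [AdjoinRoot.eval₂_root, map_zero] at h2
        exact h2.symm
      have h5 : (shp p).eval₂ (B.comp (AdjoinRoot.of (shp p))) (B (AdjoinRoot.root (shp p))) =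
          p.eval₂ φ (B (AdjoinRoot.root (shp p)) +
            B (AdjoinRoot.of (shp p) (MvPolynomial.X (Fin.last n)))) := by
        conv_lhs => unfold shp
        rw [eval₂_comp, eval₂_add, eval₂_X, eval₂_C, eval₂_map]
        rfl
      rw [← h5]
      exact h1
    obtain ⟨ψ, hψ, -⟩ := emb_root hp hd φ hφi _ hroot
    refine ⟨fun m => ψ (z m), ⟨m0, hm0, ?_⟩, ?_⟩
    · rw [Ne, map_eq_zero]
      exact hz0
    · have h3 := pq_map ψ (fun j => algebraMap (AdjoinRoot p) (FractionRing (AdjoinRoot p))
        (AdjoinRoot.of p (xv k n j))) i z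
      rw [hz, map_zero] at h3
      rw [← h3]
      apply pq_congr
      intro j hj
      rw [hψ, xv_up hn hj]
      rfl

end

end Pool.Agent.H901
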