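import Pool.Agent.H901.CMA
import Pool.Agent.H901.SHF

/-!
The coordinate ring of the computed system.
-/

set_option autoImplicit false

namespace Pool.Agent.H901

open Polynomial Finset

theorem rem_cnt {B : Type*} [CommRing B] (ξ : ℕ → B) (n : ℕ) (w : List ℕ) :
    (w.map ξ).prod = ((rem n w).map ξ).prod * ξ n ^ cnt n w := by
  induction w with
  | nil => simp [rem, cnt]
  | cons j w ih =>
    have hr : rem n (j :: w) = (if j = n then [] else [j]) ++ rem n w := by
      unfold rem
      rw [List.flatMap_cons]
    have hc : cnt n (j :: w) = (if j = n then 1 else 0) + cnt n w := by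
      unfold cnt
      rw [List.flatMap_cons, List.length_append]
      split_ifs <;> rfl
    rw [List.map_cons, List.prod_cons, ih, hr, hc]
    by_cases h : j = n
    · rw [if_pos h, if_pos h, h]
      simp only [List.nil_append]
      ring
    · rw [if_neg h, if_neg h]
      simp only [List.cons_append, List.nil_append, List.map_cons, List.prod_cons]
      ring

theorem cnt_le (n : ℕ) (w : List ℕ) : cnt n w ≤ w.length := by
  induction w with
  | nil => simp [cnt]
  | cons j w ih =>
    have hc : cnt n (j :: w) = (if j = n then 1 else 0) + cnt n w := by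
      unfold cnt
      rw [List.flatMap_cons, List.length_append]
      split_ifs <;> rfl
    rw [hc, List.length_cons]
    split_ifs <;> omega

theorem cnt_le_dgb {n : ℕ} {p : Poly} {t : ℕ × List ℕ} (ht : t ∈ p) : cnt n t.2 ≤ dgb p := by
  refine (cnt_le n t.2).trans ?_
  unfold dgb
  rw [List.length_flatMap]
  exact List.single_le_sum (by simp) _ (List.mem_map_of_mem (f := fun t => t.2.length) ht)

theorem mem_rem {n : ℕ} {w : List ℕ} {j : ℕ} (h : j ∈ rem n w) : j ∈ w ∧ j ≠ n := by
  unfold rem at h
  rw [List.mem_flatMap] at h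
  obtain ⟨l, hl, hj⟩ := h
  split_ifs at hj with hln
  · simp at hj
  · rw [List.mem_singleton] at hj
    subst hj
    exact ⟨hl, hln⟩

section

variable (ν : ℕ → Qb) (i n : ℕ) (p : Poly)

/-- the part of the term `t` without the variable `n` -/
noncomputable def mn (t : ℕ × List ℕ) : MvPolynomial (Fin (n + 1)) Qb :=
  MvPolynomial.C (ν t.1) * ((rem n t.2).map (xv Qb (n + 1))).prod

/-- the even part of `p(x, w + T)` -/
noncomputable def qq0 : (MvPolynomial (Fin (n + 1)) Qb)[X] :=
  (p.map (fun t => C (mn ν n t) * (abp (MvPolynomial.X (Fin.last n)) (cnt n t.2)).1)).sum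

/-- the odd part of `p(x, w + T)` -/
noncomputable def qq1 : (MvPolynomial (Fin (n + 1)) Qb)[X] :=
  (p.map (fun t => C (mn ν n t) * (abp (MvPolynomial.X (Fin.last n)) (cnt n t.2)).2)).sum

/-- the polynomial in the variables `x_0, …, x_(n-1)` and `T = x_n` -/
noncomputable def toP : MvPolynomial ℕ Qb →ₐ[Qb] (MvPolynomial (Fin n) Qb)[X] :=
  MvPolynomial.aeval (fun j => if h : j < n then C (MvPolynomial.X ⟨j, h⟩) else
    if j = n then X else 0)

/-- the translation as a homomorphism -/
noncomputable def shh (k : Type) [Field k] (n : ℕ) :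
    (MvPolynomial (Fin n) k)[X] →+* (MvPolynomial (Fin (n + 1)) k)[X] :=
  (compRingHom (X + C (MvPolynomial.X (Fin.last n)))).comp
    (mapRingHom (up k n : MvPolynomial (Fin n) k →+* MvPolynomial (Fin (n + 1)) k))

theorem shh_apply (f : (MvPolynomial (Fin n) Qb)[X]) : shh Qb n f = shp f := rfl

theorem pP_qq : pP (qq0 ν n p) (qq1 ν n p) = shp (toP n (val ν p)) := by
  have h1 : pP (qq0 ν n p) (qq1 ν n p) = (p.map (fun t => C (mn ν n t) *
      (X + C (MvPolynomial.X (Fin.last n))) ^ cnt n t.2)).sum := by
    unfold qq0 qq1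
    induction p with
    | nil => exact pP_zero
    | cons t p ih =>
      simp only [List.map_cons, List.sum_cons]
      rw [pP_add, ih, pP_C_mul, pP_abp]
  rw [h1, ← shh_apply]
  unfold val
  rw [map_list_sum, map_list_sum, List.map_map, List.map_map]
  congr 1
  refine List.map_congr_left fun t _ => ?_
  simp only [Function.comp, map_mul, map_list_prod, List.map_map]
  set ζ : ℕ → (MvPolynomial (Fin (n + 1)) Qb)[X] := fun j => if j = n then
    X + C (MvPolynomial.X (Fin.last n)) else C (xv Qb (n + 1) j) with hζ
  have h2 : ∀ j, shh Qb n (toP n (MvPolynomial.X j)) = ζ j := by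
    intro j
    rw [hζ, shh_apply]
    unfold toP shp
    rw [MvPolynomial.aeval_X]
    by_cases h : j < n
    · rw [dif_pos h, map_C, C_comp]
      beta_reduce
      rw [if_neg (by omega)]
      unfold xv up
      rw [dif_pos (by omega)]
      congr 1
      exact MvPolynomial.rename_X _ _
    · rw [dif_neg h]
      by_cases h' : j = n
      · rw [if_pos h', map_X, X_comp]
        beta_reduce
        rw [if_pos h']
      · rw [if_neg h', Polynomial.map_zero, zero_comp]
        beta_reduce
        rw [if_neg h']
        unfold xv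
        rw [dif_neg (by omega), C_0]
  have h3 : (List.map ((⇑(shh Qb n)) ∘ (⇑(toP n)) ∘ MvPolynomial.X) t.2) = t.2.map ζ := by
    refine List.map_congr_left fun j _ => ?_
    exact h2 j
  have h4 : shh Qb n (toP n (MvPolynomial.C (ν t.1))) = C (MvPolynomial.C (ν t.1)) := by
    have e1 : toP n (MvPolynomial.C (ν t.1)) = C (MvPolynomial.C (ν t.1)) := (toP n).commutes _
    rw [e1, shh_apply]
    unfold shp
    rw [map_C, C_comp]
    congr 1
    exact (up Qb n).commutes _
  rw [h4]
  have h5 : (t.2.map ζ).prod = C (((rem n t.2).map (xv Qb (n + 1))).prod) *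
      (X + C (MvPolynomial.X (Fin.last n))) ^ cnt n t.2 := by
    rw [rem_cnt ζ n]
    congr 1
    · rw [map_list_prod, List.map_map]
      congr 1
      refine List.map_congr_left fun j hj => ?_
      rw [hζ]
      beta_reduce
      rw [if_neg (mem_rem hj).2]
      rfl
    · rw [hζ]
      beta_reduce
      rw [if_pos rfl]
  rw [h3, h5]
  unfold mn
  rw [C_mul]
  ring

end

end Pool.Agent.H901
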