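import Pool.Agent.H901.CMB

/-!
The coordinate ring of the computed system is the coordinate ring of the hypersurface.
-/

set_option autoImplicit false

namespace Pool.Agent.H901

open Finset

section Rel

variable {k : Type} [Field k] {n i : ℕ}

/-- the relation, in the other direction -/
theorem relation' {K : Type*} [CommRing K] (emb : MvPolynomial (V1 n i) k →+* K)
    (a : ℕ → MvPolynomial (Fin n) k) (p0 p1 : Polynomial (MvPolynomial (Fin n) k)) (y : K)
    (hy : pq (fun j => emb (MvPolynomial.rename Sum.inl (ea i a j))) i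
      (fun m => if m = 0 then y else emb (eu k n i m)) =
      emb (MvPolynomial.rename Sum.inl (ea i a i)) *
        emb (MvPolynomial.rename Sum.inl (eP i a p0 p1))) :
    y ^ 2 = emb (ed i a p0 p1) := by
  unfold pq at hy
  rw [range_eq_Ico, sum_eq_sum_Ico_succ_bot (by positivity), pc_zero, one_mul] at hy
  beta_reduce at hy
  rw [if_pos rfl] at hy
  unfold ed
  rw [map_sub, map_mul, map_mul, map_sum]
  have h : ∑ m ∈ Ico (0 + 1) (2 ^ i), pc (fun j => emb (MvPolynomial.rename Sum.inl (ea i a j)))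
      i m * (if m = 0 then y else emb (eu k n i m)) ^ 2 =
      ∑ m ∈ Ico 1 (2 ^ i), emb (pc (fun j => MvPolynomial.rename Sum.inl (ea i a j)) i m *
      eu k n i m ^ 2) := by
    refine sum_congr rfl fun m hm => ?_
    rw [mem_Ico] at hm
    rw [if_neg (by omega), map_mul, map_pow, pc_map emb]
  rw [h] at hy
  rw [← hy]
  ring

end Rel

section

variable {ν : ℕ → Qb} {i n : ℕ} {p : Poly}

/-- Values of the variables of the system, which solve it. -/
structure Sol (ν : ℕ → Qb) (i n : ℕ) (p : Poly) (B : Type) [CommRing B] [Algebra Qb B]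
    (c : ℕ → B) : Prop where
  eq1 : g1 i (fun j => c (tau i n j)) = 0
  eq2 : g2 i (fun j => c (tau i n j)) = 0
  a0 : c (n + 4 + 2 * 2 ^ i) = 1
  b0 : c (n + 5 + 2 * 2 ^ i) = 0
  ye : ∀ s < 2, c (n + 2 + 2 * 2 ^ i + s) = (p.map (fun t => algebraMap Qb B (ν t.1) *
    (c (n + 4 + 2 * 2 ^ i + s + 2 * cnt n t.2) * ((rem n t.2).map c).prod))).sum
  ae : ∀ e < dgb p, c (n + 4 + 2 * 2 ^ i + 2 * (e + 1)) = c n * c (n + 4 + 2 * 2 ^ i + 2 * e) +
    c (n + 1) * c (n + 5 + 2 * 2 ^ i + 2 * e)
  be : ∀ e < dgb p, c (n + 5 + 2 * 2 ^ i + 2 * (e + 1)) = c (n + 4 + 2 * 2 ^ i + 2 * e) +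
    c n * c (n + 5 + 2 * 2 ^ i + 2 * e)

theorem sol_iff {u u' : ℕ} (hu : ν u = 1) (hu' : ν u' = -1) {B : Type} [CommRing B] [Algebra Qb B]
    (c : ℕ → B) : (∀ f ∈ (fsys i u u' (n, p)).2, MvPolynomial.aeval c (val ν f) = 0) ↔
      Sol ν i n p B c := by
  have e1 : MvPolynomial.aeval c (val ν (inst u u' (tau i n) (l1 i))) =
      g1 i (fun j => c (tau i n j)) := by
    rw [aeval_inst hu hu']
    exact (exists_l1 i).choose_spec.2 B _
  have e2 : MvPolynomial.aeval c (val ν (inst u u' (tau i n) (l2 i))) =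
      g2 i (fun j => c (tau i n j)) := by
    rw [aeval_inst hu hu']
    exact (exists_l2 i).choose_spec.2 B _
  have e3 : MvPolynomial.aeval c (val ν [(u, [n + 4 + 2 * 2 ^ i]), (u', [])]) =
      c (n + 4 + 2 * 2 ^ i) - 1 := by
    rw [aeval_val]
    simp [hu, hu']
    ring
  have e4 : MvPolynomial.aeval c (val ν [(u, [n + 5 + 2 * 2 ^ i])]) =
      c (n + 5 + 2 * 2 ^ i) := by
    rw [aeval_val]
    simp [hu]
  have e5 : ∀ s, MvPolynomial.aeval c (val ν (yeq i u' n s p)) =
      -c (n + 2 + 2 * 2 ^ i + s) + (p.map (fun t => algebraMap Qb B (ν t.1) *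
    (c (n + 4 + 2 * 2 ^ i + s + 2 * cnt n t.2) * ((rem n t.2).map c).prod))).sum := by
    intro s
    rw [aeval_val]
    unfold yeq
    rw [List.map_cons, List.sum_cons, List.map_map]
    congr 1
    simp [hu']
  have e6 : ∀ e, MvPolynomial.aeval c (val ν (aeq i u u' n e)) =
      c (n + 4 + 2 * 2 ^ i + 2 * (e + 1)) - (c n * c (n + 4 + 2 * 2 ^ i + 2 * e) +
    c (n + 1) * c (n + 5 + 2 * 2 ^ i + 2 * e)) := by
    intro e
    rw [aeval_val]
    unfold aeq
    simp [hu, hu']
    ring
  have e7 : ∀ e, MvPolynomial.aeval c (val ν (beq i u u' n e)) =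
      c (n + 5 + 2 * 2 ^ i + 2 * (e + 1)) - (c (n + 4 + 2 * 2 ^ i + 2 * e) +
    c n * c (n + 5 + 2 * 2 ^ i + 2 * e)) := by
    intro e
    rw [aeval_val]
    unfold beq
    simp [hu, hu']
    ring
  constructor
  · intro h
    refine ⟨?_, ?_, ?_, ?_, ?_, ?_, ?_⟩
    · rw [← e1]
      exact h _ (by simp [fsys])
    · rw [← e2]
      exact h _ (by simp [fsys])
    · rw [← sub_eq_zero, ← e3]
      exact h _ (by simp [fsys])
    · rw [← e4]
      exact h _ (by simp [fsys])
    · intro s hs
      have h5 : MvPolynomial.aeval c (val ν (yeq i u' n s p)) = 0 := by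
        apply h
        have : s = 0 ∨ s = 1 := by omega
        rcases this with rfl | rfl <;> simp [fsys]
      rw [e5] at h5
      linear_combination -h5
    · intro e he
      have h6 : MvPolynomial.aeval c (val ν (aeq i u u' n e)) = 0 := by
        apply h
        unfold fsys
        refine List.mem_append_right _ (List.mem_append_left _ ?_)
        exact List.mem_map_of_mem (f := fun e => aeq i u u' n e) (List.mem_range.2 he)
      rw [e6] at h6
      linear_combination h6
    · intro e he
      have h7 : MvPolynomial.aeval c (val ν (beq i u u' n e)) = 0 := by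
        apply h
        unfold fsys
        refine List.mem_append_right _ (List.mem_append_right _ ?_)
        exact List.mem_map_of_mem (f := fun e => beq i u u' n e) (List.mem_range.2 he)
      rw [e7] at h7
      linear_combination h7
  · intro h f hf
    unfold fsys at hf
    simp only [List.mem_append, List.mem_cons, List.not_mem_nil, or_false, List.mem_map,
      List.mem_range] at hf
    rcases hf with (rfl | rfl | rfl | rfl | rfl | rfl) | ⟨e, he, rfl⟩ | ⟨e, he, rfl⟩
    · rw [e1]; exact h.eq1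
    · rw [e2]; exact h.eq2
    · rw [e3, h.a0, sub_self]
    · rw [e4, h.b0]
    · rw [e5, h.ye 0 (by norm_num)]
      ring
    · rw [e5, h.ye 1 (by norm_num)]
      ring
    · rw [e6, h.ae e he, sub_self]
    · rw [e7, h.be e he, sub_self]

end

end Pool.Agent.H901
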