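import Pool.Agent.H901.CMC

/-!
The coordinate ring of the computed system is the coordinate ring of the hypersurface.
-/

set_option autoImplicit false

namespace Pool.Agent.H901

open Finset

section

variable (ν : ℕ → Qb) (i n : ℕ) (p : Poly) {B : Type} [CommRing B] [Algebra Qb B]

/-- the values of the variables of the system, given the values of `x`, `v`, `u` -/
noncomputable def th (emb : MvPolynomial (V1 (n + 1) i) Qb →ₐ[Qb] B) (y : B) (j : ℕ) : B :=
  if h : j < n + 1 then emb (MvPolynomial.X (Sum.inl (Sum.inl ⟨j, h⟩)))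
  else if j = n + 1 then emb (MvPolynomial.rename Sum.inl (eD i (xv Qb (n + 1))))
  else if j < n + 2 + 2 ^ i then
    emb (MvPolynomial.rename Sum.inl (ev Qb (n + 1) i (j - (n + 2))))
  else if j = n + 2 + 2 ^ i then y
  else if j < n + 2 + 2 * 2 ^ i then emb (eu Qb (n + 1) i (j - (n + 2 + 2 ^ i)))
  else if j = n + 2 + 2 * 2 ^ i then
    emb (MvPolynomial.rename Sum.inl (atD i (xv Qb (n + 1)) (qq0 ν n p)))
  else if j = n + 3 + 2 * 2 ^ i then
    emb (MvPolynomial.rename Sum.inl (atD i (xv Qb (n + 1)) (qq1 ν n p)))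
  else if j < n + 6 + 2 * 2 ^ i + 2 * dgb p then
    if (j - (n + 4 + 2 * 2 ^ i)) % 2 = 0 then
      emb (MvPolynomial.rename Sum.inl (atD i (xv Qb (n + 1))
        (abp (MvPolynomial.X (Fin.last n)) ((j - (n + 4 + 2 * 2 ^ i)) / 2)).1))
    else emb (MvPolynomial.rename Sum.inl (atD i (xv Qb (n + 1))
        (abp (MvPolynomial.X (Fin.last n)) ((j - (n + 4 + 2 * 2 ^ i)) / 2)).2))
  else 0

theorem th_map {B' : Type} [CommRing B'] [Algebra Qb B'] (φ : B →ₐ[Qb] B')
    (emb : MvPolynomial (V1 (n + 1) i) Qb →ₐ[Qb] B) (y : B) (j : ℕ) :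
    φ (th ν i n p emb y j) = th ν i n p (φ.comp emb) (φ y) j := by
  unfold th
  by_cases h1 : j < n + 1
  · rw [dif_pos h1, dif_pos h1]
    rfl
  rw [dif_neg h1, dif_neg h1]
  by_cases h2 : j = n + 1
  · rw [if_pos h2, if_pos h2]
    rfl
  rw [if_neg h2, if_neg h2]
  by_cases h3 : j < n + 2 + 2 ^ i
  · rw [if_pos h3, if_pos h3]
    rfl
  rw [if_neg h3, if_neg h3]
  by_cases h4 : j = n + 2 + 2 ^ i
  · rw [if_pos h4, if_pos h4]
  rw [if_neg h4, if_neg h4]
  by_cases h5 : j < n + 2 + 2 * 2 ^ i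
  · rw [if_pos h5, if_pos h5]
    rfl
  rw [if_neg h5, if_neg h5]
  by_cases h6 : j = n + 2 + 2 * 2 ^ i
  · rw [if_pos h6, if_pos h6]
    rfl
  rw [if_neg h6, if_neg h6]
  by_cases h7 : j = n + 3 + 2 * 2 ^ i
  · rw [if_pos h7, if_pos h7]
    rfl
  rw [if_neg h7, if_neg h7]
  by_cases h8 : j < n + 6 + 2 * 2 ^ i + 2 * dgb p
  · rw [if_pos h8, if_pos h8]
    by_cases h9 : (j - (n + 4 + 2 * 2 ^ i)) % 2 = 0
    · rw [if_pos h9, if_pos h9]
      rfl
    · rw [if_neg h9, if_neg h9]
      rfl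
  · rw [if_neg h8, if_neg h8]
    exact map_zero φ

variable {ν i n p}

section Values

variable (emb : MvPolynomial (V1 (n + 1) i) Qb →ₐ[Qb] B) (y : B)

theorem th_x (j : ℕ) (h : j < n + 1) : th ν i n p emb y j =
    emb (MvPolynomial.X (Sum.inl (Sum.inl ⟨j, h⟩))) := by
  unfold th
  rw [dif_pos h]

theorem th_D : th ν i n p emb y (n + 1) =
    emb (MvPolynomial.rename Sum.inl (eD i (xv Qb (n + 1)))) := by
  unfold th
  rw [dif_neg (by omega), if_pos rfl]

theorem th_v (m : ℕ) (h : m < 2 ^ i) : th ν i n p emb y (n + 2 + m) =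
    emb (MvPolynomial.X (Sum.inl (Sum.inr ⟨m, h⟩))) := by
  unfold th
  rw [dif_neg (by omega), if_neg (by omega), if_pos (by omega), Nat.add_sub_cancel_left]
  unfold ev
  rw [dif_pos h, MvPolynomial.rename_X]

theorem th_u0 : th ν i n p emb y (n + 2 + 2 ^ i) = y := by
  have h0 : 0 < 2 ^ i := by positivity
  unfold th
  rw [dif_neg (by omega), if_neg (by omega), if_neg (by omega), if_pos rfl]

theorem th_u (m : ℕ) (h : m < 2 ^ i - 1) : th ν i n p emb y (n + 3 + 2 ^ i + m) =
    emb (MvPolynomial.X (Sum.inr ⟨m, h⟩)) := by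
  unfold th
  rw [dif_neg (by omega), if_neg (by omega), if_neg (by omega), if_neg (by omega),
    if_pos (by omega)]
  unfold eu
  rw [dif_pos (by omega)]
  congr 3
  exact Fin.ext (by simp; omega)

theorem th_y0 : th ν i n p emb y (n + 2 + 2 * 2 ^ i) =
    emb (MvPolynomial.rename Sum.inl (atD i (xv Qb (n + 1)) (qq0 ν n p))) := by
  have h0 : 0 < 2 ^ i := by positivity
  unfold th
  rw [dif_neg (by omega), if_neg (by omega), if_neg (by omega), if_neg (by omega),
    if_neg (by omega), if_pos rfl]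

theorem th_y1 : th ν i n p emb y (n + 3 + 2 * 2 ^ i) =
    emb (MvPolynomial.rename Sum.inl (atD i (xv Qb (n + 1)) (qq1 ν n p))) := by
  have h0 : 0 < 2 ^ i := by positivity
  unfold th
  rw [dif_neg (by omega), if_neg (by omega), if_neg (by omega), if_neg (by omega),
    if_neg (by omega), if_neg (by omega), if_pos rfl]

theorem th_A (e : ℕ) (he : e ≤ dgb p) : th ν i n p emb y (n + 4 + 2 * 2 ^ i + 2 * e) =
    emb (MvPolynomial.rename Sum.inl (atD i (xv Qb (n + 1))
      (abp (MvPolynomial.X (Fin.last n)) e).1)) := by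
  have h0 : 0 < 2 ^ i := by positivity
  unfold th
  rw [dif_neg (by omega), if_neg (by omega), if_neg (by omega), if_neg (by omega),
    if_neg (by omega), if_neg (by omega), if_neg (by omega), if_pos (by omega),
    if_pos (by omega)]
  congr 7
  omega

theorem th_B (e : ℕ) (he : e ≤ dgb p) : th ν i n p emb y (n + 5 + 2 * 2 ^ i + 2 * e) =
    emb (MvPolynomial.rename Sum.inl (atD i (xv Qb (n + 1))
      (abp (MvPolynomial.X (Fin.last n)) e).2)) := by
  have h0 : 0 < 2 ^ i := by positivity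
  unfold th
  rw [dif_neg (by omega), if_neg (by omega), if_neg (by omega), if_neg (by omega),
    if_neg (by omega), if_neg (by omega), if_neg (by omega), if_pos (by omega),
    if_neg (by omega)]
  congr 7
  omega

end Values

/-- the homomorphism given by the values -/
noncomputable def embOf (i n : ℕ) (c : ℕ → B) : MvPolynomial (V1 (n + 1) i) Qb →ₐ[Qb] B :=
  MvPolynomial.aeval (Sum.elim (Sum.elim (fun j : Fin (n + 1) => c j)
    (fun m : Fin (2 ^ i) => c (n + 2 + m))) (fun m : Fin (2 ^ i - 1) => c (n + 3 + 2 ^ i + m)))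

theorem embOf_th (emb : MvPolynomial (V1 (n + 1) i) Qb →ₐ[Qb] B) (y : B) :
    embOf i n (th ν i n p emb y) = emb := by
  apply MvPolynomial.algHom_ext
  rintro ((j | m) | m)
  · unfold embOf
    rw [MvPolynomial.aeval_X]
    exact th_x emb y j j.2
  · unfold embOf
    rw [MvPolynomial.aeval_X]
    exact th_v emb y m m.2
  · unfold embOf
    rw [MvPolynomial.aeval_X]
    exact th_u emb y m m.2

/-- the composition of `atD` and the inclusion, as a homomorphism -/
noncomputable def cD (emb : MvPolynomial (V1 (n + 1) i) Qb →ₐ[Qb] B) :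
    Polynomial (MvPolynomial (Fin (n + 1)) Qb) →+* B :=
  ((emb.comp (MvPolynomial.rename Sum.inl) : MvPolynomial (V0 (n + 1) i) Qb →ₐ[Qb] B) :
    MvPolynomial (V0 (n + 1) i) Qb →+* B).comp (atDh i (xv Qb (n + 1)))

theorem cD_apply (emb : MvPolynomial (V1 (n + 1) i) Qb →ₐ[Qb] B)
    (f : Polynomial (MvPolynomial (Fin (n + 1)) Qb)) :
    cD emb f = emb (MvPolynomial.rename Sum.inl (atD i (xv Qb (n + 1)) f)) := rfl

theorem cD_X (emb : MvPolynomial (V1 (n + 1) i) Qb →ₐ[Qb] B) :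
    cD emb Polynomial.X = emb (MvPolynomial.rename Sum.inl (eD i (xv Qb (n + 1)))) := by
  rw [cD_apply]
  unfold atD
  rw [Polynomial.eval₂_X]

theorem cD_C (emb : MvPolynomial (V1 (n + 1) i) Qb →ₐ[Qb] B)
    (r : MvPolynomial (Fin (n + 1)) Qb) :
    cD emb (Polynomial.C r) = emb (MvPolynomial.rename Sum.inl (MvPolynomial.rename Sum.inl r)) := by
  rw [cD_apply]
  unfold atD
  rw [Polynomial.eval₂_C]
  rfl

theorem cD_Cx (emb : MvPolynomial (V1 (n + 1) i) Qb →ₐ[Qb] B) (j : ℕ) (h : j < n + 1) :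
    cD emb (Polynomial.C (xv Qb (n + 1) j)) =
      emb (MvPolynomial.X (Sum.inl (Sum.inl ⟨j, h⟩))) := by
  rw [cD_C]
  unfold xv
  rw [dif_pos h, MvPolynomial.rename_X, MvPolynomial.rename_X]

theorem cD_Cw (emb : MvPolynomial (V1 (n + 1) i) Qb →ₐ[Qb] B) :
    cD emb (Polynomial.C (MvPolynomial.X (Fin.last n))) =
      emb (MvPolynomial.X (Sum.inl (Sum.inl ⟨n, by omega⟩))) := by
  rw [cD_C, MvPolynomial.rename_X, MvPolynomial.rename_X]
  rfl

theorem cD_Cmn (emb : MvPolynomial (V1 (n + 1) i) Qb →ₐ[Qb] B) (t : ℕ × List ℕ) :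
    cD emb (Polynomial.C (mn ν n t)) = algebraMap Qb B (ν t.1) *
      ((rem n t.2).map (fun j => cD emb (Polynomial.C (xv Qb (n + 1) j)))).prod := by
  unfold mn
  rw [Polynomial.C_mul, map_mul]
  congr 1
  · rw [cD_C, MvPolynomial.rename_C, MvPolynomial.rename_C]
    exact emb.commutes _
  · rw [map_list_prod, map_list_prod, List.map_map, List.map_map]
    rfl

/-- the equations, in terms of the homomorphism -/
theorem g1_eq (hn : i ≤ n) (emb : MvPolynomial (V1 (n + 1) i) Qb →ₐ[Qb] B) (c : ℕ → B)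
    (hx : ∀ j < n + 1, c j = cD emb (Polynomial.C (xv Qb (n + 1) j)))
    (hv : ∀ (m : ℕ) (h : m < 2 ^ i), c (n + 2 + m) =
      emb (MvPolynomial.X (Sum.inl (Sum.inr ⟨m, h⟩)))) :
    g1 i (fun j => c (tau i n j)) = c (n + 1) -
      emb (MvPolynomial.rename Sum.inl (eD i (xv Qb (n + 1)))) := by
  have h0 : 0 < 2 ^ i := by positivity
  unfold g1
  congr 1
  · have e2 : tau i n i = n + 1 := by
      unfold tau
      rw [if_neg (by omega)]
      omega
    beta_reduce
    rw [e2]
  · have h1 := DD_map ((emb.comp (MvPolynomial.rename Sum.inl) :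
      MvPolynomial (V0 (n + 1) i) Qb →ₐ[Qb] B) : MvPolynomial (V0 (n + 1) i) Qb →+* B)
      (ea i (xv Qb (n + 1))) i (ev Qb (n + 1) i)
    refine Eq.trans ?_ h1
    apply DD_congr2
    · intro j hj
      show _ = emb (MvPolynomial.rename Sum.inl (ea i (xv Qb (n + 1)) j))
      unfold ea
      split_ifs with hji
      · unfold tau
        beta_reduce
        rw [if_pos hji, hx j (by omega), cD_C]
      · unfold tau
        beta_reduce
        rw [if_neg (by omega)]
        have e1 : n + 1 + (i + 1 - i) = n + 2 + 0 := by omega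
        rw [e1, hv 0 h0, MvPolynomial.rename_X]
    · intro m hm
      show _ = emb (MvPolynomial.rename Sum.inl (ev Qb (n + 1) i m))
      unfold ev tau
      beta_reduce
      rw [dif_pos hm, if_neg (by omega)]
      have e1 : n + 1 + (i + 1 + m - i) = n + 2 + m := by omega
      rw [e1, hv m hm, MvPolynomial.rename_X]

theorem g2_eq (hn : i ≤ n) (emb : MvPolynomial (V1 (n + 1) i) Qb →ₐ[Qb] B) (y : B) (c : ℕ → B)
    (hx : ∀ j < n + 1, c j = cD emb (Polynomial.C (xv Qb (n + 1) j)))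
    (hv : ∀ (m : ℕ) (h : m < 2 ^ i), c (n + 2 + m) =
      emb (MvPolynomial.X (Sum.inl (Sum.inr ⟨m, h⟩))))
    (hu0 : c (n + 2 + 2 ^ i) = y)
    (hu : ∀ (m : ℕ) (h : m < 2 ^ i - 1), c (n + 3 + 2 ^ i + m) =
      emb (MvPolynomial.X (Sum.inr ⟨m, h⟩)))
    (hD : c (n + 1) = emb (MvPolynomial.rename Sum.inl (eD i (xv Qb (n + 1)))))
    (hy0 : c (n + 2 + 2 * 2 ^ i) =
      emb (MvPolynomial.rename Sum.inl (atD i (xv Qb (n + 1)) (qq0 ν n p))))
    (hy1 : c (n + 3 + 2 * 2 ^ i) =
      emb (MvPolynomial.rename Sum.inl (atD i (xv Qb (n + 1)) (qq1 ν n p)))) :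
    g2 i (fun j => c (tau i n j)) =
      pq (fun j => emb (MvPolynomial.rename Sum.inl (ea i (xv Qb (n + 1)) j))) i
        (fun m => if m = 0 then y else emb (eu Qb (n + 1) i m)) -
      emb (MvPolynomial.rename Sum.inl (ea i (xv Qb (n + 1)) i)) *
        emb (MvPolynomial.rename Sum.inl (eP i (xv Qb (n + 1)) (qq0 ν n p) (qq1 ν n p))) := by
  have h0 : 0 < 2 ^ i := by positivity
  have hti : c (tau i n (i + 1)) = emb (MvPolynomial.rename Sum.inl (ea i (xv Qb (n + 1)) i)) := by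
    unfold tau ea
    rw [if_neg (by omega), if_neg (by omega)]
    have e1 : n + 1 + (i + 1 - i) = n + 2 + 0 := by omega
    rw [e1, hv 0 h0, MvPolynomial.rename_X]
  unfold g2
  congr 1
  · unfold pq
    refine sum_congr rfl fun m hm => ?_
    rw [mem_range] at hm
    congr 1
    · apply pc_congr
      intro j hj
      beta_reduce
      rw [if_pos hj]
      unfold tau ea
      rw [if_pos hj, if_pos hj, hx j (by omega), cD_C]
    · congr 1
      beta_reduce
      unfold tau
      rw [if_neg (by omega)]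
      have e1 : n + 1 + (i + 1 + 2 ^ i + m - i) = n + 2 + 2 ^ i + m := by omega
      rw [e1]
      by_cases hm0 : m = 0
      · rw [if_pos hm0, hm0]
        exact hu0
      · rw [if_neg hm0]
        have e2 : n + 2 + 2 ^ i + m = n + 3 + 2 ^ i + (m - 1) := by omega
        rw [e2, hu (m - 1) (by omega)]
        unfold eu
        rw [dif_pos (by omega)]
  · beta_reduce
    rw [hti]
    congr 1
    have e1 : tau i n (i + 1 + 2 * 2 ^ i) = n + 2 + 2 * 2 ^ i := by
      unfold tau
      rw [if_neg (by omega)]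
      omega
    have e2 : tau i n i = n + 1 := by
      unfold tau
      rw [if_neg (by omega)]
      omega
    have e3 : tau i n (i + 2 + 2 * 2 ^ i) = n + 3 + 2 * 2 ^ i := by
      unfold tau
      rw [if_neg (by omega)]
      omega
    rw [e1, e2, e3, hD, hy0, hy1]
    unfold eP
    rw [map_sub, map_pow, map_mul, map_pow, map_sub, map_pow, map_mul, map_pow]

theorem qq0_cD (emb : MvPolynomial (V1 (n + 1) i) Qb →ₐ[Qb] B) :
    cD emb (qq0 ν n p) = (p.map (fun t => algebraMap Qb B (ν t.1) *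
      (cD emb (abp (MvPolynomial.X (Fin.last n)) (cnt n t.2)).1 *
      ((rem n t.2).map (fun j => cD emb (Polynomial.C (xv Qb (n + 1) j)))).prod))).sum := by
  unfold qq0
  rw [map_list_sum, List.map_map]
  congr 1
  refine List.map_congr_left fun t _ => ?_
  rw [Function.comp_apply, map_mul, cD_Cmn]
  ring

theorem qq1_cD (emb : MvPolynomial (V1 (n + 1) i) Qb →ₐ[Qb] B) :
    cD emb (qq1 ν n p) = (p.map (fun t => algebraMap Qb B (ν t.1) *
      (cD emb (abp (MvPolynomial.X (Fin.last n)) (cnt n t.2)).2 *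
      ((rem n t.2).map (fun j => cD emb (Polynomial.C (xv Qb (n + 1) j)))).prod))).sum := by
  unfold qq1
  rw [map_list_sum, List.map_map]
  congr 1
  refine List.map_congr_left fun t _ => ?_
  rw [Function.comp_apply, map_mul, cD_Cmn]
  ring

/-- the equation `u_0 ^ 2 = d` gives a solution of the system -/
theorem th_sol (hn : i ≤ n) (hval : ∀ t ∈ p, ∀ j ∈ t.2, j < n + 1)
    (emb : MvPolynomial (V1 (n + 1) i) Qb →ₐ[Qb] B) (y : B)
    (hy : y ^ 2 = emb (ed i (xv Qb (n + 1)) (qq0 ν n p) (qq1 ν n p))) :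
    Sol ν i n p B (th ν i n p emb y) := by
  have hx : ∀ j < n + 1, th ν i n p emb y j = cD emb (Polynomial.C (xv Qb (n + 1) j)) := by
    intro j hj
    rw [th_x emb y j hj, cD_Cx emb j hj]
  have hprod : ∀ t ∈ p, ((rem n t.2).map (th ν i n p emb y)).prod =
      ((rem n t.2).map (fun j => cD emb (Polynomial.C (xv Qb (n + 1) j)))).prod := by
    intro t ht
    congr 1
    refine List.map_congr_left fun j hj => ?_
    exact hx j (hval t ht j (mem_rem hj).1)
  refine ⟨?_, ?_, ?_, ?_, ?_, ?_, ?_⟩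
  · rw [g1_eq hn emb _ hx (th_v emb y), th_D, sub_self]
  · rw [g2_eq (ν := ν) (p := p) hn emb y _ hx (th_v emb y) (th_u0 emb y) (th_u emb y) (th_D emb y)
      (th_y0 emb y) (th_y1 emb y), sub_eq_zero]
    exact relation (emb : MvPolynomial (V1 (n + 1) i) Qb →+* B) _ _ _ y hy
  · have := th_A (ν := ν) (p := p) emb y 0 (by omega)
    rw [mul_zero, add_zero] at this
    rw [this, ← cD_apply]
    show cD emb 1 = 1
    exact map_one _
  · have := th_B (ν := ν) (p := p) emb y 0 (by omega)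
    rw [mul_zero, add_zero] at this
    rw [this, ← cD_apply]
    show cD emb 0 = 0
    exact map_zero _
  · intro s hs
    have hs' : s = 0 ∨ s = 1 := by omega
    rcases hs' with rfl | rfl
    · rw [add_zero, th_y0, ← cD_apply, qq0_cD]
      congr 1
      refine List.map_congr_left fun t ht => ?_
      rw [hprod t ht, add_zero, th_A emb y _ (cnt_le_dgb ht), ← cD_apply]
    · have e1 : n + 2 + 2 * 2 ^ i + 1 = n + 3 + 2 * 2 ^ i := by omega
      rw [e1, th_y1, ← cD_apply, qq1_cD]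
      congr 1
      refine List.map_congr_left fun t ht => ?_
      have e2 : n + 4 + 2 * 2 ^ i + 1 + 2 * cnt n t.2 = n + 5 + 2 * 2 ^ i + 2 * cnt n t.2 := by
        omega
      rw [hprod t ht, e2, th_B emb y _ (cnt_le_dgb ht), ← cD_apply]
  · intro e he
    rw [th_A emb y (e + 1) (by omega), th_A emb y e (by omega), th_B emb y e (by omega), th_D,
      th_x emb y n (by omega), ← cD_Cw, ← cD_X, ← cD_apply, ← cD_apply, ← cD_apply, ← map_mul,
      ← map_mul, ← map_add]
    rfl
  · intro e he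
    rw [th_B emb y (e + 1) (by omega), th_A emb y e (by omega), th_B emb y e (by omega),
      th_x emb y n (by omega), ← cD_Cw, ← cD_apply, ← cD_apply, ← cD_apply, ← map_mul,
      ← map_add]
    rfl

/-- the solutions of the system come from the solutions of the equation -/
theorem sol_th (hn : i ≤ n) (hval : ∀ t ∈ p, ∀ j ∈ t.2, j < n + 1) {c : ℕ → B}
    (hc : Sol ν i n p B c) (hc0 : ∀ j, n + 6 + 2 * 2 ^ i + 2 * dgb p ≤ j → c j = 0) :
    (c (n + 2 + 2 ^ i)) ^ 2 = embOf i n c (ed i (xv Qb (n + 1)) (qq0 ν n p) (qq1 ν n p)) ∧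
      ∀ j, th ν i n p (embOf i n c) (c (n + 2 + 2 ^ i)) j = c j := by
  have h0 : 0 < 2 ^ i := by positivity
  set emb := embOf i n c with hemb
  have ex : ∀ (j : ℕ) (h : j < n + 1), emb (MvPolynomial.X (Sum.inl (Sum.inl ⟨j, h⟩))) = c j := by
    intro j h
    rw [hemb]
    unfold embOf
    rw [MvPolynomial.aeval_X]
    rfl
  have evv : ∀ (m : ℕ) (h : m < 2 ^ i), emb (MvPolynomial.X (Sum.inl (Sum.inr ⟨m, h⟩))) =
      c (n + 2 + m) := by
    intro m h
    rw [hemb]
    unfold embOf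
    rw [MvPolynomial.aeval_X]
    rfl
  have euu : ∀ (m : ℕ) (h : m < 2 ^ i - 1), emb (MvPolynomial.X (Sum.inr ⟨m, h⟩)) =
      c (n + 3 + 2 ^ i + m) := by
    intro m h
    rw [hemb]
    unfold embOf
    rw [MvPolynomial.aeval_X]
    rfl
  have hx : ∀ j < n + 1, c j = cD emb (Polynomial.C (xv Qb (n + 1) j)) := by
    intro j hj
    rw [cD_Cx emb j hj, ex]
  have hD : c (n + 1) = emb (MvPolynomial.rename Sum.inl (eD i (xv Qb (n + 1)))) := by
    have h1 := g1_eq hn emb c hx (fun m h => (evv m h).symm)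
    rw [hc.eq1] at h1
    exact (sub_eq_zero.1 h1.symm)
  have hAB : ∀ e ≤ dgb p, c (n + 4 + 2 * 2 ^ i + 2 * e) =
      cD emb (abp (MvPolynomial.X (Fin.last n)) e).1 ∧ c (n + 5 + 2 * 2 ^ i + 2 * e) =
      cD emb (abp (MvPolynomial.X (Fin.last n)) e).2 := by
    intro e
    induction e with
    | zero =>
      intro _
      rw [mul_zero, add_zero, add_zero, hc.a0, hc.b0]
      exact ⟨(map_one (cD emb)).symm, (map_zero (cD emb)).symm⟩
    | succ e ih =>
      intro he
      obtain ⟨h1, h2⟩ := ih (by omega)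
      have hw : c n = cD emb (Polynomial.C (MvPolynomial.X (Fin.last n))) := by
        rw [cD_Cw, ex]
      have hD' : c (n + 1) = cD emb Polynomial.X := by rw [cD_X, hD]
      rw [hc.ae e (by omega), hc.be e (by omega), h1, h2, hw, hD', ← map_mul, ← map_mul,
        ← map_mul, ← map_add, ← map_add]
      exact ⟨rfl, rfl⟩
  have hprod : ∀ t ∈ p, ((rem n t.2).map c).prod =
      ((rem n t.2).map (fun j => cD emb (Polynomial.C (xv Qb (n + 1) j)))).prod := by
    intro t ht
    congr 1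
    refine List.map_congr_left fun j hj => ?_
    exact hx j (hval t ht j (mem_rem hj).1)
  have hy0 : c (n + 2 + 2 * 2 ^ i) =
      emb (MvPolynomial.rename Sum.inl (atD i (xv Qb (n + 1)) (qq0 ν n p))) := by
    have h1 := hc.ye 0 (by norm_num)
    rw [add_zero] at h1
    rw [h1, ← cD_apply, qq0_cD]
    congr 1
    refine List.map_congr_left fun t ht => ?_
    rw [hprod t ht, add_zero, (hAB _ (cnt_le_dgb ht)).1]
  have hy1 : c (n + 3 + 2 * 2 ^ i) =
      emb (MvPolynomial.rename Sum.inl (atD i (xv Qb (n + 1)) (qq1 ν n p))) := by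
    have h1 := hc.ye 1 (by norm_num)
    have e1 : n + 2 + 2 * 2 ^ i + 1 = n + 3 + 2 * 2 ^ i := by omega
    rw [e1] at h1
    rw [h1, ← cD_apply, qq1_cD]
    congr 1
    refine List.map_congr_left fun t ht => ?_
    have e2 : n + 4 + 2 * 2 ^ i + 1 + 2 * cnt n t.2 = n + 5 + 2 * 2 ^ i + 2 * cnt n t.2 := by
      omega
    rw [hprod t ht, e2, (hAB _ (cnt_le_dgb ht)).2]
  refine ⟨?_, ?_⟩
  · apply relation' (emb : MvPolynomial (V1 (n + 1) i) Qb →+* B)
    have h2 := g2_eq (ν := ν) (p := p) hn emb (c (n + 2 + 2 ^ i)) c hx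
      (fun m h => (evv m h).symm) rfl (fun m h => (euu m h).symm) hD hy0 hy1
    rw [hc.eq2] at h2
    exact (sub_eq_zero.1 h2.symm)
  · intro j
    by_cases h1 : j < n + 1
    · rw [th_x emb _ j h1, ex]
    by_cases h2 : j = n + 1
    · rw [h2, th_D, ← hD]
    by_cases h3 : j < n + 2 + 2 ^ i
    · obtain ⟨m, rfl⟩ : ∃ m, j = n + 2 + m := ⟨j - (n + 2), by omega⟩
      rw [th_v emb _ m (by omega), evv]
    by_cases h4 : j = n + 2 + 2 ^ i
    · rw [h4, th_u0]
    by_cases h5 : j < n + 2 + 2 * 2 ^ i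
    · obtain ⟨m, rfl⟩ : ∃ m, j = n + 3 + 2 ^ i + m := ⟨j - (n + 3 + 2 ^ i), by omega⟩
      rw [th_u emb _ m (by omega), euu]
    by_cases h6 : j = n + 2 + 2 * 2 ^ i
    · rw [h6, th_y0, ← hy0]
    by_cases h7 : j = n + 3 + 2 * 2 ^ i
    · rw [h7, th_y1, ← hy1]
    by_cases h8 : j < n + 6 + 2 * 2 ^ i + 2 * dgb p
    · by_cases h9 : (j - (n + 4 + 2 * 2 ^ i)) % 2 = 0
      · obtain ⟨e, rfl⟩ : ∃ e, j = n + 4 + 2 * 2 ^ i + 2 * e :=
          ⟨(j - (n + 4 + 2 * 2 ^ i)) / 2, by omega⟩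
        rw [th_A emb _ e (by omega), ← cD_apply, (hAB e (by omega)).1]
      · obtain ⟨e, rfl⟩ : ∃ e, j = n + 5 + 2 * 2 ^ i + 2 * e :=
          ⟨(j - (n + 4 + 2 * 2 ^ i)) / 2, by omega⟩
        rw [th_B emb _ e (by omega), ← cD_apply, (hAB e (by omega)).2]
    · rw [hc0 j (by omega)]
      unfold th
      rw [dif_neg h1, if_neg h2, if_neg h3, if_neg h4, if_neg h5, if_neg h6, if_neg h7,
        if_neg h8]

end

end Pool.Agent.H901
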