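import Pool.Agent.H901.CMD

/-!
The computable reduction.
-/

set_option autoImplicit false

namespace Pool.Agent.H901

open Finset

theorem frac_equiv {A B : Type} [CommRing A] [CommRing B] [Algebra Qb A] [Algebra Qb B]
    (e : A ≃ₐ[Qb] B) : ∃ g : FractionRing A ≃ₐ[Qb] FractionRing B,
      ∀ x, g (algebraMap A _ x) = algebraMap B _ (e x) := by
  refine ⟨AlgEquiv.ofRingEquiv (f := IsFractionRing.ringEquivOfRingEquiv e.toRingEquiv) ?_, ?_⟩
  · intro r
    rw [IsScalarTower.algebraMap_apply Qb A (FractionRing A),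
      IsFractionRing.ringEquivOfRingEquiv_algebraMap,
      IsScalarTower.algebraMap_apply Qb B (FractionRing B)]
    congr 1
    exact e.commutes r
  · intro x
    show IsFractionRing.ringEquivOfRingEquiv e.toRingEquiv (algebraMap A (FractionRing A) x) = _
    rw [IsFractionRing.ringEquivOfRingEquiv_algebraMap]
    rfl

theorem ratA_iff {A B : Type} [CommRing A] [CommRing B] [Algebra Qb A] [Algebra Qb B]
    (e : A ≃ₐ[Qb] B) : RatA A ↔ RatA B := by
  obtain ⟨f, -⟩ := frac_equiv e
  constructor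
  · rintro ⟨d, ⟨g⟩⟩
    exact ⟨d, ⟨f.symm.trans g⟩⟩
  · rintro ⟨d, ⟨g⟩⟩
    exact ⟨d, ⟨f.trans g⟩⟩

theorem uniA_iff {A B : Type} [CommRing A] [CommRing B] [Algebra Qb A] [Algebra Qb B]
    (e : A ≃ₐ[Qb] B) : UniA A ↔ UniA B := by
  obtain ⟨f, -⟩ := frac_equiv e
  constructor
  · rintro ⟨d, ⟨g⟩⟩
    exact ⟨d, ⟨g.comp f.symm.toAlgHom⟩⟩
  · rintro ⟨d, ⟨g⟩⟩
    exact ⟨d, ⟨g.comp f.toAlgHom⟩⟩

theorem stabA_iff {A B : Type} [CommRing A] [CommRing B] [Algebra Qb A] [Algebra Qb B]
    (e : A ≃ₐ[Qb] B) : StabA A ↔ StabA B := by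
  obtain ⟨f, -⟩ := frac_equiv e
  have h : ∀ r : ℕ, Nonempty (FractionRing (MvPolynomial (Fin r) (FractionRing A)) ≃ₐ[Qb]
      FractionRing (MvPolynomial (Fin r) (FractionRing B))) := by
    intro r
    obtain ⟨g, -⟩ := frac_equiv (MvPolynomial.mapAlgEquiv (Fin r) f)
    exact ⟨g⟩
  constructor
  · rintro ⟨r, d, ⟨g⟩⟩
    obtain ⟨g'⟩ := h r
    exact ⟨r, d, ⟨g'.symm.trans g⟩⟩
  · rintro ⟨r, d, ⟨g⟩⟩
    obtain ⟨g'⟩ := h r
    exact ⟨r, d, ⟨g'.trans g⟩⟩

section

variable {ν : ℕ → Qb} {S : Sys}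

/-- the classes of the variables -/
noncomputable def cls (ν : ℕ → Qb) (S : Sys) (j : ℕ) : CR ν S :=
  Ideal.Quotient.mk (Ideal.span (eqs ν S)) (MvPolynomial.X j)

theorem aeval_cls : MvPolynomial.aeval (cls ν S) = Ideal.Quotient.mkₐ Qb (Ideal.span (eqs ν S)) := by
  apply MvPolynomial.algHom_ext
  intro j
  rw [MvPolynomial.aeval_X]
  rfl

theorem cls_eq {f : Poly} (hf : f ∈ S.2) : MvPolynomial.aeval (cls ν S) (val ν f) = 0 := by
  rw [aeval_cls]
  exact Ideal.Quotient.eq_zero_iff_mem.2 (Ideal.subset_span (Or.inl ⟨f, hf, rfl⟩))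

theorem cls_zero {j : ℕ} (hj : S.1 ≤ j) : cls ν S j = 0 :=
  Ideal.Quotient.eq_zero_iff_mem.2 (Ideal.subset_span (Or.inr ⟨j, hj, rfl⟩))

/-- homomorphisms from the coordinate ring -/
theorem cr_lift {B : Type} [CommRing B] [Algebra Qb B] (c : ℕ → B)
    (h1 : ∀ f ∈ S.2, MvPolynomial.aeval c (val ν f) = 0) (h2 : ∀ j, S.1 ≤ j → c j = 0) :
    ∃ φ : CR ν S →ₐ[Qb] B, ∀ j, φ (cls ν S j) = c j := by
  refine ⟨Ideal.Quotient.liftₐ (Ideal.span (eqs ν S)) (MvPolynomial.aeval c) ?_, ?_⟩
  · have h : Ideal.span (eqs ν S) ≤ RingHom.ker (MvPolynomial.aeval c : MvPolynomial ℕ Qb →ₐ[Qb] B)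
        := by
      rw [Ideal.span_le]
      rintro q (⟨f, hf, rfl⟩ | ⟨j, hj, rfl⟩)
      · exact h1 f hf
      · show MvPolynomial.aeval c (MvPolynomial.X j) = 0
        rw [MvPolynomial.aeval_X]
        exact h2 j hj
    exact fun a ha => h ha
  · intro j
    exact MvPolynomial.aeval_X c j

theorem cr_ext {B : Type} [CommRing B] [Algebra Qb B] {φ ψ : CR ν S →ₐ[Qb] B}
    (h : ∀ j, φ (cls ν S j) = ψ (cls ν S j)) : φ = ψ := by
  apply Ideal.Quotient.algHom_ext
  apply MvPolynomial.algHom_ext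
  exact h

end

section

variable {ν : ℕ → Qb} {i n : ℕ} {p : Poly} {u u' : ℕ}

/-- the computed system describes the hypersurface -/
theorem iso_fsys (hu : ν u = 1) (hu' : ν u' = -1) (hn : i ≤ n)
    (hval : ∀ t ∈ p, ∀ j ∈ t.2, j < n + 1) :
    Nonempty (CR ν (fsys i u u' (n, p)) ≃ₐ[Qb]
      HQ (ed i (xv Qb (n + 1)) (qq0 ν n p) (qq1 ν n p))) := by
  set d := ed i (xv Qb (n + 1)) (qq0 ν n p) (qq1 ν n p) with hd
  set S := fsys i u u' (n, p) with hS
  -- the hypersurface gives a solution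
  let embH : MvPolynomial (V1 (n + 1) i) Qb →ₐ[Qb] HQ d :=
    (Ideal.Quotient.mkₐ Qb (Ideal.span {hG d})).comp (MvPolynomial.rename some)
  let yH : HQ d := Ideal.Quotient.mk _ (MvPolynomial.X none)
  have hyH : yH ^ 2 = embH d := by
    show Ideal.Quotient.mk _ (MvPolynomial.X none) ^ 2 =
      Ideal.Quotient.mk _ (MvPolynomial.rename some d)
    rw [← map_pow, Ideal.Quotient.eq, Ideal.mem_span_singleton]
    exact dvd_refl _
  have hsol := th_sol (ν := ν) (p := p) hn hval embH yH hyH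
  have hth0 : ∀ j, S.1 ≤ j → th ν i n p embH yH j = 0 := by
    intro j hj
    have hj' : n + 6 + 2 * 2 ^ i + 2 * dgb p ≤ j := hj
    have h0 : 0 < 2 ^ i := by positivity
    unfold th
    rw [dif_neg (by omega), if_neg (by omega), if_neg (by omega), if_neg (by omega),
      if_neg (by omega), if_neg (by omega), if_neg (by omega), if_neg (by omega)]
  obtain ⟨fwd, hfwd⟩ := cr_lift (ν := ν) (S := S) (th ν i n p embH yH)
    ((sol_iff hu hu' _).2 hsol) hth0
  -- the solution in the coordinate ring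
  have hsol2 : Sol ν i n p (CR ν S) (cls ν S) :=
    (sol_iff hu hu' _).1 (fun f hf => cls_eq hf)
  obtain ⟨hy, hth⟩ := sol_th hn hval hsol2 (fun j hj => cls_zero hj)
  set emb2 := embOf i n (cls ν S) with hemb2
  set y2 := cls ν S (n + 2 + 2 ^ i) with hy2
  let g0 : MvPolynomial (Option (V1 (n + 1) i)) Qb →ₐ[Qb] CR ν S :=
    MvPolynomial.aeval (fun o => o.elim y2 (fun v => emb2 (MvPolynomial.X v)))
  have hg0s : g0.comp (MvPolynomial.rename some) = emb2 := by
    apply MvPolynomial.algHom_ext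
    intro v
    rw [AlgHom.comp_apply, MvPolynomial.rename_X, MvPolynomial.aeval_X]
    rfl
  have hg0s' : ∀ f, g0 (MvPolynomial.rename some f) = emb2 f := fun f =>
    congrArg (fun φ => φ f) hg0s
  have hg0n : g0 (MvPolynomial.X none) = y2 := by
    rw [MvPolynomial.aeval_X]
    rfl
  have hg0 : g0 (hG d) = 0 := by
    unfold hG
    rw [map_sub, map_pow, hg0n, hg0s', hy, sub_self]
  let bwd : HQ d →ₐ[Qb] CR ν S := Ideal.Quotient.liftₐ (Ideal.span {hG d}) g0 (by
    intro a ha
    rw [Ideal.mem_span_singleton] at ha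
    obtain ⟨b, rfl⟩ := ha
    rw [map_mul, hg0, zero_mul])
  have hbe : bwd.comp embH = emb2 := by
    apply AlgHom.ext
    intro f
    exact hg0s' f
  have hby : bwd yH = y2 := hg0n
  refine ⟨AlgEquiv.ofAlgHom fwd bwd ?_ ?_⟩
  · apply Ideal.Quotient.algHom_ext
    apply MvPolynomial.algHom_ext
    rintro (_ | v)
    · show fwd (bwd yH) = yH
      rw [hby, hy2, hfwd, th_u0]
    · have h5 : embH (MvPolynomial.X v) = Ideal.Quotient.mk _ (MvPolynomial.X (some v)) := by
        show Ideal.Quotient.mk _ (MvPolynomial.rename some (MvPolynomial.X v)) = _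
        rw [MvPolynomial.rename_X]
      show fwd (bwd (Ideal.Quotient.mk _ (MvPolynomial.X (some v)))) =
        Ideal.Quotient.mk _ (MvPolynomial.X (some v))
      rw [← h5]
      have h1 : bwd (embH (MvPolynomial.X v)) = emb2 (MvPolynomial.X v) :=
        congrArg (fun φ => φ (MvPolynomial.X v)) hbe
      rw [h1]
      have h3 : (fwd.comp emb2) = embH := by
        rw [← embOf_th (ν := ν) (i := i) (n := n) (p := p) embH yH]
        apply MvPolynomial.algHom_ext
        intro v
        rw [AlgHom.comp_apply, hemb2]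
        unfold embOf
        rw [MvPolynomial.aeval_X, MvPolynomial.aeval_X]
        rcases v with (j | m) | m
        · exact hfwd _
        · exact hfwd _
        · exact hfwd _
      have h4 : fwd (emb2 (MvPolynomial.X v)) = embH (MvPolynomial.X v) :=
        congrArg (fun φ => φ (MvPolynomial.X v)) h3
      rw [h4]
  · apply cr_ext
    intro j
    rw [AlgHom.comp_apply, hfwd, th_map, hbe, hby, hth]
    rfl

/-- the coordinate ring of the hypersurface `p = 0` -/
theorem iso_hyp (ν : ℕ → Qb) (n : ℕ) (p : Poly) :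
    ∃ e : CR ν (n + 1, [p]) ≃ₐ[Qb] AdjoinRoot (toP n (val ν p)),
      ∀ j < n, e (cls ν (n + 1, [p]) j) = AdjoinRoot.of _ (xv Qb n j) := by
  set P := toP n (val ν p) with hP
  set S : Sys := (n + 1, [p]) with hS
  let c : ℕ → AdjoinRoot P := fun j => if h : j < n then AdjoinRoot.of P (MvPolynomial.X ⟨j, h⟩)
    else if j = n then AdjoinRoot.root P else 0
  let mkP : Polynomial (MvPolynomial (Fin n) Qb) →ₐ[Qb] AdjoinRoot P :=
    (AdjoinRoot.mkₐ P).restrictScalars Qb
  have hc : MvPolynomial.aeval c = mkP.comp (toP n) := by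
    apply MvPolynomial.algHom_ext
    intro j
    rw [MvPolynomial.aeval_X, AlgHom.comp_apply]
    unfold toP
    rw [MvPolynomial.aeval_X]
    show (if h : j < n then AdjoinRoot.of P (MvPolynomial.X ⟨j, h⟩)
      else if j = n then AdjoinRoot.root P else 0) = AdjoinRoot.mk P _
    split_ifs
    · exact (AdjoinRoot.mk_C _).symm
    · exact (AdjoinRoot.mk_X).symm
    · exact (map_zero _).symm
  obtain ⟨fwd, hfwd⟩ := cr_lift (ν := ν) (S := S) c (by
    intro f hf
    have hf' : f = p := by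
      rw [hS] at hf
      simpa using hf
    rw [hf', hc]
    show AdjoinRoot.mk P (toP n (val ν p)) = 0
    exact AdjoinRoot.mk_self) (by
    intro j hj
    have hj' : n + 1 ≤ j := hj
    show (if h : j < n then AdjoinRoot.of P (MvPolynomial.X ⟨j, h⟩)
      else if j = n then AdjoinRoot.root P else 0) = 0
    rw [dif_neg (by omega), if_neg (by omega)])
  let g0 : MvPolynomial (Fin n) Qb →ₐ[Qb] CR ν S := MvPolynomial.aeval (fun j => cls ν S j)
  have hg : ∀ f : MvPolynomial ℕ Qb, (toP n f).eval₂ (g0 : MvPolynomial (Fin n) Qb →+* CR ν S)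
      (cls ν S n) = MvPolynomial.aeval (cls ν S) f := by
    intro f
    induction f using MvPolynomial.induction_on with
    | C a =>
      have h1 : toP n (MvPolynomial.C a) = Polynomial.C (MvPolynomial.C a) := (toP n).commutes a
      rw [h1, Polynomial.eval₂_C, MvPolynomial.aeval_C]
      exact g0.commutes a
    | add p q hp hq => rw [map_add, Polynomial.eval₂_add, hp, hq, map_add]
    | mul_X p j hp =>
      rw [map_mul, Polynomial.eval₂_mul, hp, map_mul, MvPolynomial.aeval_X]
      congr 1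
      unfold toP
      rw [MvPolynomial.aeval_X]
      split_ifs with h1 h2
      · rw [Polynomial.eval₂_C]
        show g0 (MvPolynomial.X ⟨j, h1⟩) = _
        rw [MvPolynomial.aeval_X]
      · rw [Polynomial.eval₂_X, h2]
      · rw [Polynomial.eval₂_zero, cls_zero]
        show n + 1 ≤ j
        omega
  have hroot : P.eval₂ (g0 : MvPolynomial (Fin n) Qb →+* CR ν S) (cls ν S n) = 0 := by
    rw [hP]
    refine (hg _).trans (cls_eq ?_)
    rw [hS]
    simp
  let bwd : AdjoinRoot P →ₐ[Qb] CR ν S := AdjoinRoot.liftAlgHom P g0 (cls ν S n) hroot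
  have hbof : ∀ r, bwd (AdjoinRoot.of P r) = g0 r := fun r => AdjoinRoot.lift_of hroot
  have hbroot : bwd (AdjoinRoot.root P) = cls ν S n := AdjoinRoot.lift_root hroot
  have h1 : bwd.comp fwd = AlgHom.id Qb (CR ν S) := by
    apply cr_ext
    intro j
    rw [AlgHom.comp_apply, hfwd]
    show bwd (if h : j < n then AdjoinRoot.of P (MvPolynomial.X ⟨j, h⟩)
      else if j = n then AdjoinRoot.root P else 0) = cls ν S j
    split_ifs with h1 h2
    · rw [hbof]
      exact MvPolynomial.aeval_X _ _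
    · rw [hbroot, h2]
    · rw [map_zero, cls_zero]
      show n + 1 ≤ j
      omega
  have hfo : ∀ r, fwd (g0 r) = AdjoinRoot.of P r := by
    intro r
    induction r using MvPolynomial.induction_on with
    | C a =>
      have h3 : g0 (MvPolynomial.C a) = algebraMap Qb _ a := g0.commutes a
      rw [h3, fwd.commutes]
      rfl
    | add p q hp hq => rw [map_add, map_add, hp, hq, map_add]
    | mul_X p j hp =>
      rw [map_mul, map_mul, hp, map_mul]
      congr 1
      have h3 : g0 (MvPolynomial.X j) = cls ν S j := MvPolynomial.aeval_X _ _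
      rw [h3, hfwd]
      show (if h : (j : ℕ) < n then AdjoinRoot.of P (MvPolynomial.X ⟨j, h⟩)
        else if (j : ℕ) = n then AdjoinRoot.root P else 0) = _
      rw [dif_pos j.2]
  have h2 : fwd.comp bwd = AlgHom.id Qb (AdjoinRoot P) := by
    apply AlgHom.ext
    intro x
    rw [AlgHom.comp_apply]
    obtain ⟨f, rfl⟩ := AdjoinRoot.mk_surjective x
    show fwd (bwd (AdjoinRoot.mk P f)) = AdjoinRoot.mk P f
    induction f using Polynomial.induction_on' with
    | add f g hf hg => rw [map_add, map_add, map_add, hf, hg]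
    | monomial m r =>
      rw [← Polynomial.C_mul_X_pow_eq_monomial, map_mul, map_mul, map_mul, AdjoinRoot.mk_C,
        map_pow, map_pow, map_pow, AdjoinRoot.mk_X, hbof, hfo, hbroot, hfwd]
      congr 2
      show (if h : n < n then AdjoinRoot.of P (MvPolynomial.X ⟨n, h⟩)
        else if n = n then AdjoinRoot.root P else 0) = _
      rw [dif_neg (lt_irrefl n), if_pos rfl]
  refine ⟨AlgEquiv.ofAlgHom fwd bwd h2 h1, fun j hj => ?_⟩
  show fwd (cls ν S j) = _
  rw [hfwd]
  show (if h : j < n then AdjoinRoot.of P (MvPolynomial.X ⟨j, h⟩)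
      else if j = n then AdjoinRoot.root P else 0) = _
  rw [dif_pos hj]
  unfold xv
  rw [dif_pos hj]

end

end Pool.Agent.H901
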