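import Pool.Agent.H901.CME

/-!
The reduction.
-/

set_option autoImplicit false

namespace Pool.Agent.H901

open Finset

section Dim

variable {k : Type} [Field k] {τ : Type}

theorem trdeg_hq (d : MvPolynomial τ k)
    (hd : ¬ IsSquare (algebraMap (MvPolynomial τ k) (FractionRing (MvPolynomial τ k)) d))
    [IsDomain (HQ d)] : Algebra.trdeg k (FractionRing (HQ d)) = Cardinal.mk τ := by
  obtain ⟨j, y, hy2, -, hspan, -⟩ := hq_pack d hd
  let _ : Algebra (FractionRing (MvPolynomial τ k)) (FractionRing (HQ d)) := j.toRingHom.toAlgebra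
  have hj : ∀ a, algebraMap (FractionRing (MvPolynomial τ k)) (FractionRing (HQ d)) a = j a :=
    fun a => rfl
  have ht1 : IsScalarTower k (FractionRing (MvPolynomial τ k)) (FractionRing (HQ d)) :=
    IsScalarTower.of_algebraMap_eq fun c => (j.commutes c).symm
  have hy : IsAlgebraic (FractionRing (MvPolynomial τ k)) y := by
    refine ⟨Polynomial.X ^ 2 - Polynomial.C (algebraMap _ _ d),
      Polynomial.X_pow_sub_C_ne_zero (by norm_num) _, ?_⟩
    rw [map_sub, map_pow, Polynomial.aeval_X, Polynomial.aeval_C, hj, hy2, sub_self]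
  have halg : Algebra.IsAlgebraic (FractionRing (MvPolynomial τ k)) (FractionRing (HQ d)) := by
    refine ⟨fun z => ?_⟩
    obtain ⟨a, b, rfl⟩ := hspan z
    exact (isAlgebraic_algebraMap a).add ((isAlgebraic_algebraMap b).mul hy)
  have h2 : Algebra.IsAlgebraic (MvPolynomial τ k) (FractionRing (MvPolynomial τ k)) :=
    IsLocalization.isAlgebraic _ (nonZeroDivisors (MvPolynomial τ k))
  have h3 := (IsTranscendenceBasis.mvPolynomial τ k).algebraMap_comp
    (A := FractionRing (MvPolynomial τ k))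
  have h4 := h3.algebraMap_comp (A := FractionRing (HQ d))
  exact h4.cardinalMk_eq_trdeg.symm

end Dim

section

variable {ν : ℕ → Qb} {i n : ℕ} {p : Poly} {u u' : ℕ}

/-- the inclusion of the first variables -/
noncomputable def inc (n : ℕ) : MvPolynomial (Fin n) Qb →ₐ[Qb] MvPolynomial ℕ Qb :=
  MvPolynomial.rename Fin.val

/-- the variables of `val` -/
theorem frP_toP (hval : ∀ t ∈ p, ∀ j ∈ t.2, j < n + 1) :
    (toP n (val ν p)).eval₂ (inc n :
      MvPolynomial (Fin n) Qb →+* MvPolynomial ℕ Qb) (MvPolynomial.X n) = val ν p := by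
  have h : ∀ j < n + 1, (toP n (MvPolynomial.X j)).eval₂ (inc n :
      MvPolynomial (Fin n) Qb →+* MvPolynomial ℕ Qb) (MvPolynomial.X n) = MvPolynomial.X j := by
    intro j hj
    unfold toP
    rw [MvPolynomial.aeval_X]
    split_ifs with h1 h2
    · rw [Polynomial.eval₂_C]
      exact MvPolynomial.rename_X _ _
    · rw [Polynomial.eval₂_X, h2]
    · omega
  have hc : ∀ a : Qb, (toP n (MvPolynomial.C a)).eval₂ (inc n :
      MvPolynomial (Fin n) Qb →+* MvPolynomial ℕ Qb) (MvPolynomial.X n) = MvPolynomial.C a := by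
    intro a
    have h1 : toP n (MvPolynomial.C a) = Polynomial.C (MvPolynomial.C a) := (toP n).commutes a
    rw [h1, Polynomial.eval₂_C]
    exact MvPolynomial.rename_C _ _
  let E : MvPolynomial ℕ Qb →+* MvPolynomial ℕ Qb :=
    (Polynomial.eval₂RingHom (inc n :
      MvPolynomial (Fin n) Qb →+* MvPolynomial ℕ Qb) (MvPolynomial.X n)).comp
        (toP n : MvPolynomial ℕ Qb →+* _)
  have hE : ∀ f, E f = (toP n f).eval₂ (inc n :
      MvPolynomial (Fin n) Qb →+* MvPolynomial ℕ Qb) (MvPolynomial.X n) := fun f => rfl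
  rw [← hE]
  unfold val
  rw [map_list_sum, List.map_map]
  congr 1
  refine List.map_congr_left fun t ht => ?_
  rw [Function.comp_apply, map_mul, map_list_prod, List.map_map, hE, hc]
  congr 2
  refine List.map_congr_left fun j hj => ?_
  rw [Function.comp_apply, hE]
  exact h j (hval t ht j hj)

theorem natDegree_toP (hval : ∀ t ∈ p, ∀ j ∈ t.2, j < n + 1) (hvar : n ∈ (val ν p).vars) :
    (toP n (val ν p)).natDegree ≠ 0 := by
  intro h0
  have h1 := frP_toP (ν := ν) hval
  rw [Polynomial.eq_C_of_natDegree_eq_zero h0, Polynomial.eval₂_C] at h1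
  rw [← h1] at hvar
  have h2 := MvPolynomial.vars_rename (Fin.val : Fin n → ℕ) ((toP n (val ν p)).coeff 0)
  have h3 := h2 hvar
  rw [mem_image] at h3
  obtain ⟨a, -, ha⟩ := h3
  have := a.2
  omega

theorem prime_toP (hv : IsVar ν (n + 1, [p])) (hvar : n ∈ (val ν p).vars) :
    Prime (toP n (val ν p)) ∧ (toP n (val ν p)).natDegree ≠ 0 := by
  have hval : ∀ t ∈ p, ∀ j ∈ t.2, j < n + 1 := hv.1 p (by simp)
  have hd := natDegree_toP hval hvar
  refine ⟨?_, hd⟩
  have hne : toP n (val ν p) ≠ 0 := by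
    intro h
    rw [h] at hd
    exact hd Polynomial.natDegree_zero
  obtain ⟨e, -⟩ := iso_hyp ν n p
  have := hv.2
  have hdom : IsDomain (AdjoinRoot (toP n (val ν p))) := e.symm.toMulEquiv.isDomain
  rw [← Ideal.span_singleton_prime hne]
  exact (Ideal.Quotient.isDomain_iff_prime _).1 hdom

theorem sect_iff (hn : i ≤ n) : Sect ν i n p ↔ IsoPf i (toP n (val ν p)) := by
  obtain ⟨e, he⟩ := iso_hyp ν n p
  obtain ⟨g, hg⟩ := frac_equiv e
  have key : ∀ z : ℕ → FractionRing (CR ν (n + 1, [p])),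
      pq (fun j => algebraMap (AdjoinRoot (toP n (val ν p))) (FractionRing (AdjoinRoot
        (toP n (val ν p)))) (AdjoinRoot.of _ (xv Qb n j))) i (fun m => g (z m)) =
      g (pq (fx ν (n + 1, [p])) i z) := by
    intro z
    have h1 := pq_map g.toAlgHom.toRingHom (fx ν (n + 1, [p])) i z
    refine Eq.trans ?_ h1
    apply pq_congr
    intro j hj
    show _ = g (algebraMap (CR ν (n + 1, [p])) (FractionRing (CR ν (n + 1, [p])))
      (cls ν (n + 1, [p]) j))
    rw [hg, he j (by omega)]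
  constructor
  · rintro ⟨z, ⟨m, hm, hz⟩, h⟩
    refine ⟨fun m => g (z m), ⟨m, hm, ?_⟩, ?_⟩
    · exact (map_ne_zero_iff g g.injective).2 hz
    · rw [key, h, map_zero]
  · rintro ⟨z, ⟨m, hm, hz⟩, h⟩
    refine ⟨fun m => g.symm (z m), ⟨m, hm, ?_⟩, ?_⟩
    · exact (map_ne_zero_iff g.symm g.symm.injective).2 hz
    · apply g.injective
      rw [← key, map_zero, ← h]
      congr 1
      funext m
      exact g.apply_symm_apply _

theorem fsys_valid (hn : i ≤ n) (hval : ∀ t ∈ p, ∀ j ∈ t.2, j < n + 1) :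
    ∀ f ∈ (fsys i u u' (n, p)).2, ∀ t ∈ f, ∀ j ∈ t.2, j < (fsys i u u' (n, p)).1 := by
  have hinst : ∀ L : IPoly, (∀ t ∈ L, ∀ j ∈ t.2, j < i + 3 + 2 * 2 ^ i) →
      ∀ t ∈ inst u u' (tau i n) L, ∀ j ∈ t.2, j < n + 6 + 2 * 2 ^ i + 2 * dgb p := by
    intro L hL t ht j hj
    unfold inst at ht
    rw [List.mem_map] at ht
    obtain ⟨t', ht', rfl⟩ := ht
    rw [List.mem_map] at hj
    obtain ⟨l, hl, rfl⟩ := hj
    have := hL t' ht' l hl
    unfold tau
    split_ifs <;> omega
  have hyeq : ∀ s ≤ 1, ∀ t ∈ yeq i u' n s p, ∀ j ∈ t.2, j < n + 6 + 2 * 2 ^ i + 2 * dgb p := by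
    intro s hs t ht j hj
    unfold yeq at ht
    rw [List.mem_cons, List.mem_map] at ht
    rcases ht with rfl | ⟨t', ht', rfl⟩
    · rw [List.mem_singleton] at hj
      omega
    · rw [List.mem_cons] at hj
      have := cnt_le_dgb (n := n) ht'
      rcases hj with rfl | hj
      · omega
      · have := hval t' ht' j (mem_rem hj).1
        omega
  intro f hf t ht j hj
  show j < n + 6 + 2 * 2 ^ i + 2 * dgb p
  unfold fsys at hf
  simp only [List.mem_append, List.mem_cons, List.mem_map, List.mem_range, List.not_mem_nil,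
    or_false] at hf
  rcases hf with (rfl | rfl | rfl | rfl | rfl | rfl) | (⟨e, he, rfl⟩ | ⟨e, he, rfl⟩)
  · exact hinst _ (exists_l1 i).choose_spec.1 t ht j hj
  · exact hinst _ (exists_l2 i).choose_spec.1 t ht j hj
  · simp only [List.mem_cons, List.not_mem_nil, or_false] at ht
    rcases ht with rfl | rfl
    · simp only [List.mem_cons, List.not_mem_nil, or_false] at hj
      omega
    · simp at hj
  · simp only [List.mem_cons, List.not_mem_nil, or_false] at ht
    subst ht
    simp only [List.mem_cons, List.not_mem_nil, or_false] at hj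
    omega
  · exact hyeq 0 (by omega) t ht j hj
  · exact hyeq 1 (by omega) t ht j hj
  · unfold aeq at ht
    simp only [List.mem_cons, List.not_mem_nil, or_false] at ht
    rcases ht with rfl | rfl | rfl <;>
    · simp only [List.mem_cons, List.not_mem_nil, or_false] at hj
      omega
  · unfold beq at ht
    simp only [List.mem_cons, List.not_mem_nil, or_false] at ht
    rcases ht with rfl | rfl | rfl <;>
    · simp only [List.mem_cons, List.not_mem_nil, or_false] at hj
      omega

/-- the transcendence degree does not depend on the presentation -/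
theorem trdeg_iff {A B : Type} [CommRing A] [CommRing B] [Algebra Qb A] [Algebra Qb B]
    (e : A ≃ₐ[Qb] B) :
    Algebra.trdeg Qb (FractionRing A) = Algebra.trdeg Qb (FractionRing B) := by
  obtain ⟨g, -⟩ := frac_equiv e
  exact g.trdeg_eq

/-- **The reduction.** -/
theorem main_red (hi : 2 ≤ i) (hn : i ≤ n) (hu : ν u = 1) (hu' : ν u' = -1)
    (hv : IsVar ν (n + 1, [p])) (hvar : n ∈ (val ν p).vars) :
    IsVar ν (fsys i u u' (n, p)) ∧ UniA (CR ν (fsys i u u' (n, p))) ∧
      Algebra.trdeg Qb (FractionRing (CR ν (fsys i u u' (n, p)))) =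
        ((n + 2 ^ (i + 1) : ℕ) : Cardinal) ∧
      [RatA (CR ν (fsys i u u' (n, p))), StabA (CR ν (fsys i u u' (n, p))),
        Sect ν i n p].TFAE := by
  have hval : ∀ t ∈ p, ∀ j ∈ t.2, j < n + 1 := hv.1 p (by simp)
  obtain ⟨hprime, hd⟩ := prime_toP hv hvar
  have hpq := pP_qq ν n p
  obtain ⟨h0, h1⟩ := parts_ne hd hpq
  obtain ⟨hdom, huni, htfae⟩ := geo hi (show i ≤ n + 1 by omega) h0 h1 (by
    rw [hpq]
    exact (prime_shp hprime).irreducible)
  obtain ⟨e⟩ := iso_fsys (ν := ν) (p := p) hu hu' hn hval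
  have hsq := ed_not_square hi (k := Qb) two_ne_zero (xv_ne (show i ≤ n + 1 by omega) 0 (by omega))
    (xv_ne (show i ≤ n + 1 by omega) 1 (by omega)) (qq0 ν n p) (qq1 ν n p)
  refine ⟨⟨fsys_valid hn hval, e.toMulEquiv.isDomain⟩, (uniA_iff e).2 huni, ?_, ?_⟩
  · rw [trdeg_iff e, trdeg_hq _ hsq]
    have h4 : 1 ≤ 2 ^ i := Nat.one_le_two_pow
    simp only [Cardinal.mk_fintype, Fintype.card_sum, Fintype.card_fin, Nat.cast_inj]
    rw [pow_succ]
    omega
  rw [ratA_iff e, stabA_iff e, sect_iff hn]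
  have h3 : IsoPf i (toP n (val ν p)) ↔ IsoPf i (pP (qq0 ν n p) (qq1 ν n p)) := by
    rw [hpq]
    exact (iso_shp hprime.irreducible hd hn).symm
  rw [h3]
  exact htfae

end

end Pool.Agent.H901
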