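import Pool.Agent.H901.GEN2

/-!
Every Pfister form over a finitely generated field is, up to squares of variables, the form
`<<x_0, …, x_(i-1)>>` over the function field of a hypersurface.
-/

set_option autoImplicit false

namespace Pool.Agent.H901

open Finset Polynomial

/-- the elements `a_j * y_j ^ 2` of the field `F(y_0, …, y_(i-1))` -/
noncomputable def sqv {F : Type} [Field F] (i : ℕ) (a : ℕ → F) (j : Fin i) : FF F i :=
  algebraMap F (FF F i) (a j) * xx F j ^ 2

/-- There is an isomorphism over the algebraic numbers which maps `x_j` to `y_j` for all `j < i`. -/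
def IsoTo {K L : Type} [CommRing K] [CommRing L] [Algebra Qb K] [Algebra Qb L] {i : ℕ}
    (x : ℕ → K) (y : Fin i → L) : Prop :=
  ∃ e : K ≃ₐ[Qb] L, ∀ j : Fin i, e (x j) = y j

/-- The function field of the variety is `F(y_0, …, y_(i-1))`, with `x_j = a_j * y_j ^ 2` for all
`j < i`. -/
def IsModel (ν : ℕ → Qb) (S : Sys) {F : Type} [Field F] [Algebra Qb F] (i : ℕ) (a : ℕ → F) : Prop :=
  IsoTo (fx ν S) (sqv i a)

/-- Let `F` be a finitely generated field over the algebraic numbers and `a_0, …, a_(i-1)` nonzero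
elements of `F`. There is a hypersurface `p = 0` of dimension `n = i + trdeg F` with the function
field `F(y_0, …, y_(i-1))` over the algebraic numbers, and the isomorphism maps `x_j` to
`a_j * y_j ^ 2`. So the form `<<x_0, …, x_(i-1)>>` over this function field is isomorphic to the
form `<<a_0, …, a_(i-1)>>` over `F(y_0, …, y_(i-1))`; it is isotropic if and only if
`<<a_0, …, a_(i-1)>>` is isotropic over `F`. -/
def CoversF (ν : ℕ → Qb) (i : ℕ) : Prop :=
  ∀ (F : Type) [Field F] [Algebra Qb F] [Algebra.EssFiniteType Qb F] (a : ℕ → F),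
    (∀ j < i, a j ≠ 0) → ∃ (n : ℕ) (p : Poly), Hyp ν i n p ∧
      (n : Cardinal) = i + Algebra.trdeg Qb F ∧ IsModel ν (n + 1, [p]) i a ∧
      (Sect ν i n p ↔ Isot a i)

section Model

variable {k F : Type} [Field k] [CharZero k] [Field F] [Algebra k F] [Algebra.EssFiniteType k F]

/-- Every form over a finitely generated field can be represented by a hypersurface, with the
isomorphism of the function fields. -/
theorem exists_model_iso {i : ℕ} (a : ℕ → F) (ha : ∀ j < i, a j ≠ 0) :
    ∃ n : ℕ, i ≤ n ∧ (n : Cardinal) = i + Algebra.trdeg k F ∧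
      ∃ P : (MvPolynomial (Fin n) k)[X], Irreducible P ∧ P.natDegree ≠ 0 ∧
        (∃ e : FractionRing (AdjoinRoot P) →+* FF F i, Function.Bijective e ∧
          (∀ c : k, e (algebraMap (AdjoinRoot P) _ (AdjoinRoot.of P (MvPolynomial.C c))) =
            algebraMap k (FF F i) c) ∧
          ∀ (j : ℕ) (hj : j < i), e (algebraMap (AdjoinRoot P) _ (AdjoinRoot.of P (xv k n j))) =
            algebraMap F (FF F i) (a j) * xx F ⟨j, hj⟩ ^ 2) ∧
        (IsoPf i P ↔ Isot a i) := by
  -- the transcendence basis of the rational function field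
  let y : Fin i → FF F i := fun j => xx F j
  have hy : IsTranscendenceBasis F y := by
    have h1 : IsTranscendenceBasis F (MvPolynomial.X : Fin i → MvPolynomial (Fin i) F) :=
      IsTranscendenceBasis.mvPolynomial (Fin i) F
    have h2 : Algebra.IsAlgebraic (MvPolynomial (Fin i) F) (FF F i) :=
      IsLocalization.isAlgebraic _ (nonZeroDivisors (MvPolynomial (Fin i) F))
    exact h1.algebraMap_comp
  let b : Fin i → FF F i := fun j => algebraMap F (FF F i) (a j) * y j ^ 2
  have hb1 : AlgebraicIndependent F b := by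
    have h1 := hy.1.polynomial_aeval_of_transcendental (f := fun j : Fin i => C (a j) * X ^ 2)
      (fun j => by
        have h3 := ha j j.2
        refine Polynomial.transcendental _ ?_ ?_
        · rw [natDegree_C_mul_X_pow _ _ h3]
          omega
        · rw [leadingCoeff_C_mul_X_pow]
          exact mem_nonZeroDivisors_of_ne_zero h3)
    have h2 : (fun j : Fin i => aeval (y j) (C (a j) * X ^ 2)) = b := by
      funext j
      rw [map_mul, map_pow, aeval_X, aeval_C]
    rwa [h2] at h1
  have hb : IsTranscendenceBasis F b := by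
    refine hb1.isTranscendenceBasis_of_trdeg_le_of_finite ?_
    rw [← hy.cardinalMk_eq_trdeg]
  obtain ⟨s, hs⟩ := exists_finset_isTranscendenceBasis k F
  have hxs := hs.sumElim_comp hb
  let ε : Fin (i + s.card) ≃ Fin i ⊕ s :=
    finSumFinEquiv.symm.trans (Equiv.sumCongr (Equiv.refl _) s.equivFin.symm)
  have hx := hxs.comp_equiv ε
  set x : Fin (i + s.card) → FF F i := (Sum.elim b (algebraMap F (FF F i) ∘ fun c : s => (c : F))) ∘ ε
    with hxdef
  have hess : Algebra.EssFiniteType k (FF F i) := Algebra.EssFiniteType.comp k F (FF F i)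
  obtain ⟨P, hP, hd, e, he, hr⟩ := prim_model hx
  have hdomA : IsDomain (AdjoinRoot P) := AdjoinRoot.isDomain_of_prime hP.prime
  let y' : ℕ → FF F i := fun j => if h : j < i then y ⟨j, h⟩ else 1
  have hxv : ∀ j < i, e (algebraMap (AdjoinRoot P) _ (AdjoinRoot.of P (xv k (i + s.card) j))) =
      algebraMap F (FF F i) (a j) * y' j ^ 2 := by
    intro j hj
    have h1 : xv k (i + s.card) j = MvPolynomial.X (Fin.castAdd s.card ⟨j, hj⟩) := by
      unfold xv
      rw [dif_pos (by omega)]
      rfl
    have h2 : ε (Fin.castAdd s.card ⟨j, hj⟩) = Sum.inl ⟨j, hj⟩ := by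
      show Equiv.sumCongr (Equiv.refl _) s.equivFin.symm
        (finSumFinEquiv.symm (Fin.castAdd s.card ⟨j, hj⟩)) = _
      rw [finSumFinEquiv_symm_apply_castAdd]
      rfl
    rw [h1, hr, MvPolynomial.aeval_X, hxdef, Function.comp_apply, h2, Sum.elim_inl]
    show algebraMap F (FF F i) (a j) * y ⟨j, hj⟩ ^ 2 = _
    have h3 : y' j = y ⟨j, hj⟩ := dif_pos hj
    rw [h3]
  have hy' : ∀ j < i, y' j ≠ 0 := by
    intro j hj
    have h3 : y' j = y ⟨j, hj⟩ := dif_pos hj
    rw [h3]
    have h4 : y ⟨j, hj⟩ = algebraMap (MvPolynomial (Fin i) F) (FF F i) (MvPolynomial.X ⟨j, hj⟩) :=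
      rfl
    rw [h4, Ne, map_eq_zero_iff _ (IsFractionRing.injective _ _)]
    exact MvPolynomial.X_ne_zero _
  refine ⟨i + s.card, by omega, ?_, P, hP, hd, ⟨e, he, ?_, ?_⟩, ?_⟩
  · rw [← hs.cardinalMk_eq_trdeg, Nat.cast_add, Cardinal.mk_coe_finset]
  · intro c
    rw [hr]
    exact (MvPolynomial.aeval x).commutes c
  · intro j hj
    rw [hxv j hj]
    have h3 : y' j = y ⟨j, hj⟩ := dif_pos hj
    rw [h3]
  let eq : FractionRing (AdjoinRoot P) ≃+* FF F i := RingEquiv.ofBijective e he
  have h5 : IsoPf i P ↔ Isot (fun j => algebraMap F (FF F i) (a j) * y' j ^ 2) i := by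
    rw [← isot_congr hxv]
    constructor
    · intro h
      exact isot_map e h
    · intro h
      have h6 := isot_map (eq.symm : FF F i →+* FractionRing (AdjoinRoot P)) h
      refine (isot_congr ?_).1 h6
      intro j hj
      exact eq.symm_apply_apply _
  rw [h5]
  exact (isot_scale _ _ hy').trans (isot_ff i)

end Model

theorem coversF {ν : ℕ → Qb} (hν : Function.Surjective ν) (i : ℕ) : CoversF ν i := by
  intro F _ _ _ a ha
  obtain ⟨n, hn, hn', P, hP, hd, ⟨e, he, hc, hx⟩, hiso⟩ := exists_model_iso (k := Qb) a ha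
  obtain ⟨p, hp, hp'⟩ := exists_code hν P
  subst hp'
  obtain ⟨e1, he1⟩ := iso_hyp ν n p
  obtain ⟨g, hg⟩ := frac_equiv e1
  let eq : FractionRing (AdjoinRoot (toP n (val ν p))) ≃+* FF F i := RingEquiv.ofBijective e he
  have hcomm : ∀ c : Qb, eq (algebraMap Qb (FractionRing (AdjoinRoot (toP n (val ν p)))) c) =
      algebraMap Qb (FF F i) c := by
    intro c
    rw [IsScalarTower.algebraMap_apply Qb (AdjoinRoot (toP n (val ν p)))
      (FractionRing (AdjoinRoot (toP n (val ν p))))]
    exact hc c
  let eq' : FractionRing (AdjoinRoot (toP n (val ν p))) ≃ₐ[Qb] FF F i := AlgEquiv.ofRingEquiv hcomm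
  refine ⟨n, p, ⟨hn, ⟨?_, ?_⟩, mem_vars hd⟩, hn', ⟨g.trans eq', ?_⟩, (sect_iff hn).trans hiso⟩
  · intro f hf
    simp only [List.mem_singleton] at hf
    rw [hf]
    exact hp
  · have hdomA : IsDomain (AdjoinRoot (toP n (val ν p))) :=
      AdjoinRoot.isDomain_of_prime hP.prime
    exact e1.toMulEquiv.isDomain
  · intro j
    show e (g (algebraMap (CR ν (n + 1, [p])) (FractionRing (CR ν (n + 1, [p])))
      (cls ν (n + 1, [p]) j))) = _
    rw [hg, he1 j (by omega), hx j j.2]
    rfl

end Pool.Agent.H901
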