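import Pool.Agent.H901.TWO

/-!
The value of the polynomial at `D` is not a value of the Pfister form, if the form is anisotropic
over the field of the root.
-/

set_option autoImplicit false

namespace Pool.Agent.H901

open Polynomial Finset Pool.Agent.H918R3

section

variable (F : Type) [Field F] (s : ℕ)

/-- the field `F(t)` -/
abbrev K1 : Type := RatFunc F

/-- the field `F(t)(v_{N - 1})` -/
abbrev K2 : Type := RatFunc (RatFunc F)

/-- the field `F(t)(v_{N - 1})(v_2, …, v_{N - 2})` -/
abbrev K3 : Type := FF (RatFunc (RatFunc F)) s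

/-- the field with the variable `v_1` adjoined -/
abbrev K4 : Type := RatFunc (FF (RatFunc (RatFunc F)) s)

/-- the inclusion -/
noncomputable def i3 : F →+* K3 F s :=
  (algebraMap (K2 F) (K3 F s)).comp (RatFunc.C.comp RatFunc.C)

/-- the inclusion -/
noncomputable def i4 : F →+* K4 F s := RatFunc.C.comp (i3 F s)

/-- the element `t` -/
noncomputable def t4 : K4 F s :=
  RatFunc.C (algebraMap (K2 F) (K3 F s) (RatFunc.C RatFunc.X))

/-- the entries -/
noncomputable def a4 (a : ℕ → F) (i : ℕ) (j : ℕ) : K4 F s :=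
  if j < i then i4 F s (a j) else t4 F s

/-- the variables -/
noncomputable def v4 (m : ℕ) : K4 F s :=
  if m = 1 then RatFunc.X else if h : 2 ≤ m ∧ m < s + 2 then RatFunc.C (xx (K2 F) ⟨m - 2, by omega⟩)
    else if m = s + 2 then RatFunc.C (algebraMap (K2 F) (K3 F s) RatFunc.X) else t4 F s

end

theorem sum_Ico_split {R : Type*} [CommRing R] (f : ℕ → R) (s : ℕ) :
    ∑ m ∈ Ico 1 (s + 2), f m = f 1 + ∑ j : Fin s, f (j + 2) := by
  rw [sum_Ico_eq_sum_range, show s + 2 - 1 = s + 1 by omega, sum_range_succ', Finset.sum_range,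
    add_comm]
  congr 1
  refine sum_congr rfl fun j _ => ?_
  congr 1
  ring

theorem coprime_part {F K : Type*} [Field F] [Field K] (ι : F →+* K) (c rest : K) (e : F)
    (ph : F[X]) (hph : ph.eval e ≠ 0) : ∃ h : K[X],
      IsCoprime (C c * X ^ 2 + C (rest + ι e)) h ∧
      eval₂ ((RatFunc.C : K →+* RatFunc K).comp ι) (-(RatFunc.C c * RatFunc.X ^ 2 + RatFunc.C rest))
        ((X - C e) * ph) = algebraMap K[X] (RatFunc K) ((C c * X ^ 2 + C (rest + ι e)) * h) := by
  set φ := algebraMap K[X] (RatFunc K) with hφ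
  set q : K[X] := C c * X ^ 2 + C (rest + ι e) with hq
  set D' : K[X] := -(C c * X ^ 2 + C rest) with hD'
  have hφD : φ D' = -(RatFunc.C c * RatFunc.X ^ 2 + RatFunc.C rest) := by
    rw [hD', map_neg, map_add, map_mul, map_pow, hφ, RatFunc.algebraMap_C,
      RatFunc.algebraMap_C, RatFunc.algebraMap_X]
  set jj : F →+* K[X] := (C : K →+* K[X]).comp ι with hjj
  have hjja : ∀ x, jj x = C (ι x) := fun _ => rfl
  have hφj : φ.comp jj = (RatFunc.C : K →+* RatFunc K).comp ι := by
    apply RingHom.ext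
    intro x
    show algebraMap K[X] (RatFunc K) (C (ι x)) = _
    rw [RatFunc.algebraMap_C]
    rfl
  have hDq : D' - jj e = -q := by
    rw [hD', hq, hjja, C_add]
    ring
  refine ⟨-eval₂ jj D' ph, ?_, ?_⟩
  · have h3 : D' - jj e ∣ eval₂ jj D' ph - eval₂ jj (jj e) ph := by
      rw [← eval_map, ← eval_map]
      exact sub_dvd_eval_sub _ _ _
    have h5 : eval₂ jj (jj e) ph = C (ι (ph.eval e)) := by
      rw [eval₂_at_apply]
      rfl
    rw [hDq, h5] at h3
    obtain ⟨x, hx⟩ := h3
    have hu : ι (ph.eval e) ≠ 0 := by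
      rw [Ne, map_eq_zero]
      exact hph
    refine ⟨C (ι (ph.eval e))⁻¹ * x, -C (ι (ph.eval e))⁻¹, ?_⟩
    have h7 : C (ι (ph.eval e))⁻¹ * C (ι (ph.eval e)) = (1 : K[X]) := by
      rw [← C_mul, inv_mul_cancel₀ hu, C_1]
    linear_combination h7 + C (ι (ph.eval e))⁻¹ * hx
  · rw [← hφD, ← hφj, ← hom_eval₂, eval₂_mul, eval₂_sub, eval₂_X, eval₂_C, hDq]
    congr 1
    ring

theorem f2 {F : Type} [Field F] (h2 : (2 : F) ≠ 0) {a : ℕ → F} {i s : ℕ} (hs : 2 ^ i = s + 3)
    (hi : 1 ≤ i) (ha : ∀ j < i, a j ≠ 0) (han : An a i) {η : F} (hη : η ≠ 0) (ph : F[X])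
    (hph : ph.eval (η ^ 2) ≠ 0)
    (hBC : ∏ j ∈ range i, a j ≠ 4 * (∏ j ∈ range i, (a j - 1)) ^ 2) (g : ℕ → K4 F s)
    (hg : pq (a4 F s a i) i g =
      eval₂ (i4 F s) (DD (a4 F s a i) i (v4 F s)) ((X - C (η ^ 2)) * ph)) : False := by
  have hN1 : 2 ^ i - 1 = s + 2 := by omega
  set B := ∏ j ∈ range i, a j with hB
  set C0 := ∏ j ∈ range i, (a j - 1) with hC0
  have hB0 : B ≠ 0 := prod_ne_zero_iff.2 fun j hj => ha j (mem_range.1 hj)
  -- the perturbation
  set dl : K1 F := (RatFunc.C C0 * (RatFunc.X - 1)) ^ 2 + RatFunc.C B * RatFunc.X with hdl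
  set al := algebraMap (K2 F) (K3 F s) with hal
  have hdh : dh (a4 F s a i) i = RatFunc.C (al (RatFunc.C dl)) := by
    unfold dh
    rw [prod_range_succ, prod_range_succ]
    have e1 : ∏ j ∈ range i, (a4 F s a i j - 1) = i4 F s C0 := by
      rw [hC0, map_prod]
      refine prod_congr rfl fun j hj => ?_
      rw [mem_range] at hj
      unfold a4
      rw [if_pos hj, map_sub, map_one]
    have e2 : ∏ j ∈ range i, a4 F s a i j = i4 F s B := by
      rw [hB, map_prod]
      refine prod_congr rfl fun j hj => ?_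
      rw [mem_range] at hj
      unfold a4
      rw [if_pos hj]
    have e3 : a4 F s a i i = t4 F s := by
      unfold a4
      rw [if_neg (lt_irrefl i)]
    rw [e1, e2, e3, hdl]
    have e4 : ∀ x : F, i4 F s x = RatFunc.C (al (RatFunc.C (RatFunc.C x))) := fun _ => rfl
    rw [e4, e4]
    unfold t4
    simp only [map_add, map_mul, map_pow, map_sub, map_one]
    rfl
  have hpc : ∀ m, pc (a4 F s a i) i m = i4 F s (pc a i m) := by
    intro m
    rw [← pc_map (i4 F s) a]
    apply pc_congr
    intro j hj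
    unfold a4
    rw [if_pos hj]
  -- the quadratic polynomial
  set c := i3 F s (pc a i 1) with hc
  set rest : K3 F s := ∑ j : Fin s, i3 F s (pc a i (j + 2)) * xx (K2 F) j ^ 2 +
    i3 F s (pc a i (s + 2)) * al (RatFunc.C dl) * al RatFunc.X ^ 2 with hrest
  have hDD : DD (a4 F s a i) i (v4 F s) =
      -(RatFunc.C c * RatFunc.X ^ 2 + RatFunc.C rest) := by
    unfold DD
    rw [hN1, sum_Ico_split, hpc, hdh]
    have e1 : v4 F s 1 = RatFunc.X := by
      unfold v4
      rw [if_pos rfl]
    have e2 : v4 F s (s + 2) = RatFunc.C (al RatFunc.X) := by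
      unfold v4
      rw [if_neg (by omega), dif_neg (by omega), if_pos rfl]
    have e0 : i4 F s (pc a i 1) = RatFunc.C c := rfl
    rw [e1, e2, e0]
    congr 1
    rw [add_assoc]
    congr 1
    rw [hrest, RingHom.map_add (RatFunc.C : K3 F s →+* RatFunc (K3 F s)),
      map_sum (RatFunc.C : K3 F s →+* RatFunc (K3 F s))]
    congr 1
    · refine sum_congr rfl fun j _ => ?_
      rw [hpc, map_mul, map_pow]
      have e3 : v4 F s (j + 2) = RatFunc.C (xx (K2 F) j) := by
        unfold v4
        rw [if_neg (by omega), dif_pos ⟨by omega, by omega⟩]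
        congr 2
      rw [e3]
      rfl
    · rw [map_mul, map_mul, map_pow, hpc (s + 2)]
      rfl
  set r0 : K3 F s := rest + i3 F s (η ^ 2) with hr0
  obtain ⟨h, hcop, hval⟩ := coprime_part (i3 F s) c rest (η ^ 2) ph hph
  have h23 : (2 : K3 F s) ≠ 0 := by
    intro h0
    apply h2
    apply (i3 F s).injective
    rw [map_ofNat, h0, map_zero]
  have h22 : (2 : K2 F) ≠ 0 := by
    intro h0
    apply h2
    apply (RatFunc.C.comp RatFunc.C : F →+* K2 F).injective
    rw [map_ofNat, h0, map_zero]
  have h21 : (2 : K1 F) ≠ 0 := by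
    intro h0
    apply h2
    apply (RatFunc.C : F →+* K1 F).injective
    rw [map_ofNat, h0, map_zero]
  have han1 : An (fun j => (RatFunc.C (a j) : K1 F)) i := an_ratFunc han
  have han2 : An (fun j => (RatFunc.C (RatFunc.C (a j)) : K2 F)) i := an_ratFunc han1
  have han3 : An (fun j => i3 F s (a j)) i := an_lift_ff han2 s
  have hc' : pc (fun j => i3 F s (a j)) i 1 = c := by
    rw [pc_map (i3 F s) a]
  obtain ⟨y, hy1, hy⟩ := outer h23 hi (b := fun j => i3 F s (a j))
    (fun j hj => by rw [Ne, map_eq_zero]; exact ha j hj) han3 r0 h (by rw [hc']; exact hcop) g (by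
      rw [hc', ← hval]
      refine Eq.trans ?_ (hg.trans (by rw [hDD]; rfl))
      unfold pq
      refine sum_congr rfl fun m _ => ?_
      congr 1
      apply pc_congr
      intro j hj
      unfold a4
      rw [if_pos hj]
      rfl)
  -- cancellation
  set A : K1 F := RatFunc.C (pc a i (s + 2)) with hA
  have hA0 : A ≠ 0 := by
    rw [hA, Ne, map_eq_zero]
    exact pc_ne a i ha _ (by omega)
  rw [pq_split4 _ hs, hy1] at hy
  have hpc3 : ∀ m, pc (fun j => i3 F s (a j)) i m = al (RatFunc.C (RatFunc.C (pc a i m))) := by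
    intro m
    rw [pc_map (i3 F s) a]
    rfl
  obtain ⟨w, hw⟩ := cancel_ff h22 s (fun j : Fin s => RatFunc.C (RatFunc.C (pc a i (j + 2))))
    ![1, RatFunc.C A] (fun y z hyz => by
      rw [Fin.sum_univ_two] at hyz
      simp only [Matrix.cons_val_zero, Matrix.cons_val_one] at hyz
      have h8 := han2 (fun m => if h : 2 ≤ m ∧ m < s + 2 then y ⟨m - 2, by omega⟩ else
        if m = 0 then z 0 else if m = s + 2 then z 1 else 0) (by
        rw [pq_split4 _ hs]
        rw [dif_neg (by omega), if_pos rfl]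
        have e1 : ∀ m, pc (fun j => (RatFunc.C (RatFunc.C (a j)) : K2 F)) i m =
            RatFunc.C (RatFunc.C (pc a i m)) := fun m =>
          pc_map (RatFunc.C.comp RatFunc.C : F →+* K2 F) a i m
        have e2 : ∑ j : Fin s, pc (fun j => (RatFunc.C (RatFunc.C (a j)) : K2 F)) i (j + 2) *
            (if h : 2 ≤ (j : ℕ) + 2 ∧ (j : ℕ) + 2 < s + 2 then y ⟨(j : ℕ) + 2 - 2, by omega⟩ else
              if (j : ℕ) + 2 = 0 then z 0 else if (j : ℕ) + 2 = s + 2 then z 1 else 0) ^ 2 =
            ∑ j : Fin s, RatFunc.C (RatFunc.C (pc a i (j + 2))) * y j ^ 2 := by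
          refine sum_congr rfl fun j _ => ?_
          rw [dif_pos ⟨by omega, by omega⟩, e1]
          congr 2
        rw [e2, e1 1, e1 (s + 2), dif_neg (by omega), if_neg (by omega), if_neg (by omega),
          dif_neg (by omega), if_neg (by omega), if_pos rfl]
        rw [hA] at hyz
        linear_combination hyz)
      constructor
      · funext j
        have h9 := h8 (j + 2) (by omega)
        rw [dif_pos ⟨by omega, by omega⟩] at h9
        exact h9
      · funext l
        have h9 := h8 0 (by omega)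
        rw [dif_neg (by omega), if_pos rfl] at h9
        have h10 := h8 (s + 2) (by omega)
        rw [dif_neg (by omega), if_neg (by omega), if_pos rfl] at h10
        fin_cases l
        · exact h9
        · exact h10)
    (RatFunc.C (RatFunc.C (η ^ 2)) + RatFunc.C (A * dl) * RatFunc.X ^ 2)
    (fun j => y (j + 2)) ![y 0, y (s + 2)] (by
      rw [Fin.sum_univ_two]
      simp only [Matrix.cons_val_zero, Matrix.cons_val_one, map_one, one_mul]
      simp only [hpc3] at hy
      rw [zero_pow (by norm_num), mul_zero, add_zero] at hy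
      have e1 : y 0 ^ 2 = r0 - ∑ j : Fin s, al (RatFunc.C (RatFunc.C (pc a i (j + 2)))) *
          y (j + 2) ^ 2 - al (RatFunc.C (RatFunc.C (pc a i (s + 2)))) * y (s + 2) ^ 2 := by
        rw [← hy]; ring
      rw [e1, hr0, hrest]
      have e2 : ∀ x, i3 F s x = al (RatFunc.C (RatFunc.C x)) := fun _ => rfl
      simp only [e2, map_add, map_mul, map_pow]
      rw [hA]
      ring)
  rw [Fin.sum_univ_two] at hw
  simp only [Matrix.cons_val_zero, Matrix.cons_val_one, one_mul] at hw
  obtain ⟨z, hz⟩ := two_dim h21 (A := A) (η := RatFunc.C η) (dl := dl) hA0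
    (by rw [Ne, map_eq_zero]; exact hη) (fun x y hxy => by
      have h8 := han1 (fun m => if m = 0 then x else if m = s + 2 then y else 0) (by
        rw [pq_split4 _ hs]
        rw [if_pos rfl, if_neg (by omega), if_neg (by omega), if_neg (by omega), if_pos rfl]
        have e1 : ∀ m, pc (fun j => (RatFunc.C (a j) : K1 F)) i m =
            RatFunc.C (pc a i m) := fun m => pc_map (RatFunc.C : F →+* K1 F) a i m
        have e2 : ∑ j : Fin s, pc (fun j => (RatFunc.C (a j) : K1 F)) i (j + 2) *
            (if (j : ℕ) + 2 = 0 then x else if (j : ℕ) + 2 = s + 2 then y else 0) ^ 2 = 0 := by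
          refine sum_eq_zero fun j _ => ?_
          rw [if_neg (by omega), if_neg (by omega)]
          ring
        rw [e2, e1 1, e1 (s + 2)]
        rw [hA] at hxy
        linear_combination hxy)
      refine ⟨?_, ?_⟩
      · have h9 := h8 0 (by omega)
        rw [if_pos rfl] at h9
        exact h9
      · have h10 := h8 (s + 2) (by omega)
        rw [if_neg (by omega), if_pos rfl] at h10
        exact h10) (w 0) (w 1) (by
      rw [hw, map_pow])
  exact dh_not_sq hB0 hBC z hz

end Pool.Agent.H901
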