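import Pool.Agent.H901.CMF

/-!
Every finitely generated field is the function field of a hypersurface.
-/

set_option autoImplicit false

namespace Pool.Agent.H901

open Finset Polynomial

section Scale

variable {R : Type*} [CommRing R]

/-- the product of the `y j` over the binary digits `1` of `m` -/
def wy (y : ℕ → R) : ℕ → ℕ → R
  | 0, _ => 1
  | i + 1, m => if m < 2 ^ i then wy y i m else y i * wy y i (m - 2 ^ i)

theorem pc_scale (a y : ℕ → R) (i m : ℕ) :
    pc (fun j => a j * y j ^ 2) i m = pc a i m * wy y i m ^ 2 := by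
  induction i generalizing m with
  | zero =>
    rw [pc, pc, wy]
    ring
  | succ i ih =>
    rw [pc, pc, wy]
    split_ifs with h
    · exact ih m
    · rw [ih]
      ring

theorem pq_scale (a y : ℕ → R) (i : ℕ) (z : ℕ → R) :
    pq (fun j => a j * y j ^ 2) i z = pq a i (fun m => wy y i m * z m) := by
  unfold pq
  refine sum_congr rfl fun m _ => ?_
  rw [pc_scale]
  ring

theorem wy_ne {K : Type*} [Field K] {y : ℕ → K} {i : ℕ} (h : ∀ j < i, y j ≠ 0) (m : ℕ) :
    wy y i m ≠ 0 := by
  induction i generalizing m with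
  | zero =>
    rw [wy]
    exact one_ne_zero
  | succ i ih =>
    rw [wy]
    split_ifs with h'
    · exact ih (fun j hj => h j (by omega)) m
    · exact mul_ne_zero (h i (by omega)) (ih (fun j hj => h j (by omega)) _)

end Scale

theorem isot_scale {K : Type} [Field K] (a y : ℕ → K) {i : ℕ} (h : ∀ j < i, y j ≠ 0) :
    Isot (fun j => a j * y j ^ 2) i ↔ Isot a i := by
  constructor
  · rintro ⟨z, ⟨m, hm, hz⟩, h0⟩
    refine ⟨fun m => wy y i m * z m, ⟨m, hm, mul_ne_zero (wy_ne h m) hz⟩, ?_⟩
    rw [← pq_scale, h0]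
  · rintro ⟨z, ⟨m, hm, hz⟩, h0⟩
    refine ⟨fun m => (wy y i m)⁻¹ * z m, ⟨m, hm, mul_ne_zero (inv_ne_zero (wy_ne h m)) hz⟩, ?_⟩
    rw [pq_scale, ← h0]
    congr 1
    funext m
    rw [mul_inv_cancel_left₀ (wy_ne h m)]

theorem isot_map {K L : Type} [Field K] [Field L] (φ : K →+* L) {a : ℕ → K} {i : ℕ}
    (h : Isot a i) : Isot (fun j => φ (a j)) i := by
  obtain ⟨z, ⟨m, hm, hz⟩, h0⟩ := h
  refine ⟨fun m => φ (z m), ⟨m, hm, (map_ne_zero φ).2 hz⟩, ?_⟩
  rw [pq_map, h0, map_zero]

theorem isot_congr {K : Type} [Field K] {a b : ℕ → K} {i : ℕ} (h : ∀ j < i, a j = b j) :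
    Isot a i ↔ Isot b i := by
  unfold Isot
  simp only [pq_congr h]

theorem not_isot {K : Type} [Field K] {a : ℕ → K} {i : ℕ} : ¬ Isot a i ↔ An a i := by
  constructor
  · intro h z hz m hm
    by_contra hzm
    exact h ⟨z, ⟨m, hm, hzm⟩, hz⟩
  · rintro h ⟨z, ⟨m, hm, hzm⟩, hz⟩
    exact hzm (h z hz m hm)

/-- isotropy is not changed by the rational function fields -/
theorem isot_ff {K : Type} [Field K] {a : ℕ → K} {i : ℕ} (s : ℕ) :
    Isot (fun j => algebraMap K (FF K s) (a j)) i ↔ Isot a i := by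
  constructor
  · intro h
    by_contra hcon
    exact not_isot.2 (an_lift_ff (not_isot.1 hcon) s) h
  · exact isot_map (algebraMap K (FF K s))

section Model

/-- a finitely generated extension with a transcendence basis is the function field of a
hypersurface -/
theorem prim_model {k L : Type} [Field k] [CharZero k] [Field L] [Algebra k L]
    [Algebra.EssFiniteType k L] {n : ℕ} {x : Fin n → L} (hx : IsTranscendenceBasis k x) :
    ∃ P : (MvPolynomial (Fin n) k)[X], Irreducible P ∧ P.natDegree ≠ 0 ∧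
      ∃ e : FractionRing (AdjoinRoot P) →+* L, Function.Bijective e ∧
        ∀ r, e (algebraMap (AdjoinRoot P) _ (AdjoinRoot.of P r)) = MvPolynomial.aeval x r := by
  have hind := hx.1
  have hφ : Function.Injective (MvPolynomial.aeval x : MvPolynomial (Fin n) k →ₐ[k] L) := hind
  set E := IntermediateField.adjoin k (Set.range x) with hE
  have h1 : Algebra.IsAlgebraic E L := hx.isAlgebraic_field
  have h2 : Algebra.EssFiniteType E L := Algebra.EssFiniteType.of_comp k E L
  have h3 : Module.Finite E L := Algebra.finite_of_essFiniteType_of_isAlgebraic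
  have h4 : CharZero E := charZero_of_injective_algebraMap (algebraMap k E).injective
  obtain ⟨θ, hθ⟩ := Field.exists_primitive_element E L
  -- a polynomial with the root `θ`
  obtain ⟨f, hf0, hf⟩ : ∃ f : (MvPolynomial (Fin n) k)[X], f ≠ 0 ∧
      f.eval₂ (MvPolynomial.aeval x : MvPolynomial (Fin n) k →ₐ[k] L) θ = 0 := by
    have h5 := hx.isAlgebraic
    obtain ⟨g, hg0, hg⟩ := h5.isAlgebraic θ
    let ε := hind.aevalEquiv
    refine ⟨g.map (ε.symm : _ →+* MvPolynomial (Fin n) k), ?_, ?_⟩
    · rw [Ne, Polynomial.map_eq_zero_iff ε.symm.injective]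
      exact hg0
    · rw [eval₂_map, ← hg, aeval_def]
      congr 1
      ext c
      obtain ⟨c, rfl⟩ := ε.surjective c
      show MvPolynomial.aeval x (ε.symm (ε c)) = ((ε c : Algebra.adjoin k (Set.range x)) : L)
      rw [AlgEquiv.symm_apply_apply]
      exact (hind.algebraMap_aevalEquiv c).symm
  obtain ⟨P, hP, hPθ⟩ : ∃ P : (MvPolynomial (Fin n) k)[X], Irreducible P ∧
      P.eval₂ (MvPolynomial.aeval x : MvPolynomial (Fin n) k →ₐ[k] L) θ = 0 := by
    obtain ⟨s, hs, u, hu⟩ := WfDvdMonoid.exists_factors f hf0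
    by_contra hcon
    push Not at hcon
    have h6 : ∀ t : Multiset (MvPolynomial (Fin n) k)[X], (∀ b ∈ t, Irreducible b) →
        t.prod.eval₂ (MvPolynomial.aeval x : MvPolynomial (Fin n) k →ₐ[k] L) θ ≠ 0 := by
      intro t
      induction t using Multiset.induction_on with
      | empty =>
        intro _
        rw [Multiset.prod_zero, eval₂_one]
        exact one_ne_zero
      | cons b t ih =>
        intro h
        rw [Multiset.prod_cons, eval₂_mul]
        exact mul_ne_zero (hcon b (h b (Multiset.mem_cons_self b t)))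
          (ih fun c hc => h c (Multiset.mem_cons_of_mem hc))
    have h7 := h6 s hs
    have h8 : (u : (MvPolynomial (Fin n) k)[X]).eval₂
        (MvPolynomial.aeval x : MvPolynomial (Fin n) k →ₐ[k] L) θ ≠ 0 := by
      intro h
      have h9 : ((u : (MvPolynomial (Fin n) k)[X]) * ↑u⁻¹).eval₂
        (MvPolynomial.aeval x : MvPolynomial (Fin n) k →ₐ[k] L) θ = 0 := by
        rw [eval₂_mul, h, zero_mul]
      rw [Units.mul_inv, eval₂_one] at h9
      exact one_ne_zero h9
    rw [← hu, eval₂_mul] at hf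
    exact mul_ne_zero h7 h8 hf
  have hd : P.natDegree ≠ 0 := by
    intro h
    rw [eq_C_of_natDegree_eq_zero h, eval₂_C] at hPθ
    have h9 : P.coeff 0 = 0 := (map_eq_zero_iff _ hφ).1 hPθ
    apply hP.ne_zero
    rw [eq_C_of_natDegree_eq_zero h, h9, C_0]
  obtain ⟨ψ, hψ, hψr⟩ := emb_root hP hd (MvPolynomial.aeval x : MvPolynomial (Fin n) k →ₐ[k] L)
    hφ θ hPθ
  refine ⟨P, hP, hd, ψ, ?_, hψ⟩
  have hdomA : IsDomain (AdjoinRoot P) := AdjoinRoot.isDomain_of_prime hP.prime
  refine ⟨ψ.injective, ?_⟩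
  let N : IntermediateField k L :=
    { ψ.fieldRange with
      algebraMap_mem' := fun c => ⟨algebraMap (AdjoinRoot P) _ (AdjoinRoot.of P
        (MvPolynomial.C c)), by rw [hψ]; exact MvPolynomial.aeval_C _ _⟩ }
  have hN : ∀ y, y ∈ N ↔ y ∈ ψ.fieldRange := fun y => Iff.rfl
  have hEN : E ≤ N := by
    rw [hE, IntermediateField.adjoin_le_iff]
    rintro _ ⟨j, rfl⟩
    exact ⟨algebraMap (AdjoinRoot P) _ (AdjoinRoot.of P (MvPolynomial.X j)), by
      rw [hψ]; exact MvPolynomial.aeval_X _ _⟩
  let N' : IntermediateField E L :=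
    { ψ.fieldRange with
      algebraMap_mem' := fun c => hEN c.2 }
  have hN' : IntermediateField.adjoin E {θ} ≤ N' := by
    rw [IntermediateField.adjoin_le_iff, Set.singleton_subset_iff]
    exact ⟨_, hψr⟩
  intro y
  have hy : y ∈ IntermediateField.adjoin E {θ} := by
    rw [hθ]
    exact IntermediateField.mem_top
  exact hN' hy

end Model

section

variable {k F : Type} [Field k] [CharZero k] [Field F] [Algebra k F] [Algebra.EssFiniteType k F]

/-- Every form over a finitely generated field can be represented by a hypersurface. -/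
theorem exists_model {i : ℕ} (a : ℕ → F) (ha : ∀ j < i, a j ≠ 0) :
    ∃ n : ℕ, i ≤ n ∧ (n : Cardinal) = i + Algebra.trdeg k F ∧
      ∃ P : (MvPolynomial (Fin n) k)[X], Irreducible P ∧ P.natDegree ≠ 0 ∧
        (IsoPf i P ↔ Isot a i) := by
  -- the transcendence basis of the rational function field
  let y : Fin i → FF F i := fun j => xx F j
  have hy : IsTranscendenceBasis F y := by
    have h1 : IsTranscendenceBasis F (MvPolynomial.X : Fin i → MvPolynomial (Fin i) F) :=
      IsTranscendenceBasis.mvPolynomial (Fin i) F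
    have h2 : Algebra.IsAlgebraic (MvPolynomial (Fin i) F) (FF F i) :=
      IsLocalization.isAlgebraic _ (nonZeroDivisors (MvPolynomial (Fin i) F))
    exact h1.algebraMap_comp
  let b : Fin i → FF F i := fun j => algebraMap F (FF F i) (a j) * y j ^ 2
  have hb1 : AlgebraicIndependent F b := by
    have h1 := hy.1.polynomial_aeval_of_transcendental (f := fun j : Fin i => C (a j) * X ^ 2)
      (fun j => by
        have h3 := ha j j.2
        refine Polynomial.transcendental _ ?_ ?_
        · rw [natDegree_C_mul_X_pow _ _ h3]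
          omega
        · rw [leadingCoeff_C_mul_X_pow]
          exact mem_nonZeroDivisors_of_ne_zero h3)
    have h2 : (fun j : Fin i => aeval (y j) (C (a j) * X ^ 2)) = b := by
      funext j
      rw [map_mul, map_pow, aeval_X, aeval_C]
    rwa [h2] at h1
  have hb : IsTranscendenceBasis F b := by
    refine hb1.isTranscendenceBasis_of_trdeg_le_of_finite ?_
    rw [← hy.cardinalMk_eq_trdeg]
  obtain ⟨s, hs⟩ := exists_finset_isTranscendenceBasis k F
  have hxs := hs.sumElim_comp hb
  let ε : Fin (i + s.card) ≃ Fin i ⊕ s :=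
    finSumFinEquiv.symm.trans (Equiv.sumCongr (Equiv.refl _) s.equivFin.symm)
  have hx := hxs.comp_equiv ε
  set x : Fin (i + s.card) → FF F i := (Sum.elim b (algebraMap F (FF F i) ∘ fun c : s => (c : F))) ∘ ε
    with hxdef
  have hess : Algebra.EssFiniteType k (FF F i) := Algebra.EssFiniteType.comp k F (FF F i)
  obtain ⟨P, hP, hd, e, he, hr⟩ := prim_model hx
  refine ⟨i + s.card, by omega, ?_, P, hP, hd, ?_⟩
  · rw [← hs.cardinalMk_eq_trdeg, Nat.cast_add, Cardinal.mk_coe_finset]
  have hdomA : IsDomain (AdjoinRoot P) := AdjoinRoot.isDomain_of_prime hP.prime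
  let y' : ℕ → FF F i := fun j => if h : j < i then y ⟨j, h⟩ else 1
  have hxv : ∀ j < i, e (algebraMap (AdjoinRoot P) _ (AdjoinRoot.of P (xv k (i + s.card) j))) =
      algebraMap F (FF F i) (a j) * y' j ^ 2 := by
    intro j hj
    have h1 : xv k (i + s.card) j = MvPolynomial.X (Fin.castAdd s.card ⟨j, hj⟩) := by
      unfold xv
      rw [dif_pos (by omega)]
      rfl
    have h2 : ε (Fin.castAdd s.card ⟨j, hj⟩) = Sum.inl ⟨j, hj⟩ := by
      show Equiv.sumCongr (Equiv.refl _) s.equivFin.symm
        (finSumFinEquiv.symm (Fin.castAdd s.card ⟨j, hj⟩)) = _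
      rw [finSumFinEquiv_symm_apply_castAdd]
      rfl
    rw [h1, hr, MvPolynomial.aeval_X, hxdef, Function.comp_apply, h2, Sum.elim_inl]
    show algebraMap F (FF F i) (a j) * y ⟨j, hj⟩ ^ 2 = _
    have h3 : y' j = y ⟨j, hj⟩ := dif_pos hj
    rw [h3]
  have hy' : ∀ j < i, y' j ≠ 0 := by
    intro j hj
    have h3 : y' j = y ⟨j, hj⟩ := dif_pos hj
    rw [h3]
    have h4 : y ⟨j, hj⟩ = algebraMap (MvPolynomial (Fin i) F) (FF F i) (MvPolynomial.X ⟨j, hj⟩) :=
      rfl
    rw [h4, Ne, map_eq_zero_iff _ (IsFractionRing.injective _ _)]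
    exact MvPolynomial.X_ne_zero _
  let eq : FractionRing (AdjoinRoot P) ≃+* FF F i := RingEquiv.ofBijective e he
  have h5 : IsoPf i P ↔ Isot (fun j => algebraMap F (FF F i) (a j) * y' j ^ 2) i := by
    rw [← isot_congr hxv]
    constructor
    · intro h
      exact isot_map e h
    · intro h
      have h6 := isot_map (eq.symm : FF F i →+* FractionRing (AdjoinRoot P)) h
      refine (isot_congr ?_).1 h6
      intro j hj
      exact eq.symm_apply_apply _
  rw [h5]
  exact (isot_scale _ _ hy').trans (isot_ff i)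

end

end Pool.Agent.H901
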