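import Pool.Agent.H901.GEN

/-!
The codes of the hypersurfaces; the dimension; conics.
-/

set_option autoImplicit false

namespace Pool.Agent.H901

open Finset

section Code

variable {ν : ℕ → Qb}

theorem val_append (p q : Poly) : val ν (p ++ q) = val ν p + val ν q := by
  unfold val
  rw [List.map_append, List.sum_append]

/-- every polynomial has a code -/
theorem exists_code (hν : Function.Surjective ν) {n : ℕ}
    (P : Polynomial (MvPolynomial (Fin n) Qb)) :
    ∃ p : Poly, (∀ t ∈ p, ∀ j ∈ t.2, j < n + 1) ∧ toP n (val ν p) = P := by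
  induction P using Polynomial.induction_on' with
  | add P Q hP hQ =>
    obtain ⟨p, hp, rfl⟩ := hP
    obtain ⟨q, hq, rfl⟩ := hQ
    refine ⟨p ++ q, ?_, by rw [val_append, map_add]⟩
    intro t ht
    rw [List.mem_append] at ht
    rcases ht with ht | ht
    · exact hp t ht
    · exact hq t ht
  | monomial m r =>
    induction r using MvPolynomial.induction_on with
    | C c =>
      obtain ⟨e, rfl⟩ := hν c
      refine ⟨[(e, List.replicate m n)], ?_, ?_⟩
      · intro t ht j hj
        rw [List.mem_singleton] at ht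
        subst ht
        rw [List.eq_of_mem_replicate hj]
        omega
      · unfold val
        rw [List.map_singleton, List.sum_singleton, List.map_replicate, List.prod_replicate,
          map_mul, map_pow]
        have h1 : toP n (MvPolynomial.X n) = Polynomial.X := by
          unfold toP
          rw [MvPolynomial.aeval_X, dif_neg (by omega), if_pos rfl]
        have h2 : toP n (MvPolynomial.C (ν e)) = Polynomial.C (MvPolynomial.C (ν e)) :=
          (toP n).commutes _
        rw [h1, h2, Polynomial.C_mul_X_pow_eq_monomial]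
    | add r s hr hs =>
      obtain ⟨p, hp, hp'⟩ := hr
      obtain ⟨q, hq, hq'⟩ := hs
      refine ⟨p ++ q, ?_, by rw [val_append, map_add, map_add, hp', hq']⟩
      intro t ht
      rw [List.mem_append] at ht
      rcases ht with ht | ht
      · exact hp t ht
      · exact hq t ht
    | mul_X r j hr =>
      obtain ⟨p, hp, hp'⟩ := hr
      refine ⟨p.map (fun t => (t.1, (j : ℕ) :: t.2)), ?_, ?_⟩
      · intro t ht l hl
        rw [List.mem_map] at ht
        obtain ⟨t', ht', rfl⟩ := ht
        rw [List.mem_cons] at hl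
        rcases hl with rfl | hl
        · omega
        · exact hp t' ht' l hl
      · have h1 : val ν (p.map (fun t => (t.1, (j : ℕ) :: t.2))) =
            val ν p * MvPolynomial.X (j : ℕ) := by
          unfold val
          rw [List.map_map, ← List.sum_map_mul_right]
          congr 1
          refine List.map_congr_left fun t _ => ?_
          simp only [Function.comp, List.map_cons, List.prod_cons]
          ring
        have h2 : toP n (MvPolynomial.X (j : ℕ)) = Polynomial.C (MvPolynomial.X j) := by
          unfold toP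
          rw [MvPolynomial.aeval_X, dif_pos j.2]
        rw [h1, map_mul, hp', h2, Polynomial.monomial_mul_C]

theorem mem_vars {n : ℕ} {f : MvPolynomial ℕ Qb} (h : (toP n f).natDegree ≠ 0) : n ∈ f.vars := by
  by_contra hn
  apply h
  have h1 : toP n f = Polynomial.C (MvPolynomial.aeval
      (fun j => if h : j < n then (MvPolynomial.X ⟨j, h⟩ : MvPolynomial (Fin n) Qb) else 0) f) := by
    have e1 : toP n f = (Polynomial.CAlgHom.comp (MvPolynomial.aeval
      (fun j => if h : j < n then (MvPolynomial.X ⟨j, h⟩ : MvPolynomial (Fin n) Qb) else 0))) f :=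
        by
      rw [MvPolynomial.comp_aeval]
      unfold toP
      refine MvPolynomial.eval₂Hom_congr' rfl ?_ rfl
      intro j hj _
      by_cases hjn : j < n
      · rw [dif_pos hjn, dif_pos hjn]
        rfl
      · rw [dif_neg hjn, dif_neg hjn, if_neg (by rintro rfl; exact hn hj)]
        exact (map_zero _).symm
    exact e1
  rw [h1, Polynomial.natDegree_C]

/-- every irreducible polynomial is the polynomial of a variety -/
theorem exists_var (hν : Function.Surjective ν) {n i : ℕ} (hn : i ≤ n)
    {P : Polynomial (MvPolynomial (Fin n) Qb)} (hP : Irreducible P) (hd : P.natDegree ≠ 0) :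
    ∃ p : Poly, IsVar ν (n + 1, [p]) ∧ n ∈ (val ν p).vars ∧ (Sect ν i n p ↔ IsoPf i P) := by
  obtain ⟨p, hp, hp'⟩ := exists_code hν P
  obtain ⟨e, -⟩ := iso_hyp ν n p
  refine ⟨p, ⟨?_, ?_⟩, ?_, ?_⟩
  · intro f hf
    simp only [List.mem_singleton] at hf
    rw [hf]
    exact hp
  · have hdomA : IsDomain (AdjoinRoot (toP n (val ν p))) := by
      rw [hp']
      exact AdjoinRoot.isDomain_of_prime hP.prime
    exact e.toMulEquiv.isDomain
  · apply mem_vars
    rw [hp']
    exact hd
  · rw [sect_iff hn, hp']

end Code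

section Conic

variable {K : Type} [Field K]

theorem pq_two (a : ℕ → K) (z : ℕ → K) :
    pq a 2 z = z 0 ^ 2 - a 0 * z 1 ^ 2 - a 1 * z 2 ^ 2 + a 0 * a 1 * z 3 ^ 2 := by
  unfold pq
  simp only [show (2 : ℕ) ^ 2 = 4 by norm_num, sum_range_succ, sum_range_zero, pc]
  norm_num
  ring

/-- for `i = 2` the form is isotropic if and only if the conic has a point -/
theorem isot_two (a : ℕ → K) : Isot a 2 ↔
    ∃ A B C : K, (A ≠ 0 ∨ B ≠ 0 ∨ C ≠ 0) ∧ a 0 * A ^ 2 + a 1 * B ^ 2 = C ^ 2 := by
  constructor
  · rintro ⟨z, ⟨m, hm, hzm⟩, hz⟩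
    rw [pq_two] at hz
    by_cases h : z 2 ^ 2 - a 0 * z 3 ^ 2 = 0
    · have h1 : z 0 ^ 2 - a 0 * z 1 ^ 2 = 0 := by linear_combination hz + a 1 * h
      have h5 : m = 0 ∨ m = 1 ∨ m = 2 ∨ m = 3 := by
        have : m < 4 := hm
        omega
      rcases h5 with rfl | rfl | rfl | rfl
      · exact ⟨z 1, 0, z 0, Or.inr (Or.inr hzm), by linear_combination -h1⟩
      · exact ⟨z 1, 0, z 0, Or.inl hzm, by linear_combination -h1⟩
      · exact ⟨z 3, 0, z 2, Or.inr (Or.inr hzm), by linear_combination -h⟩
      · exact ⟨z 3, 0, z 2, Or.inl hzm, by linear_combination -h⟩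
    · refine ⟨z 1 * z 2 - z 0 * z 3, z 2 ^ 2 - a 0 * z 3 ^ 2, z 0 * z 2 - a 0 * z 1 * z 3,
        Or.inr (Or.inl h), ?_⟩
      linear_combination -(z 2 ^ 2 - a 0 * z 3 ^ 2) * hz
  · rintro ⟨A, B, C, hne, h⟩
    refine ⟨fun m => if m = 0 then C else if m = 1 then A else if m = 2 then B else 0, ?_, ?_⟩
    · rcases hne with h1 | h1 | h1
      · exact ⟨1, by norm_num, by simpa using h1⟩
      · exact ⟨2, by norm_num, by simpa using h1⟩
      · exact ⟨0, by norm_num, by simpa using h1⟩
    · rw [pq_two]
      norm_num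
      linear_combination -h

end Conic

end Pool.Agent.H901
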