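import Pool.Agent.H901.UNI

/-!
The geometric theorem.
-/

set_option autoImplicit false

namespace Pool.Agent.H901

open Polynomial Finset Pool.Agent.H918R3

/-- The field is rational: it is purely transcendental over `k`. -/
def Rat (k L : Type) [Field k] [Field L] [Algebra k L] : Prop :=
  ∃ M : ℕ, Nonempty (L ≃ₐ[k] FractionRing (MvPolynomial (Fin M) k))

/-- The field is stably rational: it is purely transcendental over `k` after adjoining variables. -/
def StabRat (k L : Type) [Field k] [Field L] [Algebra k L] : Prop :=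
  ∃ r M : ℕ, Nonempty (FractionRing (MvPolynomial (Fin r) L) ≃ₐ[k]
    FractionRing (MvPolynomial (Fin M) k))

/-- The field is unirational: it embeds in a purely transcendental field. -/
def Unirat (k L : Type) [Field k] [Field L] [Algebra k L] : Prop :=
  ∃ M : ℕ, Nonempty (L →ₐ[k] FractionRing (MvPolynomial (Fin M) k))

/-- the variables `x_j`, `j < n` -/
noncomputable def xv (k : Type) [Field k] (n : ℕ) (j : ℕ) : MvPolynomial (Fin n) k :=
  if h : j < n then MvPolynomial.X ⟨j, h⟩ else 0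

/-- The Pfister form `<<x_0, …, x_(i-1)>>` has a nontrivial zero over the function field of the
hypersurface `p = 0`. -/
def IsoPf {k : Type} [Field k] {n : ℕ} (i : ℕ) (p : (MvPolynomial (Fin n) k)[X]) : Prop :=
  ∃ z : ℕ → FractionRing (AdjoinRoot p), (∃ m < 2 ^ i, z m ≠ 0) ∧
    pq (fun j => algebraMap (AdjoinRoot p) (FractionRing (AdjoinRoot p))
      (AdjoinRoot.of p (xv k n j))) i z = 0

section

variable {k : Type} [Field k] {n i : ℕ}

theorem stab_of_rat {L : Type} [Field L] [Algebra k L] (h : Rat k L) : StabRat k L := by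
  obtain ⟨M, ⟨e⟩⟩ := h
  refine ⟨0, M, ⟨AlgEquiv.trans (AlgEquiv.symm ?_) e⟩⟩
  refine AlgEquiv.ofBijective (IsScalarTower.toAlgHom k L (FF L 0))
    ⟨(algebraMap L (FF L 0)).injective, fun z => ?_⟩
  obtain ⟨c, hc⟩ := ff_zero z
  exact ⟨c, hc⟩

theorem xv_ne (hn : i ≤ n) (j : ℕ) (hj : j < i) : xv k n j ≠ 0 := by
  unfold xv
  rw [dif_pos (by omega)]
  exact MvPolynomial.X_ne_zero _

theorem map_pP {R S : Type*} [CommRing R] [CommRing S] (φ : R →+* S) (p0 p1 : R[X]) :
    (pP p0 p1).map φ = pP (p0.map φ) (p1.map φ) := by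
  unfold pP
  rw [Polynomial.map_add, Polynomial.map_mul, map_comp, map_comp, Polynomial.map_pow, map_X]

theorem prod_ne (h2 : (2 : k) ≠ 0) (hi : 1 ≤ i) :
    ∏ j ∈ range i, xv k n j ≠ 4 * (∏ j ∈ range i, (xv k n j - 1)) ^ 2 := by
  intro h
  have h1 := congrArg (MvPolynomial.eval (fun _ => (0 : k))) h
  have e0 : ∀ j, MvPolynomial.eval (fun _ => (0 : k)) (xv k n j) = 0 := by
    intro j
    unfold xv
    split_ifs
    · rw [MvPolynomial.eval_X]
    · exact map_zero _
  rw [map_mul, map_pow, map_prod, map_prod, map_ofNat] at h1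
  simp only [map_sub, e0, map_one, zero_sub, prod_const, card_range] at h1
  rw [zero_pow (by omega), ← pow_mul, mul_comm i 2, pow_mul, neg_one_sq, one_pow, mul_one] at h1
  apply h2
  have : (2 : k) * 2 = 0 := by
    rw [show (2 : k) * 2 = 4 by norm_num]
    exact h1.symm
  rcases mul_eq_zero.1 this with h | h <;> exact h

/-- the function field is rational if the form represents `P` -/
theorem rat_of_value (hi : 2 ≤ i) (a : ℕ → MvPolynomial (Fin n) k)
    (ha : ∀ j < i, a j ≠ 0) (p0 : (MvPolynomial (Fin n) k)[X]) {p1 : (MvPolynomial (Fin n) k)[X]}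
    (hp1 : p1 ≠ 0)
    (g : ℕ → FractionRing (MvPolynomial (V0 n i) k))
    (hg : pq (fun j => algebraMap (MvPolynomial (V0 n i) k)
      (FractionRing (MvPolynomial (V0 n i) k)) (ea i a j)) i g =
      algebraMap _ _ (eP i a p0 p1))
    (hd : ¬ IsSquare (algebraMap (MvPolynomial (V1 n i) k)
      (FractionRing (MvPolynomial (V1 n i) k)) (ed i a p0 p1)))
    [IsDomain (HQ (ed i a p0 p1))] : Rat k (FractionRing (HQ (ed i a p0 p1))) := by
  obtain ⟨j, y, hy2, -, -, hgen⟩ := hq_pack (ed i a p0 p1) hd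
  let emb : MvPolynomial (V1 n i) k →ₐ[k] FractionRing (HQ (ed i a p0 p1)) :=
    j.comp (IsScalarTower.toAlgHom k (MvPolynomial (V1 n i) k) _)
  have hji : Function.Injective j := j.toRingHom.injective
  exact rat_core hi a ha p0 hp1 g hg emb (hji.comp (IsFractionRing.injective _ _)) y hy2 hgen

theorem unirat_ed (h2 : (2 : k) ≠ 0) (hi : 2 ≤ i) (hn : i ≤ n)
    (p0 : (MvPolynomial (Fin n) k)[X]) {p1 : (MvPolynomial (Fin n) k)[X]} (hp1 : p1 ≠ 0)
    [IsDomain (HQ (ed i (xv k n) p0 p1))] :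
    Unirat k (FractionRing (HQ (ed i (xv k n) p0 p1))) := by
  have h4 := four_le hi
  set a' : ℕ → MvPolynomial (Fin n) k := fun j => sqx k n (xv k n j) with ha'
  set q0 := p0.map (sqx k n : MvPolynomial (Fin n) k →+* MvPolynomial (Fin n) k) with hq0
  set q1 := p1.map (sqx k n : MvPolynomial (Fin n) k →+* MvPolynomial (Fin n) k) with hq1
  have ha0 : ∀ j < i, a' j ≠ 0 := by
    intro j hj
    rw [ha', Ne, map_eq_zero_iff _ sqx_injective]
    exact xv_ne hn j hj
  have hq1' : q1 ≠ 0 := (Polynomial.map_ne_zero_iff sqx_injective).2 hp1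
  have hd := ed_not_square hi h2 (xv_ne hn 0 (by omega)) (xv_ne hn 1 (by omega)) p0 p1
  have hd' := ed_not_square hi h2 (ha0 0 (by omega)) (ha0 1 (by omega)) q0 q1
  have hdom' : IsDomain (HQ (ed i a' q0 q1)) := (hyp _ hd').2.1
  set ψ := algebraMap (MvPolynomial (V0 n i) k) (FractionRing (MvPolynomial (V0 n i) k)) with hψ
  have h2' : (2 : FractionRing (MvPolynomial (V0 n i) k)) ≠ 0 := by
    intro h
    apply h2
    apply (algebraMap k (FractionRing (MvPolynomial (V0 n i) k))).injective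
    rw [map_ofNat, h, map_zero]
  have hea : ∀ j < i, ψ (ea i a' j) ≠ 0 := by
    intro j hj
    rw [Ne, map_eq_zero_iff ψ (IsFractionRing.injective _ _)]
    unfold ea
    rw [if_pos hj, map_eq_zero_iff _ (MvPolynomial.rename_injective _ Sum.inl_injective)]
    exact ha0 j hj
  obtain ⟨s, hs⟩ : ∃ s, 2 ^ i = s + 3 := ⟨2 ^ i - 3, by omega⟩
  have hiso : pq (fun j => ψ (ea i a' j)) i (fun m => if m = 0 then
      ψ (MvPolynomial.X (Sum.inl ⟨0, by omega⟩)) else if m = 1 then 1 else 0) = 0 := by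
    rw [pq_split4 _ hs, if_pos rfl, if_neg (by omega), if_pos rfl, if_neg (by omega),
      if_neg (by omega)]
    have e1 : ∑ j : Fin s, pc (fun j => ψ (ea i a' j)) i (j + 2) * (if (j : ℕ) + 2 = 0 then
        ψ (MvPolynomial.X (Sum.inl ⟨0, by omega⟩)) else if (j : ℕ) + 2 = 1 then 1 else 0) ^ 2
          = 0 := by
      refine sum_eq_zero fun j _ => ?_
      rw [if_neg (by omega), if_neg (by omega)]
      ring
    rw [e1]
    obtain ⟨i', rfl⟩ : ∃ i', i = i' + 1 := ⟨i - 1, by omega⟩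
    rw [pc_one]
    have e2 : ea (i' + 1) a' 0 = MvPolynomial.X (Sum.inl ⟨0, by omega⟩) ^ 2 := by
      unfold ea
      rw [if_pos (by omega)]
      show MvPolynomial.rename Sum.inl (sqx k n (xv k n 0)) = _
      unfold xv sqx
      rw [dif_pos (by omega), MvPolynomial.aeval_X, map_pow, MvPolynomial.rename_X]
    rw [e2, map_pow]
    ring
  obtain ⟨g, hg⟩ := univ_of_iso h2' hea hiso (m0 := 1) (by omega)
    (by rw [if_neg (by omega), if_pos rfl]; exact one_ne_zero) (ψ (eP i a' q0 q1))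
  obtain ⟨M, ⟨e⟩⟩ := rat_of_value hi a' ha0 q0 hq1' g hg hd'
  obtain ⟨j, y, hy2, hind, -, -⟩ := hq_pack (ed i a' q0 q1) hd'
  let ε : MvPolynomial (V1 n i) k →ₐ[k] FractionRing (HQ (ed i a' q0 q1)) :=
    (j.comp (IsScalarTower.toAlgHom k (MvPolynomial (V1 n i) k) _)).comp (sq1 k n i)
  have hε : ∀ f, ε f = j (algebraMap _ _ (sq1 k n i f)) := fun f => rfl
  obtain ⟨φ⟩ := hq_hom (ed i (xv k n) p0 p1) hd ε y (by
    rw [hε, sq1_ed]
    exact hy2) (fun α β h => by
      rw [hε, hε] at h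
      obtain ⟨h5, h6⟩ := hind _ _ h
      have hinj := IsFractionRing.injective (MvPolynomial (V1 n i) k)
        (FractionRing (MvPolynomial (V1 n i) k))
      rw [map_eq_zero_iff _ hinj] at h5 h6
      exact ⟨(map_eq_zero_iff _ sq1_injective).1 h5, (map_eq_zero_iff _ sq1_injective).1 h6⟩)
  exact ⟨M, ⟨(e : _ →ₐ[k] _).comp φ⟩⟩

/-- The elements of the function field of the hypersurface. -/
theorem root_data {R : Type} [CommRing R] [IsDomain R] [CharZero R] {p0 p1 : R[X]} (hp0 : p0 ≠ 0)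
    (hp1 : p1 ≠ 0) (hp : Prime (pP p0 p1)) :
    ¬ pP p0 p1 ∣ X ∧ ¬ pP p0 p1 ∣ derivative (pP p0 p1) ∧ ¬ pP p0 p1 ∣ p1.comp (X ^ 2) := by
  have hd := natDegree_pP (p0 := p0) hp1
  refine ⟨?_, ?_, ?_⟩
  · rintro ⟨q, hq⟩
    have hq0 : q ≠ 0 := by
      rintro rfl
      rw [mul_zero] at hq
      exact X_ne_zero hq
    have h1 := congrArg natDegree hq
    rw [natDegree_X, natDegree_mul hp.ne_zero hq0, hd] at h1
    have h2 : q.natDegree = 0 := by omega
    have h3 : p0.natDegree = 0 := by omega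
    have h4 := congrArg (eval 0) hq
    rw [eval_X, eval_mul] at h4
    rw [eq_C_of_natDegree_eq_zero h2] at h4 hq0
    rw [eval_C] at h4
    unfold pP at h4
    rw [eval_add, eval_mul, eval_X, zero_mul, add_zero, eval_comp, eq_C_of_natDegree_eq_zero h3,
      eval_C] at h4
    have h5 : p0.coeff 0 ≠ 0 := by
      intro h
      apply hp0
      rw [eq_C_of_natDegree_eq_zero h3, h, C_0]
    have h6 : q.coeff 0 ≠ 0 := by
      intro h
      apply hq0
      rw [h, C_0]
    exact mul_ne_zero h5 h6 h4.symm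
  · intro h
    have h0 : derivative (pP p0 p1) ≠ 0 := by
      intro h0
      have := Polynomial.derivative_eq_zero.1 h0
      omega
    have h1 := natDegree_le_of_dvd h h0
    have h2 := natDegree_derivative_lt (p := pP p0 p1) (by omega)
    omega
  · intro h
    have h1 := natDegree_le_of_dvd h (cs_ne hp1)
    rw [hd, natDegree_cs] at h1
    omega

/-- **The geometric theorem.** -/
theorem geo [IsAlgClosed k] [CharZero k] (hi : 2 ≤ i) (hn : i ≤ n)
    {p0 p1 : (MvPolynomial (Fin n) k)[X]} (hp0 : p0 ≠ 0) (hp1 : p1 ≠ 0)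
    (hp : Irreducible (pP p0 p1)) :
    ∃ _ : IsDomain (HQ (ed i (xv k n) p0 p1)),
      Unirat k (FractionRing (HQ (ed i (xv k n) p0 p1))) ∧
      [Rat k (FractionRing (HQ (ed i (xv k n) p0 p1))),
        StabRat k (FractionRing (HQ (ed i (xv k n) p0 p1))), IsoPf i (pP p0 p1)].TFAE := by
  have h2 : (2 : k) ≠ 0 := two_ne_zero
  have hd := ed_not_square hi h2 (xv_ne hn 0 (by omega)) (xv_ne hn 1 (by omega)) p0 p1
  have hdom : IsDomain (HQ (ed i (xv k n) p0 p1)) := (hyp _ hd).2.1
  refine ⟨hdom, unirat_ed h2 hi hn p0 hp1, ?_⟩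
  tfae_have 1 → 2 := stab_of_rat
  tfae_have 3 → 1 := by
    rintro ⟨z, ⟨m0, hm0, hz0⟩, hz⟩
    obtain ⟨s, hs⟩ := IsAlgClosed.exists_pow_nat_eq (-1 : k) (n := 2) (by norm_num)
    obtain ⟨g, hg⟩ := value_lemma hi h2 ⟨s, hs⟩ (xv k n) (xv_ne hn) hp1 hp hz hm0 hz0
    exact rat_of_value hi (xv k n) (xv_ne hn) p0 hp1 g hg hd
  tfae_have 2 → 3 := by
    rintro ⟨r, M, ⟨e⟩⟩
    by_contra hcon
    have hprime : Prime (pP p0 p1) := hp.prime
    have hdomA : IsDomain (AdjoinRoot (pP p0 p1)) := AdjoinRoot.isDomain_of_prime hprime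
    set F := FractionRing (AdjoinRoot (pP p0 p1)) with hF
    let ξ : MvPolynomial (Fin n) k →ₐ[k] F :=
      (IsScalarTower.toAlgHom k (AdjoinRoot (pP p0 p1)) F).comp
        (IsScalarTower.toAlgHom k (MvPolynomial (Fin n) k) (AdjoinRoot (pP p0 p1)))
    have hξ : ∀ f, ξ f = algebraMap (AdjoinRoot (pP p0 p1)) F (AdjoinRoot.of (pP p0 p1) f) :=
      fun f => rfl
    have hFi : Function.Injective (algebraMap (AdjoinRoot (pP p0 p1)) F) :=
      IsFractionRing.injective _ _
    have hdeg : (pP p0 p1).degree ≠ 0 := by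
      intro h
      have h1 := natDegree_eq_zero_iff_degree_le_zero.2 h.le
      rw [natDegree_pP hp1] at h1
      omega
    have hξi : Function.Injective ξ :=
      hFi.comp (AdjoinRoot.of.injective_of_degree_ne_zero hdeg)
    set η : F := algebraMap (AdjoinRoot (pP p0 p1)) F (AdjoinRoot.root (pP p0 p1)) with hη
    have heval : ∀ f : (MvPolynomial (Fin n) k)[X],
        (f.map (ξ : MvPolynomial (Fin n) k →+* F)).eval η =
          algebraMap (AdjoinRoot (pP p0 p1)) F (AdjoinRoot.mk (pP p0 p1) f) := by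
      intro f
      rw [eval_map, ← AdjoinRoot.aeval_eq, aeval_def, hom_eval₂]
      rfl
    have hmap : pP (p0.map (ξ : MvPolynomial (Fin n) k →+* F))
        (p1.map (ξ : MvPolynomial (Fin n) k →+* F)) =
        (pP p0 p1).map (ξ : MvPolynomial (Fin n) k →+* F) := (map_pP _ p0 p1).symm
    obtain ⟨r1, r2, r3⟩ := root_data hp0 hp1 hprime
    have han : An (fun j => ξ (xv k n j)) i := by
      intro z hz m hm
      by_contra hzm
      exact hcon ⟨z, ⟨m, hm, hzm⟩, hz⟩
    obtain ⟨j, y, hy2, hind, hspan, -⟩ := hq_pack (ed i (xv k n) p0 p1) hd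
    have hX := aniso_X h2 hi (xv k n) hξi (xv_ne hn) (prod_ne h2 (by omega)) han p0 p1
      (η := η) (by
        rw [hη, Ne, map_eq_zero_iff _ hFi, ← AdjoinRoot.mk_X, AdjoinRoot.mk_eq_zero]
        exact r1) (by
        rw [hmap, heval, AdjoinRoot.mk_self, map_zero]) (by
        rw [hmap, derivative_map, heval, Ne, map_eq_zero_iff _ hFi, AdjoinRoot.mk_eq_zero]
        exact r2) (by
        have : (p1.map (ξ : MvPolynomial (Fin n) k →+* F)).eval (η ^ 2) =
            ((p1.comp (X ^ 2)).map (ξ : MvPolynomial (Fin n) k →+* F)).eval η := by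
          rw [map_comp, Polynomial.map_pow, map_X, eval_comp, eval_pow, eval_X]
        rw [this, heval, Ne, map_eq_zero_iff _ hFi, AdjoinRoot.mk_eq_zero]
        exact r3) j.toRingHom y hy2 hind hspan
    have hji : Function.Injective j := j.toRingHom.injective
    let emb : MvPolynomial (V1 n i) k →ₐ[k] FractionRing (HQ (ed i (xv k n) p0 p1)) :=
      j.comp (IsScalarTower.toAlgHom k (MvPolynomial (V1 n i) k) _)
    exact not_stably h2 hi (xv k n) (xv_ne hn) p0 hp1 emb
      (hji.comp (IsFractionRing.injective _ _)) y hy2 hX r M e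
  tfae_finish

end

end Pool.Agent.H901
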