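import Pool.Agent.H901.LOC2

/-!
The Pfister form `<<a 0, …, a i>>` has self-dual lattices at all discrete valuation rings, over a
field which contains the solutions of a certain equation.
-/

set_option autoImplicit false

namespace Pool.Agent.H901

open Finset

section

variable {R : Type*} [CommRing R]

/-- the perturbation of the last coefficient -/
def dh (a : ℕ → R) (i : ℕ) : R :=
  (∏ j ∈ range (i + 1), (a j - 1)) ^ 2 + ∏ j ∈ range (i + 1), a j

/-- minus the value of the perturbed pure part -/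
def DD (a : ℕ → R) (i : ℕ) (v : ℕ → R) : R :=
  -(∑ m ∈ Ico 1 (2 ^ i - 1), pc a i m * v m ^ 2 +
    pc a i (2 ^ i - 1) * dh a i * v (2 ^ i - 1) ^ 2)

theorem pq_split (a : ℕ → R) {i : ℕ} (hi : 1 ≤ i) (g : ℕ → R) :
    pq a i g = g 0 ^ 2 + (∑ m ∈ Ico 1 (2 ^ i - 1), pc a i m * g m ^ 2 +
      pc a i (2 ^ i - 1) * g (2 ^ i - 1) ^ 2) := by
  have hN : 2 ≤ 2 ^ i := by
    calc 2 = 2 ^ 1 := rfl
      _ ≤ 2 ^ i := Nat.pow_le_pow_right (by norm_num) hi
  unfold pq
  obtain ⟨r, hr⟩ : ∃ r, 2 ^ i = r + 2 := ⟨2 ^ i - 2, by omega⟩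
  rw [range_eq_Ico, sum_eq_sum_Ico_succ_bot (by omega), pc_zero, one_mul]
  congr 1
  rw [hr, show r + 2 - 1 = r + 1 by omega, sum_Ico_succ_top (by omega)]

end

section

variable {L : Type*} [Field L] {O : ValuationSubring L}

theorem val_sub_one (x : L) (hx : 1 ≤ O.valuation (x - 1)) :
    O.valuation x ≤ O.valuation (x - 1) ^ 2 ∧
      (O.valuation x ≠ 1 → O.valuation x < O.valuation (x - 1) ^ 2) := by
  have e : x - 1 = x + (-1) := sub_eq_add_neg _ _
  have h1 : O.valuation (-1 : L) = 1 := by rw [Valuation.map_neg, map_one]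
  rcases lt_trichotomy (O.valuation x) 1 with h | h | h
  · have h3 : O.valuation (x - 1) = 1 := by
      rw [e, O.valuation.map_add_eq_of_lt_right (by rw [h1]; exact h), h1]
    rw [h3, one_pow]
    exact ⟨h.le, fun _ => h⟩
  · refine ⟨?_, fun h0 => absurd h h0⟩
    rw [h]
    exact one_le_pow₀ hx
  · have h3 : O.valuation (x - 1) = O.valuation x := by
      rw [e, O.valuation.map_add_eq_of_lt_left (by rw [h1]; exact h)]
    rw [h3]
    have h4 : O.valuation x < O.valuation x ^ 2 := by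
      rw [pow_two]
      calc O.valuation x = 1 * O.valuation x := (one_mul _).symm
        _ < O.valuation x * O.valuation x := by
            exact mul_lt_mul_of_pos_right h (lt_trans zero_lt_one h)
    exact ⟨h4.le, fun _ => h4⟩

theorem um_key [IsDiscreteValuationRing O] (h2 : O.valuation 2 = 1) (a : ℕ → L) {i : ℕ}
    (hi : 1 ≤ i) (ha : ∀ j < i + 1, a j ≠ 0) (u v : ℕ → L) (α β : L)
    (hP : α ^ 2 - DD a i v * β ^ 2 ≠ 0)
    (hu : pq a i u = a i * (α ^ 2 - DD a i v * β ^ 2)) : UM O (pcd a (i + 1)) := by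
  by_cases hc1 : ∃ j < i + 1, O.valuation (a j - 1) < 1
  · obtain ⟨j, hj, h⟩ := hc1
    have h1 := um_one_unit h2 a (i + 1) j hj ha h 1 one_ne_zero
    rwa [one_smul] at h1
  push Not at hc1
  by_cases hc2 : ∀ j < i + 1, O.valuation (a j) = 1
  · exact um_units a (i + 1) hc2
  push Not at hc2
  obtain ⟨j0, hj0, hj0'⟩ := hc2
  set B : L := ∏ j ∈ range (i + 1), a j with hB
  set q : L := ∏ j ∈ range (i + 1), (a j - 1) with hq
  have hB0 : B ≠ 0 := prod_ne_zero_iff.2 fun j hj => ha j (mem_range.1 hj)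
  have hq0 : q ≠ 0 := by
    refine prod_ne_zero_iff.2 fun j hj h0 => ?_
    have := hc1 j (mem_range.1 hj)
    rw [h0, map_zero] at this
    exact absurd this (by simp)
  have hBq : O.valuation B < O.valuation q ^ 2 := by
    rw [hB, hq, map_prod, map_prod, ← prod_pow]
    refine prod_lt_prod (fun j hj => ?_) (fun j hj => ?_) ⟨j0, mem_range.2 hj0, ?_⟩
    · rw [zero_lt_iff, Valuation.ne_zero_iff]
      exact ha j (mem_range.1 hj)
    · exact (val_sub_one _ (hc1 j (mem_range.1 hj))).1
    · exact (val_sub_one _ (hc1 j0 hj0)).2 hj0'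
  set e : L := 1 + B / q ^ 2 with he
  have he1 : e - 1 = B / q ^ 2 := by rw [he]; ring
  have he2 : O.valuation (e - 1) < 1 := by
    rw [he1, map_div₀, map_pow]
    rw [div_lt_one₀]
    · exact hBq
    · exact pow_pos (zero_lt_iff.2 ((Valuation.ne_zero_iff _).2 hq0)) 2
  have he0 : e - 1 ≠ 0 := by
    rw [he1]
    exact div_ne_zero hB0 (pow_ne_zero _ hq0)
  have hdh : dh a i = q ^ 2 * e := by
    unfold dh
    rw [he, ← hB, ← hq]
    field_simp
  set A : L := pc a i (2 ^ i - 1) with hA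
  set P : L := α ^ 2 - DD a i v * β ^ 2 with hPdef
  set W : L := A * β ^ 2 * v (2 ^ i - 1) ^ 2 * q ^ 2 with hW
  -- the vector
  have hvec : ∃ g : ℕ → L, ∃ μ : L, O.valuation μ < 1 ∧ pq a i g = P * (1 - μ) := by
    have key : ∀ ρ : L, pq a i (fun m => if m = 0 then α else if m = 2 ^ i - 1 then
        β * v (2 ^ i - 1) * q * ρ else β * v m) = P - W * (e - ρ ^ 2) := by
      intro ρ
      have hN : 2 ≤ 2 ^ i := by
        calc 2 = 2 ^ 1 := rfl
          _ ≤ 2 ^ i := Nat.pow_le_pow_right (by norm_num) hi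
      rw [pq_split a hi, if_pos rfl, if_neg (by omega), if_pos rfl]
      have h3 : ∑ m ∈ Ico 1 (2 ^ i - 1), pc a i m * (if m = 0 then α else if m = 2 ^ i - 1 then
          β * v (2 ^ i - 1) * q * ρ else β * v m) ^ 2 =
          β ^ 2 * ∑ m ∈ Ico 1 (2 ^ i - 1), pc a i m * v m ^ 2 := by
        rw [mul_sum]
        refine sum_congr rfl fun m hm => ?_
        rw [mem_Ico] at hm
        rw [if_neg (by omega), if_neg (by omega)]
        ring
      rw [h3, ← hA, hPdef, hW]
      unfold DD
      rw [hdh, ← hA]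
      ring
    by_cases hW0 : W = 0
    · refine ⟨_, 0, ?_, (key 1).trans ?_⟩
      · rw [map_zero]
        exact zero_lt_one
      · rw [hW0]
        ring
    · obtain ⟨ρ, hρ, hρ2⟩ := newton' h2 he2 (g := (e - 1) * P / W)
        (div_ne_zero (mul_ne_zero he0 hP) hW0)
      have hρ0 : ρ ≠ 0 := by
        rintro rfl
        rw [map_zero] at hρ
        exact zero_ne_one hρ
      refine ⟨_, W * (e - (ρ⁻¹) ^ 2) / P, ?_, (key ρ⁻¹).trans ?_⟩
      · have h3 : e - ρ⁻¹ ^ 2 = -(1 - e * ρ ^ 2) / ρ ^ 2 := by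
          field_simp
          ring
        rw [h3, map_div₀, map_mul, map_div₀, Valuation.map_neg, map_pow, hρ, one_pow, div_one]
        have hP' : 0 < O.valuation P := zero_lt_iff.2 ((Valuation.ne_zero_iff _).2 hP)
        rw [div_lt_one₀ hP']
        calc O.valuation W * O.valuation (1 - e * ρ ^ 2)
            ≤ O.valuation W * O.valuation ((e - 1) * P / W) := by gcongr
          _ = O.valuation (e - 1) * O.valuation P := by
            rw [← map_mul, ← map_mul]
            congr 1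
            field_simp
          _ < 1 * O.valuation P := mul_lt_mul_of_pos_right he2 hP'
          _ = O.valuation P := one_mul _
      · field_simp
  obtain ⟨g, μ, hμ, hg⟩ := hvec
  have ht0 : a i ≠ 0 := ha i (by omega)
  have hu0 : pq a i u ≠ 0 := by
    rw [hu]
    exact mul_ne_zero ht0 hP
  refine um_sim h2 a i ha (s := (pq a i u)⁻¹ ^ 2 * (pq a i g * pq a i u)) (e := 1 - μ)
    (sim_sq _ (sim_mul (sim_value a i g) (sim_value a i u))) ?_ ?_
  · have : (1 - μ) - 1 = -μ := by ring
    rw [this, Valuation.map_neg]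
    exact hμ
  · have h3 : (pq a i u)⁻¹ ^ 2 * (pq a i g * pq a i u) * a i = pq a i g * a i / pq a i u := by
      field_simp
    rw [h3, hg, hu]
    field_simp

end

end Pool.Agent.H901
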