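import Pool.Agent.H901.PF
import Pool.Graph.R_seed8.H918R3.Defs

/-!
Self-dual lattices for Pfister forms over a field with a discrete valuation ring.
-/

set_option autoImplicit false

namespace Pool.Agent.H901

open Matrix

section

variable {L : Type*} [Field L] (O : ValuationSubring L)

/-- there is a self-dual lattice -/
def UM {ι : Type*} [Fintype ι] [DecidableEq ι] (G : Matrix ι ι L) : Prop :=
  ∃ P : Matrix ι ι L, P.det ≠ 0 ∧ (∀ i j, (Pᵀ * G * P) i j ∈ O) ∧ ((Pᵀ * G * P).det)⁻¹ ∈ O

theorem um_fin {n : ℕ} (G : Matrix (Fin n) (Fin n) L) : UM O G ↔ Pool.Agent.H918R3.Unr O G :=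
  Iff.rfl

variable {O}

section

variable {ι κ : Type*} [Fintype ι] [DecidableEq ι] [Fintype κ] [DecidableEq κ]

theorem um_reindex (e : κ ≃ ι) {G : Matrix ι ι L} (h : UM O (G.submatrix e e)) : UM O G := by
  obtain ⟨P, hP, h1, h2⟩ := h
  have key : (P.submatrix e.symm e.symm)ᵀ * G * P.submatrix e.symm e.symm =
      (Pᵀ * G.submatrix e e * P).submatrix e.symm e.symm := by
    rw [← Matrix.submatrix_mul_equiv _ _ _ e.symm, ← Matrix.submatrix_mul_equiv _ _ _ e.symm]
    rw [Matrix.submatrix_submatrix]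
    simp [Matrix.transpose_submatrix]
  refine ⟨P.submatrix e.symm e.symm, ?_, ?_, ?_⟩
  · rwa [Matrix.det_submatrix_equiv_self]
  · intro i j
    rw [key]
    exact h1 _ _
  · rw [key, Matrix.det_submatrix_equiv_self]
    exact h2

theorem um_sum {G : Matrix ι ι L} {H : Matrix κ κ L} (hG : UM O G) (hH : UM O H) :
    UM O (fromBlocks G 0 0 H) := by
  obtain ⟨P, hP, h1, h2⟩ := hG
  obtain ⟨Q, hQ, g1, g2⟩ := hH
  have key : (fromBlocks P 0 0 Q)ᵀ * fromBlocks G 0 0 H * fromBlocks P 0 0 Q =
      fromBlocks (Pᵀ * G * P) 0 0 (Qᵀ * H * Q) := by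
    rw [Matrix.fromBlocks_transpose, Matrix.fromBlocks_multiply, Matrix.fromBlocks_multiply]
    simp
  refine ⟨fromBlocks P 0 0 Q, ?_, ?_, ?_⟩
  · rw [Matrix.det_fromBlocks_zero₂₁]
    exact mul_ne_zero hP hQ
  · intro i j
    rw [key]
    rcases i with i | i <;> rcases j with j | j
    · exact h1 i j
    · exact O.zero_mem
    · exact O.zero_mem
    · exact g1 i j
  · rw [key, Matrix.det_fromBlocks_zero₂₁, mul_inv]
    exact O.mul_mem _ _ h2 g2

theorem um_iso {G H P : Matrix ι ι L} (hP : P.det ≠ 0) (h : Pᵀ * G * P = H) (hH : UM O H) :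
    UM O G := by
  obtain ⟨Q, hQ, h1, h2⟩ := hH
  have key : (P * Q)ᵀ * G * (P * Q) = Qᵀ * H * Q := by
    rw [← h, Matrix.transpose_mul]
    simp only [Matrix.mul_assoc]
  refine ⟨P * Q, ?_, ?_, ?_⟩
  · rw [Matrix.det_mul]
    exact mul_ne_zero hP hQ
  · rw [key]; exact h1
  · rw [key]; exact h2

theorem det_mem {M : Matrix ι ι L} (h : ∀ i j, M i j ∈ O) : M.det ∈ O := by
  let M' : Matrix ι ι O := fun i j => ⟨M i j, h i j⟩
  have : M.det = ((M'.det : O) : L) := (RingHom.map_det O.subtype M').symm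
  rw [this]
  exact (M'.det).2

/-- Newton approximation of the square root of a one-unit -/
theorem newton (h2 : O.valuation 2 = 1) {e : L} (he : O.valuation (e - 1) < 1) (n : ℕ) :
    ∃ ρ : L, O.valuation ρ = 1 ∧ O.valuation (1 - e * ρ ^ 2) ≤ O.valuation (e - 1) ^ (n + 1) := by
  have hone : ∀ x : L, O.valuation x < 1 → O.valuation (1 + x) = 1 := by
    intro x hx
    rw [← O.valuation.map_one]
    refine O.valuation.map_add_eq_of_lt_left ?_
    rwa [O.valuation.map_one]
  induction n with
  | zero =>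
    refine ⟨1, by simp, ?_⟩
    have : 1 - e * 1 ^ 2 = -(e - 1) := by ring
    rw [this, Valuation.map_neg, zero_add, pow_one]
  | succ n ih =>
    obtain ⟨ρ, hρ, h⟩ := ih
    set x := 1 - e * ρ ^ 2 with hx
    have hx1 : O.valuation x < 1 := lt_of_le_of_lt h (pow_lt_one₀ zero_le he (by omega))
    have h20 : (2 : L) ≠ 0 := by
      intro h0
      rw [h0, map_zero] at h2
      exact zero_ne_one h2
    have hx2 : O.valuation (x / 2) < 1 := by rwa [map_div₀, h2, div_one]
    refine ⟨ρ * (1 + x / 2), by rw [map_mul, hρ, hone _ hx2, one_mul], ?_⟩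
    have e1 : 1 - e * (ρ * (1 + x / 2)) ^ 2 = x ^ 2 * (3 + x) / (2 * 2) := by
      have : e * ρ ^ 2 = 1 - x := by rw [hx]; ring
      rw [mul_pow, ← mul_assoc, this]
      field_simp
      ring
    have h4 : O.valuation ((2 : L) * 2) = 1 := by
      rw [map_mul, h2, one_mul]
    rw [e1, map_div₀, h4, div_one, map_mul, map_pow]
    have h3 : O.valuation (3 + x) ≤ 1 := by
      refine (O.valuation.map_add _ _).trans (max_le ?_ hx1.le)
      have : (3 : L) = 1 + 2 := by norm_num
      rw [this]
      refine (O.valuation.map_add _ _).trans (max_le ?_ h2.le)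
      rw [map_one]
    calc O.valuation x ^ 2 * O.valuation (3 + x) ≤ O.valuation x ^ 2 * 1 := by gcongr
      _ = O.valuation x * O.valuation x := by rw [mul_one, pow_two]
      _ ≤ O.valuation (e - 1) ^ (n + 1) * O.valuation (e - 1) := by
          gcongr
          refine h.trans ?_
          exact pow_le_of_le_one zero_le he.le (by omega)
      _ = O.valuation (e - 1) ^ (n + 1 + 1) := by rw [← pow_succ]

/-- in a discrete valuation ring the powers of a nonunit tend to zero -/
theorem pow_small [IsDiscreteValuationRing O] {x : L} (hx : O.valuation x < 1) {g : L}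
    (hg : g ≠ 0) : ∃ n : ℕ, O.valuation x ^ (n + 1) ≤ O.valuation g := by
  obtain ⟨ϖ, hϖ⟩ := IsDiscreteValuationRing.exists_irreducible O
  by_cases hgO : O.valuation g ≤ 1
  · have hg' : g ∈ O := (O.valuation_le_one_iff g).1 hgO
    obtain ⟨n, u, hu⟩ := IsDiscreteValuationRing.associated_pow_irreducible
      (x := (⟨g, hg'⟩ : O)) (fun h => hg (congrArg Subtype.val h)) hϖ
    have h1 : g * ((u : O) : L) = (ϖ : L) ^ n := by
      have := congrArg Subtype.val hu
      simpa using this
    have h3 : O.valuation g = O.valuation (ϖ : L) ^ n := by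
      have h2 : O.valuation (g * ((u : O) : L)) = O.valuation g := by
        rw [map_mul, O.valuation_unit u, mul_one]
      rw [← h2, h1, map_pow]
    have h4 : O.valuation x ≤ O.valuation (ϖ : L) := by
      have hxO : x ∈ O := (O.valuation_le_one_iff x).1 hx.le
      by_cases hx0 : x = 0
      · rw [hx0, map_zero]; exact zero_le
      obtain ⟨k, v, hv⟩ := IsDiscreteValuationRing.associated_pow_irreducible
        (x := (⟨x, hxO⟩ : O)) (fun h => hx0 (congrArg Subtype.val h)) hϖ
      have h5 : x * ((v : O) : L) = (ϖ : L) ^ k := by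
        have := congrArg Subtype.val hv
        simpa using this
      have h6 : O.valuation x = O.valuation (ϖ : L) ^ k := by
        have h2 : O.valuation (x * ((v : O) : L)) = O.valuation x := by
          rw [map_mul, O.valuation_unit v, mul_one]
        rw [← h2, h5, map_pow]
      have hk : k ≠ 0 := by
        rintro rfl
        rw [pow_zero] at h6
        rw [h6] at hx
        exact lt_irrefl _ hx
      rw [h6]
      exact pow_le_of_le_one zero_le (O.valuation_le_one ϖ) hk
    refine ⟨n, ?_⟩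
    rw [h3]
    calc O.valuation x ^ (n + 1) ≤ O.valuation x ^ n := by
          rw [pow_succ]
          exact mul_le_of_le_one_right' hx.le
      _ ≤ O.valuation (ϖ : L) ^ n := by gcongr
  · push Not at hgO
    refine ⟨0, ?_⟩
    rw [zero_add, pow_one]
    exact (hx.trans hgO).le

theorem newton' [IsDiscreteValuationRing O] (h2 : O.valuation 2 = 1) {e : L}
    (he : O.valuation (e - 1) < 1) {g : L} (hg : g ≠ 0) :
    ∃ ρ : L, O.valuation ρ = 1 ∧ O.valuation (1 - e * ρ ^ 2) ≤ O.valuation g := by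
  obtain ⟨n, hn⟩ := pow_small he hg
  obtain ⟨ρ, hρ, h⟩ := newton h2 he n
  exact ⟨ρ, hρ, h.trans hn⟩

theorem exists_small (w : ι → L) (hw : ∀ m, w m ≠ 0) :
    ∃ g : L, g ≠ 0 ∧ ∀ m, O.valuation g ≤ O.valuation (w m) ∧
      O.valuation g ≤ O.valuation (w m)⁻¹ := by
  classical
  have key : ∀ s : Finset ι, ∃ g : L, g ≠ 0 ∧ ∀ m ∈ s, O.valuation g ≤ O.valuation (w m) ∧
      O.valuation g ≤ O.valuation (w m)⁻¹ := by
    intro s
    induction s using Finset.induction_on with
    | empty => exact ⟨1, one_ne_zero, by simp⟩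
    | insert m s _ ih =>
      obtain ⟨g, hg, h⟩ := ih
      have hmin : ∀ x y : L, x ≠ 0 → y ≠ 0 → ∃ z : L, z ≠ 0 ∧ O.valuation z ≤ O.valuation x ∧
          O.valuation z ≤ O.valuation y := by
        intro x y hx hy
        rcases le_total (O.valuation x) (O.valuation y) with h | h
        · exact ⟨x, hx, le_rfl, h⟩
        · exact ⟨y, hy, h, le_rfl⟩
      obtain ⟨z1, hz1, h1, h1'⟩ := hmin (w m) (w m)⁻¹ (hw m) (inv_ne_zero (hw m))
      obtain ⟨z, hz, h2, h2'⟩ := hmin g z1 hg hz1
      refine ⟨z, hz, fun m' hm' => ?_⟩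
      rw [Finset.mem_insert] at hm'
      rcases hm' with rfl | hm'
      · exact ⟨h2'.trans h1, h2'.trans h1'⟩
      · exact ⟨h2.trans (h m' hm').1, h2.trans (h m' hm').2⟩
  obtain ⟨g, hg, h⟩ := key Finset.univ
  exact ⟨g, hg, fun m => h m (Finset.mem_univ m)⟩

/-- the orthogonal sum of the `w m <1, -e>`, `e` a one-unit -/
theorem um_pair [IsDiscreteValuationRing O] (h2 : O.valuation 2 = 1) {e : L}
    (he : O.valuation (e - 1) < 1) (w : ι → L) (hw : ∀ m, w m ≠ 0) :
    UM O (fromBlocks (diagonal w) 0 0 (diagonal fun m => -e * w m)) := by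
  obtain ⟨g, hg0, hgs⟩ := exists_small (O := O) w hw
  obtain ⟨ρ, hρ, hρ2⟩ := newton' h2 he hg0
  set x := 1 - e * ρ ^ 2 with hx
  have he1 : O.valuation e = 1 := by
    have : e = 1 + (e - 1) := by ring
    rw [this, ← O.valuation.map_one]
    refine O.valuation.map_add_eq_of_lt_left ?_
    rwa [O.valuation.map_one]
  set b := 1 + e * ρ ^ 2 with hb
  have hbO : b ∈ O := by
    rw [← O.valuation_le_one_iff]
    refine (O.valuation.map_add _ _).trans (max_le (by rw [map_one]) ?_)
    rw [map_mul, map_pow, he1, hρ]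
    simp
  have hA : ∀ m, w m * x ∈ O := by
    intro m
    rw [← O.valuation_le_one_iff, map_mul]
    calc O.valuation (w m) * O.valuation x ≤ O.valuation (w m) * O.valuation (w m)⁻¹ := by
          gcongr
          exact hρ2.trans (hgs m).2
      _ = 1 := by rw [← map_mul, mul_inv_cancel₀ (hw m), map_one]
  have hC : ∀ m, (w m)⁻¹ * x ∈ O := by
    intro m
    rw [← O.valuation_le_one_iff, map_mul]
    calc O.valuation (w m)⁻¹ * O.valuation x ≤ O.valuation (w m)⁻¹ * O.valuation (w m) := by
          gcongr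
          exact hρ2.trans (hgs m).1
      _ = 1 := by rw [← map_mul, inv_mul_cancel₀ (hw m), map_one]
  set P : Matrix (ι ⊕ ι) (ι ⊕ ι) L := fromBlocks (diagonal fun _ => 1) (diagonal fun m => (w m)⁻¹)
    (diagonal fun _ => ρ) (diagonal fun m => -(ρ * (w m)⁻¹)) with hP
  have key : Pᵀ * fromBlocks (diagonal w) 0 0 (diagonal fun m => -e * w m) * P =
      fromBlocks (diagonal fun m => w m * x) (diagonal fun _ => b) (diagonal fun _ => b)
        (diagonal fun m => (w m)⁻¹ * x) := by
    rw [hP, Matrix.fromBlocks_transpose, Matrix.fromBlocks_multiply, Matrix.fromBlocks_multiply]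
    simp only [diagonal_transpose, diagonal_mul_diagonal, diagonal_add, Matrix.mul_zero, add_zero,
      zero_add]
    congr 1 <;>
    · congr 1
      funext m
      have := hw m
      rw [hx, hb] at *
      field_simp
      try ring
  set M := fromBlocks (diagonal fun m => w m * x) (diagonal fun _ => b) (diagonal fun _ => b)
        (diagonal fun m => (w m)⁻¹ * x) with hM
  set δ : L := x ^ 2 - b ^ 2 with hδ
  have hδ1 : O.valuation δ = 1 := by
    have : δ = -(2 * 2 * (e * ρ ^ 2)) := by rw [hδ, hx, hb]; ring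
    rw [this, Valuation.map_neg, map_mul, map_mul, map_mul, map_pow, h2, he1, hρ]
    simp
  have hδ0 : δ ≠ 0 := by
    intro h
    rw [h, map_zero] at hδ1
    exact zero_ne_one hδ1
  have hδO : δ⁻¹ ∈ O := by
    rw [← O.valuation_le_one_iff, map_inv₀, hδ1, inv_one]
  set N : Matrix (ι ⊕ ι) (ι ⊕ ι) L := fromBlocks (diagonal fun m => δ⁻¹ * ((w m)⁻¹ * x))
    (diagonal fun _ => δ⁻¹ * -b) (diagonal fun _ => δ⁻¹ * -b) (diagonal fun m => δ⁻¹ * (w m * x))
    with hN
  have hMN : M * N = 1 := by
    rw [hM, hN, Matrix.fromBlocks_multiply, ← fromBlocks_one]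
    simp only [diagonal_mul_diagonal, diagonal_add]
    have e1 : ∀ f : ι → L, (∀ m, f m = 1) → diagonal f = (1 : Matrix ι ι L) := by
      intro f hf
      rw [← diagonal_one]
      congr 1
      funext m
      exact hf m
    have e0 : ∀ f : ι → L, (∀ m, f m = 0) → diagonal f = (0 : Matrix ι ι L) := by
      intro f hf
      rw [← diagonal_zero]
      congr 1
      funext m
      exact hf m
    congr 1
    · refine e1 _ fun m => ?_
      have h3 := hw m
      have : w m * x * (δ⁻¹ * ((w m)⁻¹ * x)) + b * (δ⁻¹ * -b) =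
          (w m * (w m)⁻¹ * x ^ 2 - b ^ 2) * δ⁻¹ := by ring
      rw [this, mul_inv_cancel₀ h3, one_mul, ← hδ, mul_inv_cancel₀ hδ0]
    · refine e0 _ fun m => ?_
      ring
    · refine e0 _ fun m => ?_
      ring
    · refine e1 _ fun m => ?_
      have h3 := hw m
      have : b * (δ⁻¹ * -b) + (w m)⁻¹ * x * (δ⁻¹ * (w m * x)) =
          (w m * (w m)⁻¹ * x ^ 2 - b ^ 2) * δ⁻¹ := by ring
      rw [this, mul_inv_cancel₀ h3, one_mul, ← hδ, mul_inv_cancel₀ hδ0]
  have hdet : M.det * N.det = 1 := by rw [← det_mul, hMN, det_one]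
  have hdg : ∀ f : ι → L, (∀ m, f m ∈ O) → ∀ i j, (diagonal f) i j ∈ O := by
    intro f hf i j
    by_cases hij : i = j
    · subst hij
      rw [diagonal_apply_eq]
      exact hf i
    · rw [diagonal_apply_ne _ hij]
      exact O.zero_mem
  have hMO : ∀ i j, M i j ∈ O := by
    intro i j
    rcases i with i | i <;> rcases j with j | j
    · exact hdg _ hA i j
    · exact hdg _ (fun _ => hbO) i j
    · exact hdg _ (fun _ => hbO) i j
    · exact hdg _ hC i j
  have hNO : ∀ i j, N i j ∈ O := by
    intro i j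
    rcases i with i | i <;> rcases j with j | j
    · exact hdg _ (fun m => O.mul_mem _ _ hδO (hC m)) i j
    · exact hdg _ (fun m => O.mul_mem _ _ hδO (O.neg_mem _ hbO)) i j
    · exact hdg _ (fun m => O.mul_mem _ _ hδO (O.neg_mem _ hbO)) i j
    · exact hdg _ (fun m => O.mul_mem _ _ hδO (hA m)) i j
  refine ⟨P, ?_, ?_, ?_⟩
  · intro h0
    have h1 : M.det = 0 := by
      rw [← key, det_mul, h0, mul_zero]
    rw [h1, zero_mul] at hdet
    exact zero_ne_one hdet
  · rw [key]
    exact hMO
  · rw [key]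
    have : M.det⁻¹ = N.det := (eq_inv_of_mul_eq_one_right hdet).symm
    rw [this]
    exact det_mem hNO

end

end

end Pool.Agent.H901
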