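import Pool.Agent.H901.LOC

/-!
Pfister forms and self-dual lattices.
-/

set_option autoImplicit false

namespace Pool.Agent.H901

open Matrix

section

variable {L : Type*} [Field L] {O : ValuationSubring L}

/-- the Gram matrix of the Pfister form -/
def pcd (a : ℕ → L) (i : ℕ) : Matrix (Fin (2 ^ i)) (Fin (2 ^ i)) L :=
  diagonal (fun m => pc a i m)

/-- the two halves of the index set -/
def hv (i : ℕ) : Fin (2 ^ i) ⊕ Fin (2 ^ i) ≃ Fin (2 ^ (i + 1)) :=
  finSumFinEquiv.trans (finCongr (by rw [pow_succ, mul_two]))

theorem hv_inl (i : ℕ) (m : Fin (2 ^ i)) : ((hv i (Sum.inl m) : Fin (2 ^ (i + 1))) : ℕ) = m := rfl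

theorem hv_inr (i : ℕ) (m : Fin (2 ^ i)) :
    ((hv i (Sum.inr m) : Fin (2 ^ (i + 1))) : ℕ) = 2 ^ i + m := rfl

theorem pc_inl (a : ℕ → L) (i : ℕ) (m : Fin (2 ^ i)) :
    pc a (i + 1) (hv i (Sum.inl m)) = pc a i m := by
  rw [hv_inl, pc, if_pos m.2]

theorem pc_inr (a : ℕ → L) (i : ℕ) (m : Fin (2 ^ i)) :
    pc a (i + 1) (hv i (Sum.inr m)) = -a i * pc a i m := by
  rw [hv_inr, pc, if_neg (by omega), Nat.add_sub_cancel_left]

theorem pcd_submatrix (a : ℕ → L) (i : ℕ) (c : L) :
    (c • pcd a (i + 1)).submatrix (hv i) (hv i) =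
      fromBlocks (diagonal fun m : Fin (2 ^ i) => c * pc a i m) 0 0
        (diagonal fun m : Fin (2 ^ i) => c * (-a i * pc a i m)) := by
  rw [fromBlocks_diagonal]
  unfold pcd
  ext p q
  rw [Matrix.submatrix_apply, Matrix.smul_apply]
  by_cases hpq : p = q
  · subst hpq
    rw [diagonal_apply_eq, diagonal_apply_eq]
    rcases p with p | p
    · rw [pc_inl]
      rfl
    · rw [pc_inr]
      rfl
  · rw [diagonal_apply_ne _ hpq, diagonal_apply_ne _ (fun h => hpq ((hv i).injective h)),
      smul_zero]

theorem pc_ne (a : ℕ → L) (i : ℕ) (ha : ∀ j < i, a j ≠ 0) (m : ℕ) (hm : m < 2 ^ i) :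
    pc a i m ≠ 0 := by
  induction i generalizing m with
  | zero => exact one_ne_zero
  | succ i ih =>
    rw [pow_succ, mul_two] at hm
    rw [pc]
    split_ifs with h
    · exact ih (fun j hj => ha j (by omega)) m h
    · exact mul_ne_zero (neg_ne_zero.2 (ha i (by omega)))
        (ih (fun j hj => ha j (by omega)) _ (by omega))

/-- A Pfister form with an entry which is a one-unit has a self-dual lattice, and so have its
multiples. -/
theorem um_one_unit [IsDiscreteValuationRing O] (h2 : O.valuation 2 = 1) (a : ℕ → L) (i l : ℕ)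
    (hl : l < i) (ha : ∀ j < i, a j ≠ 0) (h : O.valuation (a l - 1) < 1) (c : L) (hc : c ≠ 0) :
    UM O (c • pcd a i) := by
  induction i generalizing c with
  | zero => omega
  | succ i ih =>
    refine um_reindex (hv i) ?_
    rw [pcd_submatrix]
    by_cases hli : l = i
    · subst hli
      have h1 := um_pair h2 h (fun m : Fin (2 ^ l) => c * pc a l m)
        (fun m => mul_ne_zero hc (pc_ne a l (fun j hj => ha j (by omega)) m m.2))
      have h3 : (fun m : Fin (2 ^ l) => -a l * (c * pc a l m)) =
          fun m : Fin (2 ^ l) => c * (-a l * pc a l m) := by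
        funext m
        ring
      rwa [h3] at h1
    · have h1 := ih (by omega) (fun j hj => ha j (by omega)) c hc
      have h3 := ih (by omega) (fun j hj => ha j (by omega)) (c * -a i)
        (mul_ne_zero hc (neg_ne_zero.2 (ha i (by omega))))
      have e1 : (diagonal fun m : Fin (2 ^ i) => c * pc a i m) = c • pcd a i := by
        unfold pcd
        rw [← diagonal_smul]
        rfl
      have e2 : (diagonal fun m : Fin (2 ^ i) => c * (-a i * pc a i m)) = (c * -a i) • pcd a i := by
        unfold pcd
        rw [← diagonal_smul]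
        congr 1
        funext m
        rw [Pi.smul_apply, smul_eq_mul]
        ring
      rw [e1, e2]
      exact um_sum h1 h3

theorem pc_unit (a : ℕ → L) (i : ℕ) (ha : ∀ j < i, O.valuation (a j) = 1) (m : ℕ) :
    O.valuation (pc a i m) = 1 := by
  induction i generalizing m with
  | zero => exact map_one _
  | succ i ih =>
    rw [pc]
    split_ifs with h
    · exact ih (fun j hj => ha j (by omega)) m
    · rw [map_mul, Valuation.map_neg, ha i (by omega), one_mul]
      exact ih (fun j hj => ha j (by omega)) _

/-- A Pfister form with unit entries. -/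
theorem um_units (a : ℕ → L) (i : ℕ) (ha : ∀ j < i, O.valuation (a j) = 1) : UM O (pcd a i) := by
  refine ⟨1, by rw [det_one]; exact one_ne_zero, ?_, ?_⟩
  · rw [transpose_one, one_mul, mul_one]
    intro p q
    unfold pcd
    by_cases hpq : p = q
    · subst hpq
      rw [diagonal_apply_eq, ← O.valuation_le_one_iff, pc_unit a i ha]
    · rw [diagonal_apply_ne _ hpq]
      exact O.zero_mem
  · rw [transpose_one, one_mul, mul_one]
    unfold pcd
    rw [det_diagonal, ← O.valuation_le_one_iff, map_inv₀, map_prod,
      Finset.prod_congr rfl (fun (m : Fin (2 ^ i)) _ => pc_unit a i ha m)]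
    simp

/-- if `t = s e`, where `s` is a similarity factor and `e` a one-unit -/
theorem um_sim [IsDiscreteValuationRing O] (h2 : O.valuation 2 = 1) (a : ℕ → L) (i : ℕ)
    (ha : ∀ j < i + 1, a j ≠ 0) {s e : L} (hs : Sim a i s) (he : O.valuation (e - 1) < 1)
    (hse : s * a i = e) : UM O (pcd a (i + 1)) := by
  have h1 : UM O ((1 : L) • pcd a (i + 1)) := by
    refine um_reindex (hv i) ?_
    rw [pcd_submatrix]
    obtain ⟨S, hS⟩ := sim_matrix hs
    have hp := um_pair h2 he (fun m : Fin (2 ^ i) => pc a i m)
      (fun m => pc_ne a i (fun j hj => ha j (by omega)) m m.2)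
    have he0 : e ≠ 0 := by
      rintro rfl
      rw [zero_sub, Valuation.map_neg, map_one] at he
      exact lt_irrefl _ he
    have hs0 : s ≠ 0 := by
      rintro rfl
      rw [zero_mul] at hse
      exact he0 hse.symm
    have hSdet : S.det ≠ 0 := by
      intro h0
      have h3 := congrArg Matrix.det hS
      rw [det_mul, h0, mul_zero, det_smul, det_diagonal] at h3
      have h4 : ∏ m : Fin (2 ^ i), pc a i m ≠ 0 :=
        Finset.prod_ne_zero_iff.2 fun m _ => pc_ne a i (fun j hj => ha j (by omega)) m m.2
      exact (mul_ne_zero (pow_ne_zero _ hs0) h4) h3.symm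
    refine um_iso (P := fromBlocks 1 0 0 S) ?_ ?_ hp
    · rw [Matrix.det_fromBlocks_zero₂₁, det_one, one_mul]
      exact hSdet
    · rw [Matrix.fromBlocks_transpose, Matrix.fromBlocks_multiply, Matrix.fromBlocks_multiply]
      simp only [Matrix.transpose_zero, Matrix.transpose_one, Matrix.mul_zero, Matrix.zero_mul,
        add_zero, zero_add, Matrix.one_mul, Matrix.mul_one]
      congr 1
      · congr 1
        funext m
        ring
      · have e1 : (diagonal fun m : Fin (2 ^ i) => (1 : L) * (-a i * pc a i m)) =
            (-a i) • diagonal (fun m : Fin (2 ^ i) => pc a i m) := by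
          rw [← diagonal_smul]
          congr 1
          funext m
          rw [Pi.smul_apply, smul_eq_mul]
          ring
        rw [e1, Matrix.mul_smul, Matrix.smul_mul, hS, smul_smul, ← diagonal_smul]
        congr 1
        funext m
        rw [Pi.smul_apply, smul_eq_mul, ← hse]
        ring
  rwa [one_smul] at h1

end

end Pool.Agent.H901
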