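import Pool.Agent.H901.CAN
import Pool.Agent.H901.KEY
import Pool.Agent.H901.LAM

/-!
Values of Pfister forms which are divisible exactly once by a quadratic polynomial.
-/

set_option autoImplicit false

namespace Pool.Agent.H901

open Polynomial Finset Pool.Agent.H918R3

theorem odd_mult {K : Type*} [Field K] {b : ℕ → K} {i : ℕ} {r h : K[X]} (hr : Irreducible r)
    (hh : ¬ r ∣ h) (n : ℕ) : ∀ (w : ℕ → K[X]) (e : K[X]), e ≠ 0 → e.natDegree ≤ n →
      pq (fun j => C (b j)) i w = r * h * e ^ 2 →
      ∃ w' : ℕ → K[X], (∃ m < 2 ^ i, ¬ r ∣ w' m) ∧ r ∣ pq (fun j => C (b j)) i w' := by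
  induction n with
  | zero =>
    intro w e he hn hw
    by_cases hall : ∀ m < 2 ^ i, r ∣ w m
    · exfalso
      choose! w1 hw1 using hall
      have h1 : pq (fun j => C (b j)) i w = r ^ 2 * pq (fun j => C (b j)) i w1 := by
        unfold pq
        rw [mul_sum]
        refine sum_congr rfl fun m hm => ?_
        rw [hw1 m (mem_range.1 hm)]
        ring
      have h2 : r * pq (fun j => C (b j)) i w1 = h * e ^ 2 := by
        apply mul_left_cancel₀ hr.ne_zero
        rw [← mul_assoc, ← mul_assoc, ← hw, h1]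
        ring
      have h3 : r ∣ h * e ^ 2 := ⟨_, h2.symm⟩
      rcases hr.prime.dvd_or_dvd h3 with h4 | h4
      · exact hh h4
      · have h5 := hr.prime.dvd_of_dvd_pow h4
        have h6 := natDegree_le_of_dvd h5 he
        have h7 := hr.natDegree_pos
        omega
    · push Not at hall
      exact ⟨w, hall, hw ▸ ⟨h * e ^ 2, by ring⟩⟩
  | succ n ih =>
    intro w e he hn hw
    by_cases hall : ∀ m < 2 ^ i, r ∣ w m
    · choose! w1 hw1 using hall
      have h1 : pq (fun j => C (b j)) i w = r ^ 2 * pq (fun j => C (b j)) i w1 := by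
        unfold pq
        rw [mul_sum]
        refine sum_congr rfl fun m hm => ?_
        rw [hw1 m (mem_range.1 hm)]
        ring
      have h2 : r * pq (fun j => C (b j)) i w1 = h * e ^ 2 := by
        apply mul_left_cancel₀ hr.ne_zero
        rw [← mul_assoc, ← mul_assoc, ← hw, h1]
        ring
      have h3 : r ∣ h * e ^ 2 := ⟨_, h2.symm⟩
      rcases hr.prime.dvd_or_dvd h3 with h4 | h4
      · exact absurd h4 hh
      · obtain ⟨e1, rfl⟩ := hr.prime.dvd_of_dvd_pow h4
        have he1 : e1 ≠ 0 := right_ne_zero_of_mul he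
        have h6 := natDegree_mul hr.ne_zero he1
        have h7 := hr.natDegree_pos
        refine ih w1 e1 he1 (by omega) ?_
        apply mul_left_cancel₀ hr.ne_zero
        rw [h2]
        ring
    · push Not at hall
      exact ⟨w, hall, hw ▸ ⟨h * e ^ 2, by ring⟩⟩

theorem pq_fin {R : Type*} [CommRing R] (b : ℕ → R) {i M : ℕ} (h : 2 ^ i = M) (z : ℕ → R) :
    pq b i z = ∑ m : Fin M, pc b i m * z m ^ 2 := by
  subst h
  unfold pq
  rw [Finset.sum_range]

/-- the values divisible exactly once by `c X ^ 2 + r0`, where `c` is the coefficient of index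
one of the form -/
theorem outer {K : Type*} [Field K] (h2 : (2 : K) ≠ 0) {b : ℕ → K} {i : ℕ} (hi : 1 ≤ i)
    (hb : ∀ j < i, b j ≠ 0) (han : An b i) (r0 : K) (h : K[X])
    (hcop : IsCoprime (C (pc b i 1) * X ^ 2 + C r0) h) (w : ℕ → RatFunc K)
    (hw : pq (fun j => RatFunc.C (b j)) i w =
      algebraMap K[X] (RatFunc K) ((C (pc b i 1) * X ^ 2 + C r0) * h)) :
    ∃ y : ℕ → K, y 1 = 0 ∧ pq b i y = r0 := by
  by_cases hr0 : r0 = 0
  · refine ⟨0, rfl, ?_⟩
    rw [hr0]
    unfold pq
    simp
  have hN : 2 ≤ 2 ^ i := by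
    calc 2 = 2 ^ 1 := rfl
      _ ≤ 2 ^ i := Nat.pow_le_pow_right (by norm_num) hi
  set c := pc b i 1 with hc
  have hc0 : c ≠ 0 := pc_ne b i hb 1 (by omega)
  set φ := algebraMap K[X] (RatFunc K) with hφ
  have hφi : Function.Injective φ := RatFunc.algebraMap_injective K
  have hφC : ∀ x : K, φ (C x) = RatFunc.C x := fun x => RatFunc.algebraMap_C x
  -- clear the denominators
  obtain ⟨e, w', he, hw'⟩ := exists_denom (n := 2 ^ i) w
  have h1 : pq (fun j => C (b j)) i w' = (C c * X ^ 2 + C r0) * h * e ^ 2 := by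
    apply hφi
    rw [← pq_map φ]
    have h3 : pq (fun j => φ (C (b j))) i (fun m => φ (w' m)) =
        pq (fun j => RatFunc.C (b j)) i (φ e • w) := by
      unfold pq
      refine sum_congr rfl fun m hm => ?_
      rw [Pi.smul_apply, smul_eq_mul, hw' m (mem_range.1 hm)]
      congr 1
    rw [h3, pq_smul, hw, map_mul, map_mul, map_mul, map_pow]
    ring
  set q : K[X] := C c * X ^ 2 + C r0 with hq
  have hqd : q.natDegree = 2 := by
    rw [hq, natDegree_add_C, natDegree_C_mul_X_pow _ _ hc0]
  have hq0 : q ≠ 0 := by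
    rintro h0
    rw [h0, natDegree_zero] at hqd
    omega
  by_cases hirr : Irreducible q
  · -- the irreducible case
    set r : K[X] := X ^ 2 + C (r0 / c) with hr
    have hqr : q = C c * r := by
      rw [hq, hr, mul_add, ← C_mul]
      congr 2
      field_simp
    have hu : IsUnit (C c : K[X]) := isUnit_C.2 (isUnit_iff_ne_zero.2 hc0)
    have hri : Irreducible r := by
      rw [hqr, irreducible_isUnit_mul hu] at hirr
      exact hirr
    have hrm : r.Monic := by
      rw [hr]
      exact monic_X_pow_add_C _ (by norm_num)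
    have hrh : ¬ r ∣ C c * h := by
      intro hd
      have h3 : r ∣ h := (hu.dvd_mul_left).1 hd
      have h4 : r ∣ q := ⟨C c, by rw [hqr]; ring⟩
      exact hri.not_isUnit (hcop.isUnit_of_dvd' h4 h3)
    obtain ⟨w'', hne, hdvd⟩ := odd_mult hri hrh e.natDegree w' e he le_rfl (by
      rw [h1, hqr]; ring)
    have hD := lam han _ r rfl hri hrm w'' hne hdvd
    have hDc : Dp b i (C c) := by
      have := dp_const (a := b) (i := i) (Pi.single 1 1)
      have h5 : pq b i (Pi.single 1 1) = c := by
        unfold pq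
        rw [sum_eq_single_of_mem 1 (mem_range.2 (by omega))]
        · rw [Pi.single_eq_same, one_pow, mul_one]
        · intro m _ hm
          rw [Pi.single_eq_of_ne hm]
          ring
      rwa [h5] at this
    obtain ⟨w4, e4, he4, hw4⟩ := dp_mul hDc hD
    rw [← hqr] at hw4
    have hφe4 : φ e4 ≠ 0 := by
      rw [Ne, map_eq_zero_iff φ hφi]
      exact he4
    have h6 : pq (fun j => RatFunc.C (b j)) i ((φ e4)⁻¹ • fun m => φ (w4 m)) =
        RatFunc.C r0 + RatFunc.C c * RatFunc.X ^ 2 := by
      rw [pq_smul]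
      have h7 := pq_map φ (fun j => C (b j)) i w4
      have h8 : (fun j => φ (C (b j))) = fun j => RatFunc.C (b j) := rfl
      rw [h8] at h7
      rw [h7, hw4, map_mul, map_pow, hq, map_add, map_mul, map_pow, hφC, hφC,
        RatFunc.algebraMap_X]
      field_simp
      ring
    obtain ⟨N', hN'⟩ : ∃ N', 2 ^ i = N' + 1 + 1 := ⟨2 ^ i - 2, by omega⟩
    set v := (φ e4)⁻¹ • fun m => φ (w4 m) with hv
    obtain ⟨w5, hw5⟩ := diag_cancel h2
      (fun m : Fin (N' + 1 + 1) => pc b i (Equiv.swap (0 : Fin (N' + 1 + 1)) 1 m : Fin _))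
      (fun z hz => by
        have h9 := han (fun m => if h : m < N' + 1 + 1 then
          z (Equiv.swap (0 : Fin (N' + 1 + 1)) 1 ⟨m, h⟩) else 0) (by
          rw [pq_fin b hN', ← hz, ← Equiv.sum_comp (Equiv.swap (0 : Fin (N' + 1 + 1)) 1)]
          refine sum_congr rfl fun m _ => ?_
          rw [dif_pos (Fin.is_lt _)]
          congr 2
          rw [Fin.eta, Equiv.swap_apply_self])
        funext m
        have h10 := h9 (Equiv.swap (0 : Fin (N' + 1 + 1)) 1 m : Fin _) (by
          rw [hN']; exact Fin.is_lt _)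
        rw [dif_pos (Fin.is_lt _), Fin.eta, Equiv.swap_apply_self] at h10
        exact h10) r0
      (fun m => v (Equiv.swap (0 : Fin (N' + 1 + 1)) 1 m : Fin _)) (by
        rw [Equiv.sum_comp (Equiv.swap (0 : Fin (N' + 1 + 1)) 1)
          (fun m : Fin (N' + 1 + 1) => RatFunc.C (pc b i m) * v m ^ 2)]
        have e0 : pc b i (Equiv.swap (0 : Fin (N' + 1 + 1)) 1 0 : Fin _) = c := by
          rw [Equiv.swap_apply_left, hc]
          rfl
        rw [e0, ← h6, pq_fin _ hN']
        refine sum_congr rfl fun m _ => ?_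
        rw [pc_map (RatFunc.C : K →+* RatFunc K) b])
    refine ⟨fun m => if h : m < N' + 1 + 1 then
      (Fin.cons 0 w5 : Fin (N' + 1 + 1) → K) (Equiv.swap (0 : Fin (N' + 1 + 1)) 1 ⟨m, h⟩) else 0,
      ?_, ?_⟩
    · beta_reduce
      rw [dif_pos (by omega)]
      have : (⟨1, by omega⟩ : Fin (N' + 1 + 1)) = 1 := rfl
      rw [this, Equiv.swap_apply_right, Fin.cons_zero]
    · rw [pq_fin b hN', ← hw5, ← Equiv.sum_comp (Equiv.swap (0 : Fin (N' + 1 + 1)) 1),
        Fin.sum_univ_succ]
      rw [dif_pos (Fin.is_lt _), Fin.eta, Equiv.swap_apply_self, Fin.cons_zero]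
      rw [zero_pow (by norm_num), mul_zero, zero_add]
      refine sum_congr rfl fun m _ => ?_
      rw [dif_pos (Fin.is_lt _), Fin.eta, Equiv.swap_apply_self, Fin.cons_succ]
  · -- the reducible case
    exfalso
    have hroot : ∃ ρ : K, q.eval ρ = 0 := by
      rw [irreducible_iff_roots_eq_zero_of_degree_le_three (by omega) (by omega)] at hirr
      obtain ⟨ρ, hρ⟩ := Multiset.exists_mem_of_ne_zero hirr
      exact ⟨ρ, (mem_roots'.1 hρ).2⟩
    obtain ⟨ρ, hρ⟩ := hroot
    have hρ1 : c * ρ ^ 2 + r0 = 0 := by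
      rw [hq] at hρ
      simpa using hρ
    have hρ0 : ρ ≠ 0 := by
      rintro rfl
      apply hr0
      linear_combination hρ1
    have hfac : q = (X - C ρ) * (C c * (X + C ρ)) := by
      have : C r0 = -(C c * C ρ ^ 2) := by
        rw [← C_pow, ← C_mul, ← C_neg]
        congr 1
        linear_combination hρ1
      rw [hq, this]
      ring
    have hcopρ : h.eval ρ ≠ 0 := by
      obtain ⟨u, v, huv⟩ := hcop
      intro h0
      have := congrArg (eval ρ) huv
      rw [eval_add, eval_mul, eval_mul, hρ, h0] at this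
      simp at this
    have hnd : ¬ (X - C ρ) ∣ C c * (X + C ρ) * h := by
      rw [dvd_iff_isRoot]
      intro h0
      rw [IsRoot.def] at h0
      simp only [eval_mul, eval_C, eval_add, eval_X] at h0
      have : ρ + ρ ≠ 0 := by
        rw [← two_mul]
        exact mul_ne_zero h2 hρ0
      exact mul_ne_zero (mul_ne_zero hc0 this) hcopρ h0
    obtain ⟨w'', ⟨m, hm, hm'⟩, hdvd⟩ := odd_mult (irreducible_X_sub_C ρ) hnd e.natDegree w' e he
      le_rfl (by rw [h1, hfac]; ring)
    rw [dvd_iff_isRoot, IsRoot.def] at hdvd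
    apply hm'
    rw [dvd_iff_isRoot, IsRoot.def]
    refine han (fun m => (w'' m).eval ρ) ?_ m hm
    have h7 := pq_map (evalRingHom ρ) (fun j => C (b j)) i w''
    rw [coe_evalRingHom, hdvd] at h7
    rw [← h7]
    congr 1
    funext j
    simp

end Pool.Agent.H901
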