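import Pool.Agent.H901.BAS

/-!
Pfister forms: the diagonal coefficients, the polar form, and the similarity factors.
-/

set_option autoImplicit false

namespace Pool.Agent.H901

open Finset

section Ring

variable {R : Type*} [CommRing R]

/-- the bilinear form of the Pfister form -/
def pb (a : ℕ → R) (i : ℕ) (z w : ℕ → R) : R := ∑ m ∈ range (2 ^ i), pc a i m * (z m * w m)

/-- shift -/
def sh (i : ℕ) (z : ℕ → R) : ℕ → R := fun m => z (m + 2 ^ i)

/-- glue -/
def gl (i : ℕ) (f g : ℕ → R) : ℕ → R := fun m => if m < 2 ^ i then f m else g (m - 2 ^ i)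

theorem pq_eq_pb (a : ℕ → R) (i : ℕ) (z : ℕ → R) : pq a i z = pb a i z z := by
  unfold pq pb
  refine sum_congr rfl fun m _ => ?_
  ring

theorem pc_zero (a : ℕ → R) (i : ℕ) : pc a i 0 = 1 := by
  induction i with
  | zero => rfl
  | succ i ih => rw [pc, if_pos (by positivity), ih]

theorem pb_succ (a : ℕ → R) (i : ℕ) (z w : ℕ → R) :
    pb a (i + 1) z w = pb a i z w - a i * pb a i (sh i z) (sh i w) := by
  unfold pb
  rw [pow_succ, mul_two, sum_range_add, mul_sum, sub_eq_add_neg, ← sum_neg_distrib]
  congr 1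
  · refine sum_congr rfl fun m hm => ?_
    rw [mem_range] at hm
    rw [pc, if_pos hm]
  · refine sum_congr rfl fun m hm => ?_
    rw [mem_range] at hm
    rw [pc, if_neg (by omega), Nat.add_sub_cancel_left]
    unfold sh
    rw [add_comm (2 ^ i) m]
    ring

theorem pb_congr (a : ℕ → R) (i : ℕ) {z z' w w' : ℕ → R} (hz : ∀ m < 2 ^ i, z m = z' m)
    (hw : ∀ m < 2 ^ i, w m = w' m) : pb a i z w = pb a i z' w' := by
  unfold pb
  refine sum_congr rfl fun m hm => ?_
  rw [mem_range] at hm
  rw [hz m hm, hw m hm]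

omit [CommRing R] in
theorem sh_gl (i : ℕ) (f g : ℕ → R) : sh i (gl i f g) = g := by
  funext m
  unfold sh gl
  rw [if_neg (by omega), Nat.add_sub_cancel]

theorem pb_gl (a : ℕ → R) (i : ℕ) (f g f' g' : ℕ → R) :
    pb a (i + 1) (gl i f g) (gl i f' g') = pb a i f f' - a i * pb a i g g' := by
  rw [pb_succ, sh_gl, sh_gl]
  congr 1
  refine pb_congr a i (fun m hm => ?_) (fun m hm => ?_) <;> unfold gl <;> rw [if_pos hm]

theorem pb_symm (a : ℕ → R) (i : ℕ) (z w : ℕ → R) : pb a i z w = pb a i w z := by
  unfold pb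
  refine sum_congr rfl fun m _ => ?_
  ring

theorem pb_add_left (a : ℕ → R) (i : ℕ) (z z' w : ℕ → R) :
    pb a i (z + z') w = pb a i z w + pb a i z' w := by
  unfold pb
  rw [← sum_add_distrib]
  refine sum_congr rfl fun m _ => ?_
  rw [Pi.add_apply]
  ring

theorem pb_smul_left (a : ℕ → R) (i : ℕ) (r : R) (z w : ℕ → R) :
    pb a i (r • z) w = r * pb a i z w := by
  unfold pb
  rw [mul_sum]
  refine sum_congr rfl fun m _ => ?_
  rw [Pi.smul_apply, smul_eq_mul]
  ring

theorem pb_add_right (a : ℕ → R) (i : ℕ) (z w w' : ℕ → R) :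
    pb a i z (w + w') = pb a i z w + pb a i z w' := by
  rw [pb_symm, pb_add_left, pb_symm a i w, pb_symm a i w']

theorem pb_smul_right (a : ℕ → R) (i : ℕ) (r : R) (z w : ℕ → R) :
    pb a i z (r • w) = r * pb a i z w := by
  rw [pb_symm, pb_smul_left, pb_symm]

theorem pq_succ (a : ℕ → R) (i : ℕ) (z : ℕ → R) :
    pq a (i + 1) z = pq a i z - a i * pq a i (sh i z) := by
  rw [pq_eq_pb, pq_eq_pb, pq_eq_pb, pb_succ]

theorem pq_gl (a : ℕ → R) (i : ℕ) (f g : ℕ → R) :
    pq a (i + 1) (gl i f g) = pq a i f - a i * pq a i g := by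
  rw [pq_eq_pb, pq_eq_pb, pq_eq_pb, pb_gl]

theorem pq_smul (a : ℕ → R) (i : ℕ) (r : R) (z : ℕ → R) :
    pq a i (r • z) = r ^ 2 * pq a i z := by
  rw [pq_eq_pb, pq_eq_pb, pb_smul_left, pb_smul_right]
  ring

theorem pc_map {S : Type*} [CommRing S] (φ : R →+* S) (a : ℕ → R) (i m : ℕ) :
    pc (fun j => φ (a j)) i m = φ (pc a i m) := by
  induction i generalizing m with
  | zero => simp [pc]
  | succ i ih =>
    rw [pc, pc]
    split_ifs
    · rw [ih]
    · rw [ih, map_mul, map_neg]

theorem pq_map {S : Type*} [CommRing S] (φ : R →+* S) (a : ℕ → R) (i : ℕ) (z : ℕ → R) :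
    pq (fun j => φ (a j)) i (fun m => φ (z m)) = φ (pq a i z) := by
  unfold pq
  rw [map_sum]
  refine sum_congr rfl fun m _ => ?_
  rw [pc_map, map_mul, map_pow]

/-- the glued linear map -/
def glL (i : ℕ) (A B : (ℕ → R) →ₗ[R] (ℕ → R)) : (ℕ → R) →ₗ[R] (ℕ → R) where
  toFun z := gl i (A z) (B z)
  map_add' z w := by
    funext m
    simp only [gl, map_add, Pi.add_apply]
    split_ifs <;> rfl
  map_smul' r z := by
    funext m
    simp only [gl, map_smul, Pi.smul_apply, RingHom.id_apply]
    split_ifs <;> rfl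

theorem glL_apply (i : ℕ) (A B : (ℕ → R) →ₗ[R] (ℕ → R)) (z : ℕ → R) :
    glL i A B z = gl i (A z) (B z) := rfl

/-- the shift as a linear map -/
def shL (i : ℕ) : (ℕ → R) →ₗ[R] (ℕ → R) where
  toFun z := sh i z
  map_add' _ _ := rfl
  map_smul' _ _ := rfl

theorem shL_apply (i : ℕ) (z : ℕ → R) : shL i z = sh i z := rfl

end Ring

section Field

variable {K : Type*} [Field K]

/-- `c` is a similarity factor of the Pfister form -/
def Sim (a : ℕ → K) (i : ℕ) (c : K) : Prop :=
  ∃ T T' : (ℕ → K) →ₗ[K] (ℕ → K), (∀ z w, pb a i (T z) (T w) = c * pb a i z w) ∧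
    (∀ z w, pb a i (T' z) (T' w) = c * pb a i z w) ∧ (∀ z w, pb a i (T z) w = pb a i z (T' w))

theorem sim_mul {a : ℕ → K} {i : ℕ} {c d : K} (hc : Sim a i c) (hd : Sim a i d) :
    Sim a i (c * d) := by
  obtain ⟨T, T', h1, h2, h3⟩ := hc
  obtain ⟨S, S', g1, g2, g3⟩ := hd
  refine ⟨T.comp S, S'.comp T', fun z w => ?_, fun z w => ?_, fun z w => ?_⟩
  · rw [LinearMap.comp_apply, LinearMap.comp_apply, h1, g1]
    ring
  · rw [LinearMap.comp_apply, LinearMap.comp_apply, g2, h2]
    ring
  · rw [LinearMap.comp_apply, LinearMap.comp_apply, h3, g3]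

theorem sim_sq {a : ℕ → K} {i : ℕ} {c : K} (r : K) (hc : Sim a i c) :
    Sim a i (r ^ 2 * c) := by
  obtain ⟨T, T', h1, h2, h3⟩ := hc
  refine ⟨r • T, r • T', fun z w => ?_, fun z w => ?_, fun z w => ?_⟩
  · rw [LinearMap.smul_apply, LinearMap.smul_apply, pb_smul_left, pb_smul_right, h1]
    ring
  · rw [LinearMap.smul_apply, LinearMap.smul_apply, pb_smul_left, pb_smul_right, h2]
    ring
  · rw [LinearMap.smul_apply, LinearMap.smul_apply, pb_smul_left, pb_smul_right, h3]

/-- the values of a Pfister form are similarity factors -/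
theorem sim_value (a : ℕ → K) (i : ℕ) (x : ℕ → K) : Sim a i (pq a i x) := by
  induction i generalizing x with
  | zero =>
    refine ⟨x 0 • LinearMap.id, x 0 • LinearMap.id, fun z w => ?_, fun z w => ?_, fun z w => ?_⟩ <;>
    simp [pb, pq, pc] <;> ring
  | succ i ih =>
    rw [pq_succ]
    set c1 := pq a i x with hc1
    set c2 := pq a i (sh i x) with hc2
    have h1 : Sim a i c1 := ih x
    have h2 : Sim a i c2 := ih (sh i x)
    by_cases h0 : c1 = 0
    · rw [h0, zero_sub]
      obtain ⟨T, T', g1, g2, g3⟩ := h2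
      have g3' : ∀ z w, pb a i (T' z) w = pb a i z (T w) := fun z w => by
        rw [pb_symm, ← g3, pb_symm]
      refine ⟨glL i (a i • T.comp (shL i)) T, glL i (-(a i) • T'.comp (shL i)) (-T'),
        fun z w => ?_, fun z w => ?_, fun z w => ?_⟩
      · rw [glL_apply, glL_apply, pb_gl, pb_succ]
        simp only [LinearMap.smul_apply, LinearMap.comp_apply, shL_apply, pb_smul_left,
          pb_smul_right, g1]
        ring
      · rw [glL_apply, glL_apply, pb_gl, pb_succ]
        have e : ∀ z w, pb a i (-T' z) (-T' w) = c2 * pb a i z w := fun z w => by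
          rw [← neg_one_smul K (T' z), ← neg_one_smul K (T' w), pb_smul_left, pb_smul_right, g2]
          ring
        simp only [LinearMap.smul_apply, LinearMap.comp_apply, shL_apply, pb_smul_left,
          pb_smul_right, g2, LinearMap.neg_apply, e]
        ring
      · rw [glL_apply, glL_apply, pb_succ, pb_succ, sh_gl, sh_gl]
        have e1 : pb a i (gl i ((a i • T.comp (shL i)) z) (T z)) w =
            pb a i ((a i • T.comp (shL i)) z) w :=
          pb_congr a i (fun m hm => by unfold gl; rw [if_pos hm]) (fun _ _ => rfl)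
        have e2 : pb a i z (gl i ((-(a i) • T'.comp (shL i)) w) ((-T') w)) =
            pb a i z ((-(a i) • T'.comp (shL i)) w) :=
          pb_congr a i (fun _ _ => rfl) (fun m hm => by unfold gl; rw [if_pos hm])
        rw [e1, e2]
        have e : pb a i (sh i z) ((-T') w) = - pb a i (sh i z) (T' w) := by
          rw [LinearMap.neg_apply, ← neg_one_smul K (T' w), pb_smul_right]
          ring
        rw [e]
        simp only [LinearMap.smul_apply, LinearMap.comp_apply, shL_apply, pb_smul_left,
          pb_smul_right, g3]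
        ring
    · have h3 : Sim a i (c1⁻¹ ^ 2 * (c1 * c2)) := sim_sq c1⁻¹ (sim_mul h1 h2)
      set c3 := c1⁻¹ ^ 2 * (c1 * c2) with hc3
      have hc : c1 - a i * c2 = c1 * (1 - a i * c3) := by
        rw [hc3]
        field_simp
      rw [hc]
      refine sim_mul ?_ ?_
      · obtain ⟨T, T', g1, g2, g3⟩ := h1
        refine ⟨glL i T (T.comp (shL i)), glL i T' (T'.comp (shL i)),
          fun z w => ?_, fun z w => ?_, fun z w => ?_⟩
        · rw [glL_apply, glL_apply, pb_gl, pb_succ]
          simp only [LinearMap.comp_apply, shL_apply, g1]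
          ring
        · rw [glL_apply, glL_apply, pb_gl, pb_succ]
          simp only [LinearMap.comp_apply, shL_apply, g2]
          ring
        · rw [glL_apply, glL_apply, pb_succ, pb_succ, sh_gl, sh_gl]
          have e1 : pb a i (gl i (T z) ((T.comp (shL i)) z)) w = pb a i (T z) w :=
            pb_congr a i (fun m hm => by unfold gl; rw [if_pos hm]) (fun _ _ => rfl)
          have e2 : pb a i z (gl i (T' w) ((T'.comp (shL i)) w)) = pb a i z (T' w) :=
            pb_congr a i (fun _ _ => rfl) (fun m hm => by unfold gl; rw [if_pos hm])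
          rw [e1, e2, g3]
          simp only [LinearMap.comp_apply, shL_apply, g3]
      · obtain ⟨T, T', g1, g2, g3⟩ := h3
        have g3' : ∀ z w, pb a i (T' z) w = pb a i z (T w) := fun z w => by
          rw [pb_symm, ← g3, pb_symm]
        refine ⟨glL i (LinearMap.id + a i • T'.comp (shL i)) (T + shL i),
          glL i (LinearMap.id + (-a i) • T'.comp (shL i)) ((-1 : K) • T + shL i),
          fun z w => ?_, fun z w => ?_, fun z w => ?_⟩
        · rw [glL_apply, glL_apply, pb_gl, pb_succ]
          simp only [LinearMap.add_apply, LinearMap.id_apply, LinearMap.smul_apply,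
            LinearMap.comp_apply, shL_apply, pb_add_left, pb_add_right, pb_smul_left,
            pb_smul_right, g1, g2, g3, g3']
          ring
        · rw [glL_apply, glL_apply, pb_gl, pb_succ]
          simp only [LinearMap.add_apply, LinearMap.id_apply, LinearMap.smul_apply,
            LinearMap.comp_apply, shL_apply, pb_add_left, pb_add_right, pb_smul_left,
            pb_smul_right, g1, g2, g3, g3']
          ring
        · rw [glL_apply, glL_apply, pb_succ, pb_succ, sh_gl, sh_gl]
          have e1 : ∀ f g, pb a i (gl i f g) w = pb a i f w := fun f g =>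
            pb_congr a i (fun m hm => by unfold gl; rw [if_pos hm]) (fun _ _ => rfl)
          have e2 : ∀ f g, pb a i z (gl i f g) = pb a i z f := fun f g =>
            pb_congr a i (fun _ _ => rfl) (fun m hm => by unfold gl; rw [if_pos hm])
          rw [e1, e2]
          simp only [LinearMap.add_apply, LinearMap.id_apply, LinearMap.smul_apply,
            LinearMap.comp_apply, shL_apply, pb_add_left, pb_add_right, pb_smul_left,
            pb_smul_right, g3, g3']
          ring

/-- the product of two values is a value -/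
theorem pq_mul (a : ℕ → K) (i : ℕ) (x y : ℕ → K) :
    ∃ z : ℕ → K, pq a i z = pq a i x * pq a i y := by
  obtain ⟨T, -, h, -, -⟩ := sim_value a i x
  exact ⟨T y, by rw [pq_eq_pb, pq_eq_pb a i y, h]⟩

/-- extension by zero -/
def ez (N : ℕ) : (Fin N → K) →ₗ[K] (ℕ → K) where
  toFun z m := if h : m < N then z ⟨m, h⟩ else 0
  map_add' z w := by
    funext m
    simp only [Pi.add_apply]
    split_ifs <;> simp
  map_smul' r z := by
    funext m
    simp only [Pi.smul_apply, RingHom.id_apply]
    split_ifs <;> simp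

/-- restriction -/
def rz (N : ℕ) : (ℕ → K) →ₗ[K] (Fin N → K) where
  toFun z m := z m
  map_add' _ _ := rfl
  map_smul' _ _ := rfl

/-- a similarity factor is realised by a matrix -/
theorem sim_matrix {a : ℕ → K} {i : ℕ} {c : K} (h : Sim a i c) :
    ∃ P : Matrix (Fin (2 ^ i)) (Fin (2 ^ i)) K,
      P.transpose * Matrix.diagonal (fun m : Fin (2 ^ i) => pc a i m) * P =
        c • Matrix.diagonal (fun m : Fin (2 ^ i) => pc a i m) := by
  obtain ⟨T, -, h, -, -⟩ := h
  set f : (Fin (2 ^ i) → K) →ₗ[K] (Fin (2 ^ i) → K) := (rz (2 ^ i)).comp (T.comp (ez (2 ^ i)))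
    with hf
  refine ⟨LinearMap.toMatrix' f, ?_⟩
  have key : ∀ z w : Fin (2 ^ i) → K, ∑ m : Fin (2 ^ i), pc a i m * (f z m * f w m) =
      c * ∑ m : Fin (2 ^ i), pc a i m * (z m * w m) := by
    intro z w
    have h1 := h (ez (2 ^ i) z) (ez (2 ^ i) w)
    unfold pb at h1
    rw [Finset.sum_range, Finset.sum_range] at h1
    rw [hf]
    refine Eq.trans h1 ?_
    congr 1
    refine Finset.sum_congr rfl fun m _ => ?_
    simp [ez]
  ext p q
  have h2 := key (Pi.single p 1) (Pi.single q 1)
  simp only [Pi.single_apply, mul_ite, mul_one, mul_zero, Matrix.smul_apply, smul_eq_mul] at h2 ⊢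
  rw [Matrix.mul_apply]
  simp only [Matrix.mul_diagonal, Matrix.transpose_apply, LinearMap.toMatrix'_apply]
  rw [Matrix.diagonal_apply]
  have h3 : ∑ m : Fin (2 ^ i), pc a i m * (f (Pi.single p 1) m * f (Pi.single q 1) m) =
      c * if p = q then pc a i p else 0 := by
    rw [h2]
    congr 1
    rw [Finset.sum_ite_eq']
    by_cases hpq : p = q
    · subst hpq; simp
    · simp [hpq, Ne.symm hpq]
  rw [← h3]
  refine Finset.sum_congr rfl fun m _ => ?_
  ring

end Field

end Pool.Agent.H901
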