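import Pool.Agent.H901.BAS

/-!
Systems of polynomial equations over the algebraic numbers, given by lists of numbers.
-/

set_option autoImplicit false

namespace Pool.Agent.H901

open MvPolynomial

/-! ### integral polynomials -/

/-- an integral polynomial is given by a list of signs and monomials -/
abbrev IPoly : Type := List (Bool × List ℕ)

/-- its value at `ξ` -/
def iev {B : Type*} [CommRing B] (ξ : ℕ → B) (L : IPoly) : B :=
  (L.map (fun t => (if t.1 then 1 else -1) * (t.2.map ξ).prod)).sum

section

variable {B : Type*} [CommRing B]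

theorem iev_append (ξ : ℕ → B) (L L' : IPoly) : iev ξ (L ++ L') = iev ξ L + iev ξ L' := by
  unfold iev
  rw [List.map_append, List.sum_append]

theorem iev_cons (ξ : ℕ → B) (t : Bool × List ℕ) (L : IPoly) :
    iev ξ (t :: L) = (if t.1 then 1 else -1) * (t.2.map ξ).prod + iev ξ L := by
  unfold iev
  rw [List.map_cons, List.sum_cons]

theorem iev_nil (ξ : ℕ → B) : iev ξ [] = 0 := rfl

end

/-- integral polynomials are given by lists -/
theorem exists_iev {M : ℕ} (G : MvPolynomial (Fin M) ℤ) : ∃ L : IPoly,
    (∀ t ∈ L, ∀ j ∈ t.2, j < M) ∧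
      ∀ (B : Type) [CommRing B] (ξ : ℕ → B), iev ξ L = aeval (fun j : Fin M => ξ j) G := by
  induction G using MvPolynomial.induction_on with
  | C a =>
    have h : ∀ n : ℕ, ∃ L : IPoly, (∀ t ∈ L, ∀ j ∈ t.2, j < M) ∧
        ∀ (B : Type) [CommRing B] (ξ : ℕ → B), iev ξ L = (n : B) := by
      intro n
      induction n with
      | zero => exact ⟨[], by simp, fun B _ ξ => by rw [iev_nil, Nat.cast_zero]⟩
      | succ n ih =>
        obtain ⟨L, h1, hL⟩ := ih
        refine ⟨(true, []) :: L, ?_, fun B _ ξ => ?_⟩
        · intro t ht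
          rw [List.mem_cons] at ht
          rcases ht with rfl | ht
          · simp
          · exact h1 t ht
        · rw [iev_cons, hL]
          push_cast
          simp [add_comm]
    have h' : ∀ n : ℕ, ∃ L : IPoly, (∀ t ∈ L, ∀ j ∈ t.2, j < M) ∧
        ∀ (B : Type) [CommRing B] (ξ : ℕ → B), iev ξ L = -(n : B) := by
      intro n
      induction n with
      | zero => exact ⟨[], by simp, fun B _ ξ => by rw [iev_nil, Nat.cast_zero, neg_zero]⟩
      | succ n ih =>
        obtain ⟨L, h1, hL⟩ := ih
        refine ⟨(false, []) :: L, ?_, fun B _ ξ => ?_⟩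
        · intro t ht
          rw [List.mem_cons] at ht
          rcases ht with rfl | ht
          · simp
          · exact h1 t ht
        · rw [iev_cons, hL]
          push_cast
          simp
    obtain ⟨n, rfl | rfl⟩ := a.eq_nat_or_neg
    · obtain ⟨L, h1, h2⟩ := h n
      refine ⟨L, h1, fun B _ ξ => ?_⟩
      rw [h2, aeval_C]
      simp
    · obtain ⟨L, h1, h2⟩ := h' n
      refine ⟨L, h1, fun B _ ξ => ?_⟩
      rw [h2, aeval_C]
      simp
  | add p q hp hq =>
    obtain ⟨L, h1, hL⟩ := hp
    obtain ⟨L', h1', hL'⟩ := hq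
    refine ⟨L ++ L', ?_, fun B _ ξ => by rw [iev_append, hL, hL', map_add]⟩
    intro t ht
    rw [List.mem_append] at ht
    rcases ht with ht | ht
    · exact h1 t ht
    · exact h1' t ht
  | mul_X p j hp =>
    obtain ⟨L, h1, hL⟩ := hp
    refine ⟨L.map (fun t => (t.1, (j : ℕ) :: t.2)), ?_, fun B _ ξ => ?_⟩
    · intro t ht
      rw [List.mem_map] at ht
      obtain ⟨t', ht', rfl⟩ := ht
      intro l hl
      rw [List.mem_cons] at hl
      rcases hl with rfl | hl
      · exact j.2
      · exact h1 t' ht' l hl
    · rw [map_mul, aeval_X, ← hL]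
      unfold iev
      rw [List.map_map, ← List.sum_map_mul_right]
      congr 1
      refine List.map_congr_left fun t _ => ?_
      simp only [Function.comp, List.map_cons, List.prod_cons]
      ring

/-- the polynomial with the codes `u`, `u'` of `1`, `-1` and the variables numbered by `τ` -/
def inst (u u' : ℕ) (τ : ℕ → ℕ) (L : IPoly) : Poly :=
  L.map (fun t => (if t.1 then u else u', t.2.map τ))

theorem aeval_val {ν : ℕ → Qb} {B : Type*} [CommRing B] [Algebra Qb B] (θ : ℕ → B) (f : Poly) :
    aeval θ (val ν f) = (f.map (fun t => algebraMap Qb B (ν t.1) * (t.2.map θ).prod)).sum := by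
  unfold val
  rw [map_list_sum, List.map_map]
  congr 1
  refine List.map_congr_left fun t _ => ?_
  simp only [Function.comp, map_mul, aeval_C]
  congr 1
  rw [map_list_prod, List.map_map]
  congr 1
  refine List.map_congr_left fun j _ => ?_
  simp

theorem aeval_inst {ν : ℕ → Qb} {u u' : ℕ} (hu : ν u = 1) (hu' : ν u' = -1) (τ : ℕ → ℕ)
    (L : IPoly) {B : Type*} [CommRing B] [Algebra Qb B] (θ : ℕ → B) :
    aeval θ (val ν (inst u u' τ L)) = iev (fun j => θ (τ j)) L := by
  rw [aeval_val]
  unfold inst iev
  rw [List.map_map]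
  congr 1
  refine List.map_congr_left fun t _ => ?_
  rcases t with ⟨_ | _, w⟩
  · simp [hu', Function.comp_def]
  · simp [hu, Function.comp_def]

end Pool.Agent.H901
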