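import Pool.Agent.H901.FLD

/-!
If the Pfister form is isotropic over the function field of the hypersurface `p = 0`, it
represents the polynomial `P` over `k(x, v)`.
-/

set_option autoImplicit false

namespace Pool.Agent.H901

open Polynomial Finset

/-- an isotropic Pfister form is universal -/
theorem univ_of_iso {K : Type*} [Field K] (h2 : (2 : K) ≠ 0) {a : ℕ → K} {i : ℕ}
    (ha : ∀ j < i, a j ≠ 0) {z : ℕ → K} (hz : pq a i z = 0) {m0 : ℕ} (hm0 : m0 < 2 ^ i)
    (hz0 : z m0 ≠ 0) (t : K) : ∃ g : ℕ → K, pq a i g = t := by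
  have hc : pc a i m0 ≠ 0 := pc_ne a i ha m0 hm0
  have h1 : pb a i z (Pi.single m0 1) = pc a i m0 * z m0 := by
    unfold pb
    rw [sum_eq_single_of_mem m0 (mem_range.2 hm0)]
    · rw [Pi.single_eq_same, mul_one]
    · intro m _ hm
      rw [Pi.single_eq_of_ne hm, mul_zero, mul_zero]
  have h3 : pb a i (Pi.single m0 1) (Pi.single m0 1) = pc a i m0 := by
    unfold pb
    rw [sum_eq_single_of_mem m0 (mem_range.2 hm0)]
    · rw [Pi.single_eq_same, mul_one, mul_one]
    · intro m _ hm
      rw [Pi.single_eq_of_ne hm, mul_zero, mul_zero]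
  refine ⟨((t - pc a i m0) / (2 * pc a i m0 * z m0)) • z + Pi.single m0 1, ?_⟩
  rw [pq_eq_pb] at hz ⊢
  rw [pb_add_left, pb_add_right, pb_add_right, pb_smul_left, pb_smul_left, pb_smul_right,
    pb_smul_right, hz, pb_symm a i (Pi.single m0 1) z, h1, h3]
  field_simp
  ring

/-- the polynomial `p(T)`, with even part `p0` and odd part `p1` -/
noncomputable def pP {R : Type*} [CommRing R] (p0 p1 : R[X]) : R[X] :=
  p0.comp (X ^ 2) + X * p1.comp (X ^ 2)

/-- the polynomial such that `p(T) p(-T)` is its value at `T ^ 2` -/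
noncomputable def nP {R : Type*} [CommRing R] (p0 p1 : R[X]) : R[X] := p0 ^ 2 - X * p1 ^ 2

section

variable {R : Type*} [CommRing R] [IsDomain R]

theorem natDegree_cs (f : R[X]) : (f.comp (X ^ 2)).natDegree = 2 * f.natDegree := by
  rw [natDegree_comp, natDegree_X_pow, mul_comm]

theorem cs_ne {f : R[X]} (hf : f ≠ 0) : f.comp (X ^ 2) ≠ 0 := by
  have := comp_sq_ne (R := R) one_ne_zero hf
  rwa [C_1, one_mul] at this

theorem natDegree_pP {p0 p1 : R[X]} (h1 : p1 ≠ 0) :
    (pP p0 p1).natDegree = max (2 * p0.natDegree) (2 * p1.natDegree + 1) := by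
  have hd : (X * p1.comp (X ^ 2)).natDegree = 2 * p1.natDegree + 1 := by
    rw [natDegree_mul X_ne_zero (cs_ne h1), natDegree_X, natDegree_cs]
    ring
  unfold pP
  rcases lt_or_ge (2 * p0.natDegree) (2 * p1.natDegree + 1) with h | h
  · rw [natDegree_add_eq_right_of_natDegree_lt (by rw [hd, natDegree_cs]; exact h), hd]
    omega
  · rw [natDegree_add_eq_left_of_natDegree_lt (by rw [hd, natDegree_cs]; omega), natDegree_cs]
    omega

theorem natDegree_nP {p0 p1 : R[X]} (h1 : p1 ≠ 0) :
    (nP p0 p1).natDegree = max (2 * p0.natDegree) (2 * p1.natDegree + 1) ∧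
      ((nP p0 p1).leadingCoeff = p0.leadingCoeff ^ 2 ∨
        (nP p0 p1).leadingCoeff = -p1.leadingCoeff ^ 2) := by
  have hd : (X * p1 ^ 2).natDegree = 2 * p1.natDegree + 1 := by
    rw [natDegree_mul X_ne_zero (pow_ne_zero _ h1), natDegree_X, natDegree_pow]
    ring
  have hd0 : (p0 ^ 2).natDegree = 2 * p0.natDegree := natDegree_pow _ _
  unfold nP
  rcases lt_or_ge (2 * p0.natDegree) (2 * p1.natDegree + 1) with h | h
  · refine ⟨?_, Or.inr ?_⟩
    · rw [natDegree_sub_eq_right_of_natDegree_lt (by rw [hd, hd0]; exact h), hd]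
      omega
    · rw [leadingCoeff_sub_of_degree_lt' , leadingCoeff_mul, leadingCoeff_X, one_mul,
        leadingCoeff_pow]
      apply degree_lt_degree
      rw [hd, hd0]
      exact h
  · refine ⟨?_, Or.inl ?_⟩
    · rw [natDegree_sub_eq_left_of_natDegree_lt (by rw [hd, hd0]; omega), hd0]
      omega
    · rw [leadingCoeff_sub_of_degree_lt, leadingCoeff_pow]
      apply degree_lt_degree
      rw [hd, hd0]
      omega

end

section

variable {E F : Type*} [Field E] [Field F] [Algebra E F]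

open IntermediateField in
theorem minpoly_sq {p0 p1 : E[X]} (hp1 : p1 ≠ 0) (η : F) (hp : Irreducible (pP p0 p1))
    (hη : aeval η (pP p0 p1) = 0) (htop : E⟮η⟯ = ⊤) :
    nP p0 p1 = minpoly E (η ^ 2) * C (nP p0 p1).leadingCoeff ∧ IsIntegral E (η ^ 2) ∧
      ∀ z : F, ∃ g : E[X], aeval (η ^ 2) g = z := by
  have hint : IsIntegral E η := IsAlgebraic.isIntegral ⟨_, hp.ne_zero, hη⟩
  have hint2 : IsIntegral E (η ^ 2) := hint.pow 2
  have hpa : aeval η (pP p0 p1) = aeval (η ^ 2) p0 + η * aeval (η ^ 2) p1 := by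
    unfold pP
    rw [map_add, map_mul, aeval_comp, aeval_comp, map_pow, aeval_X]
  -- the odd part does not vanish
  have h1 : aeval (η ^ 2) p1 ≠ 0 := by
    intro h0
    have h2 : aeval η (p1.comp (X ^ 2)) = 0 := by
      rw [aeval_comp, map_pow, aeval_X, h0]
    have h3 := minpoly.dvd E η h2
    rw [← minpoly.eq_of_irreducible hp hη] at h3
    have h4 := natDegree_le_of_dvd (dvd_of_mul_right_dvd h3) (cs_ne hp1)
    rw [natDegree_pP hp1, natDegree_cs] at h4
    omega
  have hmem : η ∈ E⟮η ^ 2⟯ := by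
    have h2 : η = -(aeval (η ^ 2) p0 / aeval (η ^ 2) p1) := by
      rw [hpa] at hη
      field_simp
      linear_combination hη
    have h3 : ∀ f : E[X], aeval (η ^ 2) f ∈ E⟮η ^ 2⟯ := fun f =>
      algebra_adjoin_le_adjoin E _ (aeval_mem_adjoin_singleton E (η ^ 2))
    have h4 := neg_mem (div_mem (h3 p0) (h3 p1))
    rwa [← h2] at h4
  have htop2 : E⟮η ^ 2⟯ = ⊤ := by
    rw [eq_top_iff, ← htop, adjoin_simple_le_iff]
    exact hmem
  have hdeg : (minpoly E (η ^ 2)).natDegree = (pP p0 p1).natDegree := by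
    rw [← adjoin.finrank hint2, htop2, ← htop, adjoin.finrank hint,
      ← minpoly.eq_of_irreducible hp hη, natDegree_mul_C]
    exact inv_ne_zero (leadingCoeff_ne_zero.2 hp.ne_zero)
  have hn0 : aeval (η ^ 2) (nP p0 p1) = 0 := by
    have h5 : aeval (η ^ 2) (nP p0 p1) = (aeval (η ^ 2) p0 + η * aeval (η ^ 2) p1) *
        (aeval (η ^ 2) p0 - η * aeval (η ^ 2) p1) := by
      unfold nP
      rw [map_sub, map_pow, map_mul, map_pow, aeval_X]
      ring
    rw [h5, ← hpa, hη, zero_mul]
  obtain ⟨q, hq⟩ := minpoly.dvd E (η ^ 2) hn0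
  have hne : nP p0 p1 ≠ 0 := by
    intro h0
    have := (natDegree_nP (p0 := p0) hp1).1
    rw [h0, natDegree_zero] at this
    omega
  have hq0 : q ≠ 0 := by rintro rfl; exact hne (by rw [hq, mul_zero])
  have hqd : q.natDegree = 0 := by
    have := congrArg natDegree hq
    rw [natDegree_mul (minpoly.ne_zero hint2) hq0, hdeg, natDegree_pP hp1,
      (natDegree_nP hp1).1] at this
    omega
  refine ⟨?_, hint2, fun z => ?_⟩
  · have h6 := eq_C_of_natDegree_eq_zero hqd
    have h7 : (nP p0 p1).leadingCoeff = q.coeff 0 := by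
      rw [hq, leadingCoeff_mul, (minpoly.monic hint2).leadingCoeff, one_mul, h6, leadingCoeff_C,
        coeff_C_zero]
    rw [h7, ← h6]
    exact hq
  · have hz : z ∈ E⟮η ^ 2⟯.toSubalgebra := by
      rw [htop2]; trivial
    rw [adjoin_simple_toSubalgebra_of_isAlgebraic hint2.isAlgebraic, Algebra.adjoin_singleton_eq_range_aeval] at hz
    obtain ⟨g, hg⟩ := hz
    exact ⟨g, hg⟩

theorem value_E (hm1 : ∃ s : E, s ^ 2 = -1) {p0 p1 : E[X]} (hp1 : p1 ≠ 0) (η : F)
    (hp : Irreducible (pP p0 p1)) (hη : aeval η (pP p0 p1) = 0)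
    (htop : IntermediateField.adjoin E {η} = ⊤) {a : ℕ → E} {i : ℕ} (han : An a i) {z : ℕ → F}
    (hz : pq (fun j => algebraMap E F (a j)) i z = 0) {m0 : ℕ} (hm0 : m0 < 2 ^ i)
    (hz0 : z m0 ≠ 0) : Dp a i (nP p0 p1) := by
  obtain ⟨h1, h2, h3⟩ := minpoly_sq hp1 η hp hη htop
  choose g hg using h3
  obtain ⟨w, e, he, hw⟩ := lam han _ (minpoly E (η ^ 2)) rfl (minpoly.irreducible h2)
    (minpoly.monic h2) (fun m => g (z m)) ⟨m0, hm0, fun hd => hz0 (by
      obtain ⟨q, hq⟩ := hd
      rw [← hg (z m0), hq, map_mul, minpoly.aeval, zero_mul])⟩ (by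
      apply minpoly.dvd
      have h4 := pq_map ((aeval (η ^ 2) : E[X] →ₐ[E] F) : E[X] →+* F) (fun j => C (a j)) i
        (fun m => g (z m))
      refine h4.symm.trans ?_
      rw [← hz]
      have e1 : (fun j => ((aeval (η ^ 2) : E[X] →ₐ[E] F) : E[X] →+* F) (C (a j))) =
          fun j => algebraMap E F (a j) := by
        funext j
        exact aeval_C _ _
      have e2 : (fun m => ((aeval (η ^ 2) : E[X] →ₐ[E] F) : E[X] →+* F) (g (z m))) = z := by
        funext m
        exact hg (z m)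
      rw [e1, e2])
  have hl : ∃ l : E, l ^ 2 = (nP p0 p1).leadingCoeff := by
    obtain ⟨s, hs⟩ := hm1
    rcases (natDegree_nP (p0 := p0) hp1).2 with h | h
    · exact ⟨_, h.symm⟩
    · exact ⟨s * p1.leadingCoeff, by rw [h, mul_pow, hs]; ring⟩
  obtain ⟨l, hl⟩ := hl
  refine ⟨C l • w, e, he, ?_⟩
  rw [pq_smul, hw]
  conv_rhs => rw [h1, ← hl]
  rw [C_pow]
  ring

end

section

variable {R : Type} [CommRing R] [IsDomain R] [UniqueFactorizationMonoid R]

/-- the polynomial is irreducible over the field of fractions -/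
theorem pP_frac {p0 p1 : R[X]} (hp1 : p1 ≠ 0) (hp : Irreducible (pP p0 p1)) :
    (pP p0 p1).IsPrimitive ∧
      Irreducible (pP (p0.map (algebraMap R (FractionRing R)))
        (p1.map (algebraMap R (FractionRing R)))) ∧
      (pP p0 p1).map (algebraMap R (FractionRing R)) =
        pP (p0.map (algebraMap R (FractionRing R))) (p1.map (algebraMap R (FractionRing R))) := by
  have h1 : (pP p0 p1).IsPrimitive := hp.isPrimitive (by rw [natDegree_pP hp1]; omega)
  have h2 : (pP p0 p1).map (algebraMap R (FractionRing R)) =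
        pP (p0.map (algebraMap R (FractionRing R))) (p1.map (algebraMap R (FractionRing R))) := by
    unfold pP
    rw [Polynomial.map_add, Polynomial.map_mul, map_comp, map_comp, Polynomial.map_pow, map_X]
  refine ⟨h1, ?_, h2⟩
  rw [← h2]
  exact (h1.irreducible_iff_irreducible_map_fraction_map (K := FractionRing R)).1 hp

attribute [local instance] Polynomial.algebra in
/-- The value lemma over the polynomial ring: the denominators are cleared. -/
theorem value_R (hm1 : ∃ s : R, s ^ 2 = -1) {p0 p1 : R[X]} (hp1 : p1 ≠ 0)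
    (hp : Irreducible (pP p0 p1)) {a : ℕ → R} {i : ℕ}
    (han : An (fun j => algebraMap R (FractionRing R) (a j)) i)
    {z : ℕ → FractionRing (AdjoinRoot (pP p0 p1))}
    (hz : pq (fun j => algebraMap (AdjoinRoot (pP p0 p1)) (FractionRing (AdjoinRoot (pP p0 p1)))
      (AdjoinRoot.of (pP p0 p1) (a j))) i z = 0) {m0 : ℕ} (hm0 : m0 < 2 ^ i)
    (hz0 : z m0 ≠ 0) : ∃ (w : ℕ → R[X]) (e : R[X]), e ≠ 0 ∧
      pq (fun j => C (a j)) i w = nP p0 p1 * e ^ 2 := by
  classical
  obtain ⟨h1, h2, h3⟩ := pP_frac hp1 hp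
  have hprime : Prime (pP p0 p1) := hp.prime
  have hdom : IsDomain (AdjoinRoot (pP p0 p1)) := AdjoinRoot.isDomain_of_prime hprime
  set φ := algebraMap R (FractionRing R) with hφ
  set q := pP (p0.map φ) (p1.map φ) with hq
  have hfact : Fact (Irreducible q) := ⟨h2⟩
  -- the map between the fields
  let μ : AdjoinRoot (pP p0 p1) →+* AdjoinRoot q :=
    AdjoinRoot.lift ((AdjoinRoot.of q).comp φ) (AdjoinRoot.root q) (by
      rw [← eval₂_map, h3]
      exact AdjoinRoot.eval₂_root q)
  have hμ : ∀ f : R[X], μ (AdjoinRoot.mk _ f) = AdjoinRoot.mk q (f.map φ) := by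
    intro f
    show AdjoinRoot.lift _ _ _ (AdjoinRoot.mk _ f) = _
    rw [AdjoinRoot.lift_mk, ← eval₂_map, ← AdjoinRoot.aeval_eq]
    rfl
  have hμi : Function.Injective μ := by
    rw [injective_iff_map_eq_zero]
    intro x
    obtain ⟨f, rfl⟩ := AdjoinRoot.mk_surjective x
    rw [hμ, AdjoinRoot.mk_eq_zero, AdjoinRoot.mk_eq_zero, ← h3]
    exact fun h => (h1.dvd_iff_fraction_map_dvd_fraction_map (FractionRing R)).2 h
  let ν : FractionRing (AdjoinRoot (pP p0 p1)) →+* AdjoinRoot q := IsFractionRing.lift hμi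
  have hν : ∀ x, ν (algebraMap _ _ x) = μ x := fun x => IsFractionRing.lift_algebraMap hμi x
  have hp1' : p1.map φ ≠ 0 := (Polynomial.map_ne_zero_iff (IsFractionRing.injective R _)).2 hp1
  obtain ⟨s, hs⟩ := hm1
  have hz' : pq (fun j => algebraMap (FractionRing R) (AdjoinRoot q) (φ (a j))) i
      (fun m => ν (z m)) = 0 := by
    have h4 := pq_map ν (fun j => algebraMap (AdjoinRoot (pP p0 p1))
      (FractionRing (AdjoinRoot (pP p0 p1))) (AdjoinRoot.of (pP p0 p1) (a j))) i z
    rw [hz, map_zero] at h4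
    rw [← h4]
    congr 1
    funext j
    rw [hν]
    show _ = AdjoinRoot.lift _ _ _ (AdjoinRoot.of _ _)
    rw [AdjoinRoot.lift_of]
    rfl
  obtain ⟨w, e, he, hw⟩ := value_E (E := FractionRing R) (F := AdjoinRoot q)
    ⟨φ s, by rw [← map_pow, hs, map_neg, map_one]⟩ hp1' (AdjoinRoot.root q) h2
    (by rw [AdjoinRoot.aeval_eq, AdjoinRoot.mk_eq_zero]) (by
      rw [eq_top_iff]
      intro x _
      have hx : x ∈ Algebra.adjoin (FractionRing R) {AdjoinRoot.root q} := by
        rw [AdjoinRoot.adjoinRoot_eq_top]; trivial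
      exact IntermediateField.algebra_adjoin_le_adjoin _ _ hx) han hz' hm0
      (by rw [Ne, map_eq_zero]; exact hz0)
  -- denominators
  have hloc : IsLocalization (Submonoid.map (C : R →+* R[X]) (nonZeroDivisors R))
    (FractionRing R)[X] := Polynomial.isLocalization (nonZeroDivisors R) (FractionRing R)
  obtain ⟨⟨b, hb⟩, hb'⟩ := IsLocalization.exist_integer_multiples_of_finset
    (Submonoid.map (C : R →+* R[X]) (nonZeroDivisors R))
    (insert e ((range (2 ^ i)).image w) : Finset (FractionRing R)[X])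
  obtain ⟨b, hb, rfl⟩ := hb
  have hb0 : b ≠ 0 := nonZeroDivisors.ne_zero hb
  have hint : ∀ f ∈ insert e ((range (2 ^ i)).image w), ∃ f' : R[X], f'.map φ = C (φ b) * f := by
    intro f hf
    obtain ⟨f', hf'⟩ := hb' f hf
    refine ⟨f', ?_⟩
    refine Eq.trans ?_ (hf'.trans ?_)
    · rfl
    · rw [Algebra.smul_def]
      congr 1
      exact map_C _
  obtain ⟨e', he'⟩ := hint e (mem_insert_self _ _)
  have hw' : ∀ m, ∃ f' : R[X], m < 2 ^ i → f'.map φ = C (φ b) * w m := by
    intro m
    by_cases hm : m < 2 ^ i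
    · obtain ⟨f', hf'⟩ := hint (w m) (mem_insert_of_mem (mem_image_of_mem w (mem_range.2 hm)))
      exact ⟨f', fun _ => hf'⟩
    · exact ⟨0, fun h => absurd h hm⟩
  choose w' hw' using hw'
  have hinj : Function.Injective (mapRingHom φ) := map_injective _ (IsFractionRing.injective R _)
  have hφb : C (φ b) ≠ 0 := by
    rw [Ne, C_eq_zero, map_eq_zero_iff φ (IsFractionRing.injective R _)]
    exact hb0
  refine ⟨w', e', ?_, ?_⟩
  · rintro rfl
    rw [Polynomial.map_zero] at he'
    exact mul_ne_zero hφb he he'.symm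
  · apply hinj
    rw [← pq_map (mapRingHom φ)]
    have h5 : pq (fun j => mapRingHom φ (C (a j))) i (fun m => mapRingHom φ (w' m)) =
        pq (fun j => C (φ (a j))) i (C (φ b) • w) := by
      unfold pq
      refine sum_congr rfl fun m hm => ?_
      rw [Pi.smul_apply, smul_eq_mul, ← hw' m (mem_range.1 hm)]
      congr 1
      congr 1
      funext j
      exact map_C _
    rw [h5, pq_smul, hw, map_mul, map_pow]
    change _ = _ * (e'.map φ) ^ 2
    rw [he']
    have h6 : (mapRingHom φ) (nP p0 p1) = nP (p0.map φ) (p1.map φ) := by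
      unfold nP
      rw [map_sub, map_pow, map_mul, map_pow]
      simp
    rw [h6]
    ring

end

section

variable {k : Type} [Field k] {n i : ℕ}

theorem atD_mul (a : ℕ → MvPolynomial (Fin n) k) (f g : (MvPolynomial (Fin n) k)[X]) :
    atD i a (f * g) = atD i a f * atD i a g := by
  unfold atD
  exact eval₂_mul _ _

/-- evaluation at `D` as a ring homomorphism -/
noncomputable def atDh (i : ℕ) (a : ℕ → MvPolynomial (Fin n) k) :
    (MvPolynomial (Fin n) k)[X] →+* MvPolynomial (V0 n i) k :=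
  eval₂RingHom (MvPolynomial.rename Sum.inl : MvPolynomial (Fin n) k →ₐ[k] MvPolynomial (V0 n i) k)
    (eD i a)

theorem atDh_apply (a : ℕ → MvPolynomial (Fin n) k) (f : (MvPolynomial (Fin n) k)[X]) :
    atDh i a f = atD i a f := rfl

theorem atDh_nP (a : ℕ → MvPolynomial (Fin n) k) (p0 p1 : (MvPolynomial (Fin n) k)[X]) :
    atDh i a (nP p0 p1) = eP i a p0 p1 := by
  unfold nP eP
  rw [map_sub, map_pow, map_mul, map_pow, atDh_apply, atDh_apply, atDh_apply]
  congr 2
  unfold atD
  exact eval₂_X _ _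

/-- The value lemma. -/
theorem value_lemma (hi : 2 ≤ i) (h2 : (2 : k) ≠ 0) (hm1 : ∃ s : k, s ^ 2 = -1)
    (a : ℕ → MvPolynomial (Fin n) k) (ha : ∀ j < i, a j ≠ 0)
    {p0 p1 : (MvPolynomial (Fin n) k)[X]} (hp1 : p1 ≠ 0) (hp : Irreducible (pP p0 p1))
    {z : ℕ → FractionRing (AdjoinRoot (pP p0 p1))}
    (hz : pq (fun j => algebraMap (AdjoinRoot (pP p0 p1)) (FractionRing (AdjoinRoot (pP p0 p1)))
      (AdjoinRoot.of (pP p0 p1) (a j))) i z = 0) {m0 : ℕ} (hm0 : m0 < 2 ^ i)
    (hz0 : z m0 ≠ 0) :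
    ∃ g : ℕ → FractionRing (MvPolynomial (V0 n i) k),
      pq (fun j => algebraMap (MvPolynomial (V0 n i) k)
        (FractionRing (MvPolynomial (V0 n i) k)) (ea i a j)) i g =
        algebraMap _ _ (eP i a p0 p1) := by
  set ψ := algebraMap (MvPolynomial (V0 n i) k) (FractionRing (MvPolynomial (V0 n i) k)) with hψ
  have hψi : Function.Injective ψ := IsFractionRing.injective _ _
  have hea : ∀ j < i, ea i a j = MvPolynomial.rename Sum.inl (a j) := fun j hj => by
    unfold ea
    rw [if_pos hj]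
  -- a form whose entries agree for `j < i`
  have hcongr : ∀ (b c : ℕ → FractionRing (MvPolynomial (V0 n i) k)) (i' : ℕ),
      (∀ j < i', b j = c j) → ∀ m, pc b i' m = pc c i' m := by
    intro b c i' h
    induction i' with
    | zero => intro m; rfl
    | succ i' ih =>
      intro m
      rw [pc, pc, ih (fun j hj => h j (by omega)), ih (fun j hj => h j (by omega)), h i' (by omega)]
  by_cases han : An (fun j => algebraMap (MvPolynomial (Fin n) k)
      (FractionRing (MvPolynomial (Fin n) k)) (a j)) i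
  · obtain ⟨s, hs⟩ := hm1
    obtain ⟨w, e, he, hw⟩ := value_R ⟨MvPolynomial.C s, by rw [← map_pow, hs, map_neg, map_one]⟩
      hp1 hp han hz hm0 hz0
    have he0 : ψ (atDh i a e) ≠ 0 := by
      rw [Ne, map_eq_zero_iff ψ hψi, atDh_apply]
      exact atD_ne hi (ha 0 (by omega)) he
    refine ⟨(ψ (atDh i a e))⁻¹ • fun m => ψ (atDh i a (w m)), ?_⟩
    rw [pq_smul]
    have h3 := pq_map (ψ.comp (atDh i a)) (fun j => C (a j)) i w
    rw [hw, map_mul, map_pow] at h3
    have h4 : pq (fun j => ψ (ea i a j)) i (fun m => ψ (atDh i a (w m))) =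
        pq (fun j => (ψ.comp (atDh i a)) (C (a j))) i (fun m => (ψ.comp (atDh i a)) (w m)) := by
      unfold pq
      refine sum_congr rfl fun m _ => ?_
      congr 1
      apply hcongr
      intro j hj
      rw [hea j hj]
      show _ = ψ (atD i a (C (a j)))
      unfold atD
      rw [eval₂_C]
      rfl
    rw [h4, h3, RingHom.comp_apply, RingHom.comp_apply, atDh_nP]
    field_simp
  · -- the form is isotropic over `k(x)`
    unfold An at han
    push Not at han
    obtain ⟨z', hz', m1, hm1', hz1⟩ := han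
    have hinj : Function.Injective (ψ.comp (MvPolynomial.rename Sum.inl :
        MvPolynomial (Fin n) k →ₐ[k] MvPolynomial (V0 n i) k).toRingHom) :=
      hψi.comp (MvPolynomial.rename_injective _ Sum.inl_injective)
    let ν : FractionRing (MvPolynomial (Fin n) k) →+* FractionRing (MvPolynomial (V0 n i) k) :=
      IsFractionRing.lift hinj
    have hν : ∀ x, ν (algebraMap _ _ x) = ψ (MvPolynomial.rename Sum.inl x) := fun x =>
      IsFractionRing.lift_algebraMap hinj x
    have h5 := pq_map ν (fun j => algebraMap (MvPolynomial (Fin n) k)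
      (FractionRing (MvPolynomial (Fin n) k)) (a j)) i z'
    rw [hz', map_zero] at h5
    refine univ_of_iso (z := fun m => ν (z' m)) (m0 := m1) ?_ ?_ ?_ hm1' ?_ _
    · intro h0
      apply h2
      have : algebraMap k (FractionRing (MvPolynomial (V0 n i) k)) 2 = 0 := by
        rw [map_ofNat]; exact h0
      exact (map_eq_zero _).1 this
    · intro j hj
      rw [hea j hj, Ne, map_eq_zero_iff ψ hψi,
        map_eq_zero_iff _ (MvPolynomial.rename_injective _ Sum.inl_injective)]
      exact ha j hj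
    · rw [← h5]
      unfold pq
      refine sum_congr rfl fun m _ => ?_
      congr 1
      apply hcongr
      intro j hj
      rw [hea j hj, hν]
    · rw [Ne, map_eq_zero]
      exact hz1

end

end Pool.Agent.H901
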