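import Pool.Agent.H901.FTWO
import Pool.Agent.H901.VAL

/-!
The homomorphism from `k(x, v)` to `F(t)(v_{N - 1})(v_2, …, v_{N - 2})(v_1)`.
-/

set_option autoImplicit false

namespace Pool.Agent.H901

open Polynomial Finset Pool.Agent.H918R3

section

variable {k F : Type} [Field k] [Field F] [Algebra k F] {n s : ℕ}

theorem ai_X (L : Type) [Field L] : AlgebraicIndependent L (fun _ : Unit => (RatFunc.X : RatFunc L)) := by
  rw [algebraicIndependent_unique_type_iff]
  exact RatFunc.transcendental_X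

theorem ai_xx (L : Type) [Field L] (s : ℕ) : AlgebraicIndependent L (fun j : Fin s => xx L j) := by
  have h := MvPolynomial.algebraicIndependent_X (Fin s) L
  exact h.map' (f := IsScalarTower.toAlgHom L (MvPolynomial (Fin s) L) (FF L s))
    (IsFractionRing.injective _ _)

/-- the family -/
noncomputable def fam (x : Fin n → F) (s : ℕ) : Unit ⊕ (Fin s ⊕ (Unit ⊕ (Unit ⊕ Fin n))) → K4 F s :=
  Sum.elim (fun _ => RatFunc.X) (algebraMap (K3 F s) (K4 F s) ∘ Sum.elim (fun j => xx (K2 F) j)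
    (algebraMap (K2 F) (K3 F s) ∘ Sum.elim (fun _ => RatFunc.X) (algebraMap (K1 F) (K2 F) ∘
      Sum.elim (fun _ => RatFunc.X) (algebraMap F (K1 F) ∘ x))))

theorem ai_fam {x : Fin n → F} (hx : AlgebraicIndependent k x) :
    AlgebraicIndependent k (fam x s) := by
  have h1 : AlgebraicIndependent k (Sum.elim (fun _ : Unit => (RatFunc.X : K1 F))
      (algebraMap F (K1 F) ∘ x)) := hx.sumElim_comp (ai_X F)
  have h2 : AlgebraicIndependent k (Sum.elim (fun _ : Unit => (RatFunc.X : K2 F))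
      (algebraMap (K1 F) (K2 F) ∘ Sum.elim (fun _ : Unit => (RatFunc.X : K1 F))
        (algebraMap F (K1 F) ∘ x))) := h1.sumElim_comp (ai_X (K1 F))
  have h3 : AlgebraicIndependent k (Sum.elim (fun j : Fin s => xx (K2 F) j)
      (algebraMap (K2 F) (K3 F s) ∘ Sum.elim (fun _ : Unit => (RatFunc.X : K2 F))
      (algebraMap (K1 F) (K2 F) ∘ Sum.elim (fun _ : Unit => (RatFunc.X : K1 F))
        (algebraMap F (K1 F) ∘ x)))) := h2.sumElim_comp (ai_xx (K2 F) s)
  exact h3.sumElim_comp (ai_X (K3 F s))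

/-- the indices -/
def ridx (n s i : ℕ) : V0 n i → Unit ⊕ (Fin s ⊕ (Unit ⊕ (Unit ⊕ Fin n))) :=
  Sum.elim (fun l => Sum.inr (Sum.inr (Sum.inr (Sum.inr l))))
    (fun m => if (m : ℕ) = 1 then Sum.inl () else
      if h : 2 ≤ (m : ℕ) ∧ (m : ℕ) < s + 2 then Sum.inr (Sum.inl ⟨(m : ℕ) - 2, by omega⟩) else
        if (m : ℕ) = s + 2 then Sum.inr (Sum.inr (Sum.inl ())) else
          Sum.inr (Sum.inr (Sum.inr (Sum.inl ()))))

theorem ridx_injective {n s i : ℕ} (hs : 2 ^ i = s + 3) : Function.Injective (ridx n s i) := by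
  intro a b hab
  rcases a with a | ⟨a, ha⟩ <;> rcases b with b | ⟨b, hb⟩
  · simpa [ridx] using hab
  · exfalso
    simp only [ridx, Sum.elim_inl, Sum.elim_inr] at hab
    split_ifs at hab <;> simp at hab
  · exfalso
    simp only [ridx, Sum.elim_inl, Sum.elim_inr] at hab
    split_ifs at hab <;> simp at hab
  · simp only [ridx, Sum.elim_inr] at hab
    congr 2
    split_ifs at hab <;> simp at hab <;> omega

/-- the homomorphism -/
noncomputable def th0 (ξ : MvPolynomial (Fin n) k →ₐ[k] F) (s i : ℕ) :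
    MvPolynomial (V0 n i) k →ₐ[k] K4 F s :=
  MvPolynomial.aeval (fun a => fam (fun l => ξ (MvPolynomial.X l)) s (ridx n s i a))

theorem th0_injective {ξ : MvPolynomial (Fin n) k →ₐ[k] F} {i : ℕ} (hs : 2 ^ i = s + 3)
    (hξ : Function.Injective ξ) : Function.Injective (th0 ξ s i) := by
  have hx : AlgebraicIndependent k (fun l => ξ (MvPolynomial.X l)) :=
    (MvPolynomial.algebraicIndependent_X (Fin n) k).map' hξ
  exact (ai_fam (s := s) hx).comp _ (ridx_injective hs)

theorem th0_inl (ξ : MvPolynomial (Fin n) k →ₐ[k] F) {i : ℕ} (f : MvPolynomial (Fin n) k) :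
    th0 ξ s i (MvPolynomial.rename Sum.inl f) = i4 F s (ξ f) := by
  unfold th0
  rw [MvPolynomial.aeval_rename]
  induction f using MvPolynomial.induction_on with
  | C a =>
    rw [MvPolynomial.aeval_C]
    have h1 : ξ (MvPolynomial.C a) = algebraMap k F a := ξ.commutes a
    rw [h1]
    rfl
  | add p q hp hq => rw [map_add, hp, hq, map_add, map_add]
  | mul_X p j hp =>
    rw [map_mul, hp, MvPolynomial.aeval_X, map_mul, map_mul]
    rfl

theorem th0_inr (ξ : MvPolynomial (Fin n) k →ₐ[k] F) {i : ℕ} (m : Fin (2 ^ i)) :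
    th0 ξ s i (MvPolynomial.X (Sum.inr m)) = v4 F s m := by
  unfold th0
  rw [MvPolynomial.aeval_X]
  unfold v4 ridx
  simp only [Sum.elim_inr]
  split_ifs
  · rfl
  · rfl
  · rfl
  · rfl

theorem th0_ea (ξ : MvPolynomial (Fin n) k →ₐ[k] F) {i : ℕ} (a : ℕ → MvPolynomial (Fin n) k)
    (j : ℕ) : th0 ξ s i (ea i a j) = a4 F s (fun j => ξ (a j)) i j := by
  unfold ea a4
  split_ifs with h
  · exact th0_inl ξ _
  · rw [th0_inr]
    unfold v4
    rw [if_neg (by simp), dif_neg (by simp), if_neg (by simp)]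

theorem th0_ev (ξ : MvPolynomial (Fin n) k →ₐ[k] F) {i : ℕ} (m : ℕ) (hm : m < 2 ^ i) :
    th0 ξ s i (ev k n i m) = v4 F s m := by
  unfold ev
  rw [dif_pos hm, th0_inr]

theorem DD_congr {R : Type*} [CommRing R] (b : ℕ → R) (i : ℕ) (v v' : ℕ → R)
    (h : ∀ m < 2 ^ i, v m = v' m) : DD b i v = DD b i v' := by
  unfold DD
  rw [h (2 ^ i - 1) (by have : 0 < 2 ^ i := by positivity
                        omega)]
  congr 2
  refine sum_congr rfl fun m hm => ?_
  rw [mem_Ico] at hm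
  rw [h m (by omega)]

theorem th0_eD (ξ : MvPolynomial (Fin n) k →ₐ[k] F) {i : ℕ} (a : ℕ → MvPolynomial (Fin n) k) :
    th0 ξ s i (eD i a) = DD (a4 F s (fun j => ξ (a j)) i) i (v4 F s) := by
  have h := DD_map (th0 ξ s i : MvPolynomial (V0 n i) k →+* K4 F s) (ea i a) i (ev k n i)
  have e1 : (fun j => (th0 ξ s i : MvPolynomial (V0 n i) k →+* K4 F s) (ea i a j)) =
      a4 F s (fun j => ξ (a j)) i := by
    funext j
    exact th0_ea ξ a j
  rw [e1] at h
  refine h.symm.trans ?_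
  exact DD_congr _ _ _ _ (fun m hm => th0_ev ξ m hm)

theorem th0_atD (ξ : MvPolynomial (Fin n) k →ₐ[k] F) {i : ℕ} (a : ℕ → MvPolynomial (Fin n) k)
    (f : (MvPolynomial (Fin n) k)[X]) :
    th0 ξ s i (atD i a f) =
      eval₂ (i4 F s) (DD (a4 F s (fun j => ξ (a j)) i) i (v4 F s))
        (f.map (ξ : MvPolynomial (Fin n) k →+* F)) := by
  unfold atD
  have h := hom_eval₂ f (MvPolynomial.rename Sum.inl : MvPolynomial (Fin n) k →ₐ[k]
    MvPolynomial (V0 n i) k).toRingHom (th0 ξ s i : MvPolynomial (V0 n i) k →+* K4 F s) (eD i a)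
  refine h.trans ?_
  rw [eval₂_map]
  have e1 : ((th0 ξ s i : MvPolynomial (V0 n i) k →+* K4 F s).comp
      (MvPolynomial.rename Sum.inl : MvPolynomial (Fin n) k →ₐ[k]
        MvPolynomial (V0 n i) k).toRingHom) =
      (i4 F s).comp (ξ : MvPolynomial (Fin n) k →+* F) := by
    apply RingHom.ext
    intro x
    exact th0_inl ξ x
  have e2 : (th0 ξ s i : MvPolynomial (V0 n i) k →+* K4 F s) (eD i a) =
      DD (a4 F s (fun j => ξ (a j)) i) i (v4 F s) := th0_eD ξ a
  rw [e1, e2]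

theorem th0_eP (ξ : MvPolynomial (Fin n) k →ₐ[k] F) {i : ℕ} (a : ℕ → MvPolynomial (Fin n) k)
    (p0 p1 : (MvPolynomial (Fin n) k)[X]) :
    th0 ξ s i (eP i a p0 p1) =
      eval₂ (i4 F s) (DD (a4 F s (fun j => ξ (a j)) i) i (v4 F s))
        (nP (p0.map (ξ : MvPolynomial (Fin n) k →+* F))
          (p1.map (ξ : MvPolynomial (Fin n) k →+* F))) := by
  unfold eP nP
  rw [map_sub, map_pow, map_mul, map_pow, th0_atD, th0_atD, th0_eD, eval₂_sub, eval₂_pow,
    eval₂_mul, eval₂_pow, eval₂_X]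

/-- `P` is not a value of the form over the field `K4` -/
theorem no_value (h2 : (2 : k) ≠ 0) {i : ℕ} (hi : 1 ≤ i) (hs : 2 ^ i = s + 3)
    (a : ℕ → MvPolynomial (Fin n) k)
    {ξ : MvPolynomial (Fin n) k →ₐ[k] F} (hξ : Function.Injective ξ)
    (ha : ∀ j < i, a j ≠ 0)
    (hBC : ∏ j ∈ range i, a j ≠ 4 * (∏ j ∈ range i, (a j - 1)) ^ 2)
    (han : An (fun j => ξ (a j)) i) (p0 p1 : (MvPolynomial (Fin n) k)[X]) {η : F} (hη : η ≠ 0)
    (h0 : (pP (p0.map (ξ : MvPolynomial (Fin n) k →+* F))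
      (p1.map (ξ : MvPolynomial (Fin n) k →+* F))).eval η = 0)
    (h1 : (derivative (pP (p0.map (ξ : MvPolynomial (Fin n) k →+* F))
      (p1.map (ξ : MvPolynomial (Fin n) k →+* F)))).eval η ≠ 0)
    (h3 : (p1.map (ξ : MvPolynomial (Fin n) k →+* F)).eval (η ^ 2) ≠ 0)
    (g : ℕ → K4 F s)
    (hg : pq (a4 F s (fun j => ξ (a j)) i) i g = th0 ξ s i (eP i a p0 p1)) : False := by
  have h2F : (2 : F) ≠ 0 := by
    intro h
    apply h2
    apply (algebraMap k F).injective
    rw [map_ofNat, h, map_zero]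
  set q0 := p0.map (ξ : MvPolynomial (Fin n) k →+* F) with hq0
  set q1 := p1.map (ξ : MvPolynomial (Fin n) k →+* F) with hq1
  have hpe : q0.eval (η ^ 2) + η * q1.eval (η ^ 2) = 0 := by
    rw [← h0]
    unfold pP
    simp [eval_comp]
  have hne : (nP q0 q1).eval (η ^ 2) = 0 := by
    unfold nP
    simp only [eval_sub, eval_mul, eval_pow, eval_X]
    linear_combination (q0.eval (η ^ 2) - η * q1.eval (η ^ 2)) * hpe
  obtain ⟨ph, hph⟩ := dvd_iff_isRoot.2 hne
  -- the derivative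
  have hde : q0.eval (η ^ 2) * (derivative (pP q0 q1)).eval η =
      η * (derivative (nP q0 q1)).eval (η ^ 2) := by
    unfold pP nP
    simp only [derivative_add, derivative_sub, derivative_mul, derivative_comp, derivative_pow,
      derivative_X, eval_add, eval_sub, eval_mul, eval_comp, eval_pow, eval_X, eval_one,
      eval_natCast, map_natCast]
    simp only [Nat.cast_ofNat, Nat.add_one_sub_one, pow_one]
    linear_combination (q1.eval (η ^ 2) + 2 * η ^ 2 * (derivative q1).eval (η ^ 2)) * hpe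
  have hph0 : ph.eval (η ^ 2) ≠ 0 := by
    intro h5
    have h6 : (derivative (nP q0 q1)).eval (η ^ 2) = 0 := by
      rw [hph, derivative_mul]
      simp [h5]
    rw [h6, mul_zero] at hde
    rcases mul_eq_zero.1 hde with h7 | h7
    · rw [h7, zero_add] at hpe
      exact mul_ne_zero hη h3 hpe
    · exact h1 h7
  refine f2 h2F hs hi (fun j hj => ?_) han hη ph hph0 ?_ g ?_
  · rw [Ne, map_eq_zero_iff ξ hξ]
    exact ha j hj
  · intro h5
    apply hBC
    apply hξ
    rw [map_prod, map_mul, map_pow, map_prod, map_ofNat, h5]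
    congr 2
    refine prod_congr rfl fun j _ => ?_
    rw [map_sub, map_one]
  · rw [← hph, ← th0_eP, hg]

end

end Pool.Agent.H901
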