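import Pool.Agent.H901.OUT

/-!
A polynomial in several variables which is not a value of a Pfister form.
-/

set_option autoImplicit false

namespace Pool.Agent.H901

open Polynomial Finset Pool.Agent.H918R3

/-- the perturbation is not a square -/
theorem dh_not_sq {F : Type*} [Field F] {B C0 : F} (hB : B ≠ 0) (hBC : B ≠ 4 * C0 ^ 2) (z : RatFunc F)
    (hz : z ^ 2 = (RatFunc.C C0 * (RatFunc.X - 1)) ^ 2 + RatFunc.C B * RatFunc.X) : False := by
  set φ := algebraMap F[X] (RatFunc F) with hφ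
  have hφi : Function.Injective φ := RatFunc.algebraMap_injective F
  set P : F[X] := (C C0 * (X - 1)) ^ 2 + C B * X with hP
  have hφP : z ^ 2 = φ P := by
    rw [hz, hP, map_add, map_pow, map_mul, map_sub, map_mul, map_one, hφ, RatFunc.algebraMap_C,
      RatFunc.algebraMap_C, RatFunc.algebraMap_X]
  have hint : IsIntegral F[X] (z ^ 2) := by
    rw [hφP]; exact isIntegral_algebraMap
  obtain ⟨f, hf⟩ := IsIntegrallyClosed.exists_algebraMap_eq_of_isIntegral_pow
    (by norm_num : 0 < 2) hint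
  have hf2 : f ^ 2 = P := by
    apply hφi
    rw [map_pow, ← hφP, ← hf]
  have hP2 : P = C (C0 ^ 2) * X ^ 2 + C (B - 2 * C0 ^ 2) * X ^ 1 + C (C0 ^ 2) := by
    rw [hP]
    simp only [C_sub, C_mul, C_pow, C_ofNat]
    ring
  have hd : f.natDegree ≤ 1 := by
    have h1 : (f ^ 2).natDegree ≤ 2 := by
      rw [hf2, hP2]
      compute_degree
    rw [natDegree_pow] at h1
    omega
  have e := eq_X_add_C_of_natDegree_le_one hd
  have c0 := congrArg (fun g => coeff g 0) hf2
  have c1 := congrArg (fun g => coeff g 1) hf2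
  have c2 := congrArg (fun g => coeff g 2) hf2
  rw [e, hP2] at c0 c1 c2
  set α := f.coeff 1
  set β := f.coeff 0
  have e2 : (C α * X + C β) ^ 2 =
      C (α ^ 2) * X ^ 2 + C (2 * (α * β)) * X ^ 1 + C (β ^ 2) := by
    simp only [C_mul, C_pow, C_ofNat]
    ring
  rw [e2] at c0 c1 c2
  simp only [coeff_add, coeff_C_mul, coeff_X_pow, coeff_C] at c0 c1 c2
  norm_num at c0 c1 c2
  have h3 : B * (B - 4 * C0 ^ 2) = 0 := by
    linear_combination (-(2 * (α * β)) - (B - 2 * C0 ^ 2)) * c1 + 4 * β ^ 2 * c2 +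
      4 * C0 ^ 2 * c0
  rcases mul_eq_zero.1 h3 with h | h
  · exact hB h
  · exact hBC (sub_eq_zero.1 h)

theorem pq_one {R : Type*} [CommRing R] (b : ℕ → R) (g : ℕ → R) :
    pq b 1 g = g 0 ^ 2 - b 0 * g 1 ^ 2 := by
  unfold pq
  rw [pow_one, sum_range_succ, sum_range_one]
  simp [pc]
  ring

theorem two_dim {K : Type*} [Field K] (h2 : (2 : K) ≠ 0) {A η dl : K} (hA : A ≠ 0) (hη : η ≠ 0)
    (han : ∀ x y : K, x ^ 2 + A * y ^ 2 = 0 → x = 0 ∧ y = 0) (w0 w1 : RatFunc K)
    (hw : w0 ^ 2 + RatFunc.C A * w1 ^ 2 = RatFunc.C (η ^ 2) + RatFunc.C (A * dl) * RatFunc.X ^ 2) :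
    ∃ z, z ^ 2 = dl := by
  set P : K[X] := C (η ^ 2) + C (A * dl) * X ^ 2 with hP
  obtain ⟨w, hw'⟩ := cassels_pfister h2 (n := 2) ![1, C A]
    (fun l => by fin_cases l <;> simp) (fun v hv => by
      rw [Fin.sum_univ_two] at hv
      have h3 := aniso_ratFunc ![1, A] (fun v hv => by
        rw [Fin.sum_univ_two] at hv
        obtain ⟨h4, h5⟩ := han (v 0) (v 1) (by simpa using hv)
        funext l
        fin_cases l
        · exact h4
        · exact h5) v (by
        rw [Fin.sum_univ_two]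
        simpa using hv)
      exact h3) P ![w0, w1] (by
      have e : algebraMap K[X] (RatFunc K) P =
          RatFunc.C (η ^ 2) + RatFunc.C (A * dl) * RatFunc.X ^ 2 := by
        rw [hP]
        simp [RatFunc.algebraMap_C]
      rw [e, ← hw, Fin.sum_univ_two]
      simp)
  rw [Fin.sum_univ_two] at hw'
  have hw'' : w 0 ^ 2 + C A * w 1 ^ 2 = P := by simpa using hw'
  have hAn : An (fun _ => -A) 1 := by
    intro z hz m hm
    rw [pq_one] at hz
    obtain ⟨h4, h5⟩ := han (z 0) (z 1) (by linear_combination hz)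
    have hm' : m = 0 ∨ m = 1 := by omega
    rcases hm' with rfl | rfl
    · exact h4
    · exact h5
  have hpq : pq (fun _ => C (-A)) 1 (fun m => if m = 0 then w 0 else w 1) = P := by
    rw [pq_one, ← hw'']
    simp
  have hP0 : P ≠ 0 := by
    intro h0
    have := congrArg (eval 0) h0
    rw [hP] at this
    simp at this
    exact hη this
  obtain ⟨n, z, hle, -, hdeg, -, -⟩ := lead_pq hAn (fun m => if m = 0 then w 0 else w 1) (by
    by_contra hcon
    push Not at hcon
    apply hP0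
    rw [← hw'', show w 0 = 0 from by simpa using hcon 0 (by norm_num),
      show w 1 = 0 from by simpa using hcon 1 (by norm_num)]
    simp)
  rw [hpq] at hdeg
  have hPd : P.natDegree ≤ 2 := by
    rw [hP]
    compute_degree
  have d0 : (w 0).natDegree ≤ 1 := by
    have := hle 0 (by norm_num)
    simp only [if_true] at this
    omega
  have d1 : (w 1).natDegree ≤ 1 := by
    have := hle 1 (by norm_num)
    simp only [one_ne_zero, if_false] at this
    omega
  have e0 := eq_X_add_C_of_natDegree_le_one d0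
  have e1 := eq_X_add_C_of_natDegree_le_one d1
  have hP2 : P = C (A * dl) * X ^ 2 + C (0 : K) * X ^ 1 + C (η ^ 2) := by
    rw [hP, C_0]
    ring
  have c0 := congrArg (fun g => coeff g 0) hw''
  have c1 := congrArg (fun g => coeff g 1) hw''
  have c2 := congrArg (fun g => coeff g 2) hw''
  rw [e0, e1, hP2] at c0 c1 c2
  set α1 := (w 0).coeff 1
  set α0 := (w 0).coeff 0
  set β1 := (w 1).coeff 1
  set β0 := (w 1).coeff 0
  have e2 : (C α1 * X + C α0) ^ 2 + C A * (C β1 * X + C β0) ^ 2 =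
      C (α1 ^ 2 + A * β1 ^ 2) * X ^ 2 + C (2 * (α0 * α1 + A * (β0 * β1))) * X ^ 1 +
        C (α0 ^ 2 + A * β0 ^ 2) := by
    simp only [C_mul, C_pow, C_ofNat, C_add]
    ring
  rw [e2] at c0 c1 c2
  simp only [coeff_add, coeff_C_mul, coeff_X_pow, coeff_C] at c0 c1 c2
  norm_num at c0 c1 c2
  have c1' : α0 * α1 + A * (β0 * β1) = 0 := by
    rcases c1 with c1 | c1
    · exact absurd c1 h2
    · exact c1
  refine ⟨(α0 * β1 - α1 * β0) / η, ?_⟩
  have h6 : A * (α0 * β1 - α1 * β0) ^ 2 = A * (dl * η ^ 2) := by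
    linear_combination (α1 ^ 2 + A * β1 ^ 2) * c0 + η ^ 2 * c2 - (α0 * α1 + A * (β0 * β1)) * c1'
  have h7 := mul_left_cancel₀ hA h6
  rw [div_pow, h7]
  field_simp

/-- splitting of the form -/
theorem pq_split4 {R : Type*} [CommRing R] (b : ℕ → R) {i s : ℕ} (h : 2 ^ i = s + 3) (g : ℕ → R) :
    pq b i g = g 0 ^ 2 + pc b i 1 * g 1 ^ 2 + ∑ j : Fin s, pc b i (j + 2) * g (j + 2) ^ 2 +
      pc b i (s + 2) * g (s + 2) ^ 2 := by
  unfold pq
  rw [h, sum_range_succ, sum_range_succ', sum_range_succ', Finset.sum_range, pc_zero]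
  ring

theorem an_iff {K : Type*} [Field K] (a : ℕ → K) (i : ℕ) :
    An a i ↔ ∀ v : Fin (2 ^ i) → K, ∑ m : Fin (2 ^ i), pc a i m * v m ^ 2 = 0 → v = 0 := by
  constructor
  · intro h v hv
    funext m
    have := h (fun n => if h : n < 2 ^ i then v ⟨n, h⟩ else 0) (by
      rw [pq_fin a rfl, ← hv]
      refine sum_congr rfl fun m _ => ?_
      rw [dif_pos m.2]) m m.2
    beta_reduce at this
    rw [dif_pos m.2] at this
    exact this
  · intro h z hz m hm
    have := congrFun (h (fun m => z m) (by rw [← pq_fin a rfl, hz])) ⟨m, hm⟩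
    exact this

theorem an_ratFunc {K : Type*} [Field K] {a : ℕ → K} {i : ℕ} (h : An a i) :
    An (fun j => RatFunc.C (a j)) i := by
  rw [an_iff] at h ⊢
  intro v hv
  refine aniso_ratFunc _ h v ?_
  rw [← hv]
  refine sum_congr rfl fun m _ => ?_
  rw [pc_map (RatFunc.C : K →+* RatFunc K) a]

theorem an_lift_ff {K : Type} [Field K] {a : ℕ → K} {i : ℕ} (h : An a i) (s : ℕ) :
    An (fun j => algebraMap K (FF K s) (a j)) i := by
  rw [an_iff] at h ⊢
  intro v hv
  refine an_ff _ h s v ?_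
  rw [← hv]
  refine sum_congr rfl fun m _ => ?_
  rw [pc_map (algebraMap K (FF K s)) a]

theorem pc_congr {R : Type*} [CommRing R] (b c : ℕ → R) (i : ℕ) (h : ∀ j < i, b j = c j) (m : ℕ) :
    pc b i m = pc c i m := by
  induction i generalizing m with
  | zero => rfl
  | succ i' ih =>
    rw [pc, pc, ih (fun j hj => h j (by omega)), ih (fun j hj => h j (by omega)), h i' (by omega)]

end Pool.Agent.H901
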