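import Pool.Agent.H901.ASM

/-!
Unirationality.
-/

set_option autoImplicit false

namespace Pool.Agent.H901

open Polynomial Finset Pool.Agent.H918R3

section

variable {k : Type} [Field k] {τ : Type}

/-- a homomorphism from the function field of `u₀² = d` -/
theorem hq_hom (d : MvPolynomial τ k)
    (hd : ¬ IsSquare (algebraMap (MvPolynomial τ k) (FractionRing (MvPolynomial τ k)) d))
    {L : Type} [Field L] [Algebra k L] (ε : MvPolynomial τ k →ₐ[k] L) (y : L) (hy : y ^ 2 = ε d)
    (hind : ∀ α β, ε α + ε β * y = 0 → α = 0 ∧ β = 0) :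
    Nonempty (FractionRing (HQ d) →ₐ[k] L) := by
  obtain ⟨-, hdom, j, y1, hy1, hj, -, -, hspan⟩ := hyp d hd
  set φ0 : MvPolynomial (Option τ) k →ₐ[k] L :=
    MvPolynomial.aeval (fun o => o.elim y (fun t => ε (MvPolynomial.X t))) with hφ0
  have h1 : ∀ f, φ0 (MvPolynomial.rename some f) = ε f := by
    intro f
    rw [hφ0, MvPolynomial.aeval_rename]
    have : (MvPolynomial.aeval ((fun o : Option τ => o.elim y (fun t => ε (MvPolynomial.X t))) ∘
      some)) = ε := by
      apply MvPolynomial.algHom_ext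
      intro t
      rw [MvPolynomial.aeval_X]
      rfl
    rw [this]
  have h3 : φ0 (MvPolynomial.X none) = y := by
    rw [hφ0, MvPolynomial.aeval_X]
    rfl
  have h4 : φ0 (hG d) = 0 := by
    unfold hG
    rw [map_sub, map_pow, h3, h1, hy, sub_self]
  let φ : HQ d →ₐ[k] L := Ideal.Quotient.liftₐ (Ideal.span {hG d}) φ0 (by
    intro a ha
    rw [Ideal.mem_span_singleton] at ha
    obtain ⟨b, rfl⟩ := ha
    rw [map_mul, h4, zero_mul])
  let ρ : MvPolynomial τ k →+* HQ d := (Ideal.Quotient.mk (Ideal.span {hG d})).comp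
    (MvPolynomial.rename some : MvPolynomial τ k →ₐ[k] MvPolynomial (Option τ) k).toRingHom
  let y0 : HQ d := Ideal.Quotient.mk (Ideal.span {hG d}) (MvPolynomial.X none)
  have hφρ : ∀ f, φ (ρ f) = ε f := h1
  have hφy : φ y0 = y := h3
  have hjρ : ∀ f, j (algebraMap _ _ f) = algebraMap (HQ d) (FractionRing (HQ d)) (ρ f) := hj
  have hy1' : y1 = algebraMap (HQ d) (FractionRing (HQ d)) y0 := hy1
  have hinj : Function.Injective φ := by
    rw [injective_iff_map_eq_zero]
    intro z hz
    obtain ⟨a', b', hab⟩ := hspan (algebraMap (HQ d) (FractionRing (HQ d)) z)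
    obtain ⟨α, c1, hc1, rfl⟩ := IsFractionRing.div_surjective (A := MvPolynomial τ k) a'
    obtain ⟨β, c2, hc2, rfl⟩ := IsFractionRing.div_surjective (A := MvPolynomial τ k) b'
    have hc1' : c1 ≠ 0 := nonZeroDivisors.ne_zero hc1
    have hc2' : c2 ≠ 0 := nonZeroDivisors.ne_zero hc2
    have hinjB : Function.Injective (algebraMap (MvPolynomial τ k)
      (FractionRing (MvPolynomial τ k))) := IsFractionRing.injective _ _
    have e1 : ρ (c1 * c2) * z = ρ (α * c2) + ρ (β * c1) * y0 := by
      apply IsFractionRing.injective (HQ d) (FractionRing (HQ d))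
      rw [RingHom.map_mul (algebraMap (HQ d) (FractionRing (HQ d))),
        RingHom.map_add (algebraMap (HQ d) (FractionRing (HQ d))),
        RingHom.map_mul (algebraMap (HQ d) (FractionRing (HQ d))), ← hjρ, ← hjρ, ← hjρ, ← hy1',
        hab, mul_add, ← mul_assoc, ← map_mul j, ← map_mul j]
      congr 3
      · rw [map_mul, map_mul]
        have : algebraMap (MvPolynomial τ k) (FractionRing (MvPolynomial τ k)) c1 ≠ 0 := by
          rw [Ne, map_eq_zero_iff _ hinjB]
          exact hc1'
        field_simp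
      · rw [map_mul, map_mul]
        have : algebraMap (MvPolynomial τ k) (FractionRing (MvPolynomial τ k)) c2 ≠ 0 := by
          rw [Ne, map_eq_zero_iff _ hinjB]
          exact hc2'
        field_simp
    have e2 := congrArg φ e1
    rw [map_mul φ, hz, mul_zero, map_add φ, map_mul φ, hφρ, hφρ, hφy] at e2
    obtain ⟨e3, e4⟩ := hind _ _ e2.symm
    have e5 : α = 0 := by
      rcases mul_eq_zero.1 e3 with h | h
      · exact h
      · exact absurd h hc2'
    have e6 : β = 0 := by
      rcases mul_eq_zero.1 e4 with h | h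
      · exact h
      · exact absurd h hc1'
    apply IsFractionRing.injective (HQ d) (FractionRing (HQ d))
    rw [hab, e5, e6, map_zero, map_zero, zero_div, zero_div, map_zero, zero_mul, add_zero]
  exact ⟨IsFractionRing.liftAlgHom hinj⟩

/-- the function field with its generators -/
theorem hq_pack (d : MvPolynomial τ k)
    (hd : ¬ IsSquare (algebraMap (MvPolynomial τ k) (FractionRing (MvPolynomial τ k)) d))
    [IsDomain (HQ d)] :
    ∃ (j : FractionRing (MvPolynomial τ k) →ₐ[k] FractionRing (HQ d)) (y : FractionRing (HQ d)),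
      y ^ 2 = j (algebraMap _ _ d) ∧
      (∀ a b, j a + j b * y = 0 → a = 0 ∧ b = 0) ∧ (∀ z, ∃ a b, z = j a + j b * y) ∧
      (∀ T : IntermediateField k (FractionRing (HQ d)),
        (∀ f : MvPolynomial τ k, j (algebraMap _ _ f) ∈ T) → y ∈ T → T = ⊤) := by
  obtain ⟨-, -, j, y, -, -, hy2, hind, hspan⟩ := hyp d hd
  refine ⟨j, y, hy2, hind, hspan, fun T hT hy => ?_⟩
  rw [eq_top_iff]
  intro z _
  obtain ⟨a, b, rfl⟩ := hspan z
  have h1 : ∀ a, j a ∈ T := by
    intro a
    obtain ⟨r, s, hs, rfl⟩ := IsFractionRing.div_surjective (A := MvPolynomial τ k) a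
    rw [map_div₀]
    exact T.div_mem (hT r) (hT s)
  exact T.add_mem (h1 a) (T.mul_mem (h1 b) hy)

end

section

variable {k : Type} [Field k] {n i : ℕ}

/-- squaring the variables `x_j` -/
noncomputable def sqx (k : Type) [Field k] (n : ℕ) :
    MvPolynomial (Fin n) k →ₐ[k] MvPolynomial (Fin n) k :=
  MvPolynomial.aeval (fun l => MvPolynomial.X l ^ 2)

/-- squaring the variables `x_j` -/
noncomputable def sq0 (k : Type) [Field k] (n i : ℕ) :
    MvPolynomial (V0 n i) k →ₐ[k] MvPolynomial (V0 n i) k :=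
  MvPolynomial.aeval (Sum.elim (fun l => MvPolynomial.X (Sum.inl l) ^ 2)
    (fun m => MvPolynomial.X (Sum.inr m)))

/-- squaring the variables `x_j` -/
noncomputable def sq1 (k : Type) [Field k] (n i : ℕ) :
    MvPolynomial (V1 n i) k →ₐ[k] MvPolynomial (V1 n i) k :=
  MvPolynomial.aeval (Sum.elim (Sum.elim (fun l => MvPolynomial.X (Sum.inl (Sum.inl l)) ^ 2)
    (fun m => MvPolynomial.X (Sum.inl (Sum.inr m)))) (fun m => MvPolynomial.X (Sum.inr m)))

theorem sq_inj {σ : Type} (e : σ → ℕ) (he : ∀ s, 0 < e s) : Function.Injective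
    (MvPolynomial.aeval (R := k) (fun s => (MvPolynomial.X s : MvPolynomial σ k) ^ e s)) := by
  have h := (MvPolynomial.algebraicIndependent_X σ k).polynomial_aeval_of_transcendental
    (f := fun s => (X : k[X]) ^ e s) (fun s => (Polynomial.transcendental_X k).pow (he s))
  have e1 : (fun s => (Polynomial.aeval (MvPolynomial.X s : MvPolynomial σ k)) ((X : k[X]) ^ e s)) =
      fun s => (MvPolynomial.X s : MvPolynomial σ k) ^ e s := by
    funext s
    rw [map_pow, aeval_X]
  rw [e1] at h
  exact h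

theorem sqx_injective : Function.Injective (sqx k n) :=
  sq_inj (fun _ => 2) (fun _ => by norm_num)

theorem sq1_injective : Function.Injective (sq1 k n i) := by
  have h := sq_inj (k := k) (σ := V1 n i) (Sum.elim (Sum.elim (fun _ => 2) (fun _ => 1))
    (fun _ => 1)) (by
      rintro ((l | m) | m)
      · simp
      · simp
      · simp)
  have e : (MvPolynomial.aeval (R := k) (fun s => (MvPolynomial.X s : MvPolynomial (V1 n i) k) ^
      (Sum.elim (Sum.elim (fun _ => 2) (fun _ => 1)) (fun _ => 1) : V1 n i → ℕ) s)) =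
      sq1 k n i := by
    apply MvPolynomial.algHom_ext
    rintro ((l | m) | m) <;> simp [sq1]
  rw [e] at h
  exact h

theorem sq0_inl (f : MvPolynomial (Fin n) k) :
    sq0 k n i (MvPolynomial.rename Sum.inl f) = MvPolynomial.rename Sum.inl (sqx k n f) := by
  have h : (sq0 k n i).comp (MvPolynomial.rename Sum.inl) =
      (MvPolynomial.rename Sum.inl).comp (sqx k n) := by
    apply MvPolynomial.algHom_ext
    intro l
    simp [sq0, sqx]
  exact congrArg (fun φ => φ f) h

theorem sq1_inl (f : MvPolynomial (V0 n i) k) :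
    sq1 k n i (MvPolynomial.rename Sum.inl f) = MvPolynomial.rename Sum.inl (sq0 k n i f) := by
  have h : (sq1 k n i).comp (MvPolynomial.rename Sum.inl) =
      (MvPolynomial.rename Sum.inl).comp (sq0 k n i) := by
    apply MvPolynomial.algHom_ext
    rintro (l | m) <;> simp [sq0, sq1]
  exact congrArg (fun φ => φ f) h

theorem sq0_ea (a : ℕ → MvPolynomial (Fin n) k) (j : ℕ) :
    sq0 k n i (ea i a j) = ea i (fun j => sqx k n (a j)) j := by
  unfold ea
  split_ifs with h
  · exact sq0_inl _
  · simp [sq0]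

theorem sq0_ev (m : ℕ) : sq0 k n i (ev k n i m) = ev k n i m := by
  unfold ev
  split_ifs with h
  · simp [sq0]
  · exact map_zero _

theorem sq0_eD (a : ℕ → MvPolynomial (Fin n) k) :
    sq0 k n i (eD i a) = eD i (fun j => sqx k n (a j)) := by
  have h := DD_map (sq0 k n i : MvPolynomial (V0 n i) k →+* MvPolynomial (V0 n i) k) (ea i a) i
    (ev k n i)
  refine h.symm.trans ?_
  unfold eD
  have e1 : (fun j => (sq0 k n i : MvPolynomial (V0 n i) k →+* MvPolynomial (V0 n i) k)
      (ea i a j)) = ea i (fun j => sqx k n (a j)) := by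
    funext j
    exact sq0_ea a j
  have e2 : (fun m => (sq0 k n i : MvPolynomial (V0 n i) k →+* MvPolynomial (V0 n i) k)
      (ev k n i m)) = ev k n i := by
    funext m
    exact sq0_ev m
  rw [e1, e2]

theorem sq0_atD (a : ℕ → MvPolynomial (Fin n) k) (f : (MvPolynomial (Fin n) k)[X]) :
    sq0 k n i (atD i a f) =
      atD i (fun j => sqx k n (a j)) (f.map (sqx k n : MvPolynomial (Fin n) k →+* _)) := by
  unfold atD
  have h := hom_eval₂ f (MvPolynomial.rename Sum.inl : MvPolynomial (Fin n) k →ₐ[k]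
    MvPolynomial (V0 n i) k).toRingHom
    (sq0 k n i : MvPolynomial (V0 n i) k →+* MvPolynomial (V0 n i) k) (eD i a)
  refine h.trans ?_
  rw [eval₂_map]
  have e1 : ((sq0 k n i : MvPolynomial (V0 n i) k →+* MvPolynomial (V0 n i) k).comp
      (MvPolynomial.rename Sum.inl : MvPolynomial (Fin n) k →ₐ[k]
        MvPolynomial (V0 n i) k).toRingHom) =
      ((MvPolynomial.rename Sum.inl : MvPolynomial (Fin n) k →ₐ[k]
        MvPolynomial (V0 n i) k) : MvPolynomial (Fin n) k →+* MvPolynomial (V0 n i) k).comp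
        (sqx k n : MvPolynomial (Fin n) k →+* MvPolynomial (Fin n) k) := by
    apply RingHom.ext
    intro x
    exact sq0_inl x
  have e2 : (sq0 k n i : MvPolynomial (V0 n i) k →+* MvPolynomial (V0 n i) k) (eD i a) =
      eD i (fun j => sqx k n (a j)) := sq0_eD a
  rw [e1, e2]

theorem sq0_eP (a : ℕ → MvPolynomial (Fin n) k) (p0 p1 : (MvPolynomial (Fin n) k)[X]) :
    sq0 k n i (eP i a p0 p1) = eP i (fun j => sqx k n (a j))
      (p0.map (sqx k n : MvPolynomial (Fin n) k →+* _))
      (p1.map (sqx k n : MvPolynomial (Fin n) k →+* _)) := by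
  unfold eP
  rw [map_sub, map_pow, map_mul, map_pow, sq0_atD, sq0_atD, sq0_eD]

theorem sq1_ed (a : ℕ → MvPolynomial (Fin n) k) (p0 p1 : (MvPolynomial (Fin n) k)[X]) :
    sq1 k n i (ed i a p0 p1) = ed i (fun j => sqx k n (a j))
      (p0.map (sqx k n : MvPolynomial (Fin n) k →+* _))
      (p1.map (sqx k n : MvPolynomial (Fin n) k →+* _)) := by
  unfold ed
  rw [map_sub, sq1_inl, map_mul, sq0_ea, sq0_eP, map_sum]
  congr 1
  refine sum_congr rfl fun m _ => ?_
  rw [map_mul, map_pow]
  congr 1
  · have h := pc_map (sq1 k n i : MvPolynomial (V1 n i) k →+* MvPolynomial (V1 n i) k)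
      (fun j => MvPolynomial.rename Sum.inl (ea i a j)) i m
    refine h.symm.trans ?_
    congr 1
    funext j
    show sq1 k n i _ = _
    rw [sq1_inl, sq0_ea]
  · congr 1
    unfold eu
    split_ifs
    · simp [sq1]
    · exact map_zero _

end

end Pool.Agent.H901
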